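import Pool.Agent.NR.Transfer
import Pool.Agent.H27.SY.Main

/-!
# NR-23: the lower bound for all closed covers
-/

set_option autoImplicit false

open MeasureTheory Metric Set Filter Module
open scoped Topology MeasureTheory RealInnerProductSpace Nat Pointwise NNReal

namespace NR

open SP SP.Mea SX SY

theorem low_hp_closed (k : ℕ) : IsClosed (Hp k) := by
  unfold Hp
  exact isClosed_eq (by fun_prop) continuous_const

/-- the estimate for fixed `η` and `β` -/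
theorem low_eta' {m d : ℕ} (hm : 1 ≤ m) (hd : 1 ≤ d) {v : ℝ} (hv0 : 0 < v)
    (hv : ∀ w : Fin d → V (d + m + 1), Fr w →
      volume (cw w '' D0 (d + m + 1)) ≤ ENNReal.ofReal v) :
    ∃ C : ℝ, ∀ A : Fin (d + m + 1) → Set (V (d + m + 1)), Adm0 (d + m + 1) A → ∀ L : ℝ,
    HasContent (d + m + 1) m (meet (d + m + 1) A (d + 1)) L →
    ∃ β0 > 0, β0 ≤ 1 / 2 ∧ ∀ β, 0 < β → β < β0 → ∀ η : ℝ, 0 < η → η ≤ 1 / 2 →
    Real.sqrt ((d : ℝ) + m + 1) / (m ! : ℝ) ≤
      (d ! : ℝ) * v * (1 + 2 * Real.sqrt η) ^ m *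
        (1 + 4 * m * ((d : ℝ) + m + 1) * Real.sqrt η) ^ d * (L / (1 - β) ^ m + η) + C * η := by
  obtain ⟨C1, hC1, hmod⟩ := modify_V (m := m) (d := d) hm hd
  obtain ⟨C2, hC2, hball⟩ := ball_cost m d hd
  refine ⟨(d ! : ℝ) * C2 * C1, ?_⟩
  intro A hA L hL
  obtain ⟨β0, hβ0, hβ1, hmod'⟩ := hmod A hA L hL
  refine ⟨β0, hβ0, hβ1, ?_⟩
  intro β hβ hββ η hη hη2
  obtain ⟨n, K, w, hw, hKc, hKS, hKd, hKf, A', hA', ι0, hι0, q, ρ, hqH, hρ, hsum, hts, hcov'⟩ :=
    hmod' β hβ hββ η hη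
  obtain ⟨hSc0, hSx0⟩ := meet_compact hA (d + 1) (by omega)
  have hSH0 : meet (d + m + 1) A (d + 1) ⊆ Hp (d + m + 1) := fun x hx => (hSx0 hx).2
  have hL' := content_scale hd hSH0 hβ (by linarith) hL
  set S0 : Set (V (d + m + 1)) := {x | cs β x ∈ meet (d + m + 1) A (d + 1)} with hS0
  have hβp : 0 < 1 - β := by linarith
  have hS0H : S0 ⊆ Hp (d + m + 1) := by
    intro x hx
    have h := hSH0 hx
    simp only [Hp, mem_ofPred_eq, cs, cen, PiLp.add_apply, PiLp.smul_apply, PiLp.sub_apply,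
      smul_eq_mul, Finset.sum_add_distrib, Finset.sum_const, Finset.card_univ, Fintype.card_fin,
      nsmul_eq_mul, ← Finset.mul_sum, Finset.sum_sub_distrib] at h ⊢
    have h1 : ((d + m + 1 : ℕ) : ℝ) * (1 / ((d + m + 1 : ℕ) : ℝ)) = 1 := by
      field_simp
    rw [h1] at h
    have h2 : (1 - β) * (∑ i, x i - 1) = 0 := by linarith
    rcases mul_eq_zero.1 h2 with h3 | h3
    · linarith
    · linarith
  have hS0b : Bornology.IsBounded S0 := by
    obtain ⟨R, hR⟩ := hSc0.isBounded.subset_closedBall (cen (d + m + 1))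
    refine (isBounded_iff_subset_closedBall (cen (d + m + 1))).2 ⟨R / (1 - β), ?_⟩
    intro x hx
    have h := mem_closedBall.1 (hR hx)
    rw [dist_eq_norm, cs, add_sub_cancel_left, norm_smul, Real.norm_eq_abs, abs_of_pos hβp] at h
    rw [mem_closedBall, dist_eq_norm, le_div_iff₀ hβp, mul_comm]
    exact h
  obtain ⟨hSc, hSx⟩ := meet_compact hA' (d + 1) (by omega)
  set S := meet (d + m + 1) A' (d + 1) with hS
  have hcp := content_proj hd hS0H hS0b hL' K (fun i => w i) (fun i => hw i) hKc hKS hKd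
  have hθ : 0 < η / (n + 1) := by positivity
  have hcub : ∀ i : Fin n, ∃ (r : ℝ) (T : Finset (V (d + m + 1))), 0 < r ∧ r < η / (n + 1) ∧
      (∀ p ∈ T, p ∈ Hp (d + m + 1)) ∧
      K i ⊆ ⋃ p ∈ T, TCo (w i) p r (4 * m * η * r) ∧
      (T.card : ℝ) * r ^ m ≤ (volume (cw (w i) '' K i)).toReal + η / (n + 1) := fun i =>
    cubes hm (w i) (hw i) (hKc i) ((hKS i).trans hS0H) hη hη2 (hKf i) hθ
  choose r T hr hrθ hTH hKT hTc using hcub
  -- the part not covered by cubes is compact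
  set O : Set (V (d + m + 1)) := ⋃ i, ⋃ p ∈ T i, TCo (w i) p (r i) (4 * m * η * r i) with hO
  have hOo : IsOpen O := isOpen_iUnion fun i => isOpen_biUnion fun p _ => low_TCo_open _ _ _ _
  have hcomp : IsCompact (S \ O) := hSc.diff hOo
  have hsub : S \ O ⊆ ⋃ j, ball (q j) (ρ j) := by
    rintro x ⟨hx, hxO⟩
    rcases hcov' hx with h | h
    · exfalso
      apply hxO
      obtain ⟨i, hi⟩ := mem_iUnion.1 h
      exact mem_iUnion.2 ⟨i, hKT i hi⟩
    · exact h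
  obtain ⟨F, hF⟩ := hcomp.elim_finite_subcover _ (fun j => isOpen_ball) hsub
  let ι := (Σ i : Fin n, T i) ⊕ F
  let KK : ι → Set (V (d + m + 1)) := Sum.elim
    (fun z => TCo (w z.1) z.2.1 (r z.1) (4 * m * η * r z.1)) (fun j => ball (q j) (ρ j))
  let ee : ι → ℝ := Sum.elim (fun z => Real.sqrt η * r z.1) (fun j => ρ j)
  have hsη : 0 < Real.sqrt η := Real.sqrt_pos.2 hη
  have h1 : ∀ i, IsOpen (KK i) := by
    rintro (z | j)
    · exact low_TCo_open _ _ _ _
    · exact isOpen_ball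
  have h2 : ∀ i, Bornology.IsBounded (KK i) := by
    rintro (z | j)
    · exact low_TCo_bdd _ _ _ _ (hw _)
    · exact isBounded_ball
  have h3 : meet (d + m + 1) A' (d + 1) ⊆ ⋃ i, KK i := by
    intro x hx
    by_cases hxO : x ∈ O
    · obtain ⟨i, hi⟩ := mem_iUnion.1 hxO
      obtain ⟨p, hp⟩ := mem_iUnion.1 hi
      obtain ⟨hp1, hp2⟩ := mem_iUnion.1 hp
      exact mem_iUnion.2 ⟨Sum.inl ⟨i, ⟨p, hp1⟩⟩, hp2⟩
    · have := hF ⟨hx, hxO⟩
      obtain ⟨j, hj⟩ := mem_iUnion.1 this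
      obtain ⟨hj1, hj2⟩ := mem_iUnion.1 hj
      exact mem_iUnion.2 ⟨Sum.inr ⟨j, hj1⟩, hj2⟩
  have h4 : ∀ i, 0 < ee i := by
    rintro (z | j)
    · exact mul_pos hsη (hr _)
    · exact hρ _
  have hmain := cov hd hA' KK h1 h2 h3 ee h4
  refine hmain.trans ?_
  rw [Fintype.sum_sum_type]
  refine add_le_add ?_ ?_
  · set c : ℝ := (d ! : ℝ) * v * (1 + 2 * Real.sqrt η) ^ m *
      (1 + 4 * m * ((d : ℝ) + m + 1) * Real.sqrt η) ^ d with hc
    have hc0 : 0 ≤ c := by positivity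
    calc ∑ z : (Σ i : Fin n, T i), (d ! : ℝ) * (μHE[d + m] (closure (KK (Sum.inl z) ∩
          Hp (d + m + 1)) + ee (Sum.inl z) • D0 (d + m + 1))).toReal / ee (Sum.inl z) ^ d
        ≤ ∑ z : (Σ i : Fin n, T i), c * r z.1 ^ m :=
          Finset.sum_le_sum fun z _ => SY.low_cube hd hv0 hv (w z.1) (hw _) z.2.1
            (hTH _ _ z.2.2) (hr _) hη
      _ = ∑ i : Fin n, c * ((T i).card * r i ^ m) := by
          rw [Fintype.sum_sigma]
          refine Finset.sum_congr rfl fun i _ => ?_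
          simp only [Finset.sum_const, Finset.card_univ, Fintype.card_coe, nsmul_eq_mul]
          ring
      _ ≤ ∑ i : Fin n, c * ((volume (cw (w i) '' K i)).toReal + η / (n + 1)) :=
          Finset.sum_le_sum fun i _ => mul_le_mul_of_nonneg_left (hTc i) hc0
      _ = c * (∑ i : Fin n, (volume (cw (w i) '' K i)).toReal + n * (η / (n + 1))) := by
          rw [← Finset.mul_sum, Finset.sum_add_distrib]
          simp
      _ ≤ c * (L / (1 - β) ^ m + η) := by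
          refine mul_le_mul_of_nonneg_left (add_le_add hcp ?_) hc0
          rw [mul_div_assoc', div_le_iff₀ (by positivity)]
          nlinarith
  · calc ∑ j : F, (d ! : ℝ) * (μHE[d + m] (closure (KK (Sum.inr j) ∩ Hp (d + m + 1)) +
          ee (Sum.inr j) • D0 (d + m + 1))).toReal / ee (Sum.inr j) ^ d
        ≤ ∑ j : F, (d ! : ℝ) * C2 * ρ j ^ m := by
          refine Finset.sum_le_sum fun j _ => ?_
          have hj := hρ j
          have h5 := ENNReal.toReal_le_of_le_ofReal (by positivity) (hball (q j) (hqH j) (ρ j) hj)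
          change (d ! : ℝ) * (μHE[d + m] (closure (ball (q j) (ρ j) ∩ Hp (d + m + 1)) +
            ρ j • D0 (d + m + 1))).toReal / ρ j ^ d ≤ _
          rw [div_le_iff₀ (by positivity)]
          calc (d ! : ℝ) * (μHE[d + m] (closure (ball (q j) (ρ j) ∩ Hp (d + m + 1)) +
            ρ j • D0 (d + m + 1))).toReal ≤ (d ! : ℝ) * (C2 * ρ j ^ (d + m)) := by gcongr
            _ = _ := by rw [pow_add]; ring
      _ = (d ! : ℝ) * C2 * ∑ j ∈ F, ρ j ^ m := by
          rw [← Finset.mul_sum, Finset.sum_coe_sort F (fun j => ρ j ^ m)]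
      _ ≤ (d ! : ℝ) * C2 * (C1 * η) := by
          refine mul_le_mul_of_nonneg_left ?_ (by positivity)
          exact (hsum.sum_le_tsum F fun j _ => by have := hρ j; positivity).trans hts
      _ = (d ! : ℝ) * C2 * C1 * η := by ring

/-- the lower bound for all closed covers, with a bound for the projections of the simplex -/
theorem lower_V {m d : ℕ} (hm : 1 ≤ m) (hd : 1 ≤ d) {v : ℝ} (hv0 : 0 < v)
    (hv : ∀ w : Fin d → SP.V (d + m + 1), SX.Fr w →
      volume (SX.cw w '' SX.D0 (d + m + 1)) ≤ ENNReal.ofReal v)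
    {A : Fin (d + m + 1) → Set (SP.V (d + m + 1))} (hA : SP.Adm0 (d + m + 1) A) {L : ℝ}
    (hL : SP.HasContent (d + m + 1) m (SP.meet (d + m + 1) A (d + 1)) L) :
    Real.sqrt ((d : ℝ) + m + 1) / ((m ! : ℝ) * ((d ! : ℝ) * v)) ≤ L := by
  obtain ⟨C, hC⟩ := low_eta' hm hd hv0 hv
  obtain ⟨β0, hβ0, hβ1, h1⟩ := hC A hA L hL
  have h2 : ∀ β, 0 < β → β < β0 →
      Real.sqrt ((d : ℝ) + m + 1) / (m ! : ℝ) ≤ (d ! : ℝ) * v * (L / (1 - β) ^ m) := by
    intro β hβ hββ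
    have h2 : Tendsto (fun η : ℝ => (d ! : ℝ) * v * (1 + 2 * Real.sqrt η) ^ m *
        (1 + 4 * m * ((d : ℝ) + m + 1) * Real.sqrt η) ^ d * (L / (1 - β) ^ m + η) + C * η)
        (𝓝[>] 0) (𝓝 ((d ! : ℝ) * v * (1 + 2 * Real.sqrt 0) ^ m *
        (1 + 4 * m * ((d : ℝ) + m + 1) * Real.sqrt 0) ^ d * (L / (1 - β) ^ m + 0) + C * 0)) := by
      refine (Continuous.tendsto ?_ _).mono_left nhdsWithin_le_nhds
      fun_prop
    simp only [Real.sqrt_zero, mul_zero, add_zero, one_pow, mul_one] at h2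
    refine ge_of_tendsto h2 ?_
    have h4 : ∀ᶠ η : ℝ in 𝓝[>] 0, 0 < η ∧ η ≤ 1 / 2 := by
      filter_upwards [self_mem_nhdsWithin,
        mem_nhdsWithin_of_mem_nhds (Iic_mem_nhds (show (0 : ℝ) < 1 / 2 by norm_num))] with δ h h'
      exact ⟨h, h'⟩
    filter_upwards [h4] with η hη
    exact h1 β hβ hββ η hη.1 hη.2
  have h3 : Real.sqrt ((d : ℝ) + m + 1) / (m ! : ℝ) ≤ (d ! : ℝ) * v * L := by
    have h5 : Tendsto (fun β : ℝ => (d ! : ℝ) * v * (L / (1 - β) ^ m)) (𝓝[>] 0)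
        (𝓝 ((d ! : ℝ) * v * (L / (1 - 0) ^ m))) := by
      have h6 : Tendsto (fun β : ℝ => (1 - β) ^ m) (𝓝[>] 0) (𝓝 ((1 - 0) ^ m)) :=
        (Continuous.tendsto (by fun_prop) _).mono_left nhdsWithin_le_nhds
      exact (tendsto_const_nhds.div h6 (by simp)).const_mul _
    simp only [sub_zero, one_pow, div_one] at h5
    refine ge_of_tendsto h5 ?_
    filter_upwards [Ioo_mem_nhdsGT hβ0] with β hβ
    exact h2 β hβ.1 hβ.2
  have h5 : (0 : ℝ) < (m ! : ℝ) := by exact_mod_cast Nat.factorial_pos m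
  have h6 : (0 : ℝ) < (d ! : ℝ) := by exact_mod_cast Nat.factorial_pos d
  rw [div_le_iff₀ h5] at h3
  rw [div_le_iff₀ (by positivity)]
  linarith

/-- the lower bound for all closed covers -/
theorem lower {m d : ℕ} (hm : 1 ≤ m) (hd : 1 ≤ d)
    {A : Fin (d + m + 1) → Set (SP.V (d + m + 1))} (hA : SP.Adm0 (d + m + 1) A) {L : ℝ}
    (hL : SP.HasContent (d + m + 1) m (SP.meet (d + m + 1) A (d + 1)) L) :
    Real.sqrt ((d : ℝ) + m + 1) / ((m ! : ℝ) * Real.sqrt (2 ^ d)) ≤ L := by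
  have h := lower_V (v := Real.sqrt (2 ^ d) / (d ! : ℝ)) hm hd (by positivity)
    (fun w hw => proj_vol (by omega) hd w hw) hA hL
  have h1 : (d ! : ℝ) * (Real.sqrt (2 ^ d) / (d ! : ℝ)) = Real.sqrt (2 ^ d) := by
    field_simp
  rwa [h1] at h

end NR
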