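import Pool.Agent.NR.Defs

/-!
# Project NR, row NR-8: densities
-/

set_option autoImplicit false

open MeasureTheory Metric Set Filter Module
open scoped Topology MeasureTheory RealInnerProductSpace Nat Pointwise NNReal ENNReal

namespace NR

private theorem aeDens_vol {m : ℕ} (y : Fin m → ℝ) {r : ℝ} (hr : 0 ≤ r) :
    volume (closedBall y r) = ENNReal.ofReal ((2 * r) ^ m) := by
  rw [Real.volume_pi_closedBall y hr, Fintype.card_fin]

theorem ae_dens {m d : ℕ} {S : Set ((Fin m → ℝ) × (Fin d → ℝ))} (hS : IsCompact S)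
    (h : μH[m] S < ⊤) : ∀ᵐ y : Fin m → ℝ, ∃ Λ : ℝ, 0 ≤ Λ ∧ ∀ r, 0 < r → r ≤ 1 →
      μH[m] (S ∩ closedBall y r ×ˢ univ) ≤ ENNReal.ofReal (Λ * r ^ m) := by
  set M : Measure (Fin m → ℝ) :=
    Measure.map Prod.fst ((μH[m] : Measure ((Fin m → ℝ) × (Fin d → ℝ))).restrict S) with hM
  have hMu : ∀ B : Set (Fin m → ℝ), MeasurableSet B → M B = μH[m] (S ∩ B ×ˢ univ) := by
    intro B hB
    rw [hM, Measure.map_apply measurable_fst hB, Measure.restrict_apply (measurable_fst hB)]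
    congr 1
    ext z
    simp [and_comm]
  have hfin : M univ < ⊤ := by
    rw [hMu univ MeasurableSet.univ]
    exact (measure_mono inter_subset_left).trans_lt h
  have : IsFiniteMeasure M := ⟨hfin⟩
  filter_upwards [Besicovitch.ae_tendsto_rnDeriv M (volume : Measure (Fin m → ℝ)),
    Measure.rnDeriv_lt_top M (volume : Measure (Fin m → ℝ))] with y hy hL
  set L : ℝ≥0∞ := M.rnDeriv volume y with hLdef
  have h1 : ∀ᶠ r in 𝓝[>] (0 : ℝ), M (closedBall y r) / volume (closedBall y r) < L + 1 := by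
    refine hy.eventually (gt_mem_nhds ?_)
    exact ENNReal.lt_add_right hL.ne one_ne_zero
  obtain ⟨δ, hδ, hδ1⟩ := mem_nhdsGT_iff_exists_Ioo_subset.1 h1
  have hδ0 : 0 < δ := hδ
  have hL1 : L + 1 < ⊤ := ENNReal.add_lt_top.2 ⟨hL, ENNReal.one_lt_top⟩
  have hLr : 0 ≤ (L + 1).toReal := ENNReal.toReal_nonneg
  have hMr : 0 ≤ (M univ).toReal := ENNReal.toReal_nonneg
  refine ⟨(L + 1).toReal * 2 ^ m + (M univ).toReal / δ ^ m, by positivity, ?_⟩
  intro r hr hr1
  rw [← hMu _ isClosed_closedBall.measurableSet]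
  rcases lt_or_ge r δ with hrd | hrd
  · have h2 : M (closedBall y r) / volume (closedBall y r) < L + 1 := hδ1 ⟨hr, hrd⟩
    rw [aeDens_vol y hr.le] at h2
    have hv : 0 < (2 * r) ^ m := by positivity
    have h3 : M (closedBall y r) ≤ (L + 1) * ENNReal.ofReal ((2 * r) ^ m) := by
      rw [ENNReal.div_lt_iff (Or.inl (by simpa using hv)) (Or.inl ENNReal.ofReal_ne_top)] at h2
      exact h2.le
    refine h3.trans ?_
    rw [← ENNReal.ofReal_toReal hL1.ne, ← ENNReal.ofReal_mul hLr]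
    refine ENNReal.ofReal_le_ofReal ?_
    have h4 : 0 ≤ (M univ).toReal / δ ^ m * r ^ m := by positivity
    rw [mul_pow, add_mul, ← mul_assoc]
    rw [ENNReal.ofReal_toReal hL1.ne]
    linarith
  · have h2 : M (closedBall y r) ≤ M univ := measure_mono (subset_univ _)
    refine h2.trans ?_
    rw [← ENNReal.ofReal_toReal hfin.ne]
    refine ENNReal.ofReal_le_ofReal ?_
    rw [ENNReal.ofReal_toReal hfin.ne]
    have h4 : 0 ≤ (L + 1).toReal * 2 ^ m * r ^ m := by positivity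
    have h5 : δ ^ m ≤ r ^ m := pow_le_pow_left₀ hδ0.le hrd m
    have h6 : 0 < δ ^ m := by positivity
    have h7 : (M univ).toReal ≤ (M univ).toReal / δ ^ m * r ^ m := by
      rw [div_mul_eq_mul_div, le_div_iff₀ h6]
      exact mul_le_mul_of_nonneg_left h5 hMr
    rw [add_mul]
    linarith

theorem ae_density {m : ℕ} {Y0 : Set (Fin m → ℝ)} (h : MeasurableSet Y0) :
    ∀ᵐ y : Fin m → ℝ, y ∈ Y0 → ∀ ε > 0, ∃ ρ0 > 0, ∀ ρ, 0 < ρ → ρ ≤ ρ0 →
      volume (closedBall y ρ \ Y0) ≤ ENNReal.ofReal (ε * (2 * ρ) ^ m) := by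
  filter_upwards [Besicovitch.ae_tendsto_measure_inter_div_of_measurableSet
    (volume : Measure (Fin m → ℝ)) h.compl] with y hy hy0 ε hε
  have h0 : (Y0ᶜ).indicator (1 : (Fin m → ℝ) → ℝ≥0∞) y = 0 := indicator_of_notMem (by simpa using hy0) _
  rw [h0] at hy
  have h1 : ∀ᶠ r in 𝓝[>] (0 : ℝ), volume (Y0ᶜ ∩ closedBall y r) / volume (closedBall y r) <
      ENNReal.ofReal ε := by
    refine hy.eventually (gt_mem_nhds ?_)
    simpa using hε
  obtain ⟨δ, hδ, hδ1⟩ := mem_nhdsGT_iff_exists_Ioo_subset.1 h1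
  have hδ0 : 0 < δ := hδ
  refine ⟨δ / 2, by positivity, fun ρ hρ hρ1 => ?_⟩
  have h2 : volume (Y0ᶜ ∩ closedBall y ρ) / volume (closedBall y ρ) < ENNReal.ofReal ε :=
    hδ1 ⟨hρ, by linarith⟩
  rw [aeDens_vol y hρ.le] at h2
  have hv : 0 < (2 * ρ) ^ m := by positivity
  rw [ENNReal.div_lt_iff (Or.inl (by simpa using hv)) (Or.inl ENNReal.ofReal_ne_top)] at h2
  have h3 : closedBall y ρ \ Y0 = Y0ᶜ ∩ closedBall y ρ := by
    ext z
    simp [and_comm]
  rw [h3, ENNReal.ofReal_mul hε.le]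
  exact h2.le

end NR
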