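import Pool.Agent.NR.Defs

/-!
# Almost all slices of a set of finite Hausdorff measure are finite (project NR)
-/

set_option autoImplicit false

open MeasureTheory Metric Set Filter Module
open scoped Topology MeasureTheory RealInnerProductSpace Nat Pointwise NNReal ENNReal

namespace NR

/-- covers by small sets with bounded sum -/
theorem AeFin_cover {m d : ℕ} {S : Set ((Fin m → ℝ) × (Fin d → ℝ))} (h : μH[m] S < ⊤) (n : ℕ) :
    ∃ t : ℕ → Set ((Fin m → ℝ) × (Fin d → ℝ)), S ⊆ ⋃ i, t i ∧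
      (∀ i, ediam (t i) ≤ ((n : ℝ≥0∞) + 1)⁻¹) ∧
      ∑' i, ⨆ _ : (t i).Nonempty, ediam (t i) ^ (m : ℝ) ≤ μH[m] S + 1 := by
  have hr : (0 : ℝ≥0∞) < ((n : ℝ≥0∞) + 1)⁻¹ := by
    rw [ENNReal.inv_pos]
    exact ENNReal.add_ne_top.2 ⟨ENNReal.natCast_ne_top n, ENNReal.one_ne_top⟩
  have h1 : (⨅ (t : ℕ → Set ((Fin m → ℝ) × (Fin d → ℝ))) (_ : S ⊆ ⋃ i, t i)
      (_ : ∀ i, ediam (t i) ≤ ((n : ℝ≥0∞) + 1)⁻¹),
        ∑' i, ⨆ _ : (t i).Nonempty, ediam (t i) ^ (m : ℝ)) ≤ μH[m] S := by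
    rw [Measure.hausdorffMeasure_apply]
    exact le_iSup₂_of_le _ hr le_rfl
  have h2 : (⨅ (t : ℕ → Set ((Fin m → ℝ) × (Fin d → ℝ))) (_ : S ⊆ ⋃ i, t i)
      (_ : ∀ i, ediam (t i) ≤ ((n : ℝ≥0∞) + 1)⁻¹),
        ∑' i, ⨆ _ : (t i).Nonempty, ediam (t i) ^ (m : ℝ)) < μH[m] S + 1 :=
    h1.trans_lt (ENNReal.lt_add_right h.ne one_ne_zero)
  simp only [iInf_lt_iff] at h2
  obtain ⟨t, ht1, ht2, ht3⟩ := h2
  exact ⟨t, ht1, ht2, ht3.le⟩

/-- the volume of the closure of the projection -/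
theorem AeFin_vol {m d : ℕ} (t : Set ((Fin m → ℝ) × (Fin d → ℝ))) :
    volume (closure (Prod.fst '' t)) ≤ ⨆ _ : t.Nonempty, ediam t ^ (m : ℝ) := by
  rcases t.eq_empty_or_nonempty with rfl | ht
  · simp
  · rw [iSup_pos ht]
    have h1 := Real.volume_pi_le_diam_pow (closure (Prod.fst '' t))
    rw [Fintype.card_fin] at h1
    refine h1.trans ?_
    rw [ENNReal.rpow_natCast, ediam_closure]
    have h2 : ediam (Prod.fst '' t) ≤ ediam t := by
      have h3 := (LipschitzWith.prod_fst (α := Fin m → ℝ) (β := Fin d → ℝ)).ediam_image_le t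
      simpa using h3
    gcongr

/-- many points of the slice need many sets -/
theorem AeFin_count {m d : ℕ} {S : Set ((Fin m → ℝ) × (Fin d → ℝ))} {y : Fin m → ℝ}
    {t : ℕ → Set ((Fin m → ℝ) × (Fin d → ℝ))} (ht : S ⊆ ⋃ i, t i) {r : ℝ≥0∞}
    (hr : ∀ i, ediam (t i) ≤ r) (s : Finset (Fin d → ℝ)) (hs : ∀ p ∈ s, (y, p) ∈ S)
    (hsep : ∀ p ∈ s, ∀ p' ∈ s, p ≠ p' → r < edist p p') :
    (s.card : ℝ≥0∞) ≤ ∑' i, (closure (Prod.fst '' t i)).indicator (fun _ => (1 : ℝ≥0∞)) y := by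
  classical
  have h1 : ∀ p ∈ s, ∃ i, (y, p) ∈ t i := fun p hp => mem_iUnion.1 (ht (hs p hp))
  choose! f hf using h1
  have hinj : Set.InjOn f (s : Set (Fin d → ℝ)) := by
    intro p hp p' hp' he
    by_contra hne
    have h2 := hf p hp
    have h3 := hf p' hp'
    rw [← he] at h3
    have h4 : edist (y, p) (y, p') ≤ ediam (t (f p)) := edist_le_ediam_of_mem h2 h3
    have h5 : edist (y, p) (y, p') = edist p p' := by
      rw [Prod.edist_eq, edist_self]
      exact max_eq_right bot_le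
    rw [h5] at h4
    exact absurd (h4.trans (hr _)) (not_le.2 (hsep p hp p' hp' hne))
  have h2 : (s.card : ℝ≥0∞) = ∑ i ∈ s.image f,
      (closure (Prod.fst '' t i)).indicator (fun _ => (1 : ℝ≥0∞)) y := by
    have h3 : ∀ i ∈ s.image f,
        (closure (Prod.fst '' t i)).indicator (fun _ => (1 : ℝ≥0∞)) y = 1 := by
      intro i hi
      obtain ⟨p, hp, rfl⟩ := Finset.mem_image.1 hi
      have h4 : y ∈ closure (Prod.fst '' t (f p)) :=
        subset_closure (Set.mem_image_of_mem Prod.fst (hf p hp))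
      rw [Set.indicator_of_mem h4]
    rw [Finset.sum_congr rfl h3, Finset.sum_const, Finset.card_image_of_injOn hinj,
      nsmul_eq_mul, mul_one]
  rw [h2]
  exact ENNReal.sum_le_tsum _

theorem ae_fin {m d : ℕ} {S : Set ((Fin m → ℝ) × (Fin d → ℝ))} (hS : IsCompact S)
    (h : μH[m] S < ⊤) : ∀ᵐ y : Fin m → ℝ, {p | (y, p) ∈ S}.Finite := by
  choose t ht1 ht2 ht3 using AeFin_cover h
  set N : ℕ → (Fin m → ℝ) → ℝ≥0∞ := fun n y =>
    ∑' i, (closure (Prod.fst '' t n i)).indicator (fun _ => (1 : ℝ≥0∞)) y with hN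
  have hmeas : ∀ n, Measurable (N n) := by
    intro n
    refine Measurable.tsum fun i => ?_
    exact measurable_const.indicator isClosed_closure.measurableSet
  have hint : ∀ n, ∫⁻ y, N n y ≤ μH[m] S + 1 := by
    intro n
    rw [hN]
    rw [lintegral_tsum fun i =>
      (measurable_const.indicator isClosed_closure.measurableSet).aemeasurable]
    refine le_trans (ENNReal.tsum_le_tsum fun i => ?_) (ht3 n)
    rw [lintegral_indicator_const isClosed_closure.measurableSet, one_mul]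
    exact AeFin_vol _
  have hfat : ∫⁻ y, liminf (fun n => N n y) atTop ≤ μH[m] S + 1 := by
    refine (lintegral_liminf_le hmeas).trans ?_
    refine liminf_le_of_frequently_le' (Frequently.of_forall fun n => hint n)
  have hlt : ∀ᵐ y : Fin m → ℝ, liminf (fun n => N n y) atTop < ⊤ := by
    refine ae_lt_top (Measurable.liminf hmeas) (ne_of_lt (hfat.trans_lt ?_))
    exact ENNReal.add_lt_top.2 ⟨h, ENNReal.one_lt_top⟩
  filter_upwards [hlt] with y hy
  obtain ⟨k, hk⟩ := ENNReal.exists_nat_gt hy.ne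
  have hfr : ∃ᶠ n in atTop, N n y < k := frequently_lt_of_liminf_lt (by isBoundedDefault) hk
  by_contra hinf
  obtain ⟨s, hs1, hs2⟩ := (show {p | (y, p) ∈ S}.Infinite from hinf).exists_subset_card_eq k
  -- the smallest distance
  obtain ⟨δ, hδ, hsep⟩ : ∃ δ : ℝ≥0∞, 0 < δ ∧ ∀ p ∈ s, ∀ p' ∈ s, p ≠ p' → δ ≤ edist p p' := by
    classical
    refine ⟨⨅ q ∈ (s ×ˢ s).filter (fun q => q.1 ≠ q.2), edist q.1 q.2, ?_, ?_⟩
    · have h1 : ∀ q ∈ (s ×ˢ s).filter (fun q => q.1 ≠ q.2), 0 < edist q.1 q.2 := by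
        intro q hq
        exact edist_pos.2 (Finset.mem_filter.1 hq).2
      have h2 : ∀ T : Finset ((Fin d → ℝ) × (Fin d → ℝ)), (∀ q ∈ T, 0 < edist q.1 q.2) →
          0 < ⨅ q ∈ T, edist q.1 q.2 := by
        intro T
        induction T using Finset.induction_on with
        | empty => intro _; simp
        | insert a T _ ih =>
          intro hT
          rw [Finset.iInf_insert]
          exact lt_min (hT a (Finset.mem_insert_self a T))
            (ih fun q hq => hT q (Finset.mem_insert_of_mem hq))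
      exact h2 _ h1
    · intro p hp p' hp' hne
      exact iInf₂_le (p, p') (Finset.mem_filter.2 ⟨Finset.mem_product.2 ⟨hp, hp'⟩, hne⟩)
  -- a small scale with few sets
  obtain ⟨n₀, hn₀⟩ : ∃ n₀ : ℕ, (n₀ : ℝ≥0∞)⁻¹ < δ := ENNReal.exists_inv_nat_lt hδ.ne'
  obtain ⟨n, hNn, hn⟩ := (hfr.and_eventually (eventually_ge_atTop n₀)).exists
  have hrn : ((n : ℝ≥0∞) + 1)⁻¹ < δ := by
    refine lt_of_le_of_lt (ENNReal.inv_le_inv.2 ?_) hn₀
    calc (n₀ : ℝ≥0∞) ≤ n := by exact_mod_cast hn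
      _ ≤ n + 1 := le_self_add
  have hcard := AeFin_count (ht1 n) (ht2 n) s (fun p hp => hs1 hp)
    (fun p hp p' hp' hne => hrn.trans_le (hsep p hp p' hp' hne))
  rw [hs2] at hcard
  exact absurd (hcard.trans_lt hNn) (lt_irrefl _)

end NR
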