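import Pool.Agent.NR.Defs

/-!
# Almost every translate of the grid (project NR)
-/

set_option autoImplicit false

open MeasureTheory Metric Set Filter Module
open scoped Topology MeasureTheory RealInnerProductSpace Nat Pointwise NNReal

namespace NR

/-- the restriction of coordinates -/
def AeTau_L {m D : ℕ} (ι : Fin m → Fin D) : (Fin D → ℝ) →ₗ[ℝ] (Fin m → ℝ) where
  toFun τ := fun j => τ (ι j)
  map_add' _ _ := rfl
  map_smul' _ _ := rfl

theorem AeTau_surj {m D : ℕ} {ι : Fin m → Fin D} (hι : Function.Injective ι) :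
    Function.Surjective (AeTau_L ι) := by
  intro y
  classical
  refine ⟨fun i => if h : ∃ j, ι j = i then y h.choose else 0, ?_⟩
  funext j
  have h : ∃ j', ι j' = ι j := ⟨j, rfl⟩
  show (if h : ∃ j', ι j' = ι j then y h.choose else 0) = y j
  rw [dif_pos h]
  exact congrArg y (hι h.choose_spec)

/-- the preimage of a null set under a similarity is null -/
theorem AeTau_null {m : ℕ} {N : Set (Fin m → ℝ)} (hN : volume N = 0) {r : ℝ} (hr : 0 < r)
    (c : Fin m → ℝ) : volume {y : Fin m → ℝ | r • (c + y) ∈ N} = 0 := by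
  have h1 : {y : Fin m → ℝ | r • (c + y) ∈ N} = (fun y => c + y) ⁻¹' ((fun y => r • y) ⁻¹' N) := rfl
  rw [h1, measure_preimage_add]
  rw [Measure.addHaar_preimage_smul volume hr.ne' N, hN, mul_zero]

theorem ae_tau {m D : ℕ} {N : Set (Fin m → ℝ)} (hN : volume N = 0) {ι : Fin m → Fin D}
    (hι : Function.Injective ι) {r : ℝ} (hr : 0 < r) :
    ∀ᵐ τ : Fin D → ℝ, ∀ c : Fin m → ℤ, (fun j => r * ((c j : ℝ) + τ (ι j))) ∉ N := by
  rw [ae_all_iff]
  intro c
  set N' := toMeasurable volume N with hN'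
  have hN0 : volume N' = 0 := by rw [hN', measure_toMeasurable, hN]
  have hms : MeasurableSet N' := measurableSet_toMeasurable _ _
  set s : Set (Fin m → ℝ) := {y | r • ((fun j => (c j : ℝ)) + y) ∈ N'}ᶜ with hs
  have hsm : MeasurableSet s := by
    refine MeasurableSet.compl ?_
    have hmeas : Measurable (fun y : Fin m → ℝ => r • ((fun j => (c j : ℝ)) + y)) := by
      fun_prop
    exact hmeas hms
  have hae : ∀ᵐ y ∂(volume : Measure (Fin m → ℝ)), y ∈ s := by
    rw [ae_iff]
    have h2 : {a | a ∉ s} = {y : Fin m → ℝ | r • ((fun j => (c j : ℝ)) + y) ∈ N'} := by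
      ext y
      simp [hs]
    rw [h2]
    exact AeTau_null hN0 hr _
  have key := (ae_comp_linearMap_mem_iff (L := AeTau_L ι) (volume : Measure (Fin D → ℝ))
    (volume : Measure (Fin m → ℝ)) (AeTau_surj hι) hsm).2 hae
  filter_upwards [key] with τ hτ hmem
  apply hτ
  show r • ((fun j => (c j : ℝ)) + AeTau_L ι τ) ∈ N'
  exact subset_toMeasurable volume N hmem

theorem null_proj {m D : ℕ} {S : Set (Fin D → ℝ)} (h : μH[m] S < ⊤) (ι : Fin (m + 1) → Fin D) :
    volume ((fun x : Fin D → ℝ => fun j => x (ι j)) '' S) = 0 := by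
  have hL : LipschitzWith 1 (fun x : Fin D → ℝ => fun j => x (ι j)) := by
    refine LipschitzWith.of_dist_le_mul ?_
    intro x y
    rw [NNReal.coe_one, one_mul]
    rw [dist_pi_le_iff dist_nonneg]
    intro j
    exact dist_le_pi_dist x y (ι j)
  have h1 : μH[m] ((fun x : Fin D → ℝ => fun j => x (ι j)) '' S) < ⊤ := by
    refine lt_of_le_of_lt (hL.hausdorffMeasure_image_le (Nat.cast_nonneg m) S) ?_
    simpa using h
  have h2 : μH[((m + 1 : ℕ) : ℝ)] ((fun x : Fin D → ℝ => fun j => x (ι j)) '' S) = 0 := by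
    rcases Measure.hausdorffMeasure_zero_or_top (d₁ := (m : ℝ)) (d₂ := ((m + 1 : ℕ) : ℝ))
      (by push_cast; linarith) ((fun x : Fin D → ℝ => fun j => x (ι j)) '' S) with h0 | h0
    · exact h0
    · exact absurd h0 h1.ne
  have h3 : (μH[((m + 1 : ℕ) : ℝ)] : Measure (Fin (m + 1) → ℝ)) = volume := by
    have := hausdorffMeasure_pi_real (ι := Fin (m + 1))
    rwa [Fintype.card_fin] at this
  rw [← h3]
  exact h2

/-- almost every translate of the grid: `S` contains no point with `m + 1` integral coordinates -/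
theorem ae_ints {m D : ℕ} {S : Set (Fin D → ℝ)} (h : μH[m] S < ⊤) {r : ℝ} (hr : 0 < r) :
    ∀ᵐ τ : Fin D → ℝ, ∀ x : Fin D → ℝ, r • (x + τ) ∈ S → x ∉ Ints (m + 1) := by
  have h1 : ∀ᵐ τ : Fin D → ℝ, ∀ ι : Fin (m + 1) → Fin D, Function.Injective ι →
      ∀ c : Fin (m + 1) → ℤ, (fun j => r * ((c j : ℝ) + τ (ι j))) ∉
        ((fun x : Fin D → ℝ => fun j => x (ι j)) '' S) := by
    rw [ae_all_iff]
    intro ι
    by_cases hι : Function.Injective ι
    · filter_upwards [ae_tau (null_proj h ι) hι hr] with τ hτ _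
      exact hτ
    · exact Filter.Eventually.of_forall (fun τ hh => absurd hh hι)
  filter_upwards [h1] with τ hτ x hx hI
  obtain ⟨J, hJ, hz⟩ := hI
  obtain ⟨J', hJ', hcard⟩ := Finset.exists_subset_card_eq hJ
  let e := J'.orderEmbOfFin hcard
  have hmem : ∀ j, e j ∈ J := fun j => hJ' (J'.orderEmbOfFin_mem hcard j)
  choose c hc using fun j => hz (e j) (hmem j)
  refine hτ e e.injective c ⟨r • (x + τ), hx, ?_⟩
  funext j
  show r * (x (e j) + τ (e j)) = r * ((c j : ℝ) + τ (e j))
  rw [hc j]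

end NR
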