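import Pool.Agent.NR.Defs

/-!
# The average over the translates of the box (NR-4a)
-/

set_option autoImplicit false

open MeasureTheory Metric Set Filter Module
open scoped Topology MeasureTheory RealInnerProductSpace Nat Pointwise ENNReal

namespace NR

/-- a condition on some of the coordinates, the others in intervals -/
theorem avg_pi_aux {ι κ : Type} [Fintype ι] [Fintype κ] (P : ι → Prop) [DecidablePred P]
    (e : κ ≃ {k // P k}) (a b : ι → ℝ) (c : κ → ℝ) (W : Set (κ → ℝ)) :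
    volume {x : ι → ℝ | (∀ k, x k ∈ Icc (a k) (b k)) ∧ (fun j => x (e j) + c j) ∈ W} *
      ∏ j, ENNReal.ofReal (b (e j) - a (e j)) ≤
    volume W * ∏ k, ENNReal.ofReal (b k - a k) := by
  set W1 : Set ({k // P k} → ℝ) := {w | (fun j => w (e j) + c j) ∈ W} with hW1
  set C : Set ({k // ¬ P k} → ℝ) := Icc (fun k => a k) (fun k => b k) with hC
  have hvW : volume W1 = volume W := by
    have h1 := volume_measurePreserving_piCongrLeft (fun _ : κ => ℝ) e.symm
    have h2 : W1 = (MeasurableEquiv.piCongrLeft (fun _ : κ => ℝ) e.symm) ⁻¹'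
        ((fun w => w + c) ⁻¹' W) := by
      ext w
      have h3 : (fun j => w (e j) + c j) =
          (MeasurableEquiv.piCongrLeft (fun _ : κ => ℝ) e.symm) w + c := by
        funext j
        have h4 := MeasurableEquiv.piCongrLeft_apply_apply e.symm (β := fun _ : κ => ℝ) w (e j)
        rw [Equiv.symm_apply_apply] at h4
        rw [Pi.add_apply, h4]
      change (fun j => w (e j) + c j) ∈ W ↔ _
      rw [h3]
      rfl
    rw [h2, h1.measure_preimage_equiv, measure_preimage_add_right]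
  have hΦ := volume_preserving_piEquivPiSubtypeProd (fun _ : ι => ℝ) P
  have hsub : {x : ι → ℝ | (∀ k, x k ∈ Icc (a k) (b k)) ∧ (fun j => x (e j) + c j) ∈ W} ⊆
      (MeasurableEquiv.piEquivPiSubtypeProd (fun _ : ι => ℝ) P) ⁻¹' (W1 ×ˢ C) := by
    rintro x ⟨h1, h2⟩
    exact ⟨h2, fun k => (h1 k).1, fun k => (h1 k).2⟩
  have hvC : volume C = ∏ k : {k // ¬ P k}, ENNReal.ofReal (b k - a k) := by
    rw [hC, Real.volume_Icc_pi]
  have h1 : volume {x : ι → ℝ | (∀ k, x k ∈ Icc (a k) (b k)) ∧ (fun j => x (e j) + c j) ∈ W} ≤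
      volume W * ∏ k : {k // ¬ P k}, ENNReal.ofReal (b k - a k) := by
    refine (measure_mono hsub).trans ?_
    rw [hΦ.measure_preimage_equiv, Measure.volume_eq_prod, Measure.prod_prod, hvW, hvC]
  have h2 : ∏ j, ENNReal.ofReal (b (e j) - a (e j)) =
      ∏ k : {k // P k}, ENNReal.ofReal (b k - a k) :=
    Equiv.prod_comp e (fun k : {k // P k} => ENNReal.ofReal (b k - a k))
  calc _ ≤ volume W * (∏ k : {k // ¬ P k}, ENNReal.ofReal (b k - a k)) *
      ∏ k : {k // P k}, ENNReal.ofReal (b k - a k) := by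
        rw [h2]
        exact mul_le_mul_left h1 _
    _ = volume W * ∏ k, ENNReal.ofReal (b k - a k) := by
        rw [mul_assoc, mul_comm (∏ k : {k // ¬ P k}, ENNReal.ofReal (b k - a k))]
        rw [Fintype.prod_subtype_mul_prod_subtype P (fun k => ENNReal.ofReal (b k - a k))]

theorem avg_pi {ι κ : Type} [Fintype ι] [Fintype κ] {f : κ → ι} (hf : Function.Injective f)
    (a b : ι → ℝ) (c : κ → ℝ) (W : Set (κ → ℝ)) :
    volume {x : ι → ℝ | (∀ k, x k ∈ Icc (a k) (b k)) ∧ (fun j => x (f j) + c j) ∈ W} *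
      ∏ j, ENNReal.ofReal (b (f j) - a (f j)) ≤
    volume W * ∏ k, ENNReal.ofReal (b k - a k) := by
  classical
  exact avg_pi_aux (fun k => k ∈ range f) (Equiv.ofInjective f hf) a b c W

/-- the coordinates of the point which must lie in `W` -/
def avgF {m d : ℕ} (i : Fin m) (l : Fin d) (j : Fin m) : Fin d ⊕ (Fin m ⊕ Fin m) :=
  if j < i then Sum.inr (Sum.inr j) else if j = i then Sum.inl l else Sum.inr (Sum.inl j)

theorem avgF_inj {m d : ℕ} (i : Fin m) (l : Fin d) : Function.Injective (avgF i l) := by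
  intro j j' h
  unfold avgF at h
  split_ifs at h <;> simp_all

theorem avg_equiv (m d : ℕ) : ∃ g : ((Fin d ⊕ (Fin m ⊕ Fin m)) → ℝ) ≃ᵐ
      (Fin d → ℝ) × ((Fin m → ℝ) × (Fin m → ℝ)),
    MeasurePreserving g volume (volume.prod (volume.prod volume)) ∧
    ∀ x, g x = (fun l => x (Sum.inl l), fun j => x (Sum.inr (Sum.inl j)),
      fun j => x (Sum.inr (Sum.inr j))) := by
  have h1 := volume_measurePreserving_sumPiEquivProdPi (fun _ : Fin d ⊕ (Fin m ⊕ Fin m) => ℝ)
  have h2 := volume_measurePreserving_sumPiEquivProdPi (fun _ : Fin m ⊕ Fin m => ℝ)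
  refine ⟨(MeasurableEquiv.sumPiEquivProdPi (fun _ : Fin d ⊕ (Fin m ⊕ Fin m) => ℝ)).trans
    ((MeasurableEquiv.refl _).prodCongr
      (MeasurableEquiv.sumPiEquivProdPi (fun _ : Fin m ⊕ Fin m => ℝ))), ?_, fun x => rfl⟩
  exact ((MeasurePreserving.id volume).prod h2).comp h1

/-- the triples with the point in `W` -/
def avgT {m d : ℕ} (W : Set (Fin m → ℝ)) (y : Fin m → ℝ) (q : Fin d → ℝ) (ρ s ε : ℝ)
    (i : Fin m) (l : Fin d) : Set ((Fin d → ℝ) × ((Fin m → ℝ) × (Fin m → ℝ))) :=
  {x | x.1 ∈ Icc (fun l => q l - s) q ∧ x.2.1 ∈ closedBall y ρ ∧ x.2.2 ∈ closedBall y ρ ∧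
    (fun j => if j < i then x.2.2 j else if j = i then x.1 l + ε else x.2.1 j) ∈ W}

theorem avgT_meas {m d : ℕ} {W : Set (Fin m → ℝ)} (hW : MeasurableSet W) (y : Fin m → ℝ)
    (q : Fin d → ℝ) (ρ s ε : ℝ) (i : Fin m) (l : Fin d) :
    MeasurableSet (avgT W y q ρ s ε i l) := by
  have h1 : Measurable (fun x : (Fin d → ℝ) × ((Fin m → ℝ) × (Fin m → ℝ)) =>
      (fun j => if j < i then x.2.2 j else if j = i then x.1 l + ε else x.2.1 j : Fin m → ℝ)) := by
    refine measurable_pi_lambda _ fun j => ?_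
    split_ifs
    · exact (measurable_pi_apply j).comp (measurable_snd.comp measurable_snd)
    · have h0 : Measurable (fun x : (Fin d → ℝ) × ((Fin m → ℝ) × (Fin m → ℝ)) => x.1 l) :=
        (measurable_pi_apply l).comp measurable_fst
      exact h0.add_const ε
    · exact (measurable_pi_apply j).comp (measurable_fst.comp measurable_snd)
  have h2 : MeasurableSet {x : (Fin d → ℝ) × ((Fin m → ℝ) × (Fin m → ℝ)) |
      x.1 ∈ Icc (fun l => q l - s) q} := measurable_fst measurableSet_Icc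
  have h3 : MeasurableSet {x : (Fin d → ℝ) × ((Fin m → ℝ) × (Fin m → ℝ)) |
      x.2.1 ∈ closedBall y ρ} :=
    (measurable_fst.comp measurable_snd) measurableSet_closedBall
  have h4 : MeasurableSet {x : (Fin d → ℝ) × ((Fin m → ℝ) × (Fin m → ℝ)) |
      x.2.2 ∈ closedBall y ρ} :=
    (measurable_snd.comp measurable_snd) measurableSet_closedBall
  exact h2.inter (h3.inter (h4.inter (h1 hW)))

theorem avg_prod_all {m d : ℕ} (a b : ℝ≥0∞) :
    ∏ k : Fin d ⊕ (Fin m ⊕ Fin m), (Sum.elim (fun _ => a) (fun _ => b) k : ℝ≥0∞) =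
      a ^ d * (b ^ m * b ^ m) := by
  simp [pow_add]

theorem avg_prod_F {m d : ℕ} (i : Fin m) (l : Fin d) (a b : ℝ≥0∞) :
    ∏ j, (Sum.elim (fun _ => a) (fun _ => b) (avgF i l j) : ℝ≥0∞) = a * b ^ (m - 1) := by
  rw [← Finset.mul_prod_erase Finset.univ _ (Finset.mem_univ i)]
  congr 1
  · simp [avgF]
  · rw [Finset.prod_congr rfl (g := fun _ => b)]
    · simp
    · intro j hj
      have hj' : j ≠ i := Finset.ne_of_mem_erase hj
      unfold avgF
      split_ifs <;> simp_all

theorem avgT_le {m d : ℕ} (hm : 1 ≤ m) (hd : 1 ≤ d) (W : Set (Fin m → ℝ))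
    (y : Fin m → ℝ) (q : Fin d → ℝ) {ρ s : ℝ} (hρ : 0 < ρ) (hs : 0 < s) (ε : ℝ)
    (i : Fin m) (l : Fin d) :
    (volume.prod (volume.prod volume)) (avgT W y q ρ s ε i l) ≤
      ENNReal.ofReal ((2 * ρ) ^ (m + 1) * s ^ (d - 1)) * volume W := by
  obtain ⟨g, hg, hgx⟩ := avg_equiv m d
  set a : Fin d ⊕ (Fin m ⊕ Fin m) → ℝ :=
    Sum.elim (fun l => q l - s) (Sum.elim (fun j => y j - ρ) (fun j => y j - ρ)) with ha
  set b : Fin d ⊕ (Fin m ⊕ Fin m) → ℝ :=
    Sum.elim q (Sum.elim (fun j => y j + ρ) (fun j => y j + ρ)) with hb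
  set c : Fin m → ℝ := fun j => if j = i then ε else 0 with hc
  have h1 := avg_pi (avgF_inj i l) a b c W
  have hL : ∀ k, ENNReal.ofReal (b k - a k) =
      Sum.elim (fun _ => ENNReal.ofReal s) (fun _ => ENNReal.ofReal (2 * ρ)) k := by
    rintro (k | k | k)
    · simp [ha, hb]
    · simp only [ha, hb, Sum.elim_inr, Sum.elim_inl]
      congr 1
      ring
    · simp only [ha, hb, Sum.elim_inr]
      congr 1
      ring
  simp only [hL] at h1
  rw [avg_prod_all, avg_prod_F] at h1
  have hsub : g ⁻¹' (avgT W y q ρ s ε i l) ⊆ {x | (∀ k, x k ∈ Icc (a k) (b k)) ∧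
      (fun j => x (avgF i l j) + c j) ∈ W} := by
    intro x hx
    rw [mem_preimage, hgx] at hx
    obtain ⟨hx1, hx2, hx3, hx4⟩ := hx
    refine ⟨?_, ?_⟩
    · rw [mem_closedBall, dist_pi_le_iff hρ.le] at hx2 hx3
      rintro (k | k | k)
      · exact ⟨hx1.1 k, hx1.2 k⟩
      · have h5 := abs_le.1 ((Real.dist_eq _ _).symm.trans_le (hx2 k))
        change y k - ρ ≤ x (Sum.inr (Sum.inl k)) ∧ x (Sum.inr (Sum.inl k)) ≤ y k + ρ
        constructor <;> linarith [h5.1, h5.2]
      · have h5 := abs_le.1 ((Real.dist_eq _ _).symm.trans_le (hx3 k))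
        change y k - ρ ≤ x (Sum.inr (Sum.inr k)) ∧ x (Sum.inr (Sum.inr k)) ≤ y k + ρ
        constructor <;> linarith [h5.1, h5.2]
    · have h5 : (fun j => x (avgF i l j) + c j) = (fun j => if j < i then x (Sum.inr (Sum.inr j))
          else if j = i then x (Sum.inl l) + ε else x (Sum.inr (Sum.inl j))) := by
        funext j
        simp only [avgF, hc]
        split_ifs with h6 h7 h7
        · exact absurd h6 (by rw [h7]; exact lt_irrefl _)
        · rw [add_zero]
        · rfl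
        · rw [add_zero]
      change (fun j => x (avgF i l j) + c j) ∈ W
      rw [h5]
      exact hx4
  have h2 : (volume.prod (volume.prod volume)) (avgT W y q ρ s ε i l) =
      volume (g ⁻¹' (avgT W y q ρ s ε i l)) := (hg.measure_preimage_equiv _).symm
  rw [h2]
  have h3 := (mul_le_mul_left (measure_mono hsub) _).trans h1
  set V := volume (g ⁻¹' (avgT W y q ρ s ε i l)) with hV
  have hσ0 : ENNReal.ofReal s ≠ 0 := by simpa using hs
  have hr0 : ENNReal.ofReal (2 * ρ) ≠ 0 := by simpa using hρ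
  have hne0 : ENNReal.ofReal s * ENNReal.ofReal (2 * ρ) ^ (m - 1) ≠ 0 :=
    mul_ne_zero hσ0 (pow_ne_zero _ hr0)
  have hnet : ENNReal.ofReal s * ENNReal.ofReal (2 * ρ) ^ (m - 1) ≠ ⊤ :=
    ENNReal.mul_ne_top ENNReal.ofReal_ne_top (ENNReal.pow_ne_top ENNReal.ofReal_ne_top)
  rw [← ENNReal.mul_le_mul_iff_left hne0 hnet]
  refine h3.trans (le_of_eq ?_)
  have e1 : ENNReal.ofReal ((2 * ρ) ^ (m + 1) * s ^ (d - 1)) =
      ENNReal.ofReal (2 * ρ) ^ (m + 1) * ENNReal.ofReal s ^ (d - 1) := by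
    rw [ENNReal.ofReal_mul (p := (2 * ρ) ^ (m + 1)) (by positivity),
      ENNReal.ofReal_pow (p := 2 * ρ) (by positivity), ENNReal.ofReal_pow hs.le]
  rw [e1]
  obtain ⟨m', rfl⟩ : ∃ m', m = m' + 1 := ⟨m - 1, by omega⟩
  obtain ⟨d', rfl⟩ : ∃ d', d = d' + 1 := ⟨d - 1, by omega⟩
  simp only [Nat.add_sub_cancel]
  ring

theorem avg_W {m d : ℕ} (S : Set ((Fin m → ℝ) × (Fin d → ℝ))) (i : Fin m) (l : Fin d) :
    volume ((fun x : (Fin m → ℝ) × (Fin d → ℝ) => Function.update x.1 i (x.2 l)) '' S) ≤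
      μH[m] S := by
  have h1 : LipschitzWith 1
      (fun x : (Fin m → ℝ) × (Fin d → ℝ) => Function.update x.1 i (x.2 l)) := by
    refine LipschitzWith.of_dist_le_mul fun x x' => ?_
    rw [NNReal.coe_one, one_mul, dist_pi_le_iff dist_nonneg]
    intro j
    by_cases hj : j = i
    · subst hj
      rw [Function.update_self, Function.update_self]
      exact (dist_le_pi_dist x.2 x'.2 l).trans (le_max_right _ _)
    · rw [Function.update_of_ne hj, Function.update_of_ne hj]
      exact (dist_le_pi_dist x.1 x'.1 j).trans (le_max_left _ _)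
  have h2 := h1.hausdorffMeasure_image_le (d := (m : ℝ)) (by positivity) S
  have h3 : (μH[(m : ℝ)] : Measure (Fin m → ℝ)) = volume := by
    have h4 := hausdorffMeasure_pi_real (ι := Fin m)
    rwa [Fintype.card_fin] at h4
  rw [h3] at h2
  simpa using h2

/-! ## NR-4a: the average over the translates of the box -/

theorem avg {m d : ℕ} (hm : 1 ≤ m) (hd : 1 ≤ d) {S : Set ((Fin m → ℝ) × (Fin d → ℝ))}
    (hS : IsClosed S) (y : Fin m → ℝ) (q : Fin d → ℝ) {ρ s : ℝ} (hρ : 0 < ρ) (hs : 0 < s) :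
    ∫⁻ p in Icc (fun l => q l - s) q, (volume.prod volume)
      {z : (Fin m → ℝ) × (Fin m → ℝ) | z.1 ∈ closedBall y ρ ∧ z.2 ∈ closedBall y ρ ∧
        ¬ Gd (BadS S p s) (closedBall y ρ) z.1 z.2} ≤
      ENNReal.ofReal (2 * d * m * (2 * ρ) ^ (m + 1) * s ^ (d - 1)) *
        μH[m] (S ∩ closedBall y ρ ×ˢ univ) := by
  classical
  have _ := hS
  set W : Fin m → Fin d → Set (Fin m → ℝ) := fun i l => toMeasurable volume
    ((fun x : (Fin m → ℝ) × (Fin d → ℝ) => Function.update x.1 i (x.2 l)) ''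
      (S ∩ closedBall y ρ ×ˢ univ)) with hW
  have hWm : ∀ i l, MeasurableSet (W i l) := fun i l => measurableSet_toMeasurable _ _
  have hWv : ∀ i l, volume (W i l) ≤ μH[m] (S ∩ closedBall y ρ ×ˢ univ) := by
    intro i l
    rw [hW, measure_toMeasurable]
    exact avg_W _ i l
  set T : Fin m × Fin d × Bool → Set ((Fin d → ℝ) × ((Fin m → ℝ) × (Fin m → ℝ))) :=
    fun t => avgT (W t.1 t.2.1) y q ρ s (if t.2.2 then s else 0) t.1 t.2.1 with hT
  have hTm : ∀ t, MeasurableSet (T t) := fun t => avgT_meas (hWm _ _) _ _ _ _ _ _ _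
  have hTv : ∀ t, (volume.prod (volume.prod volume)) (T t) ≤
      ENNReal.ofReal ((2 * ρ) ^ (m + 1) * s ^ (d - 1)) *
        μH[m] (S ∩ closedBall y ρ ×ˢ univ) := fun t =>
    (avgT_le hm hd _ y q hρ hs _ _ _).trans (mul_le_mul_right (hWv _ _) _)
  calc _ ≤ ∫⁻ p in Icc (fun l => q l - s) q, ∑ t, (volume.prod volume) (Prod.mk p ⁻¹' (T t)) := by
        refine setLIntegral_mono' measurableSet_Icc fun p hp => ?_
        refine le_trans (measure_mono ?_) (measure_iUnion_fintype_le _ _)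
        rintro z ⟨hz1, hz2, hz3⟩
        unfold Gd at hz3
        push Not at hz3
        obtain ⟨i, w, hw, hw1, hw2, p', ⟨hp1, l, hl⟩, hp2⟩ := hz3
        rw [mem_iUnion]
        have key : ∀ ε : ℝ, p' l = p l + ε →
            (fun j => if j < i then z.2 j else if j = i then p l + ε else z.1 j) ∈ W i l := by
          intro ε hε
          refine subset_toMeasurable _ _ ⟨(w, p'), ⟨hp2, hw, trivial⟩, ?_⟩
          funext j
          simp only
          by_cases hj : j = i
          · subst hj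
            rw [Function.update_self, if_neg (lt_irrefl _), if_pos rfl, hε]
          · rw [Function.update_of_ne hj]
            by_cases hj2 : j < i
            · rw [if_pos hj2, hw1 j hj2]
            · rw [if_neg hj2, if_neg hj]
              exact hw2 j (lt_of_le_of_ne (not_lt.1 hj2) (Ne.symm hj))
        rcases hl with hl | hl
        · exact ⟨(i, l, false), hp, hz1, hz2, key 0 (by rw [hl, add_zero])⟩
        · exact ⟨(i, l, true), hp, hz1, hz2, key s hl⟩
    _ = ∑ t, ∫⁻ p in Icc (fun l => q l - s) q, (volume.prod volume) (Prod.mk p ⁻¹' (T t)) :=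
        lintegral_finsetSum _ fun t _ => measurable_measure_prodMk_left (hTm t)
    _ ≤ ∑ t, (volume.prod (volume.prod volume)) (T t) := by
        refine Finset.sum_le_sum fun t _ => ?_
        rw [Measure.prod_apply (hTm t)]
        exact setLIntegral_le_lintegral _ _
    _ ≤ ∑ _t : Fin m × Fin d × Bool, ENNReal.ofReal ((2 * ρ) ^ (m + 1) * s ^ (d - 1)) *
        μH[m] (S ∩ closedBall y ρ ×ˢ univ) := Finset.sum_le_sum fun t _ => hTv t
    _ = _ := by
        rw [Finset.sum_const, Finset.card_univ, nsmul_eq_mul, ← mul_assoc]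
        congr 1
        rw [Fintype.card_prod, Fintype.card_prod, Fintype.card_fin, Fintype.card_fin,
          Fintype.card_bool, ← ENNReal.ofReal_natCast, ← ENNReal.ofReal_mul (by positivity)]
        congr 1
        push_cast
        ring

theorem avg_closed_forall {X ι : Type} [TopologicalSpace X] {P : ι → Prop} {f g : ι → X → ℝ}
    (hf : ∀ j, Continuous (f j)) (hg : ∀ j, Continuous (g j)) :
    IsClosed {x | ∀ j, P j → f j x = g j x} := by
  have h : {x | ∀ j, P j → f j x = g j x} = ⋂ j, ⋂ (_ : P j), {x | f j x = g j x} := by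
    ext x
    simp
  rw [h]
  exact isClosed_iInter fun j => isClosed_iInter fun _ => isClosed_eq (hf j) (hg j)

theorem avg_meas {m d : ℕ} {S : Set ((Fin m → ℝ) × (Fin d → ℝ))} (hS : IsClosed S)
    (y : Fin m → ℝ) (ρ s : ℝ) :
    Measurable (fun p : Fin d → ℝ => (volume.prod volume)
      {z : (Fin m → ℝ) × (Fin m → ℝ) | z.1 ∈ closedBall y ρ ∧ z.2 ∈ closedBall y ρ ∧
        ¬ Gd (BadS S p s) (closedBall y ρ) z.1 z.2}) := by
  set K : Set ((Fin m → ℝ) × (Fin d → ℝ)) := closedBall y ρ ×ˢ Icc (0 : Fin d → ℝ) (fun _ => s)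
    with hK
  have hKc : IsCompact K := (isCompact_closedBall y ρ).prod isCompact_Icc
  have : CompactSpace K := isCompact_iff_compactSpace.1 hKc
  set C : Fin m → Fin d → Set (K × ((Fin d → ℝ) × ((Fin m → ℝ) × (Fin m → ℝ)))) := fun i l =>
    {x | x.2.2.1 ∈ closedBall y ρ ∧ x.2.2.2 ∈ closedBall y ρ ∧
      (∀ j, j < i → x.1.1.1 j = x.2.2.2 j) ∧ (∀ j, i < j → x.1.1.1 j = x.2.2.1 j) ∧
      (x.1.1.2 l = 0 ∨ x.1.1.2 l = s) ∧ (x.1.1.1, x.2.1 + x.1.1.2) ∈ S} with hC
  have hCc : ∀ i l, IsClosed (C i l) := by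
    intro i l
    refine IsClosed.inter (isClosed_closedBall.preimage (by fun_prop)) ?_
    refine IsClosed.inter (isClosed_closedBall.preimage (by fun_prop)) ?_
    refine IsClosed.inter (avg_closed_forall (fun j => by fun_prop) (fun j => by fun_prop)) ?_
    refine IsClosed.inter (avg_closed_forall (fun j => by fun_prop) (fun j => by fun_prop)) ?_
    refine IsClosed.inter ?_ (hS.preimage (by fun_prop))
    exact (isClosed_eq (by fun_prop) (by fun_prop)).union (isClosed_eq (by fun_prop) (by fun_prop))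
  set T : Set ((Fin d → ℝ) × ((Fin m → ℝ) × (Fin m → ℝ))) :=
    ⋃ i, ⋃ l, Prod.snd '' (C i l) with hT
  have hTc : IsClosed T :=
    isClosed_iUnion_of_finite fun i => isClosed_iUnion_of_finite fun l =>
      isClosedMap_snd_of_compactSpace _ (hCc i l)
  have h1 := measurable_measure_prodMk_left (ν := (volume.prod volume :
    Measure ((Fin m → ℝ) × (Fin m → ℝ)))) hTc.measurableSet
  convert h1 using 3 with p
  ext z
  simp only [mem_preimage, hT, mem_iUnion]
  constructor
  · rintro ⟨hz1, hz2, hz3⟩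
    unfold Gd at hz3
    push Not at hz3
    obtain ⟨i, w, hw, hw1, hw2, p', ⟨hp1, l, hl⟩, hp2⟩ := hz3
    refine ⟨i, l, (⟨(w, p' - p), hw, ?_, ?_⟩, (p, z)), ⟨hz1, hz2, hw1, hw2, ?_, ?_⟩, rfl⟩
    · intro l
      have := hp1.1 l
      simp only [Pi.zero_apply, Pi.sub_apply]
      linarith
    · intro l
      have := hp1.2 l
      simp only [Pi.sub_apply]
      linarith
    · simp only [Pi.sub_apply]
      rcases hl with hl | hl
      · left
        linarith
      · right
        linarith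
    · simpa using hp2
  · rintro ⟨i, l, ⟨⟨⟨w, r⟩, hw, hr1, hr2⟩, p0, z0⟩, ⟨hz1, hz2, hw1, hw2, hl, hp2⟩, h⟩
    obtain ⟨rfl, rfl⟩ := Prod.mk.inj h
    refine ⟨hz1, hz2, fun hG => hG i w hw hw1 hw2 ⟨p0 + r, ⟨⟨?_, ?_⟩, l, ?_⟩, hp2⟩⟩
    · intro l
      have := hr1 l
      simp only [Pi.zero_apply] at this
      simp only [Pi.add_apply]
      linarith
    · intro l
      have := hr2 l
      simp only at this
      simp only [Pi.add_apply]
      linarith
    · simp only [Pi.add_apply]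
      rcases hl with hl | hl
      · left
        simp only at hl
        linarith
      · right
        simp only at hl
        linarith

end NR
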