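import Pool.Agent.NR.Defs

/-!
# The number of small balls needed for the preimage of a ball under the stretching (project NR)
-/

set_option autoImplicit false

open MeasureTheory Metric Set Filter Module
open scoped Topology MeasureTheory RealInnerProductSpace Nat Pointwise

namespace NR

/-- the code of a point: the coordinates which are stretched to integers, the unit cube and the
small cells of the coordinates in the first group -/
private noncomputable def costA_code {D : ℕ} (κ : (Fin D → ℝ) → ℝ) (z : Fin D → ℝ) (δ : ℝ)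
    (x : Fin D → ℝ) : (_ : Finset (Fin D)) × ((Fin D → ℤ) × (Fin D → ℕ)) := by
  classical
  exact ⟨Finset.univ.filter (fun i => κ x ≤ uu (x i)), (fun i => ⌊x i⌋ - ⌊z i⌋),
    fun i => if κ x ≤ uu (x i) then ⌊(x i - ⌊x i⌋) / δ⌋₊ else 0⟩

private theorem costA_eq {D : ℕ} {κ : (Fin D → ℝ) → ℝ} {z : Fin D → ℝ} {δ : ℝ}
    {x x' : Fin D → ℝ} (h : costA_code κ z δ x = costA_code κ z δ x') :
    (∀ i, ⌊x i⌋ = ⌊x' i⌋) ∧ (∀ i, κ x ≤ uu (x i) ↔ κ x' ≤ uu (x' i)) ∧
      ∀ i, κ x ≤ uu (x i) → ⌊(x i - ⌊x i⌋) / δ⌋₊ = ⌊(x' i - ⌊x' i⌋) / δ⌋₊ := by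
  classical
  unfold costA_code at h
  rw [Sigma.mk.injEq] at h
  obtain ⟨h1, h2⟩ := h
  rw [heq_eq_eq, Prod.mk.injEq] at h2
  obtain ⟨h2, h3⟩ := h2
  have hJ : ∀ i, κ x ≤ uu (x i) ↔ κ x' ≤ uu (x' i) := by
    intro i
    have := Finset.ext_iff.1 h1 i
    simpa using this
  refine ⟨fun i => ?_, hJ, fun i hi => ?_⟩
  · have := congrFun h2 i
    linarith
  · have := congrFun h3 i
    rwa [if_pos hi, if_pos ((hJ i).1 hi)] at this

private theorem costA_cell {a b δ : ℝ} (hδ : 0 < δ) (ha : 0 ≤ a) (hb : 0 ≤ b)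
    (h : ⌊a / δ⌋₊ = ⌊b / δ⌋₊) : |a - b| ≤ δ := by
  have h1 := Nat.floor_le (div_nonneg ha hδ.le)
  have h2 := Nat.lt_floor_add_one (a / δ)
  have h3 := Nat.floor_le (div_nonneg hb hδ.le)
  have h4 := Nat.lt_floor_add_one (b / δ)
  rw [h] at h1 h2
  have h5 : a / δ < b / δ + 1 := by linarith
  have h6 : b / δ < a / δ + 1 := by linarith
  have h7 : a < b + δ := by
    have := (div_lt_iff₀ hδ).1 h5
    have e : (b / δ + 1) * δ = b + δ := by field_simp
    linarith
  have h8 : b < a + δ := by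
    have := (div_lt_iff₀ hδ).1 h6
    have e : (a / δ + 1) * δ = a + δ := by field_simp
    linarith
  rw [abs_le]
  constructor <;> linarith

theorem cost_ball (m D : ℕ) (hm : 1 ≤ m) : ∃ C : ℝ, 0 < C ∧
    ∀ (Q : Finset (Fin D → ℤ)) (κ : (Fin D → ℝ) → ℝ), IsKap m Q κ →
      ∀ (z : Fin D → ℝ) (δ : ℝ), 0 < δ → δ ≤ 1 / 2 → ∃ T : Finset (Fin D → ℝ),
        {x | x ∉ FF Q ∧ 0 < κ x ∧ Psi κ x ∈ FF Q ∧ Psi κ x ∈ closedBall z δ ∧
          Psi κ x ∉ Ints (m + 1)} ⊆ ⋃ q ∈ T, closedBall q (3 * δ) ∧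
        (T.card : ℝ) * δ ^ m ≤ C * ct m z δ := by
  classical
  refine ⟨3 ^ D * (3 / 2) ^ m, by positivity, ?_⟩
  intro Q κ hκ z δ hδ hδ2
  set X : Set (Fin D → ℝ) := {x | x ∉ FF Q ∧ 0 < κ x ∧ Psi κ x ∈ FF Q ∧
    Psi κ x ∈ closedBall z δ ∧ Psi κ x ∉ Ints (m + 1)} with hX
  set N : ℕ := ⌊1 / δ⌋₊ + 1 with hN
  set A : Finset (Finset (Fin D)) := Finset.univ.powerset.filter (fun J : Finset (Fin D) =>
    1 ≤ J.card ∧ J.card ≤ m ∧ ∀ i ∈ J, ∃ n : ℤ, |z i - n| ≤ δ) with hA
  set S : Finset ((_ : Finset (Fin D)) × ((Fin D → ℤ) × (Fin D → ℕ))) :=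
    A.sigma (fun J => (Fintype.piFinset (fun _ => Finset.Icc (-1 : ℤ) 1)) ×ˢ
      (Fintype.piFinset (fun i => if i ∈ J then Finset.range N else {0}))) with hS
  -- coordinates of the stretched point
  have hz : ∀ x ∈ X, ∀ i, |Psi κ x i - z i| ≤ δ := by
    intro x hx i
    have h := hx.2.2.2.1
    rw [mem_closedBall, dist_pi_le_iff hδ.le] at h
    have := h i
    rwa [Real.dist_eq] at this
  -- the codes of the points of `X`
  have hcode : ∀ x ∈ X, costA_code κ z δ x ∈ S := by
    intro x hx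
    obtain ⟨hx1, hx2, hx3, hx4, hx5⟩ := hx
    have hzx := hz x ⟨hx1, hx2, hx3, hx4, hx5⟩
    rw [hS, Finset.mem_sigma]
    unfold costA_code
    simp only
    refine ⟨?_, ?_⟩
    · rw [hA, Finset.mem_filter]
      refine ⟨by simp, ?_, ?_, ?_⟩
      · obtain ⟨i, hi⟩ := hκ.psi_int x hx2 hx1 hx3
        rw [Nat.one_le_iff_ne_zero, Finset.card_ne_zero]
        exact ⟨i, by simp [hi]⟩
      · by_contra hcon
        rw [not_le] at hcon
        apply hx5
        refine ⟨_, hcon, ?_⟩
        intro i hi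
        rw [Finset.mem_filter] at hi
        exact hκ.int_of_le x hx2 i hi.2
      · intro i hi
        rw [Finset.mem_filter] at hi
        obtain ⟨n, hn⟩ := hκ.int_of_le x hx2 i hi.2
        refine ⟨n, ?_⟩
        rw [← hn, abs_sub_comm]
        exact hzx i
    · rw [Finset.mem_product]
      refine ⟨?_, ?_⟩
      · rw [Fintype.mem_piFinset]
        intro i
        simp only
        have h1 := hκ.psi_cube x i
        have h2 := abs_le.1 (hzx i)
        have h3 := Int.floor_le (z i)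
        have h4 := Int.lt_floor_add_one (z i)
        rw [Finset.mem_Icc]
        constructor
        · have : ((⌊z i⌋ : ℤ) : ℝ) - 2 < ⌊x i⌋ := by linarith [h1.2, h2.1]
          have : ⌊z i⌋ - 2 < ⌊x i⌋ := by exact_mod_cast this
          linarith
        · have : (⌊x i⌋ : ℝ) < (⌊z i⌋ : ℤ) + 2 := by linarith [h1.1, h2.2]
          have : ⌊x i⌋ < ⌊z i⌋ + 2 := by exact_mod_cast this
          linarith
      · rw [Fintype.mem_piFinset]
        intro i
        simp only [Finset.mem_filter, Finset.mem_univ, true_and]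
        by_cases hi : κ x ≤ uu (x i)
        · rw [if_pos hi, if_pos hi, Finset.mem_range, hN, Nat.lt_succ_iff]
          apply Nat.floor_mono
          apply div_le_div_of_nonneg_right _ hδ.le
          have := Int.lt_floor_add_one (x i)
          linarith
        · rw [if_neg hi, if_neg hi]
          simp
  -- the number of codes
  have hcard : (S.card : ℝ) = ∑ J ∈ A, (3 : ℝ) ^ D * (N : ℝ) ^ J.card := by
    rw [hS, Finset.card_sigma, Nat.cast_sum]
    apply Finset.sum_congr rfl
    intro J hJ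
    rw [Finset.card_product, Fintype.card_piFinset, Fintype.card_piFinset]
    have e1 : ∏ i : Fin D, (Finset.Icc (-1 : ℤ) 1).card = 3 ^ D := by
      rw [Finset.prod_const, Finset.card_univ, Fintype.card_fin]
      rfl
    have e2 : ∏ i : Fin D, (if i ∈ J then Finset.range N else {0}).card = N ^ J.card := by
      have : ∀ i : Fin D, (if i ∈ J then Finset.range N else {0}).card =
          if i ∈ J then N else 1 := by
        intro i
        split_ifs <;> simp
      rw [Finset.prod_congr rfl (fun i _ => this i), Finset.prod_ite_mem, Finset.univ_inter,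
        Finset.prod_const]
    rw [e1, e2]
    push_cast
    ring
  have hNle : (N : ℝ) * δ ≤ 3 / 2 := by
    have h1 : (⌊1 / δ⌋₊ : ℝ) ≤ 1 / δ := Nat.floor_le (by positivity)
    have h2 : (⌊1 / δ⌋₊ : ℝ) * δ ≤ 1 := by
      rwa [le_div_iff₀ hδ] at h1
    rw [hN]
    push_cast
    nlinarith
  have hct : ct m z δ = ∑ J ∈ A, δ ^ (m - J.card) := by
    unfold ct
    rw [hA]
  refine ⟨S.image (Function.invFunOn (costA_code κ z δ) X), ?_, ?_⟩
  · intro x hx
    have hmem : Function.invFunOn (costA_code κ z δ) X (costA_code κ z δ x) ∈ X :=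
      Function.invFunOn_mem ⟨x, hx, rfl⟩
    have heq : costA_code κ z δ (Function.invFunOn (costA_code κ z δ) X (costA_code κ z δ x)) =
        costA_code κ z δ x := Function.invFunOn_eq ⟨x, hx, rfl⟩
    set x' := Function.invFunOn (costA_code κ z δ) X (costA_code κ z δ x) with hx'
    rw [mem_iUnion₂]
    refine ⟨x', Finset.mem_image_of_mem _ (hcode x hx), ?_⟩
    rw [mem_closedBall, dist_pi_le_iff (by linarith)]
    obtain ⟨h1, h2, h3⟩ := costA_eq heq.symm
    have key := hκ.inj x x' hx.2.1 hmem.2.1 h1 h2 δ (2 * δ) hδ.le ?_ ?_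
    · intro i
      have := key i
      rw [Real.dist_eq]
      linarith
    · intro i hi
      have h4 : |(x i - ⌊x i⌋) - (x' i - ⌊x' i⌋)| ≤ δ :=
        costA_cell hδ (by linarith [Int.floor_le (x i)]) (by linarith [Int.floor_le (x' i)])
          (h3 i hi)
      have h5 : (x i - ⌊x i⌋) - (x' i - ⌊x' i⌋) = x i - x' i := by
        rw [h1 i]
        ring
      rwa [h5] at h4
    · intro i
      have h4 := abs_le.1 (hz x hx i)
      have h5 := abs_le.1 (hz x' hmem i)
      rw [abs_le]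
      constructor <;> linarith
  · have h1 : ((S.image (Function.invFunOn (costA_code κ z δ) X)).card : ℝ) ≤ S.card := by
      exact_mod_cast Finset.card_image_le
    calc ((S.image (Function.invFunOn (costA_code κ z δ) X)).card : ℝ) * δ ^ m
        ≤ S.card * δ ^ m := by gcongr
      _ = ∑ J ∈ A, (3 : ℝ) ^ D * (N : ℝ) ^ J.card * δ ^ m := by
        rw [hcard, Finset.sum_mul]
      _ ≤ ∑ J ∈ A, 3 ^ D * (3 / 2) ^ m * δ ^ (m - J.card) := by
        apply Finset.sum_le_sum
        intro J hJ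
        rw [hA, Finset.mem_filter] at hJ
        have hJm := hJ.2.2.1
        have e : δ ^ m = δ ^ J.card * δ ^ (m - J.card) := by
          rw [← pow_add]
          congr 1
          omega
        have h2 : ((N : ℝ) * δ) ^ J.card ≤ (3 / 2) ^ m := by
          calc ((N : ℝ) * δ) ^ J.card ≤ (3 / 2) ^ J.card := by gcongr
            _ ≤ (3 / 2) ^ m := pow_le_pow_right₀ (by norm_num) hJm
        calc (3 : ℝ) ^ D * (N : ℝ) ^ J.card * δ ^ m
            = 3 ^ D * ((N : ℝ) * δ) ^ J.card * δ ^ (m - J.card) := by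
              rw [e, mul_pow]
              ring
          _ ≤ 3 ^ D * (3 / 2) ^ m * δ ^ (m - J.card) := by gcongr
      _ = 3 ^ D * (3 / 2) ^ m * ct m z δ := by
        rw [hct, Finset.mul_sum]

end NR
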