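import Pool.Agent.NR.Defs

/-!
# The faces which meet a small ball (project NR)
-/

set_option autoImplicit false

open MeasureTheory Metric Set Filter Module
open scoped Topology MeasureTheory RealInnerProductSpace Nat Pointwise

namespace NR

theorem costF_ct_nonneg {D : ℕ} (m : ℕ) (z : Fin D → ℝ) {δ : ℝ} (hδ : 0 < δ) :
    0 ≤ ct m z δ := by
  unfold ct
  exact Finset.sum_nonneg (fun J _ => pow_nonneg hδ.le _)

theorem costF_ct_one {m d : ℕ} (hm : 1 ≤ m) (z : Fin (m + d) → ℝ) {δ : ℝ} (hδ : 0 < δ)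
    (e : Fin m ⊕ Fin d ≃ Fin (m + d)) (y : Fin m → ℤ)
    (hy : ∀ j, |z (e (Sum.inl j)) - y j| ≤ δ) : 1 ≤ ct m z δ := by
  classical
  unfold ct
  set J : Finset (Fin (m + d)) := Finset.univ.image (fun j : Fin m => e (Sum.inl j)) with hJ
  have hc : J.card = m := by
    rw [hJ, Finset.card_image_of_injective _
      (fun a b hab => Sum.inl_injective (e.injective hab))]
    simp
  have hle : δ ^ (m - J.card) ≤ ∑ J ∈ Finset.univ.powerset.filter
      (fun J : Finset (Fin (m + d)) => 1 ≤ J.card ∧ J.card ≤ m ∧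
        ∀ i ∈ J, ∃ n : ℤ, |z i - n| ≤ δ), δ ^ (m - J.card) := by
    refine Finset.single_le_sum (f := fun J : Finset (Fin (m + d)) => δ ^ (m - J.card))
      (fun K _ => pow_nonneg hδ.le _) ?_
    rw [Finset.mem_filter]
    refine ⟨by simp, by rw [hc]; exact hm, hc.le, ?_⟩
    intro i hi
    rw [hJ, Finset.mem_image] at hi
    obtain ⟨j, -, rfl⟩ := hi
    exact ⟨y j, hy j⟩
  have h1 : δ ^ (m - J.card) = 1 := by rw [hc]; simp
  rw [h1] at hle
  convert hle

theorem costF_near {m d : ℕ} {e : Fin m ⊕ Fin d ≃ Fin (m + d)} {y : Fin m → ℤ}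
    {p : Fin d → ℤ} {z : Fin (m + d) → ℝ} {δ : ℝ}
    (h : (fc e y p ∩ closedBall z δ).Nonempty) :
    (∀ j, |z (e (Sum.inl j)) - y j| ≤ δ) ∧
      ∀ l, (p l : ℝ) - δ ≤ z (e (Sum.inr l)) ∧ z (e (Sum.inr l)) ≤ p l + 1 + δ := by
  obtain ⟨x, ⟨q, hq, rfl⟩, hx⟩ := h
  rw [mem_closedBall] at hx
  have hco : ∀ i, |gl e (fun j => (y j : ℝ)) q i - z i| ≤ δ := fun i =>
    (Real.dist_eq _ _).symm.le.trans ((dist_le_pi_dist _ _ i).trans hx)
  refine ⟨fun j => ?_, fun l => ?_⟩
  · have := hco (e (Sum.inl j))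
    simp only [gl, Equiv.symm_apply_apply, Sum.elim_inl] at this
    rw [abs_sub_comm]
    exact this
  · have := hco (e (Sum.inr l))
    simp only [gl, Equiv.symm_apply_apply, Sum.elim_inr] at this
    rw [abs_le] at this
    have h1 := hq.1 l
    have h2 := hq.2 l
    simp only at h1 h2
    constructor <;> linarith [this.1, this.2]

theorem cost_face (m d : ℕ) (hm : 1 ≤ m) : ∃ C : ℝ, 0 < C ∧
    ∀ (z : Fin (m + d) → ℝ) (δ : ℝ), 0 < δ → δ ≤ 1 / 2 → ∃ T : Finset (Fin (m + d) → ℝ),
      (∀ (e : Fin m ⊕ Fin d ≃ Fin (m + d)) (y : Fin m → ℤ) (p : Fin d → ℤ),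
        (fc e y p ∩ closedBall z δ).Nonempty → cf e y p ∈ T) ∧
      (T.card : ℝ) ≤ C * ct m z δ := by
  classical
  set N : ℕ := (Finset.univ : Finset (Fin m ⊕ Fin d ≃ Fin (m + d))).card * (4 ^ m * 6 ^ d)
    with hN
  refine ⟨(N : ℝ) + 1, by positivity, ?_⟩
  intro z δ hδ hδ2
  by_cases hex : ∃ (e : Fin m ⊕ Fin d ≃ Fin (m + d)) (y : Fin m → ℤ) (p : Fin d → ℤ),
      (fc e y p ∩ closedBall z δ).Nonempty
  · set Y : (Fin m ⊕ Fin d ≃ Fin (m + d)) → Finset (Fin m → ℤ) := fun e =>
      Fintype.piFinset (fun j => Finset.Icc (⌊z (e (Sum.inl j))⌋ - 1)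
        (⌊z (e (Sum.inl j))⌋ + 2)) with hY
    set P : (Fin m ⊕ Fin d ≃ Fin (m + d)) → Finset (Fin d → ℤ) := fun e =>
      Fintype.piFinset (fun l => Finset.Icc (⌊z (e (Sum.inr l))⌋ - 3)
        (⌊z (e (Sum.inr l))⌋ + 2)) with hP
    refine ⟨Finset.univ.biUnion (fun e => (Y e ×ˢ P e).image (fun w => cf e w.1 w.2)),
      ?_, ?_⟩
    · intro e y p h
      obtain ⟨h1, h2⟩ := costF_near h
      rw [Finset.mem_biUnion]
      refine ⟨e, Finset.mem_univ _, Finset.mem_image.2 ⟨(y, p), ?_, rfl⟩⟩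
      rw [Finset.mem_product]
      constructor
      · rw [hY]
        simp only [Fintype.mem_piFinset, Finset.mem_Icc]
        intro j
        have h3 := abs_le.1 (h1 j)
        have h4 := Int.floor_le (z (e (Sum.inl j)))
        have h5 := Int.lt_floor_add_one (z (e (Sum.inl j)))
        constructor
        · have : ((⌊z (e (Sum.inl j))⌋ - 1 : ℤ) : ℝ) ≤ (y j : ℝ) := by
            push_cast
            linarith [h3.2]
          exact_mod_cast this
        · have : (y j : ℝ) ≤ ((⌊z (e (Sum.inl j))⌋ + 2 : ℤ) : ℝ) := by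
            push_cast
            linarith [h3.1]
          exact_mod_cast this
      · rw [hP]
        simp only [Fintype.mem_piFinset, Finset.mem_Icc]
        intro l
        have h3 := h2 l
        have h4 := Int.floor_le (z (e (Sum.inr l)))
        have h5 := Int.lt_floor_add_one (z (e (Sum.inr l)))
        constructor
        · have : ((⌊z (e (Sum.inr l))⌋ - 3 : ℤ) : ℝ) ≤ (p l : ℝ) := by
            push_cast
            linarith [h3.2]
          exact_mod_cast this
        · have : (p l : ℝ) ≤ ((⌊z (e (Sum.inr l))⌋ + 2 : ℤ) : ℝ) := by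
            push_cast
            linarith [h3.1]
          exact_mod_cast this
    · obtain ⟨e, y, p, h⟩ := hex
      have h1 := costF_ct_one hm z hδ e y (costF_near h).1
      have hcard : (Finset.univ.biUnion
          (fun e => (Y e ×ˢ P e).image (fun w => cf e w.1 w.2))).card ≤ N := by
        refine (Finset.card_biUnion_le_card_mul _ _ (4 ^ m * 6 ^ d) ?_)
        intro e _
        refine Finset.card_image_le.trans ?_
        rw [Finset.card_product]
        refine Nat.mul_le_mul ?_ ?_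
        · rw [hY]
          simp only [Fintype.card_piFinset, Int.card_Icc]
          have : ∀ t : ℤ, (t + 2 + 1 - (t - 1)).toNat = 4 := fun t => by omega
          simp [this]
        · rw [hP]
          simp only [Fintype.card_piFinset, Int.card_Icc]
          have : ∀ t : ℤ, (t + 2 + 1 - (t - 3)).toNat = 6 := fun t => by omega
          simp [this]
      have h2 : ((Finset.univ.biUnion
          (fun e => (Y e ×ˢ P e).image (fun w => cf e w.1 w.2))).card : ℝ) ≤ N := by
        exact_mod_cast hcard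
      have h3 : (0 : ℝ) ≤ N := Nat.cast_nonneg _
      nlinarith
  · refine ⟨∅, ?_, ?_⟩
    · intro e y p h
      exact absurd ⟨e, y, p, h⟩ hex
    · simp only [Finset.card_empty, Nat.cast_zero]
      exact mul_nonneg (by positivity) (costF_ct_nonneg m z hδ)

end NR
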