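import Pool.Agent.NR.Defs

/-!
# Project NR, row 14: a translate of the grid with small total cost
-/

set_option autoImplicit false

open MeasureTheory Metric Set Filter Module
open scoped Topology MeasureTheory RealInnerProductSpace Nat Pointwise NNReal ENNReal

namespace NR

/-- the translates for which the ball meets the grid in the coordinates of `J` -/
private def costT_set {D : ℕ} (J : Finset (Fin D)) (z : Fin D → ℝ) (δ : ℝ) : Set (Fin D → ℝ) :=
  {τ | ∀ i ∈ J, ∃ n : ℤ, |z i - τ i - n| ≤ δ}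

private theorem costT_meas {D : ℕ} (J : Finset (Fin D)) (z : Fin D → ℝ) (δ : ℝ) :
    MeasurableSet (costT_set J z δ) := by
  have h : costT_set J z δ = ⋂ i ∈ J, ⋃ n : ℤ, {τ : Fin D → ℝ | |z i - τ i - n| ≤ δ} := by
    ext τ
    simp [costT_set]
  rw [h]
  refine Finset.measurableSet_biInter J (fun i _ => MeasurableSet.iUnion fun n => ?_)
  refine (isClosed_le ?_ continuous_const).measurableSet
  fun_prop

private theorem costT_one {z δ : ℝ} (hδ : 0 < δ) (h2 : δ ≤ 1 / 2) :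
    volume {t : ℝ | t ∈ Icc (0 : ℝ) 1 ∧ ∃ n : ℤ, |z - t - n| ≤ δ} ≤ ENNReal.ofReal (6 * δ) := by
  have hsub : {t : ℝ | t ∈ Icc (0 : ℝ) 1 ∧ ∃ n : ℤ, |z - t - n| ≤ δ} ⊆
      (Icc (z - (⌊z⌋ - 1) - δ) (z - (⌊z⌋ - 1) + δ) ∪ Icc (z - ⌊z⌋ - δ) (z - ⌊z⌋ + δ)) ∪
        Icc (z - (⌊z⌋ + 1) - δ) (z - (⌊z⌋ + 1) + δ) := by
    rintro t ⟨⟨h0, h1⟩, n, hn⟩
    rw [abs_le] at hn
    have hfl := Int.floor_le z
    have hfl2 := Int.lt_floor_add_one z
    have h3 : n ≤ ⌊z⌋ + 1 := by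
      have h5 : (n : ℝ) < ⌊z⌋ + 2 := by linarith
      have h6 : n < ⌊z⌋ + 2 := by exact_mod_cast h5
      omega
    have h4 : ⌊z⌋ - 1 ≤ n := by
      have h5 : (⌊z⌋ : ℝ) - 2 < n := by linarith
      have h6 : ⌊z⌋ - 2 < n := by exact_mod_cast h5
      omega
    have h7 : n = ⌊z⌋ - 1 ∨ n = ⌊z⌋ ∨ n = ⌊z⌋ + 1 := by omega
    rcases h7 with h7 | h7 | h7
    · left; left
      rw [h7] at hn
      push_cast at hn
      constructor <;> linarith
    · left; right
      rw [h7] at hn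
      constructor <;> linarith
    · right
      rw [h7] at hn
      push_cast at hn
      constructor <;> linarith
  refine (measure_mono hsub).trans ?_
  refine (measure_union_le _ _).trans ?_
  refine (add_le_add (measure_union_le _ _) le_rfl).trans ?_
  rw [Real.volume_Icc, Real.volume_Icc, Real.volume_Icc, ← ENNReal.ofReal_add (by linarith)
    (by linarith), ← ENNReal.ofReal_add (by linarith) (by linarith)]
  exact ENNReal.ofReal_le_ofReal (by linarith)

private theorem costT_vol {D : ℕ} (J : Finset (Fin D)) (z : Fin D → ℝ) {δ : ℝ} (hδ : 0 < δ)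
    (h2 : δ ≤ 1 / 2) :
    volume (costT_set J z δ ∩ Icc (0 : Fin D → ℝ) 1) ≤ ENNReal.ofReal ((6 * δ) ^ J.card) := by
  classical
  have hsub : costT_set J z δ ∩ Icc (0 : Fin D → ℝ) 1 ⊆ Set.pi univ (fun i =>
      if i ∈ J then {t : ℝ | t ∈ Icc (0 : ℝ) 1 ∧ ∃ n : ℤ, |z i - t - n| ≤ δ}
      else Icc (0 : ℝ) 1) := by
    rintro τ ⟨h1, h3⟩ i -
    have h4 : τ i ∈ Icc (0 : ℝ) 1 := ⟨h3.1 i, h3.2 i⟩
    by_cases hi : i ∈ J
    · simp only [hi, if_true]
      exact ⟨h4, h1 i hi⟩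
    · simp only [hi, if_false]
      exact h4
  refine (measure_mono hsub).trans ?_
  rw [volume_pi_pi]
  calc ∏ i, volume (if i ∈ J then {t : ℝ | t ∈ Icc (0 : ℝ) 1 ∧ ∃ n : ℤ, |z i - t - n| ≤ δ}
        else Icc (0 : ℝ) 1)
      ≤ ∏ i : Fin D, (if i ∈ J then ENNReal.ofReal (6 * δ) else 1) := by
        refine Finset.prod_le_prod' fun i _ => ?_
        by_cases hi : i ∈ J
        · simp only [hi, if_true]
          exact costT_one hδ h2
        · simp only [hi, if_false]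
          rw [Real.volume_Icc]
          simp
    _ = ENNReal.ofReal ((6 * δ) ^ J.card) := by
        rw [Finset.prod_ite_mem, Finset.univ_inter, Finset.prod_const, ENNReal.ofReal_pow
          (by linarith)]

private noncomputable def costT_f {D : ℕ} (m : ℕ) (z : Fin D → ℝ) (δ : ℝ) (τ : Fin D → ℝ) :
    ℝ≥0∞ :=
  ∑ J ∈ (Finset.univ : Finset (Fin D)).powerset.filter (fun J => 1 ≤ J.card ∧ J.card ≤ m),
    (costT_set J z δ).indicator (fun _ => ENNReal.ofReal (δ ^ (m - J.card))) τ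

private theorem costT_eq {D : ℕ} (m : ℕ) (z τ : Fin D → ℝ) {δ : ℝ} (hδ : 0 < δ) :
    ENNReal.ofReal (ct m (z - τ) δ) = costT_f m z δ τ := by
  classical
  unfold ct costT_f
  rw [ENNReal.ofReal_sum_of_nonneg (fun J _ => by positivity), Finset.sum_filter,
    Finset.sum_filter]
  refine Finset.sum_congr rfl fun J _ => ?_
  by_cases h1 : 1 ≤ J.card ∧ J.card ≤ m
  · rw [if_pos h1]
    by_cases h3 : τ ∈ costT_set J z δ
    · rw [indicator_of_mem h3, if_pos]
      exact ⟨h1.1, h1.2, fun i hi => h3 i hi⟩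
    · rw [indicator_of_notMem h3, if_neg]
      rintro ⟨_, _, h4⟩
      exact h3 fun i hi => h4 i hi
  · rw [if_neg h1, if_neg]
    rintro ⟨h2, h3, _⟩
    exact h1 ⟨h2, h3⟩

private theorem costT_f_meas {D : ℕ} (m : ℕ) (z : Fin D → ℝ) (δ : ℝ) :
    Measurable (costT_f m z δ) := by
  unfold costT_f
  exact Finset.measurable_fun_sum _ fun J _ => measurable_const.indicator (costT_meas J z δ)

private theorem costT_int {D : ℕ} (m : ℕ) (z : Fin D → ℝ) {δ : ℝ} (hδ : 0 < δ)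
    (h2 : δ ≤ 1 / 2) :
    ∫⁻ τ in Icc (0 : Fin D → ℝ) 1, costT_f m z δ τ ≤ ENNReal.ofReal
      ((∑ J ∈ (Finset.univ : Finset (Fin D)).powerset, (6 : ℝ) ^ J.card) * δ ^ m) := by
  classical
  unfold costT_f
  rw [lintegral_finsetSum _ fun J _ => measurable_const.indicator (costT_meas J z δ)]
  have hle : ∀ J ∈ (Finset.univ : Finset (Fin D)).powerset.filter
      (fun J => 1 ≤ J.card ∧ J.card ≤ m),
      ∫⁻ τ in Icc (0 : Fin D → ℝ) 1, (costT_set J z δ).indicator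
        (fun _ => ENNReal.ofReal (δ ^ (m - J.card))) τ ≤
        ENNReal.ofReal ((6 : ℝ) ^ J.card * δ ^ m) := by
    intro J hJ
    have h4 := (Finset.mem_filter.1 hJ).2
    rw [lintegral_indicator (costT_meas J z δ), setLIntegral_const,
      Measure.restrict_apply (costT_meas J z δ)]
    refine (mul_le_mul' le_rfl (costT_vol J z hδ h2)).trans ?_
    rw [← ENNReal.ofReal_mul (by positivity)]
    refine ENNReal.ofReal_le_ofReal (le_of_eq ?_)
    rw [mul_pow]
    have h5 : δ ^ m = δ ^ (m - J.card) * δ ^ J.card := by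
      rw [← pow_add, Nat.sub_add_cancel h4.2]
    rw [h5]
    ring
  refine (Finset.sum_le_sum hle).trans ?_
  rw [← ENNReal.ofReal_sum_of_nonneg fun J _ => by positivity]
  refine ENNReal.ofReal_le_ofReal ?_
  rw [Finset.sum_mul]
  exact Finset.sum_le_sum_of_subset_of_nonneg (Finset.filter_subset _ _)
    fun J _ _ => by positivity

private theorem costT_ct_nonneg {D : ℕ} (m : ℕ) (z : Fin D → ℝ) {δ : ℝ} (hδ : 0 < δ) :
    0 ≤ ct m z δ := by
  classical
  unfold ct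
  exact Finset.sum_nonneg fun J _ => by positivity

theorem exists_tau (m D : ℕ) : ∃ C : ℝ, 0 < C ∧ ∀ (z : ℕ → Fin D → ℝ) (δ : ℕ → ℝ),
    (∀ n, 0 < δ n ∧ δ n ≤ 1 / 2) → Summable (fun n => δ n ^ m) →
    ∀ N : Set (Fin D → ℝ), volume N = 0 → ∃ τ ∈ Icc (0 : Fin D → ℝ) 1, τ ∉ N ∧
      Summable (fun n => ct m (z n - τ) (δ n)) ∧
      ∑' n, ct m (z n - τ) (δ n) ≤ C * ∑' n, δ n ^ m := by
  classical
  have hC : 0 < ∑ J ∈ (Finset.univ : Finset (Fin D)).powerset, (6 : ℝ) ^ J.card :=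
    Finset.sum_pos (fun J _ => by positivity) ⟨∅, by simp⟩
  refine ⟨∑ J ∈ (Finset.univ : Finset (Fin D)).powerset, (6 : ℝ) ^ J.card, hC, ?_⟩
  intro z δ hδ hsum N hN
  set C : ℝ := ∑ J ∈ (Finset.univ : Finset (Fin D)).powerset, (6 : ℝ) ^ J.card with hCdef
  set μ : Measure (Fin D → ℝ) := volume.restrict (Icc (0 : Fin D → ℝ) 1) with hμ
  have hvol : volume (Icc (0 : Fin D → ℝ) 1) = 1 := by
    rw [Real.volume_Icc_pi]
    simp
  have hprob : IsProbabilityMeasure μ := ⟨by rw [hμ, Measure.restrict_apply_univ, hvol]⟩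
  have hmeas : ∀ n, AEMeasurable (costT_f m (z n) (δ n)) μ :=
    fun n => (costT_f_meas m (z n) (δ n)).aemeasurable
  have hN' : μ (N ∪ (Icc (0 : Fin D → ℝ) 1)ᶜ) = 0 := by
    refine le_antisymm ((measure_union_le _ _).trans ?_) bot_le
    have h1 : μ N = 0 := by
      refine le_antisymm ?_ bot_le
      calc μ N ≤ volume N := Measure.restrict_apply_le _ _
        _ = 0 := hN
    have h3 : μ (Icc (0 : Fin D → ℝ) 1)ᶜ = 0 := by
      rw [hμ, Measure.restrict_apply measurableSet_Icc.compl]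
      simp
    rw [h1, h3]
    simp
  obtain ⟨τ, hτ, hle⟩ := exists_notMem_null_le_lintegral
    (f := fun τ => ∑' n, costT_f m (z n) (δ n) τ) (AEMeasurable.tsum hmeas) hN'
  have hτ1 : τ ∈ Icc (0 : Fin D → ℝ) 1 := by
    by_contra h
    exact hτ (Or.inr h)
  have hτ2 : τ ∉ N := fun h => hτ (Or.inl h)
  have hbound : ∑' n, ENNReal.ofReal (ct m (z n - τ) (δ n)) ≤
      ENNReal.ofReal (C * ∑' n, δ n ^ m) := by
    calc ∑' n, ENNReal.ofReal (ct m (z n - τ) (δ n)) = ∑' n, costT_f m (z n) (δ n) τ :=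
          tsum_congr fun n => costT_eq m (z n) τ (hδ n).1
      _ ≤ ∫⁻ τ, ∑' n, costT_f m (z n) (δ n) τ ∂μ := hle
      _ = ∑' n, ∫⁻ τ, costT_f m (z n) (δ n) τ ∂μ := lintegral_tsum hmeas
      _ ≤ ∑' n, ENNReal.ofReal (C * δ n ^ m) :=
          ENNReal.tsum_le_tsum fun n => costT_int m (z n) (hδ n).1 (hδ n).2
      _ = ENNReal.ofReal (∑' n, C * δ n ^ m) := by
          rw [ENNReal.ofReal_tsum_of_nonneg (fun n => mul_nonneg hC.le (pow_nonneg (hδ n).1.le m))
            (hsum.mul_left C)]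
      _ = ENNReal.ofReal (C * ∑' n, δ n ^ m) := by rw [tsum_mul_left]
  have hnn : ∀ n, 0 ≤ ct m (z n - τ) (δ n) := fun n => costT_ct_nonneg m _ (hδ n).1
  have hfin : ∑' n, ENNReal.ofReal (ct m (z n - τ) (δ n)) ≠ ⊤ :=
    ne_top_of_le_ne_top ENNReal.ofReal_ne_top hbound
  have hs : Summable (fun n => ct m (z n - τ) (δ n)) := by
    have h1 := ENNReal.summable_toReal hfin
    refine h1.congr fun n => ?_
    rw [ENNReal.toReal_ofReal (hnn n)]
  refine ⟨τ, hτ1, hτ2, hs, ?_⟩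
  rw [← ENNReal.ofReal_tsum_of_nonneg hnn hs] at hbound
  exact (ENNReal.ofReal_le_ofReal_iff (mul_nonneg hC.le
    (tsum_nonneg fun n => pow_nonneg (hδ n).1.le m))).1 hbound

end NR
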