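import Pool.Agent.NR.Defs

/-!
# NR-18: coverings by small balls, the coordinate isometry (project NR)
-/

set_option autoImplicit false

open MeasureTheory Metric Set Filter Module
open scoped Topology MeasureTheory RealInnerProductSpace Nat Pointwise NNReal ENNReal

namespace NR

theorem cover_small {D m : ℕ} (hm : 1 ≤ m) {Z : Set (Fin D → ℝ)} {η : ℝ} (hη : 0 < η)
    (h : μH[m] Z < ENNReal.ofReal η) {r : ℝ} (hr : 0 < r) :
    ∃ (z : ℕ → Fin D → ℝ) (δ : ℕ → ℝ), (∀ n, 0 < δ n ∧ δ n ≤ r) ∧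
      Z ⊆ ⋃ n, closedBall (z n) (δ n) ∧ Summable (fun n => δ n ^ m) ∧
      ∑' n, δ n ^ m ≤ 2 * η := by
  have hm0 : m ≠ 0 := by omega
  rw [Measure.hausdorffMeasure_apply] at h
  have hr' : 0 < ENNReal.ofReal r := ENNReal.ofReal_pos.2 hr
  have h1 := lt_of_le_of_lt (le_iSup₂ (f := fun (r : ℝ≥0∞) (_ : 0 < r) =>
    ⨅ (t : ℕ → Set (Fin D → ℝ)) (_ : Z ⊆ ⋃ n, t n) (_ : ∀ n, ediam (t n) ≤ r),
      ∑' n, ⨆ _ : (t n).Nonempty, ediam (t n) ^ (m : ℝ)) (ENNReal.ofReal r) hr') h
  simp only [iInf_lt_iff] at h1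
  obtain ⟨t, ht, hd, hs⟩ := h1
  -- the small radii
  set ε : ℕ → ℝ := fun n => min r (min 1 (η / 2 / 2 ^ n)) with hε
  have hε0 : ∀ n, 0 < ε n := fun n => by
    simp only [hε]
    exact lt_min hr (lt_min one_pos (by positivity))
  have hεr : ∀ n, ε n ≤ r := fun n => min_le_left _ _
  have hε1 : ∀ n, ε n ≤ 1 := fun n => (min_le_right _ _).trans (min_le_left _ _)
  have hεη : ∀ n, ε n ^ m ≤ η / 2 / 2 ^ n := fun n =>
    (pow_le_of_le_one (hε0 n).le (hε1 n) hm0).trans
      ((min_le_right _ _).trans (min_le_right _ _))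
  have hgeo : HasSum (fun n : ℕ => η / 2 / 2 ^ n) η := hasSum_geometric_two' η
  have hεs : Summable (fun n => ε n ^ m) :=
    Summable.of_nonneg_of_le (fun n => pow_nonneg (hε0 n).le m) hεη hgeo.summable
  have hεt : ∑' n, ε n ^ m ≤ η := by
    rw [← hgeo.tsum_eq]
    exact hεs.tsum_le_tsum hεη hgeo.summable
  -- the diameters
  set a : ℕ → ℝ := fun n => (ediam (t n)).toReal with ha
  have hfin : ∀ n, ediam (t n) ≠ ⊤ := fun n => ((hd n).trans_lt ENNReal.ofReal_lt_top).ne
  have ha0 : ∀ n, 0 ≤ a n := fun n => ENNReal.toReal_nonneg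
  have har : ∀ n, a n ≤ r := fun n => by
    have := ENNReal.toReal_mono ENNReal.ofReal_ne_top (hd n)
    rwa [ENNReal.toReal_ofReal hr.le] at this
  have hterm : ∀ n, ENNReal.ofReal (a n ^ m) ≤ ⨆ _ : (t n).Nonempty, ediam (t n) ^ (m : ℝ) := by
    intro n
    by_cases hne : (t n).Nonempty
    · rw [ENNReal.ofReal_pow (ha0 n), ENNReal.ofReal_toReal (hfin n)]
      refine le_iSup_of_le hne ?_
      rw [ENNReal.rpow_natCast]
    · rw [Set.not_nonempty_iff_eq_empty] at hne
      simp [ha, hne, hm0]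
  have hsum : ∑' n, ENNReal.ofReal (a n ^ m) < ENNReal.ofReal η :=
    lt_of_le_of_lt (ENNReal.tsum_le_tsum hterm) hs
  have has : Summable (fun n => a n ^ m) := by
    have h2 : Summable (fun n => (ENNReal.ofReal (a n ^ m)).toReal) :=
      ENNReal.summable_toReal (hsum.trans_le le_top).ne
    refine h2.congr fun n => ?_
    rw [ENNReal.toReal_ofReal (pow_nonneg (ha0 n) m)]
  have hat : ∑' n, a n ^ m ≤ η := by
    have h3 : ENNReal.ofReal (∑' n, a n ^ m) = ∑' n, ENNReal.ofReal (a n ^ m) :=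
      ENNReal.ofReal_tsum_of_nonneg (fun n => pow_nonneg (ha0 n) m) has
    have h4 : ENNReal.ofReal (∑' n, a n ^ m) < ENNReal.ofReal η := by rw [h3]; exact hsum
    exact ((ENNReal.ofReal_lt_ofReal_iff hη).1 h4).le
  have hle : ∀ n, max (a n) (ε n) ^ m ≤ a n ^ m + ε n ^ m := fun n => by
    rcases le_total (a n) (ε n) with h6 | h6
    · rw [max_eq_right h6]; linarith [pow_nonneg (ha0 n) m]
    · rw [max_eq_left h6]; linarith [pow_nonneg (hε0 n).le m]
  have hsm : Summable (fun n => max (a n) (ε n) ^ m) :=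
    Summable.of_nonneg_of_le (fun n => pow_nonneg ((ha0 n).trans (le_max_left _ _)) m) hle
      (has.add hεs)
  classical
  refine ⟨fun n => if hne : (t n).Nonempty then hne.choose else 0, fun n => max (a n) (ε n),
    fun n => ⟨lt_max_of_lt_right (hε0 n), max_le (har n) (hεr n)⟩, ?_, ?_, ?_⟩
  · intro x hx
    obtain ⟨n, hn⟩ := mem_iUnion.1 (ht hx)
    refine mem_iUnion.2 ⟨n, ?_⟩
    have hne : (t n).Nonempty := ⟨x, hn⟩
    simp only [dif_pos hne, mem_closedBall]
    refine le_max_of_le_left ?_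
    have h5 : edist x hne.choose ≤ ediam (t n) := edist_le_ediam_of_mem hn hne.choose_spec
    rw [dist_edist]
    exact ENNReal.toReal_mono (hfin n) h5
  · exact hsm
  · calc ∑' n, max (a n) (ε n) ^ m ≤ ∑' n, (a n ^ m + ε n ^ m) :=
          hsm.tsum_le_tsum hle (has.add hεs)
      _ = ∑' n, a n ^ m + ∑' n, ε n ^ m := has.tsum_add hεs
      _ ≤ 2 * η := by linarith

theorem gl_isometry {m d : ℕ} (e : Fin m ⊕ Fin d ≃ Fin (m + d)) :
    Isometry (fun z : (Fin m → ℝ) × (Fin d → ℝ) => gl e z.1 z.2) ∧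
    Function.Surjective (fun z : (Fin m → ℝ) × (Fin d → ℝ) => gl e z.1 z.2) := by
  constructor
  · refine Isometry.of_dist_eq fun z w => ?_
    refine le_antisymm ?_ ?_
    · refine (dist_pi_le_iff dist_nonneg).2 fun i => ?_
      rw [Prod.dist_eq]
      obtain ⟨s, rfl⟩ := e.surjective i
      rcases s with j | l
      · simp only [gl, Equiv.symm_apply_apply, Sum.elim_inl]
        exact (dist_le_pi_dist z.1 w.1 j).trans (le_max_left _ _)
      · simp only [gl, Equiv.symm_apply_apply, Sum.elim_inr]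
        exact (dist_le_pi_dist z.2 w.2 l).trans (le_max_right _ _)
    · rw [Prod.dist_eq]
      refine max_le ?_ ?_
      · refine (dist_pi_le_iff dist_nonneg).2 fun j => ?_
        have := dist_le_pi_dist (gl e z.1 z.2) (gl e w.1 w.2) (e (Sum.inl j))
        simpa only [gl, Equiv.symm_apply_apply, Sum.elim_inl] using this
      · refine (dist_pi_le_iff dist_nonneg).2 fun l => ?_
        have := dist_le_pi_dist (gl e z.1 z.2) (gl e w.1 w.2) (e (Sum.inr l))
        simpa only [gl, Equiv.symm_apply_apply, Sum.elim_inr] using this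
  · intro x
    refine ⟨(fun j => x (e (Sum.inl j)), fun l => x (e (Sum.inr l))), ?_⟩
    funext i
    obtain ⟨s, rfl⟩ := e.surjective i
    rcases s with j | l
    · simp only [gl, Equiv.symm_apply_apply, Sum.elim_inl]
    · simp only [gl, Equiv.symm_apply_apply, Sum.elim_inr]

end NR
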