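import Mathlib

/-!
# Sperner partitions without rectifiability: definitions (project NR)

Modification of a closed cover on a small grid. All spaces `Fin n → ℝ` carry the maximum norm.
-/

set_option autoImplicit false

open MeasureTheory Metric Set Filter Module
open scoped Topology MeasureTheory RealInnerProductSpace Nat Pointwise

namespace NR

/-- the points which lie in at least `n` of the sets -/
def mult {X : Type*} {k : ℕ} (A : Fin k → Set X) (n : ℕ) : Set X :=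
  {x | ∃ T : Finset (Fin k), n ≤ T.card ∧ ∀ i ∈ T, x ∈ A i}

/-- the boundary of the box `Icc a b` -/
def Bd {n : ℕ} (a b : Fin n → ℝ) : Set (Fin n → ℝ) :=
  {x | x ∈ Icc a b ∧ ∃ l, x l = a l ∨ x l = b l}

/-- the open box -/
def Ob {n : ℕ} (a b : Fin n → ℝ) : Set (Fin n → ℝ) := {x | ∀ l, a l < x l ∧ x l < b l}

/-- the centre of the box -/
noncomputable def ctr {n : ℕ} (a b : Fin n → ℝ) : Fin n → ℝ := fun l => (a l + b l) / 2

/-- the sets `B` are a closed cover of the box which agrees with `A` on the boundary -/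
structure IsFill {k n : ℕ} (A : Fin k → Set (Fin n → ℝ)) (a b : Fin n → ℝ)
    (B : Fin k → Set (Fin n → ℝ)) : Prop where
  closed : ∀ i, IsClosed (B i)
  sub : ∀ i, B i ⊆ Icc a b
  cover : Icc a b ⊆ ⋃ i, B i
  bd : ∀ x ∈ Bd a b, ∀ i, x ∈ B i ↔ x ∈ A i

/-- the cover of the boundary of the box extends to a closed cover of the box with at most `d`
sets at every point -/
def Fillable {k n : ℕ} (d : ℕ) (A : Fin k → Set (Fin n → ℝ)) (a b : Fin n → ℝ) : Prop :=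
  ∃ B : Fin k → Set (Fin n → ℝ), IsFill A a b B ∧ mult B (d + 1) = ∅

/-- the slice over `y` -/
def sl {k m d : ℕ} (A : Fin k → Set ((Fin m → ℝ) × (Fin d → ℝ))) (y : Fin m → ℝ) :
    Fin k → Set (Fin d → ℝ) := fun i => {p | (y, p) ∈ A i}

/-- the points over which the boundary of the cube at `p` of side `s` meets `S` -/
def BadS {m d : ℕ} (S : Set ((Fin m → ℝ) × (Fin d → ℝ))) (p : Fin d → ℝ) (s : ℝ) :
    Set (Fin m → ℝ) := {y | ∃ p' ∈ Bd p (fun l => p l + s), (y, p') ∈ S}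

/-- no line parallel to a coordinate axis which is used by the staircase path from `y` to `y'`
meets `Z` in `B` -/
def Gd {m : ℕ} (Z B : Set (Fin m → ℝ)) (y y' : Fin m → ℝ) : Prop :=
  ∀ i : Fin m, ∀ z ∈ B, (∀ j, j < i → z j = y' j) → (∀ j, i < j → z j = y j) → z ∉ Z

/-- the point of `ℝ ^ (m + d)` with the two groups `y`, `p` of coordinates -/
def gl {m d : ℕ} (e : Fin m ⊕ Fin d ≃ Fin (m + d)) (y : Fin m → ℝ) (p : Fin d → ℝ) :
    Fin (m + d) → ℝ := fun i => Sum.elim y p (e.symm i)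

/-- the sets in the product coordinates -/
def pr {k m d : ℕ} (e : Fin m ⊕ Fin d ≃ Fin (m + d)) (A : Fin k → Set (Fin (m + d) → ℝ)) :
    Fin k → Set ((Fin m → ℝ) × (Fin d → ℝ)) := fun i => {z | gl e z.1 z.2 ∈ A i}

/-- the `d`-dimensional face of the unit grid in the directions `e (inr l)` -/
def fc {m d : ℕ} (e : Fin m ⊕ Fin d ≃ Fin (m + d)) (y : Fin m → ℤ) (p : Fin d → ℤ) :
    Set (Fin (m + d) → ℝ) :=
  {x | ∃ q ∈ Icc (fun l => (p l : ℝ)) (fun l => (p l : ℝ) + 1), x = gl e (fun j => (y j : ℝ)) q}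

/-- the centre of the face -/
noncomputable def cf {m d : ℕ} (e : Fin m ⊕ Fin d ≃ Fin (m + d)) (y : Fin m → ℤ)
    (p : Fin d → ℤ) : Fin (m + d) → ℝ := gl e (fun j => (y j : ℝ)) (fun l => (p l : ℝ) + 1 / 2)

/-- the face is fillable -/
def FillF {k m d : ℕ} (A : Fin k → Set (Fin (m + d) → ℝ)) (e : Fin m ⊕ Fin d ≃ Fin (m + d))
    (y : Fin m → ℤ) (p : Fin d → ℤ) : Prop :=
  Fillable d (sl (pr e A) (fun j => (y j : ℝ))) (fun l => (p l : ℝ)) (fun l => (p l : ℝ) + 1)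

/-- the union of the unit cubes with lower corner in `Q` -/
def FF {D : ℕ} (Q : Finset (Fin D → ℤ)) : Set (Fin D → ℝ) :=
  ⋃ n ∈ Q, Icc (fun i => (n i : ℝ)) (fun i => (n i : ℝ) + 1)

/-- the distance from the midpoint of the unit interval between integers -/
noncomputable def uu (t : ℝ) : ℝ := |t - (⌊t⌋ + 1 / 2)|

/-- the stretching of the unit intervals -/
noncomputable def psi (c t : ℝ) : ℝ :=
  ⌊t⌋ + 1 / 2 + max (-(1 / 2)) (min (1 / 2) ((t - (⌊t⌋ + 1 / 2)) / (2 * c)))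

/-- the stretching of the unit cubes -/
noncomputable def Psi {D : ℕ} (κ : (Fin D → ℝ) → ℝ) (x : Fin D → ℝ) : Fin D → ℝ :=
  fun i => psi (κ x) (x i)

/-- the number of integral coordinates is at least `n` -/
def Ints {D : ℕ} (n : ℕ) : Set (Fin D → ℝ) :=
  {x | ∃ J : Finset (Fin D), n ≤ J.card ∧ ∀ i ∈ J, ∃ z : ℤ, x i = z}

/-- at least `n` coordinates are half-integers -/
def Halfs {D : ℕ} (n : ℕ) : Set (Fin D → ℝ) :=
  {x | ∃ J : Finset (Fin D), n ≤ J.card ∧ ∀ i ∈ J, ∃ z : ℤ, x i = z + 1 / 2}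

/-- the properties of the stretching parameter -/
structure IsKap {D : ℕ} (m : ℕ) (Q : Finset (Fin D → ℤ)) (κ : (Fin D → ℝ) → ℝ) : Prop where
  cont : Continuous κ
  nonneg : ∀ x, 0 ≤ κ x
  le : ∀ x, κ x ≤ 1 / 2
  eq : ∀ x ∈ FF Q, κ x = 1 / 2
  psi_cont : ContinuousOn (Psi κ) {x | 0 < κ x}
  psi_mem : ∀ x, 0 < κ x → Psi κ x ∈ FF Q ∨ Psi κ x ∈ Ints m
  psi_eq : ∀ x ∈ FF Q, Psi κ x = x
  psi_cube : ∀ x, ∀ i, (⌊x i⌋ : ℝ) ≤ Psi κ x i ∧ Psi κ x i ≤ ⌊x i⌋ + 1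
  psi_int : ∀ x, 0 < κ x → x ∉ FF Q → Psi κ x ∈ FF Q → ∃ i, κ x ≤ uu (x i)
  int_of_le : ∀ x, 0 < κ x → ∀ i, κ x ≤ uu (x i) → ∃ z : ℤ, Psi κ x i = z
  lt_of_not : ∀ x, 0 < κ x → ∀ i, uu (x i) < κ x →
    (⌊x i⌋ : ℝ) < Psi κ x i ∧ Psi κ x i < ⌊x i⌋ + 1
  zero : ∀ x, κ x = 0 → x ∈ Halfs (D + 1 - m)
  inj : ∀ x x' : Fin D → ℝ, 0 < κ x → 0 < κ x' → (∀ i, ⌊x i⌋ = ⌊x' i⌋) →
    (∀ i, κ x ≤ uu (x i) ↔ κ x' ≤ uu (x' i)) → ∀ δ δ' : ℝ, 0 ≤ δ →
    (∀ i, κ x ≤ uu (x i) → |x i - x' i| ≤ δ) → (∀ i, |Psi κ x i - Psi κ x' i| ≤ δ') →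
    ∀ i, |x i - x' i| ≤ δ + δ'

/-- the cost of a ball of radius `δ` at `z`: the sum over the sets `J` of at most `m` coordinates
such that the ball meets the grid in the coordinates of `J` -/
noncomputable def ct {D : ℕ} (m : ℕ) (z : Fin D → ℝ) (δ : ℝ) : ℝ := by
  classical
  exact ∑ J ∈ Finset.univ.powerset.filter (fun J : Finset (Fin D) => 1 ≤ J.card ∧ J.card ≤ m ∧
    ∀ i ∈ J, ∃ n : ℤ, |z i - n| ≤ δ), δ ^ (m - J.card)

end NR
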