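import Pool.Agent.NR.Defs
import Pool.Agent.H27.SX.Defs

/-!
# The contraction towards the centroid (project NR)
-/

set_option autoImplicit false

open MeasureTheory Metric Set Filter Module
open scoped Topology MeasureTheory RealInnerProductSpace Nat Pointwise

namespace NR

/-- the centroid -/
noncomputable def cen (k : ℕ) : SP.V k := WithLp.toLp 2 (fun _ => 1 / (k : ℝ))

/-- the contraction towards the centroid -/
noncomputable def cs {k : ℕ} (β : ℝ) (x : SP.V k) : SP.V k := cen k + (1 - β) • (x - cen k)

end NR
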