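import Pool.Agent.NR.Defs

/-!
# Fillings of a box (project NR, row NR-1)
-/

set_option autoImplicit false

open MeasureTheory Metric Set Filter Module
open scoped Topology MeasureTheory RealInnerProductSpace Nat Pointwise

namespace NR

theorem isClosed_Bd {n : ℕ} (a b : Fin n → ℝ) : IsClosed (Bd a b) := by
  have h : Bd a b = Icc a b ∩ ⋃ l : Fin n, ({x : Fin n → ℝ | x l = a l} ∪ {x | x l = b l}) := by
    ext x
    simp only [Bd, mem_ofPred_eq, mem_inter_iff, mem_iUnion, mem_union]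
  rw [h]
  refine isClosed_Icc.inter (isClosed_iUnion_of_finite fun l => ?_)
  exact (isClosed_eq (continuous_apply l) continuous_const).union
    (isClosed_eq (continuous_apply l) continuous_const)

theorem isOpen_Ob {n : ℕ} (a b : Fin n → ℝ) : IsOpen (Ob a b) := by
  have h : Ob a b = ⋂ l : Fin n, ({x : Fin n → ℝ | a l < x l} ∩ {x | x l < b l}) := by
    ext x
    simp only [Ob, mem_ofPred_eq, mem_inter_iff, mem_iInter]
  rw [h]
  refine isOpen_iInter_of_finite fun l => ?_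
  exact (isOpen_lt continuous_const (continuous_apply l)).inter
    (isOpen_lt (continuous_apply l) continuous_const)

theorem Icc_diff_Ob {n : ℕ} (a b : Fin n → ℝ) : Icc a b \ Ob a b = Bd a b := by
  ext x
  simp only [Ob, Bd, Set.mem_sdiff, mem_ofPred_eq]
  refine and_congr_right fun hx => ?_
  push Not
  constructor
  · rintro ⟨l, hl⟩
    refine ⟨l, ?_⟩
    rcases (hx.1 l).lt_or_eq with h | h
    · exact Or.inr (le_antisymm (hx.2 l) (hl h))
    · exact Or.inl h.symm
  · rintro ⟨l, hl⟩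
    refine ⟨l, fun h => ?_⟩
    rcases hl with h' | h'
    · exact absurd h (by rw [h']; exact lt_irrefl _)
    · exact h'.ge

theorem fill_Ob_sub {n : ℕ} {a b : Fin n → ℝ} : Ob a b ⊆ Icc a b :=
  fun _ hx => ⟨fun l => (hx l).1.le, fun l => (hx l).2.le⟩

theorem fill_mult_nonempty {X : Type*} {k d : ℕ} {B : Fin k → Set X} {x : X}
    {T : Finset (Fin k)} (hT : d + 1 ≤ T.card) (h : ∀ i ∈ T, x ∈ B i) : ∃ i, x ∈ B i := by
  have hne : T.Nonempty := Finset.card_pos.1 (by omega)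
  obtain ⟨i, hi⟩ := hne
  exact ⟨i, h i hi⟩

theorem fill_self {k n d : ℕ} {A : Fin k → Set (Fin n → ℝ)} {a b : Fin n → ℝ}
    (hA : ∀ i, IsClosed (A i)) (hc : Icc a b ⊆ ⋃ i, A i)
    (hS : ∀ x ∈ Icc a b, x ∉ mult A (d + 1)) : Fillable d A a b := by
  refine ⟨fun i => A i ∩ Icc a b, ⟨fun i => (hA i).inter isClosed_Icc,
    fun i => inter_subset_right, ?_, ?_⟩, ?_⟩
  · intro x hx
    obtain ⟨i, hi⟩ := mem_iUnion.1 (hc hx)
    exact mem_iUnion.2 ⟨i, hi, hx⟩
  · intro x hx i
    exact ⟨fun h => h.1, fun h => ⟨h, hx.1⟩⟩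
  · rw [eq_empty_iff_forall_notMem]
    rintro x ⟨T, hT, h⟩
    obtain ⟨i, hi⟩ := fill_mult_nonempty hT h
    exact hS x hi.2 ⟨T, hT, fun i hi => (h i hi).1⟩

theorem fill_split {k n d : ℕ} {A : Fin k → Set (Fin n → ℝ)} {a b : Fin n → ℝ} (l : Fin n) {c : ℝ}
    (h1 : a l ≤ c) (h2 : c ≤ b l) (hf1 : Fillable d A a (Function.update b l c))
    (hf2 : Fillable d A (Function.update a l c) b) : Fillable d A a b := by
  obtain ⟨B1, hB1, hm1⟩ := hf1
  obtain ⟨B2, hB2, hm2⟩ := hf2
  have hu1 : Function.update b l c ≤ b := by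
    intro j
    by_cases hj : j = l
    · subst hj; simpa using h2
    · simp [Function.update_of_ne hj]
  have hu2 : a ≤ Function.update a l c := by
    intro j
    by_cases hj : j = l
    · subst hj; simpa using h1
    · simp [Function.update_of_ne hj]
  have hI1 : ∀ x ∈ Icc a b, x l ≤ c → x ∈ Icc a (Function.update b l c) := by
    intro x hx hl
    refine ⟨hx.1, fun j => ?_⟩
    by_cases hj : j = l
    · subst hj; simpa using hl
    · rw [Function.update_of_ne hj]; exact hx.2 j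
  have hI2 : ∀ x ∈ Icc a b, c ≤ x l → x ∈ Icc (Function.update a l c) b := by
    intro x hx hl
    refine ⟨fun j => ?_, hx.2⟩
    by_cases hj : j = l
    · subst hj; simpa using hl
    · rw [Function.update_of_ne hj]; exact hx.1 j
  have hJ1 : ∀ x ∈ Icc a (Function.update b l c), x l ≤ c := by
    intro x hx
    have := hx.2 l
    simpa using this
  have hJ2 : ∀ x ∈ Icc (Function.update a l c) b, c ≤ x l := by
    intro x hx
    have := hx.1 l
    simpa using this
  -- on the wall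
  have hw : ∀ x ∈ Icc a b, x l = c → ∀ i, (x ∈ B1 i ↔ x ∈ A i) ∧ (x ∈ B2 i ↔ x ∈ A i) := by
    intro x hx hl i
    refine ⟨hB1.bd x ⟨hI1 x hx hl.le, l, Or.inr (by simpa using hl)⟩ i,
      hB2.bd x ⟨hI2 x hx hl.ge, l, Or.inl (by simpa using hl)⟩ i⟩
  have hk1 : ∀ x ∈ Icc a b, x l ≤ c → ∀ i, x ∈ B1 i ∪ B2 i → x ∈ B1 i := by
    rintro x hx hl i (h | h)
    · exact h
    · have he : x l = c := le_antisymm hl (hJ2 x (hB2.sub i h))
      exact ((hw x hx he i).1).2 (((hw x hx he i).2).1 h)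
  have hk2 : ∀ x ∈ Icc a b, c ≤ x l → ∀ i, x ∈ B1 i ∪ B2 i → x ∈ B2 i := by
    rintro x hx hl i (h | h)
    · have he : x l = c := le_antisymm (hJ1 x (hB1.sub i h)) hl
      exact ((hw x hx he i).2).2 (((hw x hx he i).1).1 h)
    · exact h
  have hsub : ∀ i, B1 i ∪ B2 i ⊆ Icc a b := by
    rintro i x (h | h)
    · exact ⟨(hB1.sub i h).1, (hB1.sub i h).2.trans hu1⟩
    · exact ⟨hu2.trans (hB2.sub i h).1, (hB2.sub i h).2⟩
  refine ⟨fun i => B1 i ∪ B2 i, ⟨fun i => (hB1.closed i).union (hB2.closed i), hsub, ?_, ?_⟩, ?_⟩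
  · intro x hx
    rcases le_total (x l) c with hl | hl
    · obtain ⟨i, hi⟩ := mem_iUnion.1 (hB1.cover (hI1 x hx hl))
      exact mem_iUnion.2 ⟨i, Or.inl hi⟩
    · obtain ⟨i, hi⟩ := mem_iUnion.1 (hB2.cover (hI2 x hx hl))
      exact mem_iUnion.2 ⟨i, Or.inr hi⟩
  · rintro x ⟨hx, l', hl'⟩ i
    rcases lt_trichotomy (x l) c with hl | hl | hl
    · have hb : x ∈ Bd a (Function.update b l c) := by
        refine ⟨hI1 x hx hl.le, ?_⟩
        by_cases hj : l' = l
        · subst hj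
          rcases hl' with h | h
          · exact ⟨l', Or.inl h⟩
          · exact absurd (h ▸ hl) (not_lt.2 h2)
        · refine ⟨l', ?_⟩
          rwa [Function.update_of_ne hj]
      exact ⟨fun h => (hB1.bd x hb i).1 (hk1 x hx hl.le i h), fun h => Or.inl ((hB1.bd x hb i).2 h)⟩
    · exact ⟨fun h => ((hw x hx hl i).1).1 (hk1 x hx hl.le i h),
        fun h => Or.inl (((hw x hx hl i).1).2 h)⟩
    · have hb : x ∈ Bd (Function.update a l c) b := by
        refine ⟨hI2 x hx hl.le, ?_⟩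
        by_cases hj : l' = l
        · subst hj
          rcases hl' with h | h
          · exact absurd (h ▸ hl) (not_lt.2 h1)
          · exact ⟨l', Or.inr h⟩
        · refine ⟨l', ?_⟩
          rwa [Function.update_of_ne hj]
      exact ⟨fun h => (hB2.bd x hb i).1 (hk2 x hx hl.le i h), fun h => Or.inr ((hB2.bd x hb i).2 h)⟩
  · rw [eq_empty_iff_forall_notMem]
    rintro x ⟨T, hT, h⟩
    obtain ⟨i, hi⟩ := fill_mult_nonempty hT h
    have hx := hsub i hi
    rcases le_total (x l) c with hl | hl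
    · have : x ∈ mult B1 (d + 1) := ⟨T, hT, fun i hi => hk1 x hx hl i (h i hi)⟩
      rw [hm1] at this
      exact this
    · have : x ∈ mult B2 (d + 1) := ⟨T, hT, fun i hi => hk2 x hx hl i (h i hi)⟩
      rw [hm2] at this
      exact this

theorem fill_grow {k n d : ℕ} {A : Fin k → Set (Fin n → ℝ)} {a b a' b' : Fin n → ℝ}
    (hA : ∀ i, IsClosed (A i)) (hc : Icc a b ⊆ ⋃ i, A i) (h1 : a ≤ a') (h2 : b' ≤ b)
    (hS : ∀ x ∈ Icc a b, x ∈ mult A (d + 1) → x ∈ Ob a' b') (hf : Fillable d A a' b') :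
    Fillable d A a b := by
  obtain ⟨B, hB, hm⟩ := hf
  have hnot : ∀ x ∈ Bd a b, x ∉ Ob a' b' := by
    rintro x ⟨hx, l, hl⟩ ho
    have h1' := h1 l
    have h2' := h2 l
    have := ho l
    rcases hl with hl | hl <;> linarith
  have hA' : ∀ x i, x ∉ Ob a' b' → x ∈ B i → x ∈ A i := by
    intro x i hx h
    have : x ∈ Bd a' b' := by
      rw [← Icc_diff_Ob]
      exact ⟨hB.sub i h, hx⟩
    exact (hB.bd x this i).1 h
  have hsub : ∀ i, B i ∪ (A i ∩ (Icc a b \ Ob a' b')) ⊆ Icc a b := by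
    rintro i x (h | h)
    · exact ⟨h1.trans (hB.sub i h).1, (hB.sub i h).2.trans h2⟩
    · exact h.2.1
  refine ⟨fun i => B i ∪ (A i ∩ (Icc a b \ Ob a' b')), ⟨fun i => (hB.closed i).union
    ((hA i).inter (isClosed_Icc.sdiff (isOpen_Ob _ _))), hsub, ?_, ?_⟩, ?_⟩
  · intro x hx
    by_cases ho : x ∈ Ob a' b'
    · obtain ⟨i, hi⟩ := mem_iUnion.1 (hB.cover (fill_Ob_sub ho))
      exact mem_iUnion.2 ⟨i, Or.inl hi⟩
    · obtain ⟨i, hi⟩ := mem_iUnion.1 (hc hx)
      exact mem_iUnion.2 ⟨i, Or.inr ⟨hi, hx, ho⟩⟩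
  · intro x hx i
    constructor
    · rintro (h | h)
      · exact hA' x i (hnot x hx) h
      · exact h.1
    · intro h
      exact Or.inr ⟨h, hx.1, hnot x hx⟩
  · rw [eq_empty_iff_forall_notMem]
    rintro x ⟨T, hT, h⟩
    obtain ⟨i, hi⟩ := fill_mult_nonempty hT h
    have hx := hsub i hi
    by_cases ho : x ∈ Ob a' b'
    · have : x ∈ mult B (d + 1) := by
        refine ⟨T, hT, fun i hi => ?_⟩
        rcases h i hi with h' | h'
        · exact h'
        · exact absurd ho h'.2.2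
      rw [hm] at this
      exact this
    · refine ho (hS x hx ⟨T, hT, fun i hi => ?_⟩)
      rcases h i hi with h' | h'
      · exact hA' x i ho h'
      · exact h'.1

/-- the colours which do not occur on the boundary can be merged into one which occurs -/
theorem fill_colours {k n d : ℕ} {A : Fin k → Set (Fin n → ℝ)} {a b : Fin n → ℝ}
    (hne : (Bd a b).Nonempty) (h : Fillable d A a b) :
    ∃ B : Fin k → Set (Fin n → ℝ), IsFill A a b B ∧ mult B (d + 1) = ∅ ∧
      ∀ i, (B i).Nonempty → (A i ∩ Bd a b).Nonempty := by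
  classical
  obtain ⟨B, hB, hm⟩ := h
  obtain ⟨x0, hx0⟩ := hne
  obtain ⟨i0, hi0⟩ := mem_iUnion.1 (hB.cover hx0.1)
  have hI0 : (A i0 ∩ Bd a b).Nonempty := ⟨x0, (hB.bd x0 hx0 i0).1 hi0, hx0⟩
  set I : Set (Fin k) := {i | (A i ∩ Bd a b).Nonempty} with hI
  set B' : Fin k → Set (Fin n → ℝ) := fun i =>
    if i = i0 then B i0 ∪ ⋃ j : Fin k, ⋃ _ : j ∉ I, B j else if i ∈ I then B i else ∅ with hB'
  have e0 : B' i0 = B i0 ∪ ⋃ j : Fin k, ⋃ _ : j ∉ I, B j := by simp [hB']
  have e1 : ∀ i, i ≠ i0 → i ∈ I → B' i = B i := by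
    intro i h1 h2
    simp [hB', h1, h2]
  have e2 : ∀ i, i ≠ i0 → i ∉ I → B' i = ∅ := by
    intro i h1 h2
    simp [hB', h1, h2]
  have hne' : ∀ i, (B' i).Nonempty → i ∈ I := by
    intro i hi
    by_cases h1 : i = i0
    · rw [h1]; exact hI0
    · by_contra h2
      rw [e2 i h1 h2] at hi
      exact not_nonempty_empty hi
  refine ⟨B', ⟨?_, ?_, ?_, ?_⟩, ?_, hne'⟩
  · intro i
    by_cases h1 : i = i0
    · rw [h1, e0]
      refine (hB.closed i0).union (isClosed_iUnion_of_finite fun j => ?_)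
      exact isClosed_iUnion_of_finite fun _ => hB.closed j
    · by_cases h2 : i ∈ I
      · rw [e1 i h1 h2]; exact hB.closed i
      · rw [e2 i h1 h2]; exact isClosed_empty
  · intro i
    by_cases h1 : i = i0
    · rw [h1, e0]
      refine union_subset (hB.sub i0) (iUnion_subset fun j => iUnion_subset fun _ => hB.sub j)
    · by_cases h2 : i ∈ I
      · rw [e1 i h1 h2]; exact hB.sub i
      · rw [e2 i h1 h2]; exact empty_subset _
  · intro x hx
    obtain ⟨j, hj⟩ := mem_iUnion.1 (hB.cover hx)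
    by_cases h2 : j ∈ I
    · by_cases h1 : j = i0
      · refine mem_iUnion.2 ⟨i0, ?_⟩
        rw [e0]
        exact Or.inl (h1 ▸ hj)
      · refine mem_iUnion.2 ⟨j, ?_⟩
        rw [e1 j h1 h2]
        exact hj
    · refine mem_iUnion.2 ⟨i0, ?_⟩
      rw [e0]
      exact Or.inr (mem_iUnion.2 ⟨j, mem_iUnion.2 ⟨h2, hj⟩⟩)
  · intro x hx i
    by_cases h1 : i = i0
    · rw [h1, e0]
      constructor
      · rintro (h | h)
        · exact (hB.bd x hx i0).1 h
        · obtain ⟨j, hj⟩ := mem_iUnion.1 h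
          obtain ⟨hj1, hj2⟩ := mem_iUnion.1 hj
          exact absurd ⟨x, (hB.bd x hx j).1 hj2, hx⟩ hj1
      · intro h
        exact Or.inl ((hB.bd x hx i0).2 h)
    · by_cases h2 : i ∈ I
      · rw [e1 i h1 h2]; exact hB.bd x hx i
      · rw [e2 i h1 h2]
        exact ⟨fun h => absurd h (notMem_empty x), fun h => absurd ⟨x, h, hx⟩ h2⟩
  · rw [eq_empty_iff_forall_notMem]
    rintro x ⟨T, hT, h⟩
    have hTI : ∀ i ∈ T, i ∈ I := fun i hi => hne' i ⟨x, h i hi⟩
    have hBi : ∀ i ∈ T, i ≠ i0 → x ∈ B i := by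
      intro i hi h1
      have := h i hi
      rwa [e1 i h1 (hTI i hi)] at this
    have key : x ∈ mult B (d + 1) := by
      by_cases h0 : i0 ∈ T
      · have hx0' := h i0 h0
        rw [e0] at hx0'
        rcases hx0' with h' | h'
        · refine ⟨T, hT, fun i hi => ?_⟩
          by_cases h1 : i = i0
          · rw [h1]; exact h'
          · exact hBi i hi h1
        · obtain ⟨j, hj⟩ := mem_iUnion.1 h'
          obtain ⟨hj1, hj2⟩ := mem_iUnion.1 hj
          have hjT : j ∉ T.erase i0 := fun hh => hj1 (hTI j (Finset.mem_of_mem_erase hh))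
          refine ⟨insert j (T.erase i0), ?_, fun i hi => ?_⟩
          · rw [Finset.card_insert_of_notMem hjT, Finset.card_erase_of_mem h0]
            omega
          · rcases Finset.mem_insert.1 hi with hi | hi
            · rw [hi]; exact hj2
            · exact hBi i (Finset.mem_of_mem_erase hi) (Finset.ne_of_mem_erase hi)
      · refine ⟨T, hT, fun i hi => hBi i hi fun h1 => h0 (h1 ▸ hi)⟩
    rw [hm] at key
    exact key

/-- the gauge of the box -/
noncomputable def fill_g {n : ℕ} (a b x : Fin n → ℝ) : ℝ :=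
  ‖fun l => (x l - ctr a b l) / ((b l - a l) / 2)‖

theorem fill_g_nonneg {n : ℕ} (a b x : Fin n → ℝ) : 0 ≤ fill_g a b x := norm_nonneg _

theorem fill_g_coord {n : ℕ} {a b : Fin n → ℝ} (hab : ∀ l, a l < b l) (x : Fin n → ℝ)
    (l : Fin n) : |x l - ctr a b l| ≤ fill_g a b x * ((b l - a l) / 2) := by
  have hh : 0 < (b l - a l) / 2 := by linarith [hab l]
  have h := norm_le_pi_norm (fun l => (x l - ctr a b l) / ((b l - a l) / 2)) l
  rw [Real.norm_eq_abs, abs_div, abs_of_pos hh, div_le_iff₀ hh] at h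
  exact h

theorem fill_g_le {n : ℕ} {a b : Fin n → ℝ} (hab : ∀ l, a l < b l) {x : Fin n → ℝ} {r : ℝ}
    (hr : 0 ≤ r) (h : ∀ l, |x l - ctr a b l| ≤ r * ((b l - a l) / 2)) : fill_g a b x ≤ r := by
  refine (pi_norm_le_iff_of_nonneg hr).2 fun l => ?_
  have hh : 0 < (b l - a l) / 2 := by linarith [hab l]
  rw [Real.norm_eq_abs, abs_div, abs_of_pos hh, div_le_iff₀ hh]
  exact h l

theorem fill_g_mem_Icc {n : ℕ} {a b : Fin n → ℝ} (hab : ∀ l, a l < b l) {x : Fin n → ℝ} :
    x ∈ Icc a b ↔ fill_g a b x ≤ 1 := by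
  constructor
  · intro hx
    refine fill_g_le hab zero_le_one fun l => ?_
    have h1 := hx.1 l
    have h2 := hx.2 l
    rw [abs_le]
    unfold ctr
    constructor <;> linarith
  · intro hx
    have key : ∀ l, |x l - ctr a b l| ≤ (b l - a l) / 2 := by
      intro l
      refine (fill_g_coord hab x l).trans ?_
      have hh : 0 < (b l - a l) / 2 := by linarith [hab l]
      nlinarith
    refine ⟨fun l => ?_, fun l => ?_⟩
    · have := (abs_le.1 (key l)).1
      unfold ctr at this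
      linarith
    · have := (abs_le.1 (key l)).2
      unfold ctr at this
      linarith

theorem fill_g_Bd {n : ℕ} {a b : Fin n → ℝ} (hab : ∀ l, a l < b l) {x : Fin n → ℝ}
    (hx : x ∈ Bd a b) : fill_g a b x = 1 := by
  obtain ⟨hx, l, hl⟩ := hx
  refine le_antisymm ((fill_g_mem_Icc hab).1 hx) ?_
  have hh : 0 < (b l - a l) / 2 := by linarith [hab l]
  have h := fill_g_coord hab x l
  have h' : |x l - ctr a b l| = (b l - a l) / 2 := by
    unfold ctr
    rcases hl with hl | hl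
    · rw [hl, abs_of_neg (by linarith)]
      ring
    · rw [hl, abs_of_pos (by linarith)]
      ring
  rw [h'] at h
  by_contra hc
  push Not at hc
  nlinarith

theorem fill_g_exists {n : ℕ} {a b : Fin n → ℝ} (hab : ∀ l, a l < b l) {x : Fin n → ℝ}
    (hx : 0 < fill_g a b x) : ∃ l, |x l - ctr a b l| = fill_g a b x * ((b l - a l) / 2) := by
  by_contra hc
  push Not at hc
  have : fill_g a b x < fill_g a b x := by
    refine (pi_norm_lt_iff hx).2 fun l => ?_
    have hh : 0 < (b l - a l) / 2 := by linarith [hab l]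
    rw [Real.norm_eq_abs, abs_div, abs_of_pos hh, div_lt_iff₀ hh]
    exact lt_of_le_of_ne (fill_g_coord hab x l) (hc l)
  exact lt_irrefl _ this

theorem fill_g_line {n : ℕ} (a b p : Fin n → ℝ) (t : ℝ) :
    fill_g a b (ctr a b + t • (p - ctr a b)) = |t| * fill_g a b p := by
  unfold fill_g
  rw [← Real.norm_eq_abs, ← norm_smul]
  congr 1
  funext l
  simp only [Pi.add_apply, Pi.smul_apply, Pi.sub_apply, smul_eq_mul]
  ring

theorem fill_g_zero {n : ℕ} {a b : Fin n → ℝ} (hab : ∀ l, a l < b l) {x : Fin n → ℝ}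
    (hx : fill_g a b x = 0) : x = ctr a b := by
  funext l
  have h := fill_g_coord hab x l
  rw [hx, zero_mul] at h
  have := abs_eq_zero.1 (le_antisymm h (abs_nonneg _))
  linarith

theorem fill_g_proj {n : ℕ} {a b : Fin n → ℝ} (hab : ∀ l, a l < b l) {x : Fin n → ℝ}
    (hx : 0 < fill_g a b x) :
    ctr a b + (fill_g a b x)⁻¹ • (x - ctr a b) ∈ Bd a b := by
  set g := fill_g a b x with hg
  have hp : fill_g a b (ctr a b + g⁻¹ • (x - ctr a b)) = 1 := by
    rw [fill_g_line, abs_of_pos (inv_pos.2 hx), ← hg, inv_mul_cancel₀ hx.ne']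
  refine ⟨(fill_g_mem_Icc hab).2 hp.le, ?_⟩
  obtain ⟨l, hl⟩ := fill_g_exists hab (x := ctr a b + g⁻¹ • (x - ctr a b)) (by rw [hp]; norm_num)
  rw [hp, one_mul] at hl
  refine ⟨l, ?_⟩
  rcases (abs_eq (by linarith [hab l])).1 hl with h | h
  · right
    have hc : ctr a b l = (a l + b l) / 2 := rfl
    rw [hc] at h
    linarith
  · left
    have hc : ctr a b l = (a l + b l) / 2 := rfl
    rw [hc] at h
    linarith

/-- the cone over the boundary -/
theorem fill_cone {k n d : ℕ} {A : Fin k → Set (Fin n → ℝ)} {a b : Fin n → ℝ} (hn : 1 ≤ n)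
    (hab : ∀ l, a l < b l) (hA : ∀ i, IsClosed (A i)) (hc : Bd a b ⊆ ⋃ i, A i)
    (hS : ∀ x ∈ Bd a b, x ∉ mult A (d + 1)) :
    ∃ B : Fin k → Set (Fin n → ℝ), IsFill A a b B ∧ mult B (d + 1) ⊆ {ctr a b} ∧
      ∀ i, (B i).Nonempty → (A i ∩ Bd a b).Nonempty := by
  have hcomp : ∀ i, IsCompact (A i ∩ Bd a b) := by
    intro i
    have h1 : IsCompact (Bd a b) := isCompact_Icc.of_isClosed_subset (isClosed_Bd a b)
      fun x hx => hx.1
    exact h1.inter_left (hA i)
  set ff : (Fin n → ℝ) × ℝ → (Fin n → ℝ) := fun z => ctr a b + z.2 • (z.1 - ctr a b) with hff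
  have hffc : Continuous ff := by
    rw [hff]
    fun_prop
  have haB : a ∈ Bd a b := ⟨⟨le_rfl, fun l => (hab l).le⟩, ⟨0, hn⟩, Or.inl rfl⟩
  refine ⟨fun i => ff '' ((A i ∩ Bd a b) ×ˢ Icc (0 : ℝ) 1), ⟨?_, ?_, ?_, ?_⟩, ?_, ?_⟩
  · intro i
    exact (((hcomp i).prod isCompact_Icc).image hffc).isClosed
  · rintro i x ⟨⟨p, t⟩, ⟨hp, ht⟩, rfl⟩
    rw [fill_g_mem_Icc hab]
    simp only [hff]
    rw [fill_g_line, fill_g_Bd hab hp.2, mul_one, abs_of_nonneg ht.1]
    exact ht.2
  · intro x hx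
    rcases (fill_g_nonneg a b x).lt_or_eq with h | h
    · obtain ⟨i, hi⟩ := mem_iUnion.1 (hc (fill_g_proj hab h))
      refine mem_iUnion.2 ⟨i, (_, fill_g a b x), ⟨⟨hi, fill_g_proj hab h⟩, h.le,
        (fill_g_mem_Icc hab).1 hx⟩, ?_⟩
      simp only [hff]
      rw [add_sub_cancel_left, smul_smul, mul_inv_cancel₀ h.ne', one_smul]
      abel
    · obtain ⟨i, hi⟩ := mem_iUnion.1 (hc haB)
      refine mem_iUnion.2 ⟨i, (a, 0), ⟨⟨hi, haB⟩, le_rfl, zero_le_one⟩, ?_⟩
      simp only [hff]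
      rw [zero_smul, add_zero, fill_g_zero hab h.symm]
  · intro x hx i
    constructor
    · rintro ⟨⟨p, t⟩, ⟨hp, ht⟩, rfl⟩
      have h := fill_g_Bd hab hx
      simp only [hff] at h
      rw [fill_g_line, fill_g_Bd hab hp.2, mul_one, abs_of_nonneg ht.1] at h
      have h' : t = 1 := h
      have : ff (p, t) = p := by
        simp only [hff, h', one_smul]
        abel
      rw [this]
      exact hp.1
    · intro h
      refine ⟨(x, 1), ⟨⟨h, hx⟩, zero_le_one, le_rfl⟩, ?_⟩
      simp only [hff, one_smul]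
      abel
  · rintro x ⟨T, hT, h⟩
    by_contra hx
    have hg : 0 < fill_g a b x := by
      rcases (fill_g_nonneg a b x).lt_or_eq with h' | h'
      · exact h'
      · exact absurd (fill_g_zero hab h'.symm) hx
    refine hS _ (fill_g_proj hab hg) ⟨T, hT, fun i hi => ?_⟩
    obtain ⟨⟨p, t⟩, ⟨hp, ht⟩, hxe⟩ := h i hi
    have ht' : fill_g a b x = t := by
      rw [← hxe]
      simp only [hff]
      rw [fill_g_line, fill_g_Bd hab hp.2, mul_one, abs_of_nonneg ht.1]
    have : ctr a b + (fill_g a b x)⁻¹ • (x - ctr a b) = p := by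
      rw [ht'] at hg ⊢
      rw [← hxe]
      simp only [hff]
      rw [add_sub_cancel_left, smul_smul, inv_mul_cancel₀ hg.ne', one_smul]
      abel
    rw [this]
    exact hp.1
  · rintro i ⟨x, ⟨p, t⟩, ⟨hp, ht⟩, rfl⟩
    exact ⟨p, hp⟩

theorem fill_scale {k n d : ℕ} {A : Fin k → Set (Fin n → ℝ)} {a b c : Fin n → ℝ} {r : ℝ}
    (hr : 0 < r) (h : Fillable d A (r • (a + c)) (r • (b + c))) :
    Fillable d (fun i => {x | r • (x + c) ∈ A i}) a b := by
  obtain ⟨B, hB, hm⟩ := h
  have hffc : Continuous fun x : Fin n → ℝ => r • (x + c) := by fun_prop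
  have hle : ∀ x y : Fin n → ℝ, r • (x + c) ≤ r • (y + c) ↔ x ≤ y := by
    intro x y
    constructor
    · intro h l
      have := h l
      simp only [Pi.smul_apply, Pi.add_apply, smul_eq_mul] at this
      have := le_of_mul_le_mul_left this hr
      linarith
    · intro h l
      have := h l
      simp only [Pi.smul_apply, Pi.add_apply, smul_eq_mul]
      exact mul_le_mul_of_nonneg_left (by linarith) hr.le
  have hI : ∀ x : Fin n → ℝ, r • (x + c) ∈ Icc (r • (a + c)) (r • (b + c)) ↔ x ∈ Icc a b := by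
    intro x
    rw [mem_Icc, mem_Icc, hle, hle]
  refine ⟨fun i => {x | r • (x + c) ∈ B i}, ⟨fun i => (hB.closed i).preimage hffc, ?_, ?_, ?_⟩, ?_⟩
  · intro i x hx
    exact (hI x).1 (hB.sub i hx)
  · intro x hx
    obtain ⟨i, hi⟩ := mem_iUnion.1 (hB.cover ((hI x).2 hx))
    exact mem_iUnion.2 ⟨i, hi⟩
  · rintro x ⟨hx, l, hl⟩ i
    refine hB.bd (r • (x + c)) ⟨(hI x).2 hx, l, ?_⟩ i
    rcases hl with hl | hl
    · left
      simp only [Pi.smul_apply, Pi.add_apply, hl]
    · right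
      simp only [Pi.smul_apply, Pi.add_apply, hl]
  · rw [eq_empty_iff_forall_notMem]
    rintro x ⟨T, hT, h⟩
    have : r • (x + c) ∈ mult B (d + 1) := ⟨T, hT, h⟩
    rw [hm] at this
    exact this

end NR
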