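import Pool.Agent.NR.Defs
import Pool.Agent.NR.Fill

/-!
# The faces of the unit grid (project NR, row NR-12a)
-/

set_option autoImplicit false

open MeasureTheory Metric Set Filter Module
open scoped Topology MeasureTheory RealInnerProductSpace Nat Pointwise

namespace NR

theorem faces_gl_inl {m d : ℕ} (e : Fin m ⊕ Fin d ≃ Fin (m + d)) (y : Fin m → ℝ) (p : Fin d → ℝ)
    (j : Fin m) : gl e y p (e (Sum.inl j)) = y j := by
  simp [gl]

theorem faces_gl_inr {m d : ℕ} (e : Fin m ⊕ Fin d ≃ Fin (m + d)) (y : Fin m → ℝ) (p : Fin d → ℝ)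
    (l : Fin d) : gl e y p (e (Sum.inr l)) = p l := by
  simp [gl]

theorem faces_gl_cont {m d : ℕ} (e : Fin m ⊕ Fin d ≃ Fin (m + d)) (y : Fin m → ℝ) :
    Continuous (fun p : Fin d → ℝ => gl e y p) := by
  refine continuous_pi (fun i => ?_)
  unfold gl
  rcases h : e.symm i with j | l
  · simpa using continuous_const
  · simpa using continuous_apply l

theorem faces_gl_inj {m d : ℕ} (e : Fin m ⊕ Fin d ≃ Fin (m + d)) (y : Fin m → ℝ)
    {p q : Fin d → ℝ} (h : gl e y p = gl e y q) : p = q := by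
  funext l
  have := congrFun h (e (Sum.inr l))
  rwa [faces_gl_inr, faces_gl_inr] at this

theorem faces_mem_fc_iff {m d : ℕ} {e : Fin m ⊕ Fin d ≃ Fin (m + d)} {y : Fin m → ℤ}
    {p : Fin d → ℤ} {x : Fin (m + d) → ℝ} :
    x ∈ fc e y p ↔ (∀ j, x (e (Sum.inl j)) = y j) ∧
      ∀ l, (p l : ℝ) ≤ x (e (Sum.inr l)) ∧ x (e (Sum.inr l)) ≤ p l + 1 := by
  constructor
  · rintro ⟨q, hq, rfl⟩
    refine ⟨fun j => faces_gl_inl e _ _ j, fun l => ?_⟩
    rw [faces_gl_inr]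
    exact ⟨hq.1 l, hq.2 l⟩
  · rintro ⟨h1, h2⟩
    refine ⟨fun l => x (e (Sum.inr l)), ⟨fun l => (h2 l).1, fun l => (h2 l).2⟩, ?_⟩
    funext i
    obtain ⟨s, rfl⟩ := e.surjective i
    rcases s with j | l
    · rw [faces_gl_inl]; exact h1 j
    · rw [faces_gl_inr]

theorem face_closed {m d : ℕ} (e : Fin m ⊕ Fin d ≃ Fin (m + d)) (y : Fin m → ℤ)
    (p : Fin d → ℤ) : IsClosed (fc e y p) := by
  have h : fc e y p = (fun q => gl e (fun j => (y j : ℝ)) q) ''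
      Icc (fun l => (p l : ℝ)) (fun l => (p l : ℝ) + 1) := by
    ext x
    constructor
    · rintro ⟨q, hq, rfl⟩; exact ⟨q, hq, rfl⟩
    · rintro ⟨q, hq, rfl⟩; exact ⟨q, hq, rfl⟩
  rw [h]
  exact (isCompact_Icc.image (faces_gl_cont e _)).isClosed

theorem face_ints {m d : ℕ} {e : Fin m ⊕ Fin d ≃ Fin (m + d)} {y : Fin m → ℤ} {p : Fin d → ℤ}
    {z : Fin (m + d) → ℝ} (hz : z ∈ fc e y p) : z ∈ Ints m := by
  rw [faces_mem_fc_iff] at hz
  refine ⟨Finset.univ.map ⟨fun j : Fin m => e (Sum.inl j), fun a b h => ?_⟩, ?_, ?_⟩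
  · exact Sum.inl_injective (e.injective h)
  · simp
  · intro i hi
    obtain ⟨j, -, rfl⟩ := Finset.mem_map.1 hi
    exact ⟨y j, hz.1 j⟩

theorem face_ball {m d : ℕ} {e : Fin m ⊕ Fin d ≃ Fin (m + d)} {y : Fin m → ℤ} {p : Fin d → ℤ}
    {z : Fin (m + d) → ℝ} (hz : z ∈ fc e y p) : fc e y p ⊆ closedBall z 1 := by
  intro x hx
  rw [faces_mem_fc_iff] at hz hx
  rw [mem_closedBall, dist_pi_le_iff zero_le_one]
  intro i
  obtain ⟨s, rfl⟩ := e.surjective i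
  rcases s with j | l
  · rw [hz.1 j, hx.1 j, dist_self]; exact zero_le_one
  · rw [Real.dist_eq, abs_le]
    have h1 := hz.2 l
    have h2 := hx.2 l
    constructor <;> linarith [h1.1, h1.2, h2.1, h2.2]

/-- the points on the boundary of the face have `m + 1` integral coordinates -/
theorem face_bd {m d : ℕ} {e : Fin m ⊕ Fin d ≃ Fin (m + d)} {y : Fin m → ℤ} {p : Fin d → ℤ}
    {q : Fin d → ℝ} (hq : q ∈ Bd (fun l => (p l : ℝ)) (fun l => (p l : ℝ) + 1)) :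
    gl e (fun j => (y j : ℝ)) q ∈ Ints (m + 1) := by
  obtain ⟨-, l, hl⟩ := hq
  refine ⟨insert (e (Sum.inr l)) (Finset.univ.map
    ⟨fun j : Fin m => e (Sum.inl j), fun a b h => Sum.inl_injective (e.injective h)⟩), ?_, ?_⟩
  · rw [Finset.card_insert_of_notMem]
    · simp
    · intro h
      obtain ⟨j, -, hj⟩ := Finset.mem_map.1 h
      have := e.injective hj
      simp at this
  · intro i hi
    rcases Finset.mem_insert.1 hi with rfl | hi
    · rw [faces_gl_inr]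
      rcases hl with hl | hl
      · exact ⟨p l, hl⟩
      · exact ⟨p l + 1, by push_cast; exact hl⟩
    · obtain ⟨j, -, rfl⟩ := Finset.mem_map.1 hi
      exact ⟨y j, faces_gl_inl e _ _ j⟩

theorem face_bd' {m d : ℕ} {e : Fin m ⊕ Fin d ≃ Fin (m + d)} {y : Fin m → ℤ} {p : Fin d → ℤ}
    {q : Fin d → ℝ} (hq : q ∈ Icc (fun l => (p l : ℝ)) (fun l => (p l : ℝ) + 1))
    (h : gl e (fun j => (y j : ℝ)) q ∈ Ints (m + 1)) :
    q ∈ Bd (fun l => (p l : ℝ)) (fun l => (p l : ℝ) + 1) := by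
  obtain ⟨J, hJ, hJi⟩ := h
  have hex : ∃ l, e (Sum.inr l) ∈ J := by
    by_contra hcon
    push Not at hcon
    have hsub : J ⊆ Finset.univ.map
        ⟨fun j : Fin m => e (Sum.inl j), fun a b h => Sum.inl_injective (e.injective h)⟩ := by
      intro i hi
      obtain ⟨s, rfl⟩ := e.surjective i
      rcases s with j | l
      · exact Finset.mem_map.2 ⟨j, Finset.mem_univ _, rfl⟩
      · exact absurd hi (hcon l)
    have := Finset.card_le_card hsub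
    rw [Finset.card_map, Finset.card_univ, Fintype.card_fin] at this
    omega
  obtain ⟨l, hl⟩ := hex
  obtain ⟨z, hz⟩ := hJi _ hl
  rw [faces_gl_inr] at hz
  have h1 : (p l : ℝ) ≤ q l := hq.1 l
  have h2 : q l ≤ (p l : ℝ) + 1 := hq.2 l
  refine ⟨hq, l, ?_⟩
  rw [hz] at h1 h2 ⊢
  have h1' : p l ≤ z := by exact_mod_cast h1
  have h2' : z ≤ p l + 1 := by exact_mod_cast h2
  have : z = p l ∨ z = p l + 1 := by omega
  rcases this with h | h
  · left; rw [h]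
  · right; rw [h]; push_cast; rfl

/-- a face which is not in `FF Q` meets it only in its boundary -/
theorem face_ff {m d : ℕ} {Q : Finset (Fin (m + d) → ℤ)} {e : Fin m ⊕ Fin d ≃ Fin (m + d)}
    {y : Fin m → ℤ} {p : Fin d → ℤ} {q : Fin d → ℝ}
    (hq : q ∈ Icc (fun l => (p l : ℝ)) (fun l => (p l : ℝ) + 1))
    (h : gl e (fun j => (y j : ℝ)) q ∈ FF Q) (hn : ¬ fc e y p ⊆ FF Q) :
    q ∈ Bd (fun l => (p l : ℝ)) (fun l => (p l : ℝ) + 1) := by
  by_contra hb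
  apply hn
  have hlt : ∀ l, (p l : ℝ) < q l ∧ q l < (p l : ℝ) + 1 := by
    intro l
    have h1 : (p l : ℝ) ≤ q l := hq.1 l
    have h2 : q l ≤ (p l : ℝ) + 1 := hq.2 l
    constructor
    · rcases h1.lt_or_eq with h | h
      · exact h
      · exact absurd ⟨hq, l, Or.inl h.symm⟩ hb
    · rcases h2.lt_or_eq with h | h
      · exact h
      · exact absurd ⟨hq, l, Or.inr h⟩ hb
  unfold FF at h
  simp only [mem_iUnion, exists_prop] at h
  obtain ⟨n, hnQ, hn1⟩ := h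
  intro x hx
  rw [faces_mem_fc_iff] at hx
  unfold FF
  simp only [mem_iUnion, exists_prop]
  refine ⟨n, hnQ, ?_⟩
  have key : ∀ i, (n i : ℝ) ≤ x i ∧ x i ≤ (n i : ℝ) + 1 := by
    intro i
    have h1 : (n i : ℝ) ≤ gl e (fun j => (y j : ℝ)) q i := hn1.1 i
    have h2 : gl e (fun j => (y j : ℝ)) q i ≤ (n i : ℝ) + 1 := hn1.2 i
    obtain ⟨s, rfl⟩ := e.surjective i
    rcases s with j | l
    · rw [faces_gl_inl] at h1 h2
      rw [hx.1 j]
      exact ⟨h1, h2⟩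
    · rw [faces_gl_inr] at h1 h2
      have h3 : (n (e (Sum.inr l)) : ℝ) < (p l : ℝ) + 1 := lt_of_le_of_lt h1 (hlt l).2
      have h4 : (p l : ℝ) < (n (e (Sum.inr l)) : ℝ) + 1 := lt_of_lt_of_le (hlt l).1 h2
      have h3' : n (e (Sum.inr l)) < p l + 1 := by exact_mod_cast h3
      have h4' : p l < n (e (Sum.inr l)) + 1 := by exact_mod_cast h4
      have h5 : n (e (Sum.inr l)) = p l := by omega
      rw [h5]
      exact hx.2 l
  exact ⟨fun i => (key i).1, fun i => (key i).2⟩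

theorem faces_fc_of_mem {m d : ℕ} {e : Fin m ⊕ Fin d ≃ Fin (m + d)} {y : Fin m → ℤ}
    {p : Fin d → ℤ} {z : Fin (m + d) → ℝ} (hz : z ∈ fc e y p) (h : z ∉ Ints (m + 1)) :
    fc e y p = {x | ∀ i, ((∃ n : ℤ, z i = n) → x i = z i) ∧
      ((¬ ∃ n : ℤ, z i = n) → (⌊z i⌋ : ℝ) ≤ x i ∧ x i ≤ (⌊z i⌋ : ℝ) + 1)} := by
  have hz' := hz
  rw [faces_mem_fc_iff] at hz'
  have hinr : ∀ l, ¬ ∃ n : ℤ, z (e (Sum.inr l)) = n := by
    rintro l ⟨n, hn⟩
    apply h
    obtain ⟨q, hq, hzq⟩ := hz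
    rw [hzq]
    apply face_bd
    refine ⟨hq, l, ?_⟩
    have h0 : z (e (Sum.inr l)) = q l := by rw [hzq, faces_gl_inr]
    have h1 := (hz'.2 l).1
    have h2 := (hz'.2 l).2
    rw [← h0]
    rw [hn] at h1 h2 ⊢
    have h1' : p l ≤ n := by exact_mod_cast h1
    have h2' : n ≤ p l + 1 := by exact_mod_cast h2
    have : n = p l ∨ n = p l + 1 := by omega
    rcases this with h | h
    · left; rw [h]
    · right; rw [h]; push_cast; rfl
  have hfl : ∀ l, ⌊z (e (Sum.inr l))⌋ = p l := by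
    intro l
    rw [Int.floor_eq_iff]
    refine ⟨(hz'.2 l).1, ?_⟩
    rcases (hz'.2 l).2.lt_or_eq with h | h
    · exact h
    · exact absurd ⟨p l + 1, by push_cast; exact h⟩ (hinr l)
  ext x
  rw [faces_mem_fc_iff]; show _ ↔ ∀ i, _
  constructor
  · rintro ⟨h1, h2⟩ i
    obtain ⟨s, rfl⟩ := e.surjective i
    rcases s with j | l
    · refine ⟨fun _ => by rw [h1 j, hz'.1 j], fun hne => ?_⟩
      exact absurd ⟨y j, hz'.1 j⟩ hne
    · refine ⟨fun hex => absurd hex (hinr l), fun _ => ?_⟩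
      rw [hfl l]
      exact h2 l
  · intro hx
    refine ⟨fun j => ?_, fun l => ?_⟩
    · rw [(hx (e (Sum.inl j))).1 ⟨y j, hz'.1 j⟩, hz'.1 j]
    · have := (hx (e (Sum.inr l))).2 (hinr l)
      rwa [hfl l] at this

theorem face_unique {m d : ℕ} {e e' : Fin m ⊕ Fin d ≃ Fin (m + d)} {y y' : Fin m → ℤ}
    {p p' : Fin d → ℤ} {z : Fin (m + d) → ℝ} (hz : z ∈ fc e y p) (hz' : z ∈ fc e' y' p')
    (h : z ∉ Ints (m + 1)) : fc e y p = fc e' y' p' := by
  rw [faces_fc_of_mem hz h, faces_fc_of_mem hz' h]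

theorem exists_face {m d : ℕ} {z : Fin (m + d) → ℝ} (hz : z ∈ Ints m) :
    ∃ (e : Fin m ⊕ Fin d ≃ Fin (m + d)) (y : Fin m → ℤ) (p : Fin d → ℤ), z ∈ fc e y p := by
  obtain ⟨J, hJ, hJi⟩ := hz
  obtain ⟨J', hJ', hc⟩ := Finset.exists_subset_card_eq hJ
  have hc' : J'ᶜ.card = d := by
    rw [Finset.card_compl, Fintype.card_fin, hc]; omega
  refine ⟨finSumEquivOfFinset hc hc', fun j => ⌊z (finSumEquivOfFinset hc hc' (Sum.inl j))⌋,
    fun l => ⌊z (finSumEquivOfFinset hc hc' (Sum.inr l))⌋, ?_⟩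
  rw [faces_mem_fc_iff]
  refine ⟨fun j => ?_, fun l => ⟨Int.floor_le _, (Int.lt_floor_add_one _).le⟩⟩
  have hmem : finSumEquivOfFinset hc hc' (Sum.inl j) ∈ J := by
    rw [finSumEquivOfFinset_inl]
    exact hJ' (Finset.orderEmbOfFin_mem J' hc j)
  obtain ⟨n, hn⟩ := hJi _ hmem
  rw [hn, Int.floor_intCast]

theorem face_finite {m d : ℕ} {P : Set (Fin (m + d) → ℝ)} (hP : Bornology.IsBounded P) :
    {f : Set (Fin (m + d) → ℝ) | (f ∩ P).Nonempty ∧ ∃ (e : Fin m ⊕ Fin d ≃ Fin (m + d))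
      (y : Fin m → ℤ) (p : Fin d → ℤ), f = fc e y p}.Finite := by
  obtain ⟨R, hR⟩ := hP.subset_closedBall (0 : Fin (m + d) → ℝ)
  set N : ℤ := ⌈R⌉ + 1 with hN
  have hfin : (Set.range (fun w : (Fin m ⊕ Fin d ≃ Fin (m + d)) ×
      (Icc (fun _ : Fin m => -N) (fun _ => N)) × (Icc (fun _ : Fin d => -N) (fun _ => N)) =>
      fc w.1 w.2.1.1 w.2.2.1)).Finite := Set.finite_range _
  refine hfin.subset ?_
  rintro f ⟨⟨x, hxf, hxP⟩, e, y, p, rfl⟩
  rw [faces_mem_fc_iff] at hxf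
  have hx : ∀ i, |x i| ≤ R := by
    intro i
    have h1 := hR hxP
    rw [mem_closedBall, dist_zero_right] at h1
    have h2 := norm_le_pi_norm x i
    rw [Real.norm_eq_abs] at h2
    linarith
  have hRN : R ≤ (N : ℝ) - 1 := by
    rw [hN]; push_cast; linarith [Int.le_ceil R]
  have hyN : ∀ j, -N ≤ y j ∧ y j ≤ N := by
    intro j
    have h1 := abs_le.1 (hx (e (Sum.inl j)))
    rw [hxf.1 j] at h1
    constructor
    · have : (-N : ℝ) ≤ y j := by linarith [h1.1]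
      exact_mod_cast this
    · have : (y j : ℝ) ≤ N := by linarith [h1.2]
      exact_mod_cast this
  have hpN : ∀ l, -N ≤ p l ∧ p l ≤ N := by
    intro l
    have h1 := abs_le.1 (hx (e (Sum.inr l)))
    have h2 := hxf.2 l
    constructor
    · have : (-N : ℝ) ≤ p l := by linarith [h1.1, h2.2]
      exact_mod_cast this
    · have : (p l : ℝ) ≤ N := by linarith [h1.2, h2.1]
      exact_mod_cast this
  exact ⟨(e, ⟨y, fun j => (hyN j).1, fun j => (hyN j).2⟩,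
    ⟨p, fun l => (hpN l).1, fun l => (hpN l).2⟩), rfl⟩

/-- a filling of a face, in the space -/
theorem face_fill {k m d : ℕ} (hd : 1 ≤ d) {A : Fin k → Set (Fin (m + d) → ℝ)}
    (hA : ∀ i, IsClosed (A i)) (e : Fin m ⊕ Fin d ≃ Fin (m + d)) (y : Fin m → ℤ) (p : Fin d → ℤ)
    (hc : fc e y p ⊆ ⋃ i, A i) (hS : ∀ x ∈ mult A (d + 1), x ∉ Ints (m + 1)) :
    ∃ B : Fin k → Set (Fin (m + d) → ℝ), (∀ i, IsClosed (B i)) ∧ (∀ i, B i ⊆ fc e y p) ∧
      fc e y p ⊆ ⋃ i, B i ∧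
      (∀ q ∈ Bd (fun l => (p l : ℝ)) (fun l => (p l : ℝ) + 1), ∀ i,
        gl e (fun j => (y j : ℝ)) q ∈ B i ↔ gl e (fun j => (y j : ℝ)) q ∈ A i) ∧
      (∀ i, (B i).Nonempty → (A i ∩ fc e y p).Nonempty) ∧
      mult B (d + 1) ⊆ {x | ¬ FillF A e y p ∧ x = cf e y p} := by
  set a : Fin d → ℝ := fun l => (p l : ℝ) with ha
  set b : Fin d → ℝ := fun l => (p l : ℝ) + 1 with hb
  set G : (Fin d → ℝ) → (Fin (m + d) → ℝ) := fun q => gl e (fun j => (y j : ℝ)) q with hG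
  set A0 : Fin k → Set (Fin d → ℝ) := sl (pr e A) (fun j => (y j : ℝ)) with hA0
  have hGc : Continuous G := faces_gl_cont e _
  have hmem : ∀ i q, q ∈ A0 i ↔ G q ∈ A i := fun i q => Iff.rfl
  have hab : ∀ l, a l < b l := fun l => by simp [ha, hb]
  have hA0c : ∀ i, IsClosed (A0 i) := fun i => (hA i).preimage hGc
  have hfc : ∀ q ∈ Icc a b, G q ∈ fc e y p := fun q hq => ⟨q, hq, rfl⟩
  have hBdI : ∀ q ∈ Bd a b, q ∈ Icc a b := fun q hq => hq.1
  have hcov : Bd a b ⊆ ⋃ i, A0 i := by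
    intro q hq
    obtain ⟨i, hi⟩ := mem_iUnion.1 (hc (hfc q (hBdI q hq)))
    exact mem_iUnion.2 ⟨i, hi⟩
  have hSB : ∀ q ∈ Bd a b, q ∉ mult A0 (d + 1) := by
    rintro q hq ⟨T, hT, hTi⟩
    exact hS (G q) ⟨T, hT, hTi⟩ (face_bd hq)
  have hne : (Bd a b).Nonempty :=
    ⟨a, ⟨le_refl _, fun l => (hab l).le⟩, ⟨⟨0, hd⟩, Or.inl rfl⟩⟩
  have key : ∃ B0 : Fin k → Set (Fin d → ℝ), IsFill A0 a b B0 ∧
      mult B0 (d + 1) ⊆ {q | ¬ FillF A e y p ∧ q = ctr a b} ∧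
      ∀ i, (B0 i).Nonempty → (A0 i ∩ Bd a b).Nonempty := by
    by_cases hF : FillF A e y p
    · obtain ⟨B0, h1, h2, h3⟩ := fill_colours hne hF
      exact ⟨B0, h1, by rw [h2]; exact empty_subset _, h3⟩
    · obtain ⟨B0, h1, h2, h3⟩ := fill_cone hd hab hA0c hcov hSB
      exact ⟨B0, h1, fun q hq => ⟨hF, h2 hq⟩, h3⟩
  obtain ⟨B0, hB0, hB1, hB2⟩ := key
  refine ⟨fun i => G '' B0 i, fun i => ?_, fun i => ?_, ?_, ?_, ?_, ?_⟩
  · exact ((isCompact_Icc.of_isClosed_subset (hB0.closed i) (hB0.sub i)).image hGc).isClosed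
  · rintro x ⟨q, hq, rfl⟩
    exact hfc q (hB0.sub i hq)
  · rintro x ⟨q, hq, rfl⟩
    obtain ⟨i, hi⟩ := mem_iUnion.1 (hB0.cover hq)
    exact mem_iUnion.2 ⟨i, q, hi, rfl⟩
  · intro q hq i
    constructor
    · rintro ⟨q', hq', hqq⟩
      have : q' = q := faces_gl_inj e _ hqq
      rw [this] at hq'
      exact (hB0.bd q hq i).1 hq'
    · intro hqA
      exact ⟨q, (hB0.bd q hq i).2 hqA, rfl⟩
  · rintro i ⟨x, q, hq, rfl⟩
    obtain ⟨q', hq1, hq2⟩ := hB2 i ⟨q, hq⟩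
    exact ⟨G q', hq1, hfc q' (hBdI q' hq2)⟩
  · rintro x ⟨T, hT, hTi⟩
    have hTne : T.Nonempty := by
      rw [← Finset.card_pos]; omega
    obtain ⟨i0, hi0⟩ := hTne
    obtain ⟨q, hq, rfl⟩ := hTi i0 hi0
    have hqm : q ∈ mult B0 (d + 1) := by
      refine ⟨T, hT, fun i hi => ?_⟩
      obtain ⟨q', hq', hqq⟩ := hTi i hi
      have : q' = q := faces_gl_inj e _ hqq
      rwa [this] at hq'
    obtain ⟨h1, h2⟩ := hB1 hqm
    refine ⟨h1, ?_⟩
    rw [h2]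
    show gl e _ (ctr a b) = gl e _ _
    congr 1
    funext l
    simp only [ctr, ha, hb]
    ring

end NR
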