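import Pool.Agent.NR.Avg

/-!
# Row NR-4b (project NR, MP_38b231_co): a good position of the box at all scales (helper48)
-/

set_option autoImplicit false

open MeasureTheory Metric Set Filter Module
open scoped Topology MeasureTheory RealInnerProductSpace Nat Pointwise NNReal

namespace NR

/-- the numerical inequality behind Markov at one scale -/
theorem goodP_num {m d : ℕ} (hm : 1 ≤ m) (hd : 1 ≤ d) {ρ s Λ θ : ℝ} (hρ : 0 < ρ) (hs : 0 < s)
    (hθ : 0 < θ) (h : 8 * d * m * Λ * ρ ≤ θ * s) (j : ℕ) :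
    2 * d * m * (2 * (ρ / 2 ^ j)) ^ (m + 1) * s ^ (d - 1) * (Λ * (ρ / 2 ^ j) ^ m) ≤
      θ * ((2 * (ρ / 2 ^ j)) ^ m) ^ 2 * (s ^ d / 2 / 2 / 2 ^ j) := by
  set x : ℝ := ρ / 2 ^ j with hx
  have hx0 : 0 < x := by positivity
  have h2j : (0 : ℝ) < 2 ^ j := by positivity
  have hsd : s ^ d = s ^ (d - 1) * s := by
    rw [← pow_succ, Nat.sub_add_cancel hd]
  have e1 : 2 * d * m * (2 * x) ^ (m + 1) * s ^ (d - 1) * (Λ * x ^ m) =
      ((x ^ m) ^ 2 * s ^ (d - 1) * 2 ^ m) * (4 * d * m * Λ * x) := by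
    rw [mul_pow, pow_succ x m, pow_succ (2 : ℝ) m]
    ring
  have e2 : θ * ((2 * x) ^ m) ^ 2 * (s ^ d / 2 / 2 / 2 ^ j) =
      ((x ^ m) ^ 2 * s ^ (d - 1) * 2 ^ m) * (θ * 2 ^ m * s / 4 / 2 ^ j) := by
    rw [mul_pow, hsd]
    field_simp
    ring
  rw [e1, e2]
  refine mul_le_mul_of_nonneg_left ?_ (by positivity)
  have h2m : (2 : ℝ) ≤ 2 ^ m := by
    calc (2 : ℝ) = 2 ^ 1 := (pow_one _).symm
      _ ≤ 2 ^ m := pow_le_pow_right₀ (by norm_num) hm
  have h3 : 4 * d * m * Λ * ρ ≤ θ * 2 ^ m * s / 4 := by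
    have h4 : θ * s * 2 ≤ θ * s * 2 ^ m := mul_le_mul_of_nonneg_left h2m (by positivity)
    nlinarith
  rw [hx, mul_div_assoc', le_div_iff₀ h2j, div_mul_cancel₀ _ h2j.ne']
  exact h3

/-- Markov at one scale -/
theorem goodP_scale {m d : ℕ} (hm : 1 ≤ m) (hd : 1 ≤ d) {S : Set ((Fin m → ℝ) × (Fin d → ℝ))}
    (hS : IsClosed S) {y : Fin m → ℝ} {q : Fin d → ℝ} {ρ s Λ θ : ℝ} (hρ : 0 < ρ) (hs : 0 < s)
    (hθ : 0 < θ)
    (hM : ∀ r, 0 < r → r ≤ ρ →
      μH[m] (S ∩ closedBall y r ×ˢ univ) ≤ ENNReal.ofReal (Λ * r ^ m))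
    (h : 8 * d * m * Λ * ρ ≤ θ * s) (j : ℕ) :
    volume ({p : Fin d → ℝ | ENNReal.ofReal (θ * ((2 * (ρ / 2 ^ j)) ^ m) ^ 2) ≤
      (volume.prod volume)
        {z : (Fin m → ℝ) × (Fin m → ℝ) | z.1 ∈ closedBall y (ρ / 2 ^ j) ∧
          z.2 ∈ closedBall y (ρ / 2 ^ j) ∧
          ¬ Gd (BadS S p s) (closedBall y (ρ / 2 ^ j)) z.1 z.2}} ∩
      Icc (fun l => q l - s) q) ≤ ENNReal.ofReal (s ^ d / 2 / 2 / 2 ^ j) := by
  have hx0 : 0 < ρ / 2 ^ j := by positivity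
  have hxρ : ρ / 2 ^ j ≤ ρ := div_le_self hρ.le (one_le_pow₀ (by norm_num))
  have hmeas := avg_meas hS y (ρ / 2 ^ j) s
  have h1 := mul_meas_ge_le_lintegral (μ := volume.restrict (Icc (fun l => q l - s) q)) hmeas
    (ENNReal.ofReal (θ * ((2 * (ρ / 2 ^ j)) ^ m) ^ 2))
  rw [Measure.restrict_apply (measurableSet_le measurable_const hmeas)] at h1
  have h2 := h1.trans (avg hm hd hS y q hx0 hs)
  have h3 := h2.trans (mul_le_mul_right (hM _ hx0 hxρ) _)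
  rw [← ENNReal.ofReal_mul (by positivity)] at h3
  have h4 := h3.trans (ENNReal.ofReal_le_ofReal (goodP_num hm hd hρ hs hθ h j))
  have hc0 : 0 < θ * ((2 * (ρ / 2 ^ j)) ^ m) ^ 2 := by positivity
  rw [ENNReal.ofReal_mul hc0.le] at h4
  have hc : ENNReal.ofReal (θ * ((2 * (ρ / 2 ^ j)) ^ m) ^ 2) ≠ 0 :=
    (ENNReal.ofReal_pos.mpr hc0).ne'
  exact (ENNReal.mul_le_mul_iff_right hc ENNReal.ofReal_ne_top).mp h4

theorem goodP_hyp {d : ℕ} (l : Fin d) (c : ℝ) : volume {p : Fin d → ℝ | p l = c} = 0 := by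
  rw [volume_pi]
  exact Measure.pi_hyperplane (fun _ : Fin d => (volume : Measure ℝ)) l c

/-- almost every position of the box avoids a finite set on its boundary -/
theorem goodP_null {m d : ℕ} {S : Set ((Fin m → ℝ) × (Fin d → ℝ))} {y : Fin m → ℝ} (s : ℝ)
    (hfin : {p | (y, p) ∈ S}.Finite) : volume {p : Fin d → ℝ | y ∈ BadS S p s} = 0 := by
  have h1 : {p : Fin d → ℝ | y ∈ BadS S p s} ⊆
      ⋃ p' ∈ {p | (y, p) ∈ S}, ⋃ l : Fin d, ({p | p l = p' l} ∪ {p | p l = p' l - s}) := by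
    intro p hp
    obtain ⟨p', ⟨_, l, hl⟩, hS'⟩ := hp
    simp only [mem_iUnion, mem_union, mem_ofPred_eq]
    refine ⟨p', hS', l, ?_⟩
    rcases hl with hl | hl
    · exact Or.inl hl.symm
    · right
      rw [hl]
      ring
  refine measure_mono_null h1 ?_
  rw [measure_biUnion_null_iff hfin.countable]
  intro p' _
  rw [measure_iUnion_null_iff]
  intro l
  rw [measure_union_null_iff]
  exact ⟨goodP_hyp l (p' l), goodP_hyp l (p' l - s)⟩

theorem good_p {m d : ℕ} (hm : 1 ≤ m) (hd : 1 ≤ d) {S : Set ((Fin m → ℝ) × (Fin d → ℝ))}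
    (hS : IsClosed S) {y : Fin m → ℝ} {q : Fin d → ℝ} {ρ s Λ θ : ℝ} (hρ : 0 < ρ) (hs : 0 < s)
    (hΛ : 0 ≤ Λ) (hθ : 0 < θ)
    (hM : ∀ r, 0 < r → r ≤ ρ →
      μH[m] (S ∩ closedBall y r ×ˢ univ) ≤ ENNReal.ofReal (Λ * r ^ m))
    (hfin : {p | (y, p) ∈ S}.Finite) (h : 8 * d * m * Λ * ρ ≤ θ * s) :
    ∃ p : Fin d → ℝ, (∀ l, p l < q l ∧ q l < p l + s) ∧ y ∉ BadS S p s ∧
      ∀ j : ℕ, (volume.prod volume)
        {z : (Fin m → ℝ) × (Fin m → ℝ) | z.1 ∈ closedBall y (ρ / 2 ^ j) ∧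
          z.2 ∈ closedBall y (ρ / 2 ^ j) ∧
          ¬ Gd (BadS S p s) (closedBall y (ρ / 2 ^ j)) z.1 z.2} ≤
        ENNReal.ofReal (θ * ((2 * (ρ / 2 ^ j)) ^ m) ^ 2) := by
  have _ := hΛ
  -- the sets of bad positions
  let N : ℕ → Set (Fin d → ℝ) := fun j =>
    {p : Fin d → ℝ | ENNReal.ofReal (θ * ((2 * (ρ / 2 ^ j)) ^ m) ^ 2) ≤
      (volume.prod volume)
        {z : (Fin m → ℝ) × (Fin m → ℝ) | z.1 ∈ closedBall y (ρ / 2 ^ j) ∧
          z.2 ∈ closedBall y (ρ / 2 ^ j) ∧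
          ¬ Gd (BadS S p s) (closedBall y (ρ / 2 ^ j)) z.1 z.2}} ∩ Icc (fun l => q l - s) q
  let H : Set (Fin d → ℝ) := ⋃ l : Fin d, ({p | p l = q l} ∪ {p | p l = q l - s})
  let B : Set (Fin d → ℝ) := {p : Fin d → ℝ | y ∈ BadS S p s}
  have hN : volume (⋃ j, N j) ≤ ENNReal.ofReal (s ^ d / 2) := by
    refine (measure_iUnion_le _).trans ?_
    refine (ENNReal.tsum_le_tsum fun j => goodP_scale hm hd hS hρ hs hθ hM h j).trans ?_
    rw [← ENNReal.ofReal_tsum_of_nonneg (fun j => by positivity)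
      (hasSum_geometric_two' (s ^ d / 2)).summable, tsum_geometric_two']
  have hH : volume H = 0 := by
    rw [measure_iUnion_null_iff]
    intro l
    rw [measure_union_null_iff]
    exact ⟨goodP_hyp l (q l), goodP_hyp l (q l - s)⟩
  have hB : volume B = 0 := goodP_null s hfin
  have hI : volume (Icc (fun l => q l - s) q) = ENNReal.ofReal (s ^ d) := by
    rw [Real.volume_Icc_pi]
    have e : ∀ l : Fin d, ENNReal.ofReal (q l - (q l - s)) = ENNReal.ofReal s := by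
      intro l
      congr 1
      ring
    simp only [e, Finset.prod_const, Finset.card_univ, Fintype.card_fin]
    rw [ENNReal.ofReal_pow hs.le]
  have hlt : volume ((⋃ j, N j) ∪ (H ∪ B)) < volume (Icc (fun l => q l - s) q) := by
    refine lt_of_le_of_lt (measure_union_le _ _) ?_
    rw [measure_union_null hH hB, add_zero, hI]
    refine lt_of_le_of_lt hN ?_
    rw [ENNReal.ofReal_lt_ofReal_iff (by positivity)]
    have : 0 < s ^ d := by positivity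
    linarith
  have hex : ∃ p ∈ Icc (fun l => q l - s) q, p ∉ (⋃ j, N j) ∪ (H ∪ B) := by
    by_contra hc
    push Not at hc
    exact absurd (measure_mono (μ := volume) (fun p hp => hc p hp)) (not_le.mpr hlt)
  obtain ⟨p, hpI, hp⟩ := hex
  simp only [mem_union, not_or] at hp
  obtain ⟨hp1, hp2, hp3⟩ := hp
  refine ⟨p, ?_, hp3, ?_⟩
  · intro l
    have h1 : ¬ (p l = q l ∨ p l = q l - s) := fun h => hp2 (mem_iUnion.mpr ⟨l, h⟩)
    rw [not_or] at h1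
    have h2 : p l ≤ q l := hpI.2 l
    have h3 : q l - s ≤ p l := hpI.1 l
    refine ⟨lt_of_le_of_ne h2 h1.1, ?_⟩
    have h4 : q l - s < p l := lt_of_le_of_ne h3 (Ne.symm h1.2)
    linarith
  · intro j
    by_contra hc
    apply hp1
    rw [mem_iUnion]
    exact ⟨j, (not_le.mp hc).le, hpI⟩

end NR
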