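import Pool.Agent.NR.Defs

/-!
# The stretching parameter exists (project NR, row NR-11)
-/

set_option autoImplicit false

open MeasureTheory Metric Set Filter Module
open scoped Topology MeasureTheory RealInnerProductSpace Nat Pointwise

namespace NR

theorem kap_cont_max {α ι : Type*} [TopologicalSpace α] (s : Finset ι) (f : ι → α → ℝ)
    (hf : ∀ i ∈ s, Continuous (f i)) (b : ℝ) :
    Continuous (fun x => s.fold max b (fun i => f i x)) := by
  classical
  induction s using Finset.induction_on with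
  | empty => simpa using continuous_const
  | insert a s ha ih =>
    have h1 : (fun x => (insert a s).fold max b (fun i => f i x)) =
        fun x => max (f a x) (s.fold max b (fun i => f i x)) := by
      funext x
      rw [Finset.fold_insert ha]
    rw [h1]
    exact (hf a (Finset.mem_insert_self a s)).max
      (ih fun i hi => hf i (Finset.mem_insert_of_mem hi))

theorem kap_cont_min {α ι : Type*} [TopologicalSpace α] (s : Finset ι) (f : ι → α → ℝ)
    (hf : ∀ i ∈ s, Continuous (f i)) (b : ℝ) :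
    Continuous (fun x => s.fold min b (fun i => f i x)) := by
  classical
  induction s using Finset.induction_on with
  | empty => simpa using continuous_const
  | insert a s ha ih =>
    have h1 : (fun x => (insert a s).fold min b (fun i => f i x)) =
        fun x => min (f a x) (s.fold min b (fun i => f i x)) := by
      funext x
      rw [Finset.fold_insert ha]
    rw [h1]
    exact (hf a (Finset.mem_insert_self a s)).min
      (ih fun i hi => hf i (Finset.mem_insert_of_mem hi))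

theorem kap_uu_fract (t : ℝ) : uu t = |Int.fract t - 1 / 2| := by
  unfold uu Int.fract
  congr 1
  ring

theorem kap_uu_cont : Continuous uu := by
  have h : uu = (fun s : ℝ => |s - 1 / 2|) ∘ Int.fract := by
    funext t
    exact kap_uu_fract t
  rw [h]
  apply ContinuousOn.comp_fract''
  · exact (continuous_abs.comp (continuous_id.sub continuous_const)).continuousOn
  · norm_num

theorem kap_uu_nonneg (t : ℝ) : 0 ≤ uu t := abs_nonneg _

theorem kap_uu_le (t : ℝ) : uu t ≤ 1 / 2 := by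
  unfold uu
  rw [abs_le]
  constructor
  · linarith [Int.floor_le t]
  · linarith [Int.lt_floor_add_one t]

/-- half minus the distance to the interval `[p, p + 1]`, near the interval -/
noncomputable def kapH (p t : ℝ) : ℝ := 1 / 2 + min (t - p) (p + 1 - t)

theorem kap_le_H {c p t : ℝ} : c ≤ kapH p t ↔ c - 1 / 2 ≤ t - p ∧ c - 1 / 2 ≤ p + 1 - t := by
  unfold kapH
  rw [← le_min_iff]
  constructor <;> intro h <;> linarith

theorem kap_H_cont (p : ℝ) : Continuous (kapH p) := by
  unfold kapH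
  exact continuous_const.add ((continuous_id.sub continuous_const).min
    (continuous_const.sub continuous_id))

/-- the parameter of the faces -/
noncomputable def kapA {D : ℕ} (m : ℕ) (x : Fin D → ℝ) : ℝ :=
  (Finset.powersetCard m (Finset.univ : Finset (Fin D))).fold max 0
    (fun J => J.fold min (1 / 2) (fun i => uu (x i)))

/-- the parameter of the cubes -/
noncomputable def kapB {D : ℕ} (Q : Finset (Fin D → ℤ)) (x : Fin D → ℝ) : ℝ :=
  Q.fold max 0 (fun n => (Finset.univ : Finset (Fin D)).fold min (1 / 2)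
    (fun i => kapH (n i) (x i)))

/-- the stretching parameter -/
noncomputable def kapK {D : ℕ} (m : ℕ) (Q : Finset (Fin D → ℤ)) (x : Fin D → ℝ) : ℝ :=
  max (kapA m x) (kapB Q x)

theorem kap_cont {D : ℕ} (m : ℕ) (Q : Finset (Fin D → ℤ)) : Continuous (kapK m Q) := by
  refine Continuous.max ?_ ?_
  · unfold kapA
    refine kap_cont_max _ _ (fun J _ => ?_) 0
    exact kap_cont_min J (fun i (x : Fin D → ℝ) => uu (x i))
      (fun i _ => kap_uu_cont.comp (continuous_apply i)) _
  · unfold kapB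
    refine kap_cont_max _ _ (fun n _ => ?_) 0
    exact kap_cont_min _ (fun i (x : Fin D → ℝ) => kapH (n i) (x i))
      (fun i _ => (kap_H_cont _).comp (continuous_apply i)) _

/-- the values of the parameter -/
theorem kap_le {D : ℕ} {m : ℕ} {Q : Finset (Fin D → ℤ)} {x : Fin D → ℝ} {c : ℝ} :
    c ≤ kapK m Q x ↔ c ≤ 0 ∨
      (∃ J : Finset (Fin D), J.card = m ∧ c ≤ 1 / 2 ∧ ∀ i ∈ J, c ≤ uu (x i)) ∨
      (∃ n ∈ Q, c ≤ 1 / 2 ∧ ∀ i, c - 1 / 2 ≤ x i - n i ∧ c - 1 / 2 ≤ n i + 1 - x i) := by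
  unfold kapK kapA kapB
  rw [le_max_iff, Finset.le_fold_max, Finset.le_fold_max]
  constructor
  · rintro ((h | ⟨J, hJ, h⟩) | (h | ⟨n, hn, h⟩))
    · exact Or.inl h
    · rw [Finset.le_fold_min] at h
      exact Or.inr (Or.inl ⟨J, (Finset.mem_powersetCard.mp hJ).2, h⟩)
    · exact Or.inl h
    · rw [Finset.le_fold_min] at h
      exact Or.inr (Or.inr ⟨n, hn, h.1, fun i => kap_le_H.mp (h.2 i (Finset.mem_univ i))⟩)
  · rintro (h | ⟨J, hJ, h⟩ | ⟨n, hn, h1, h2⟩)
    · exact Or.inl (Or.inl h)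
    · refine Or.inl (Or.inr ⟨J, Finset.mem_powersetCard.mpr ⟨Finset.subset_univ J, hJ⟩, ?_⟩)
      rw [Finset.le_fold_min]
      exact h
    · refine Or.inr (Or.inr ⟨n, hn, ?_⟩)
      rw [Finset.le_fold_min]
      exact ⟨h1, fun i _ => kap_le_H.mpr (h2 i)⟩

theorem kap_nonneg {D : ℕ} (m : ℕ) (Q : Finset (Fin D → ℤ)) (x : Fin D → ℝ) :
    0 ≤ kapK m Q x := kap_le.mpr (Or.inl le_rfl)

theorem kap_le_half {D : ℕ} (m : ℕ) (Q : Finset (Fin D → ℤ)) (x : Fin D → ℝ) :
    kapK m Q x ≤ 1 / 2 := by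
  rcases kap_le.mp (le_refl (kapK m Q x)) with h | ⟨J, _, h, _⟩ | ⟨n, _, h, _⟩
  · linarith
  · exact h
  · exact h

/-- for positive parameter -/
theorem kap_cases {D : ℕ} {m : ℕ} {Q : Finset (Fin D → ℤ)} {x : Fin D → ℝ}
    (h0 : 0 < kapK m Q x) :
    (∃ J : Finset (Fin D), J.card = m ∧ ∀ i ∈ J, kapK m Q x ≤ uu (x i)) ∨
      (∃ n ∈ Q, ∀ i, kapK m Q x - 1 / 2 ≤ x i - n i ∧ kapK m Q x - 1 / 2 ≤ n i + 1 - x i) := by
  rcases kap_le.mp (le_refl (kapK m Q x)) with h | ⟨J, h1, _, h2⟩ | ⟨n, h1, _, h2⟩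
  · linarith
  · exact Or.inl ⟨J, h1, h2⟩
  · exact Or.inr ⟨n, h1, h2⟩

theorem kap_eq {D : ℕ} {m : ℕ} {Q : Finset (Fin D → ℤ)} {x : Fin D → ℝ} (hx : x ∈ FF Q) :
    kapK m Q x = 1 / 2 := by
  apply le_antisymm (kap_le_half m Q x)
  rw [kap_le]
  unfold FF at hx
  simp only [mem_iUnion, exists_prop] at hx
  obtain ⟨n, hn, h1, h2⟩ := hx
  refine Or.inr (Or.inr ⟨n, hn, le_rfl, fun i => ?_⟩)
  have h3 := h1 i
  have h4 := h2 i
  simp only at h3 h4
  constructor <;> linarith

theorem kap_psi_cube (c t : ℝ) : (⌊t⌋ : ℝ) ≤ psi c t ∧ psi c t ≤ ⌊t⌋ + 1 := by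
  unfold psi
  constructor
  · have := le_max_left (-(1 / 2) : ℝ) (min (1 / 2) ((t - (⌊t⌋ + 1 / 2)) / (2 * c)))
    linarith
  · have h : max (-(1 / 2) : ℝ) (min (1 / 2) ((t - (⌊t⌋ + 1 / 2)) / (2 * c))) ≤ 1 / 2 :=
      max_le (by norm_num) (min_le_left _ _)
    linarith

theorem kap_psi_right {c t : ℝ} (hc : 0 < c) (h : c ≤ t - (⌊t⌋ + 1 / 2)) :
    psi c t = ⌊t⌋ + 1 := by
  unfold psi
  have h1 : (1 / 2 : ℝ) ≤ (t - (⌊t⌋ + 1 / 2)) / (2 * c) := by
    rw [le_div_iff₀ (by linarith)]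
    linarith
  rw [min_eq_left h1, max_eq_right (by norm_num)]
  ring

theorem kap_psi_left {c t : ℝ} (hc : 0 < c) (h : t - (⌊t⌋ + 1 / 2) ≤ -c) :
    psi c t = ⌊t⌋ := by
  unfold psi
  have h1 : (t - (⌊t⌋ + 1 / 2)) / (2 * c) ≤ -(1 / 2 : ℝ) := by
    rw [div_le_iff₀ (by linarith)]
    linarith
  rw [min_eq_right (h1.trans (by norm_num)), max_eq_left h1]
  ring

theorem kap_psi_mid {c t : ℝ} (hc : 0 < c) (h : uu t ≤ c) :
    psi c t = ⌊t⌋ + 1 / 2 + (t - (⌊t⌋ + 1 / 2)) / (2 * c) := by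
  unfold psi
  unfold uu at h
  rw [abs_le] at h
  have h1 : -(1 / 2 : ℝ) ≤ (t - (⌊t⌋ + 1 / 2)) / (2 * c) := by
    rw [le_div_iff₀ (by linarith)]
    linarith [h.1]
  have h2 : (t - (⌊t⌋ + 1 / 2)) / (2 * c) ≤ (1 / 2 : ℝ) := by
    rw [div_le_iff₀ (by linarith)]
    linarith [h.2]
  rw [min_eq_right h2, max_eq_right h1]

theorem kap_psi_int {c t : ℝ} (hc : 0 < c) (h : c ≤ uu t) :
    psi c t = ⌊t⌋ + 1 ∧ c ≤ t - (⌊t⌋ + 1 / 2) ∨ psi c t = ⌊t⌋ ∧ t - (⌊t⌋ + 1 / 2) ≤ -c := by
  unfold uu at h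
  rcases le_abs.mp h with h1 | h1
  · exact Or.inl ⟨kap_psi_right hc h1, h1⟩
  · have h2 : t - (⌊t⌋ + 1 / 2) ≤ -c := by linarith
    exact Or.inr ⟨kap_psi_left hc h2, h2⟩

/-- a cube which is near in the coordinate, when the coordinate is in the middle part -/
theorem kap_floor_of {c t : ℝ} {n : ℤ} (h : uu t < c) (h1 : c - 1 / 2 ≤ t - n)
    (h2 : c - 1 / 2 ≤ n + 1 - t) : n = ⌊t⌋ := by
  unfold uu at h
  rw [abs_lt] at h
  have h3 : (n : ℝ) < ⌊t⌋ + 1 := by linarith [h.2]
  have h4 : (⌊t⌋ : ℝ) < n + 1 := by linarith [h.1]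
  have h5 : n < ⌊t⌋ + 1 := by exact_mod_cast h3
  have h6 : ⌊t⌋ < n + 1 := by exact_mod_cast h4
  omega

/-- the stretched point is in the cube -/
theorem kap_psi_near {c t : ℝ} {n : ℤ} (hc : 0 < c) (h1 : c - 1 / 2 ≤ t - n)
    (h2 : c - 1 / 2 ≤ n + 1 - t) : (n : ℝ) ≤ psi c t ∧ psi c t ≤ n + 1 := by
  rcases lt_or_ge (uu t) c with h | h
  · rw [kap_floor_of h h1 h2]
    exact kap_psi_cube c t
  · have h3 := Int.floor_le t
    have h4 := Int.lt_floor_add_one t
    rcases kap_psi_int hc h with ⟨h5, h6⟩ | ⟨h5, h6⟩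
    · rw [h5]
      have h7 : (n : ℝ) < ⌊t⌋ + 2 := by linarith
      have h8 : (⌊t⌋ : ℝ) < n + 1 := by linarith
      have h9 : n < ⌊t⌋ + 2 := by exact_mod_cast h7
      have h10 : ⌊t⌋ < n + 1 := by exact_mod_cast h8
      have h11 : n ≤ ⌊t⌋ + 1 := by omega
      have h12 : ⌊t⌋ ≤ n := by omega
      constructor
      · exact_mod_cast h11
      · have : (⌊t⌋ : ℝ) ≤ n := by exact_mod_cast h12
        linarith
    · rw [h5]
      have h7 : (n : ℝ) < ⌊t⌋ + 1 := by linarith
      have h8 : (⌊t⌋ : ℝ) < n + 2 := by linarith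
      have h9 : n < ⌊t⌋ + 1 := by exact_mod_cast h7
      have h10 : ⌊t⌋ < n + 2 := by exact_mod_cast h8
      have h11 : n ≤ ⌊t⌋ := by omega
      have h12 : ⌊t⌋ ≤ n + 1 := by omega
      constructor
      · exact_mod_cast h11
      · exact_mod_cast h12

/-- one half of the comparison of the parameters -/
theorem kap_compare {D : ℕ} {m : ℕ} {Q : Finset (Fin D → ℤ)} {x x' : Fin D → ℝ}
    (h0 : 0 < kapK m Q x) (hf : ∀ i, ⌊x i⌋ = ⌊x' i⌋) {δ : ℝ} (hδ : 0 ≤ δ)
    (hJ : ∀ i, kapK m Q x ≤ uu (x i) → |x i - x' i| ≤ δ) :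
    kapK m Q x - δ ≤ kapK m Q x' := by
  have hle := kap_le_half m Q x
  rw [kap_le (x := x')]
  rcases kap_cases h0 with ⟨J, h1, h2⟩ | ⟨n, h1, h2⟩
  · refine Or.inr (Or.inl ⟨J, h1, by linarith, fun i hi => ?_⟩)
    have h3 := h2 i hi
    have h4 := hJ i h3
    have h5 : uu (x i) ≤ uu (x' i) + |x i - x' i| := by
      unfold uu
      rw [hf i]
      have : x i - (⌊x' i⌋ + 1 / 2 : ℝ) = (x' i - (⌊x' i⌋ + 1 / 2)) + (x i - x' i) := by ring
      rw [this]
      exact abs_add_le _ _
    linarith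
  · refine Or.inr (Or.inr ⟨n, h1, by linarith, fun i => ?_⟩)
    obtain ⟨h3, h4⟩ := h2 i
    rcases lt_or_ge (uu (x i)) (kapK m Q x) with h | h
    · have h5 : n i = ⌊x' i⌋ := by
        rw [← hf i]
        exact kap_floor_of h h3 h4
      have h6 := Int.floor_le (x' i)
      have h7 := Int.lt_floor_add_one (x' i)
      rw [h5]
      constructor <;> linarith
    · have h5 := abs_le.mp (hJ i h)
      constructor <;> linarith [h5.1, h5.2]

theorem kap_psi_cont {D : ℕ} (m : ℕ) (Q : Finset (Fin D → ℤ)) :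
    ContinuousOn (Psi (kapK m Q)) {x | 0 < kapK m Q x} := by
  rw [continuousOn_iff_continuous_domRestrict]
  refine continuous_pi fun i => ?_
  set f : {x : Fin D → ℝ // x ∈ {x | 0 < kapK m Q x}} → ℝ → ℝ := fun x s =>
    1 / 2 - s + max (-(1 / 2)) (min (1 / 2) ((s - 1 / 2) / (2 * kapK m Q x.1))) with hf
  have h1 : Continuous (Function.uncurry f) := by
    have h2 : Continuous fun p : {x : Fin D → ℝ // x ∈ {x | 0 < kapK m Q x}} × ℝ =>
        kapK m Q p.1.1 := (kap_cont m Q).comp (continuous_subtype_val.comp continuous_fst)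
    have h3 : ∀ p : {x : Fin D → ℝ // x ∈ {x | 0 < kapK m Q x}} × ℝ,
        2 * kapK m Q p.1.1 ≠ 0 := fun p => by
      have : 0 < kapK m Q p.1.1 := p.1.2
      positivity
    exact (continuous_const.sub continuous_snd).add (continuous_const.max
      (continuous_const.min ((continuous_snd.sub continuous_const).div
        (continuous_const.mul h2) h3)))
  have h4 : Continuous fun x : {x : Fin D → ℝ // x ∈ {x | 0 < kapK m Q x}} =>
      f x (Int.fract (x.1 i)) := by
    refine ContinuousOn.comp_fract h1.continuousOn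
      ((continuous_apply i).comp continuous_subtype_val) fun x => ?_
    have h5 : 0 < kapK m Q x.1 := x.2
    have h6 := kap_le_half m Q x.1
    have h7 : (0 - 1 / 2) / (2 * kapK m Q x.1) ≤ -(1 / 2 : ℝ) := by
      rw [div_le_iff₀ (by linarith)]
      linarith
    have h8 : (1 / 2 : ℝ) ≤ (1 - 1 / 2) / (2 * kapK m Q x.1) := by
      rw [le_div_iff₀ (by linarith)]
      linarith
    simp only [hf]
    rw [min_eq_right (h7.trans (by norm_num)), max_eq_left h7, min_eq_left h8,
      max_eq_right (by norm_num)]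
    norm_num
  have h9 : (fun x : {x : Fin D → ℝ // x ∈ {x | 0 < kapK m Q x}} =>
      ({x | 0 < kapK m Q x}.domRestrict (Psi (kapK m Q))) x i) =
      fun x => x.1 i + f x (Int.fract (x.1 i)) := by
    funext x
    simp only [Set.domRestrict_apply, Psi, psi, hf]
    have h10 : x.1 i - (⌊x.1 i⌋ + 1 / 2 : ℝ) = Int.fract (x.1 i) - 1 / 2 := by
      unfold Int.fract
      ring
    rw [h10]
    unfold Int.fract
    ring
  have h11 : Continuous (fun x : {x : Fin D → ℝ // x ∈ {x | 0 < kapK m Q x}} =>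
      ({x | 0 < kapK m Q x}.domRestrict (Psi (kapK m Q))) x i) := by
    rw [h9]
    exact ((continuous_apply i).comp continuous_subtype_val).add h4
  exact h11

theorem kap_lt_of_not {c t : ℝ} (hc : 0 < c) (h : uu t < c) :
    (⌊t⌋ : ℝ) < psi c t ∧ psi c t < ⌊t⌋ + 1 := by
  rw [kap_psi_mid hc h.le]
  unfold uu at h
  rw [abs_lt] at h
  have h1 : -(1 / 2 : ℝ) < (t - (⌊t⌋ + 1 / 2)) / (2 * c) := by
    rw [lt_div_iff₀ (by linarith)]
    linarith [h.1]
  have h2 : (t - (⌊t⌋ + 1 / 2)) / (2 * c) < (1 / 2 : ℝ) := by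
    rw [div_lt_iff₀ (by linarith)]
    linarith [h.2]
  constructor <;> linarith

theorem exists_kap {m D : ℕ} (hm : 1 ≤ m) (hmD : m ≤ D) (Q : Finset (Fin D → ℤ)) :
    ∃ κ : (Fin D → ℝ) → ℝ, IsKap m Q κ := by
  refine ⟨kapK m Q, ?_⟩
  refine
    { cont := kap_cont m Q
      nonneg := kap_nonneg m Q
      le := kap_le_half m Q
      eq := fun x hx => kap_eq hx
      psi_cont := kap_psi_cont m Q
      psi_mem := ?_
      psi_eq := ?_
      psi_cube := fun x i => kap_psi_cube _ _
      psi_int := ?_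
      int_of_le := ?_
      lt_of_not := fun x h0 i h => kap_lt_of_not h0 h
      zero := ?_
      inj := ?_ }
  · intro x h0
    rcases kap_cases h0 with ⟨J, h1, h2⟩ | ⟨n, h1, h2⟩
    · right
      refine ⟨J, h1.ge, fun i hi => ?_⟩
      rcases kap_psi_int h0 (h2 i hi) with ⟨h, _⟩ | ⟨h, _⟩
      · exact ⟨⌊x i⌋ + 1, by rw [Psi, h]; push_cast; ring⟩
      · exact ⟨⌊x i⌋, by rw [Psi, h]⟩
    · left
      unfold FF
      simp only [mem_iUnion, exists_prop]
      refine ⟨n, h1, fun i => ?_, fun i => ?_⟩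
      · exact (kap_psi_near h0 (h2 i).1 (h2 i).2).1
      · exact (kap_psi_near h0 (h2 i).1 (h2 i).2).2
  · intro x hx
    funext i
    have h1 := kap_eq (m := m) hx
    rw [Psi, h1, kap_psi_mid (by norm_num) (kap_uu_le _)]
    ring
  · intro x h0 hx hP
    by_contra hcon
    push Not at hcon
    apply hx
    unfold FF at hP ⊢
    simp only [mem_iUnion, exists_prop] at hP ⊢
    obtain ⟨n, hn, h1, h2⟩ := hP
    refine ⟨n, hn, ?_⟩
    have h3 : ∀ i, n i = ⌊x i⌋ := fun i => by
      have h4 := kap_lt_of_not h0 (hcon i)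
      have h5 : (n i : ℝ) ≤ psi (kapK m Q x) (x i) := h1 i
      have h6 : psi (kapK m Q x) (x i) ≤ (n i : ℝ) + 1 := h2 i
      have h7 : (n i : ℝ) < ⌊x i⌋ + 1 := by linarith [h4.2]
      have h8 : (⌊x i⌋ : ℝ) < n i + 1 := by linarith [h4.1]
      have h9 : n i < ⌊x i⌋ + 1 := by exact_mod_cast h7
      have h10 : ⌊x i⌋ < n i + 1 := by exact_mod_cast h8
      omega
    constructor
    · intro i
      simp only [h3 i]
      exact Int.floor_le _
    · intro i
      simp only [h3 i]
      exact (Int.lt_floor_add_one _).le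
  · intro x h0 i h
    rcases kap_psi_int h0 h with ⟨h, _⟩ | ⟨h, _⟩
    · exact ⟨⌊x i⌋ + 1, by rw [Psi, h]; push_cast; ring⟩
    · exact ⟨⌊x i⌋, by rw [Psi, h]⟩
  · intro x h0
    classical
    refine ⟨Finset.univ.filter fun i => uu (x i) = 0, ?_, fun i hi => ?_⟩
    · by_contra hcon
      push Not at hcon
      have h1 : (Finset.univ.filter fun i : Fin D => uu (x i) = 0).card +
          (Finset.univ.filter fun i : Fin D => ¬ uu (x i) = 0).card = D := by
        rw [Finset.card_filter_add_card_filter_not]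
        simp
      have h2 : m ≤ (Finset.univ.filter fun i : Fin D => ¬ uu (x i) = 0).card := by omega
      obtain ⟨J, hJ1, hJ2⟩ := Finset.exists_subset_card_eq h2
      have hJ0 : J.Nonempty := by
        rw [← Finset.card_pos]
        omega
      obtain ⟨i0, hi0, hmin⟩ := J.exists_min_image (fun i => uu (x i)) hJ0
      have h3 : uu (x i0) ≤ kapK m Q x :=
        kap_le.mpr (Or.inr (Or.inl ⟨J, hJ2, kap_uu_le _, hmin⟩))
      have h4 := (Finset.mem_filter.mp (hJ1 hi0)).2
      have h5 := kap_uu_nonneg (x i0)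
      apply h4
      linarith
    · have h1 := (Finset.mem_filter.mp hi).2
      unfold uu at h1
      rw [abs_eq_zero] at h1
      exact ⟨⌊x i⌋, by linarith⟩
  · intro x x' h0 h0' hf hiff δ δ' hδ hJ hP i
    have hc1 := kap_compare h0 hf hδ hJ
    have hc2 : kapK m Q x' - δ ≤ kapK m Q x := by
      refine kap_compare h0' (fun i => (hf i).symm) hδ fun i hi => ?_
      rw [abs_sub_comm]
      exact hJ i ((hiff i).mpr hi)
    have hδ' : 0 ≤ δ' := (abs_nonneg _).trans (hP i)
    rcases le_or_gt (kapK m Q x) (uu (x i)) with h | h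
    · linarith [hJ i h]
    · have h' : uu (x' i) < kapK m Q x' := by
        by_contra hcon
        push Not at hcon
        exact absurd ((hiff i).mpr hcon) (not_le.mpr h)
      have h1 := hP i
      have h2 := kap_le_half m Q x
      have h3 := kap_le_half m Q x'
      rw [Psi, Psi, kap_psi_mid h0 h.le, kap_psi_mid h0' h'.le, hf i] at h1
      set c : ℝ := ⌊x' i⌋ + 1 / 2 with hc
      set u : ℝ := (x i - c) / (2 * kapK m Q x) with hu
      set v : ℝ := (x' i - c) / (2 * kapK m Q x') with hv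
      have hu1 : x i - c = 2 * kapK m Q x * u := by
        rw [hu]
        field_simp
      have hv1 : x' i - c = 2 * kapK m Q x' * v := by
        rw [hv]
        field_simp
      have hv2 : |v| ≤ 1 / 2 := by
        rw [hv, abs_div, abs_of_pos (by linarith : 0 < 2 * kapK m Q x'),
          div_le_iff₀ (by linarith)]
        have : |x' i - c| = uu (x' i) := rfl
        rw [this]
        linarith
      have huv : |u - v| ≤ δ' := by
        have : c + u - (c + v) = u - v := by ring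
        rw [this] at h1
        exact h1
      have e : x i - x' i = 2 * kapK m Q x * (u - v) + 2 * (kapK m Q x - kapK m Q x') * v := by
        linear_combination hu1 - hv1
      rw [e]
      have hk : |kapK m Q x - kapK m Q x'| ≤ δ := abs_le.mpr ⟨by linarith, by linarith⟩
      calc |2 * kapK m Q x * (u - v) + 2 * (kapK m Q x - kapK m Q x') * v|
          ≤ |2 * kapK m Q x * (u - v)| + |2 * (kapK m Q x - kapK m Q x') * v| := abs_add_le _ _
        _ = 2 * kapK m Q x * |u - v| + 2 * |kapK m Q x - kapK m Q x'| * |v| := by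
            rw [abs_mul (2 * kapK m Q x) (u - v), abs_mul (2 * (kapK m Q x - kapK m Q x')) v,
              abs_mul 2 (kapK m Q x - kapK m Q x'),
              abs_of_pos (by linarith : 0 < 2 * kapK m Q x),
              abs_of_pos (by norm_num : (0 : ℝ) < 2)]
        _ ≤ 1 * δ' + 2 * δ * (1 / 2) := by
            apply add_le_add
            · exact mul_le_mul (by linarith) huv (abs_nonneg _) (by norm_num)
            · exact mul_le_mul (by linarith) hv2 (abs_nonneg _) (by linarith)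
        _ = δ + δ' := by ring

end NR
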