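import Pool.Agent.NR.Defs

/-!
# A piece of the essential set is on a Lipschitz graph (project NR, row NR-6a)
-/

set_option autoImplicit false

open MeasureTheory Metric Set Filter Module
open scoped Topology MeasureTheory RealInnerProductSpace Nat Pointwise NNReal

namespace NR

private theorem LipPiece_pair {m d : ℕ} {S : Set ((Fin m → ℝ) × (Fin d → ℝ))}
    {Y0 : Set (Fin m → ℝ)} {E : Set ((Fin m → ℝ) × (Fin d → ℝ))} (hE : E ⊆ S) {lam ρ0 δ : ℝ}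
    (hl : 0 ≤ lam) (hδ : 0 < δ)
    (hY : ∀ y ∈ Y0, ∀ p p' : Fin d → ℝ, (y, p) ∈ S → (y, p') ∈ S → dist p p' ≤ δ → p = p')
    (hE0 : ∀ z ∈ E, z.1 ∈ Y0)
    (h1 : ∀ z ∈ E, ∀ ρ, 0 < ρ → ρ ≤ ρ0 →
      volume (closedBall z.1 ρ \ {y' | ∃ p ∈ closedBall z.2 (lam * ρ), (y', p) ∈ S}) ≤
        ENNReal.ofReal ((2 * ρ) ^ m / 2 ^ (m + 2)))
    (h2 : ∀ z ∈ E, ∀ ρ, 0 < ρ → ρ ≤ ρ0 → volume (closedBall z.1 ρ \ Y0) ≤
      ENNReal.ofReal ((2 * ρ) ^ m / 2 ^ (m + 2)))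
    (hd1 : ∀ z ∈ E, ∀ z' ∈ E, dist z.1 z'.1 ≤ ρ0) (hd2 : ∀ z ∈ E, ∀ z' ∈ E, dist z.2 z'.2 ≤ δ / 2)
    (hd3 : 4 * lam * ρ0 ≤ δ) (z z' : (Fin m → ℝ) × (Fin d → ℝ)) (hz : z ∈ E) (hz' : z' ∈ E) :
    dist z.2 z'.2 ≤ 2 * lam * dist z.1 z'.1 := by
  rcases eq_or_lt_of_le (dist_nonneg (x := z.1) (y := z'.1)) with h0 | hpos
  · -- the same base point
    have h3 : z.1 = z'.1 := dist_eq_zero.1 h0.symm
    have h4 : z.2 = z'.2 := by
      refine hY z.1 (hE0 z hz) z.2 z'.2 (hE hz) ?_ ?_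
      · rw [h3]; exact hE hz'
      · have := hd2 z hz z' hz'
        linarith
    rw [h4, dist_self, ← h0, mul_zero]
  · set h := dist z.1 z'.1 with hh
    have hhρ : h ≤ ρ0 := hd1 z hz z' hz'
    set c : Fin m → ℝ := midpoint ℝ z.1 z'.1 with hc
    have hc1 : dist c z.1 = h / 2 := by
      rw [hc, dist_midpoint_left, Real.norm_ofNat]; ring
    have hc2 : dist c z'.1 = h / 2 := by
      rw [hc, dist_midpoint_right, Real.norm_ofNat]; ring
    have hs1 : closedBall c (h / 2) ⊆ closedBall z.1 h := by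
      apply closedBall_subset_closedBall'
      rw [hc1]; linarith
    have hs2 : closedBall c (h / 2) ⊆ closedBall z'.1 h := by
      apply closedBall_subset_closedBall'
      rw [hc2]; linarith
    have hb : (2 * h) ^ m / 2 ^ (m + 2) = h ^ m / 4 := by
      rw [mul_pow, pow_add]
      field_simp
      norm_num
    have hpm : 0 < h ^ m := pow_pos hpos m
    obtain ⟨y'', hy, hn⟩ : ∃ y'' ∈ closedBall c (h / 2), y'' ∉
        (closedBall z.1 h \ {y' | ∃ p ∈ closedBall z.2 (lam * h), (y', p) ∈ S}) ∪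
        (closedBall z'.1 h \ {y' | ∃ p ∈ closedBall z'.2 (lam * h), (y', p) ∈ S}) ∪
        (closedBall z.1 h \ Y0) := by
      by_contra hcon
      push Not at hcon
      have hsub : closedBall c (h / 2) ⊆
          (closedBall z.1 h \ {y' | ∃ p ∈ closedBall z.2 (lam * h), (y', p) ∈ S}) ∪
          (closedBall z'.1 h \ {y' | ∃ p ∈ closedBall z'.2 (lam * h), (y', p) ∈ S}) ∪
          (closedBall z.1 h \ Y0) := fun y hy => hcon y hy
      have hv : volume (closedBall c (h / 2)) ≤ ENNReal.ofReal (h ^ m / 4) +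
          ENNReal.ofReal (h ^ m / 4) + ENNReal.ofReal (h ^ m / 4) := by
        refine (measure_mono hsub).trans ((measure_union_le _ _).trans (add_le_add
          ((measure_union_le _ _).trans (add_le_add ?_ ?_)) ?_))
        · rw [← hb]; exact h1 z hz h hpos hhρ
        · rw [← hb]; exact h1 z' hz' h hpos hhρ
        · rw [← hb]; exact h2 z hz h hpos hhρ
      rw [Real.volume_pi_closedBall c (by positivity), Fintype.card_fin,
        ← ENNReal.ofReal_add (by positivity) (by positivity),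
        ← ENNReal.ofReal_add (by positivity) (by positivity),
        ENNReal.ofReal_le_ofReal_iff (by positivity), mul_div_cancel₀ h two_ne_zero] at hv
      linarith
    have hn1 : ∃ p ∈ closedBall z.2 (lam * h), (y'', p) ∈ S := by
      by_contra hcon
      exact hn (Or.inl (Or.inl ⟨hs1 hy, hcon⟩))
    have hn2 : ∃ p ∈ closedBall z'.2 (lam * h), (y'', p) ∈ S := by
      by_contra hcon
      exact hn (Or.inl (Or.inr ⟨hs2 hy, hcon⟩))
    have hn3 : y'' ∈ Y0 := by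
      by_contra hcon
      exact hn (Or.inr ⟨hs1 hy, hcon⟩)
    obtain ⟨p, hp, hpS⟩ := hn1
    obtain ⟨p', hp', hpS'⟩ := hn2
    have hp1 : dist p z.2 ≤ lam * h := hp
    have hp2 : dist p' z'.2 ≤ lam * h := hp'
    have hlh : lam * h ≤ lam * ρ0 := mul_le_mul_of_nonneg_left hhρ hl
    have hpp : p = p' := by
      refine hY y'' hn3 p p' hpS hpS' ?_
      have h5 := hd2 z hz z' hz'
      calc dist p p' ≤ dist p z.2 + dist z.2 z'.2 + dist z'.2 p' := dist_triangle4 _ _ _ _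
        _ ≤ lam * h + δ / 2 + lam * h := by
          rw [dist_comm z'.2 p']
          gcongr
        _ ≤ δ := by linarith
    calc dist z.2 z'.2 ≤ dist z.2 p + dist p z'.2 := dist_triangle _ _ _
      _ ≤ lam * h + lam * h := by
        rw [dist_comm z.2 p]
        rw [← hpp] at hp2
        gcongr
      _ = 2 * lam * h := by ring

theorem lip_piece {m d : ℕ} (hm : 1 ≤ m) {S : Set ((Fin m → ℝ) × (Fin d → ℝ))}
    {Y0 : Set (Fin m → ℝ)} {E : Set ((Fin m → ℝ) × (Fin d → ℝ))} (hE : E ⊆ S) {lam ρ0 δ : ℝ}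
    (hl : 0 ≤ lam) (hρ0 : 0 < ρ0) (hδ : 0 < δ)
    (hY : ∀ y ∈ Y0, ∀ p p' : Fin d → ℝ, (y, p) ∈ S → (y, p') ∈ S → dist p p' ≤ δ → p = p')
    (hE0 : ∀ z ∈ E, z.1 ∈ Y0)
    (h1 : ∀ z ∈ E, ∀ ρ, 0 < ρ → ρ ≤ ρ0 →
      volume (closedBall z.1 ρ \ {y' | ∃ p ∈ closedBall z.2 (lam * ρ), (y', p) ∈ S}) ≤
        ENNReal.ofReal ((2 * ρ) ^ m / 2 ^ (m + 2)))
    (h2 : ∀ z ∈ E, ∀ ρ, 0 < ρ → ρ ≤ ρ0 → volume (closedBall z.1 ρ \ Y0) ≤
      ENNReal.ofReal ((2 * ρ) ^ m / 2 ^ (m + 2)))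
    (hd1 : ∀ z ∈ E, ∀ z' ∈ E, dist z.1 z'.1 ≤ ρ0) (hd2 : ∀ z ∈ E, ∀ z' ∈ E, dist z.2 z'.2 ≤ δ / 2)
    (hd3 : 4 * lam * ρ0 ≤ δ) :
    ∃ g : (Fin m → ℝ) → Fin d → ℝ, (∃ K, LipschitzWith K g) ∧ ∀ z ∈ E, g z.1 = z.2 := by
  classical
  have key := LipPiece_pair hE hl hδ hY hE0 h1 h2 hd1 hd2 hd3
  set f : (Fin m → ℝ) → Fin d → ℝ := fun y =>
    if h : ∃ z ∈ E, z.1 = y then h.choose.2 else 0 with hf
  have hfz : ∀ z ∈ E, f z.1 = z.2 := by
    intro z hz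
    have hex : ∃ w ∈ E, w.1 = z.1 := ⟨z, hz, rfl⟩
    have h3 : f z.1 = hex.choose.2 := by
      rw [hf]
      exact dif_pos hex
    rw [h3]
    have h4 := hex.choose_spec
    have h5 := key _ z h4.1 hz
    rw [h4.2, dist_self, mul_zero] at h5
    exact dist_le_zero.1 h5
  have hlip : LipschitzOnWith ⟨2 * lam, by positivity⟩ f (Prod.fst '' E) := by
    refine LipschitzOnWith.of_dist_le_mul ?_
    rintro _ ⟨z, hz, rfl⟩ _ ⟨z', hz', rfl⟩
    rw [hfz z hz, hfz z' hz']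
    exact key z z' hz hz'
  obtain ⟨g, hg, hgf⟩ := hlip.extend_pi
  refine ⟨g, ⟨_, hg⟩, fun z hz => ?_⟩
  rw [← hgf ⟨z, hz, rfl⟩, hfz z hz]

end NR
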