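import Pool.Agent.NR.Defs
import Pool.Agent.NR.LipPiece
import Pool.Agent.NR.AeDens

/-!
# Countably many Lipschitz maps cover the good points (project NR)
-/

set_option autoImplicit false

open MeasureTheory Metric Set Filter Module
open scoped Topology MeasureTheory RealInnerProductSpace Nat Pointwise NNReal

namespace NR

/-- the points over which two different points of `S` have distance more than `1 / (N + 1)` -/
def LipAllY {m d : ℕ} (S : Set ((Fin m → ℝ) × (Fin d → ℝ))) (N : ℕ) : Set (Fin m → ℝ) :=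
  {y | ∀ p p' : Fin d → ℝ, (y, p) ∈ S → (y, p') ∈ S → dist p p' ≤ 1 / ((N : ℝ) + 1) → p = p'}

theorem LipAll_meas {m d : ℕ} {S : Set ((Fin m → ℝ) × (Fin d → ℝ))} (hS : IsCompact S) (N : ℕ) :
    MeasurableSet (LipAllY S N) := by
  have key : (LipAllY S N)ᶜ = ⋃ n : ℕ,
      (fun w : ((Fin m → ℝ) × (Fin d → ℝ)) × ((Fin m → ℝ) × (Fin d → ℝ)) => w.1.1) ''
        ((S ×ˢ S) ∩ {w | w.1.1 = w.2.1 ∧ 1 / ((n : ℝ) + 1) ≤ dist w.1.2 w.2.2 ∧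
          dist w.1.2 w.2.2 ≤ 1 / ((N : ℝ) + 1)}) := by
    ext y
    simp only [mem_compl_iff, mem_iUnion, mem_image, mem_inter_iff, mem_prod, mem_ofPred_eq]
    constructor
    · intro hy
      have hy' : ¬ ∀ p p' : Fin d → ℝ, (y, p) ∈ S → (y, p') ∈ S →
        dist p p' ≤ 1 / ((N : ℝ) + 1) → p = p' := hy
      push Not at hy'
      obtain ⟨p, p', hp, hp', hd, hne⟩ := hy'
      obtain ⟨n, hn⟩ := exists_nat_one_div_lt (dist_pos.2 hne)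
      exact ⟨n, ((y, p), (y, p')), ⟨⟨hp, hp'⟩, rfl, hn.le, hd⟩, rfl⟩
    · rintro ⟨n, ⟨⟨a, p⟩, ⟨b, p'⟩⟩, ⟨⟨hp, hp'⟩, hab, hn, hd⟩, rfl⟩ hy
      simp only at hp hp' hab hn hd hy
      subst hab
      have := hy p p' hp hp' hd
      rw [this, dist_self] at hn
      have h0 : (0 : ℝ) < 1 / ((n : ℝ) + 1) := by positivity
      linarith
  have h2 : MeasurableSet (LipAllY S N)ᶜ := by
    rw [key]
    refine MeasurableSet.iUnion fun n => ?_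
    refine IsCompact.measurableSet ?_
    refine IsCompact.image ?_ (by fun_prop)
    refine (hS.prod hS).inter_right ?_
    refine IsClosed.and ?_ (IsClosed.and ?_ ?_)
    · exact isClosed_eq (by fun_prop) (by fun_prop)
    · exact isClosed_le (by fun_prop) (by fun_prop)
    · exact isClosed_le (by fun_prop) (by fun_prop)
  exact h2.of_compl

theorem LipAll_mem {m d : ℕ} {S : Set ((Fin m → ℝ) × (Fin d → ℝ))} {y : Fin m → ℝ}
    (hy : {p | (y, p) ∈ S}.Finite) : ∃ N, y ∈ LipAllY S N := by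
  have h1 : ∀ᶠ N : ℕ in atTop, ∀ p ∈ {p | (y, p) ∈ S}, ∀ p' ∈ {p | (y, p) ∈ S},
      dist p p' ≤ 1 / ((N : ℝ) + 1) → p = p' := by
    refine (eventually_all_finite hy).2 fun p hp => ?_
    refine (eventually_all_finite hy).2 fun p' hp' => ?_
    by_cases hne : p = p'
    · exact Eventually.of_forall fun N _ => hne
    · have h2 := (tendsto_one_div_add_atTop_nhds_zero_nat (𝕜 := ℝ)).eventually
        (gt_mem_nhds (dist_pos.2 hne))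
      filter_upwards [h2] with N hN h3
      exact absurd h3 (not_le.2 hN)
  obtain ⟨N, hN⟩ := h1.exists
  exact ⟨N, fun p p' hp hp' hd => hN p hp p' hp' hd⟩

/-- one of the countably many pieces -/
def LipAllP {m d : ℕ} (S E : Set ((Fin m → ℝ) × (Fin d → ℝ))) (t : ℕ × ℕ × ℕ × ℕ × ℕ) :
    Set ((Fin m → ℝ) × (Fin d → ℝ)) :=
  {z | z ∈ E ∧ z.1 ∈ LipAllY S t.1 ∧
    (∀ ρ, 0 < ρ → ρ ≤ 1 / ((t.2.2.1 : ℝ) + 1) →
      volume (closedBall z.1 ρ \ {y' | ∃ p ∈ closedBall z.2 ((t.2.1 : ℝ) * ρ), (y', p) ∈ S}) ≤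
        ENNReal.ofReal ((2 * ρ) ^ m / 2 ^ (m + 2))) ∧
    (∀ ρ, 0 < ρ → ρ ≤ 1 / ((t.2.2.1 : ℝ) + 1) →
      volume (closedBall z.1 ρ \ LipAllY S t.1) ≤ ENNReal.ofReal ((2 * ρ) ^ m / 2 ^ (m + 2))) ∧
    dist z.1 (TopologicalSpace.denseSeq (Fin m → ℝ) t.2.2.2.1) ≤ 1 / ((t.2.2.1 : ℝ) + 1) / 2 ∧
    dist z.2 (TopologicalSpace.denseSeq (Fin d → ℝ) t.2.2.2.2) ≤ 1 / ((t.1 : ℝ) + 1) / 4}

theorem LipAll_piece {m d : ℕ} (hm : 1 ≤ m) {S E : Set ((Fin m → ℝ) × (Fin d → ℝ))} (hE : E ⊆ S)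
    (t : ℕ × ℕ × ℕ × ℕ × ℕ) :
    ∃ g : (Fin m → ℝ) → Fin d → ℝ, (∃ K, LipschitzWith K g) ∧
      (4 * (t.2.1 : ℝ) * (1 / ((t.2.2.1 : ℝ) + 1)) ≤ 1 / ((t.1 : ℝ) + 1) →
        ∀ z ∈ LipAllP S E t, g z.1 = z.2) := by
  by_cases h : 4 * (t.2.1 : ℝ) * (1 / ((t.2.2.1 : ℝ) + 1)) ≤ 1 / ((t.1 : ℝ) + 1)
  · have h0 : (0 : ℝ) < 1 / ((t.2.2.1 : ℝ) + 1) := by positivity
    have h0' : (0 : ℝ) < 1 / ((t.1 : ℝ) + 1) := by positivity
    obtain ⟨g, hg, hg2⟩ := lip_piece (m := m) (d := d) hm (S := S) (Y0 := LipAllY S t.1)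
      (E := LipAllP S E t) (fun z hz => hE hz.1) (lam := (t.2.1 : ℝ))
      (ρ0 := 1 / ((t.2.2.1 : ℝ) + 1)) (δ := 1 / ((t.1 : ℝ) + 1)) (Nat.cast_nonneg _) h0 h0'
      (fun y hy => hy) (fun z hz => hz.2.1) (fun z hz => hz.2.2.1) (fun z hz => hz.2.2.2.1)
      (fun z hz z' hz' => by
        have h1 := hz.2.2.2.2.1
        have h2 := hz'.2.2.2.2.1
        have h3 := dist_triangle_right z.1 z'.1 (TopologicalSpace.denseSeq (Fin m → ℝ) t.2.2.2.1)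
        linarith)
      (fun z hz z' hz' => by
        have h1 := hz.2.2.2.2.2
        have h2 := hz'.2.2.2.2.2
        have h3 := dist_triangle_right z.2 z'.2 (TopologicalSpace.denseSeq (Fin d → ℝ) t.2.2.2.2)
        linarith) h
    exact ⟨g, hg, fun _ => hg2⟩
  · exact ⟨fun _ => 0, ⟨0, LipschitzWith.const 0⟩, fun h' => absurd h' h⟩

theorem lip_all {m d : ℕ} (hm : 1 ≤ m) {S : Set ((Fin m → ℝ) × (Fin d → ℝ))} (hS : IsCompact S)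
    (hfin : ∀ᵐ y : Fin m → ℝ, {p | (y, p) ∈ S}.Finite)
    {E : Set ((Fin m → ℝ) × (Fin d → ℝ))} (hE : E ⊆ S)
    (h1 : ∀ z ∈ E, ∃ lam > 0, ∃ ρ0 > 0, ∀ ρ, 0 < ρ → ρ ≤ ρ0 →
      volume (closedBall z.1 ρ \ {y' | ∃ p ∈ closedBall z.2 (lam * ρ), (y', p) ∈ S}) ≤
        ENNReal.ofReal ((2 * ρ) ^ m / 2 ^ (m + 2))) :
    ∃ g : ℕ → (Fin m → ℝ) → Fin d → ℝ, (∀ n, ∃ K, LipschitzWith K (g n)) ∧
      ∀ᵐ y : Fin m → ℝ, ∀ q, (y, q) ∈ E → ∃ n, g n y = q := by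
  choose g hg hg2 using LipAll_piece (m := m) (d := d) hm (S := S) (E := E) hE
  obtain ⟨e, he⟩ := exists_surjective_nat (ℕ × ℕ × ℕ × ℕ × ℕ)
  refine ⟨fun n => g (e n), fun n => hg (e n), ?_⟩
  have hden : ∀ᵐ y : Fin m → ℝ, ∀ N, y ∈ LipAllY S N → ∀ ε > 0, ∃ ρ0 > 0, ∀ ρ, 0 < ρ → ρ ≤ ρ0 →
      volume (closedBall y ρ \ LipAllY S N) ≤ ENNReal.ofReal (ε * (2 * ρ) ^ m) :=
    ae_all_iff.2 fun N => ae_density (LipAll_meas hS N)
  filter_upwards [hfin, hden] with y hy1 hy2 q hq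
  obtain ⟨N, hN⟩ := LipAll_mem hy1
  obtain ⟨lam, hlam, ρ1, hρ1, hh1⟩ := h1 (y, q) hq
  obtain ⟨ρ2, hρ2, hh2⟩ := hy2 N hN (1 / 2 ^ (m + 2)) (by positivity)
  obtain ⟨L, hL⟩ := exists_nat_ge lam
  have hδ : (0 : ℝ) < 1 / ((N : ℝ) + 1) := by positivity
  have hL0 : (0 : ℝ) < (L : ℝ) := lt_of_lt_of_le hlam hL
  obtain ⟨n, hn⟩ := exists_nat_one_div_lt (lt_min (lt_min hρ1 hρ2)
    (div_pos hδ (mul_pos (by norm_num : (0 : ℝ) < 4) hL0)))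
  have hn0 : (0 : ℝ) < 1 / ((n : ℝ) + 1) := by positivity
  have hn1 : 1 / ((n : ℝ) + 1) ≤ ρ1 := hn.le.trans ((min_le_left _ _).trans (min_le_left _ _))
  have hn2 : 1 / ((n : ℝ) + 1) ≤ ρ2 := hn.le.trans ((min_le_left _ _).trans (min_le_right _ _))
  have hn3 : 1 / ((n : ℝ) + 1) ≤ 1 / ((N : ℝ) + 1) / (4 * (L : ℝ)) :=
    hn.le.trans (min_le_right _ _)
  have hn4 : 4 * (L : ℝ) * (1 / ((n : ℝ) + 1)) ≤ 1 / ((N : ℝ) + 1) := by
    rw [le_div_iff₀ (by positivity)] at hn3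
    linarith
  obtain ⟨i, hi⟩ := (TopologicalSpace.denseRange_denseSeq (Fin m → ℝ)).exists_dist_lt y (half_pos hn0)
  obtain ⟨j, hj⟩ := (TopologicalSpace.denseRange_denseSeq (Fin d → ℝ)).exists_dist_lt q
    (div_pos hδ (by norm_num : (0 : ℝ) < 4))
  obtain ⟨a, ha⟩ := he (N, L, n, i, j)
  refine ⟨a, ?_⟩
  have hz : (y, q) ∈ LipAllP S E (e a) := by
    rw [ha]
    refine ⟨hq, hN, fun ρ hρ hρ' => ?_, fun ρ hρ hρ' => ?_, hi.le, hj.le⟩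
    · refine le_trans (measure_mono ?_) (hh1 ρ hρ (hρ'.trans hn1))
      refine sdiff_subset_sdiff_right ?_
      rintro y' ⟨p, hp, hpS⟩
      exact ⟨p, closedBall_subset_closedBall (mul_le_mul_of_nonneg_right hL hρ.le) hp, hpS⟩
    · refine (hh2 ρ hρ (hρ'.trans hn2)).trans (le_of_eq ?_)
      congr 1
      ring
  have h4 := hg2 (e a) (by rw [ha]; exact hn4) (y, q) hz
  exact h4

end NR
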