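import Pool.Agent.NR.Defs
import Pool.Agent.H27.SX.Defs

/-!
# Project NR, row NR-10: flat pieces of a bi-Lipschitz graph
-/

set_option autoImplicit false

open MeasureTheory Metric Set Filter Module
open scoped Topology MeasureTheory RealInnerProductSpace Nat Pointwise NNReal

namespace NR

private theorem LipFlat_mem {k m : ℕ} {F : (Fin m → ℝ) → SP.V k} {D : (Fin m → ℝ) →L[ℝ] SP.V k}
    {x₀ : Fin m → ℝ} (h1 : HasFDerivAt F D x₀) (hH : ∀ x, F x ∈ SP.Hp k) (v : Fin m → ℝ) :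
    D v ∈ SP.Mea.E0 k := by
  have h2 : HasFDerivAt (fun x => innerSL ℝ (SP.Mea.one k) (F x)) ((innerSL ℝ (SP.Mea.one k)).comp D) x₀ :=
    (innerSL ℝ (SP.Mea.one k)).hasFDerivAt.comp x₀ h1
  have h3 : (fun x => innerSL ℝ (SP.Mea.one k) (F x)) = fun _ => (1 : ℝ) := by
    funext x
    have := hH x
    simp only [SP.Hp, mem_ofPred_eq] at this
    rw [innerSL_apply_apply]
    rw [← this]
    simp [SP.Mea.one, PiLp.inner_apply]
  rw [h3] at h2
  have h4 := h2.unique (hasFDerivAt_const (1 : ℝ) x₀)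
  have h5 := congrArg (fun L => L v) h4
  simp only [ContinuousLinearMap.comp_apply, innerSL_apply_apply, zero_apply] at h5
  rw [Submodule.mem_orthogonal_singleton_iff_inner_right]
  exact h5

/-- the derivative of an antilipschitz map is bounded below -/
private theorem LipFlat_low {k m : ℕ} {F : (Fin m → ℝ) → SP.V k} {D : (Fin m → ℝ) →L[ℝ] SP.V k}
    {x₀ : Fin m → ℝ} {K' : ℝ≥0} (h1 : HasFDerivAt F D x₀) (hF' : AntilipschitzWith K' F)
    (v : Fin m → ℝ) : ‖v‖ ≤ K' * ‖D v‖ := by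
  have hn1 : Tendsto (fun n : ℕ => (n : ℝ) + 1) atTop atTop :=
    tendsto_atTop_add_const_right _ _ tendsto_natCast_atTop_atTop
  have hlim : Tendsto (fun n : ℕ => ((n : ℝ) + 1) • (F (x₀ + ((n : ℝ) + 1)⁻¹ • v) - F x₀)) atTop
      (𝓝 (D v)) := (h1.lim_real v).comp hn1
  have h2 : Tendsto (fun n : ℕ => (K' : ℝ) * ‖((n : ℝ) + 1) • (F (x₀ + ((n : ℝ) + 1)⁻¹ • v) - F x₀)‖)
      atTop (𝓝 (K' * ‖D v‖)) := (hlim.norm).const_mul _
  refine ge_of_tendsto' h2 (fun n => ?_)
  have hn : (0 : ℝ) < (n : ℝ) + 1 := by positivity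
  have h3 := hF'.le_mul_dist (x₀ + ((n : ℝ) + 1)⁻¹ • v) x₀
  rw [dist_eq_norm, dist_eq_norm, add_sub_cancel_left, norm_smul, norm_inv, Real.norm_eq_abs,
    abs_of_pos hn] at h3
  rw [norm_smul, Real.norm_eq_abs, abs_of_pos hn]
  have h4 := mul_le_mul_of_nonneg_left h3 hn.le
  rw [← mul_assoc, mul_inv_cancel₀ hn.ne', one_mul] at h4
  calc ‖v‖ ≤ _ := h4
    _ = _ := by ring

private theorem LipFlat_frame {k m : ℕ} {L : (Fin m → ℝ) →L[ℝ] SP.V k}
    (hinj : Function.Injective L) (hE : ∀ v, L v ∈ SP.Mea.E0 k) :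
    ∃ w : Fin m → SP.V k, SX.Fr w ∧ ∀ (z : SP.V k) (v : Fin m → ℝ), ‖SX.rs w z‖ ≤ ‖z - L v‖ := by
  set R : Submodule ℝ (SP.V k) := LinearMap.range (L : (Fin m → ℝ) →ₗ[ℝ] SP.V k) with hR
  have hfin : finrank ℝ R = m := by
    rw [hR, LinearMap.finrank_range_of_inj hinj, Module.finrank_fin_fun]
  set b : OrthonormalBasis (Fin m) ℝ R := (stdOrthonormalBasis ℝ R).reindex (finCongr hfin)
    with hb
  refine ⟨fun a => (b a : SP.V k), ⟨?_, ?_⟩, ?_⟩
  · exact b.orthonormal.comp_linearIsometry R.subtypeₗᵢ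
  · intro a
    obtain ⟨v, hv⟩ := (b a).2
    show (b a : SP.V k) ∈ SP.Mea.E0 k
    rw [← hv]
    exact hE v
  · intro z v
    have hrs' : ∀ x : SP.V k, SX.rs (fun a => (b a : SP.V k)) x = x - R.starProjection x := by
      intro x
      have h := b.orthogonalProjectionOnto_apply_eq_sum x
      unfold SX.rs
      rw [Submodule.starProjection_apply, h]
      simp
    have h2 : R.starProjection (L v) = L v := by
      rw [Submodule.starProjection_eq_self_iff]
      exact ⟨v, rfl⟩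
    have h3 : z - R.starProjection z = (z - L v) - R.starProjection (z - L v) := by
      rw [map_sub R.starProjection z (L v), h2]
      abel
    have h4 : ∀ z : SP.V k, ‖z - R.starProjection z‖ ≤ ‖z‖ := by
      intro z
      have : z - R.starProjection z = Rᗮ.starProjection z := by
        rw [Submodule.starProjection_orthogonal']
        simp
      rw [this]
      exact Submodule.norm_starProjection_apply_le _ _
    rw [hrs', h3]
    exact h4 _

/-- the points at which `L` is a good linear approximation at scale `δ` -/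
private def LipFlat_Y {k m : ℕ} (F : (Fin m → ℝ) → SP.V k) (L : (Fin m → ℝ) →L[ℝ] SP.V k)
    (e δ : ℝ) : Set (Fin m → ℝ) :=
  {y | ∀ y', dist y' y < δ → ‖F y' - F y - L (y' - y)‖ ≤ e * ‖y' - y‖}

private theorem LipFlat_closed {k m : ℕ} {F : (Fin m → ℝ) → SP.V k} (hF : Continuous F)
    (L : (Fin m → ℝ) →L[ℝ] SP.V k) (e δ : ℝ) : IsClosed (LipFlat_Y F L e δ) := by
  have h : LipFlat_Y F L e δ = ⋂ y', ({y | δ ≤ dist y' y} ∪
      {y | ‖F y' - F y - L (y' - y)‖ ≤ e * ‖y' - y‖}) := by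
    ext y
    simp only [LipFlat_Y, mem_ofPred_eq, mem_iInter, mem_union]
    constructor
    · intro h y'
      rcases lt_or_ge (dist y' y) δ with h1 | h1
      · exact Or.inr (h y' h1)
      · exact Or.inl h1
    · intro h y' h1
      rcases h y' with h2 | h2
      · exact absurd h1 (not_lt.2 h2)
      · exact h2
  rw [h]
  refine isClosed_iInter fun y' => IsClosed.union ?_ ?_
  · exact isClosed_le continuous_const (continuous_const.dist continuous_id)
  · refine isClosed_le ?_ ?_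
    · exact ((continuous_const.sub hF).sub (L.continuous.comp (continuous_const.sub continuous_id))).norm
    · exact continuous_const.mul (continuous_const.sub continuous_id).norm

theorem lip_flat {k m : ℕ} (hm : 1 ≤ m) {F : (Fin m → ℝ) → SP.V k} {K K' : ℝ≥0}
    (hF : LipschitzWith K F) (hF' : AntilipschitzWith K' F) (hH : ∀ y, F y ∈ SP.Hp k) {η : ℝ}
    (hη : 0 < η) : ∃ (Q : ℕ → Set (SP.V k)) (w : ℕ → Fin m → SP.V k), (∀ n, IsCompact (Q n)) ∧
      (∀ n, Q n ⊆ SP.Hp k) ∧ (∀ n, SX.Fr (w n)) ∧ (∀ n, SX.Flat η (w n) (Q n)) ∧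
      μHE[m] (range F \ ⋃ n, Q n) = 0 := by
  have hRad : ∀ᵐ y : Fin m → ℝ, DifferentiableAt ℝ F y := hF.ae_differentiableAt
  -- the set of derivatives
  set G : Set (Fin m → ℝ) := {y | DifferentiableAt ℝ F y} with hG
  set 𝒟 : Set ((Fin m → ℝ) →L[ℝ] SP.V k) := (fderiv ℝ F) '' G with h𝒟
  have hGne : G.Nonempty := hRad.exists
  obtain ⟨t, ht𝒟, htc, htd⟩ :=
    (TopologicalSpace.IsSeparable.of_separableSpace 𝒟).exists_countable_dense_subset
  have htne : t.Nonempty := by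
    by_contra h
    rw [not_nonempty_iff_eq_empty] at h
    rw [h, closure_empty] at htd
    obtain ⟨y, hy⟩ := hGne
    exact htd ⟨y, hy, rfl⟩
  obtain ⟨Ls, hLs⟩ := htc.exists_eq_range htne
  have hLs' : ∀ n, ∃ y ∈ G, fderiv ℝ F y = Ls n := by
    intro n
    have : Ls n ∈ t := by rw [hLs]; exact mem_range_self n
    exact ht𝒟 this
  have hlow : ∀ n v, ‖v‖ ≤ K' * ‖Ls n v‖ := by
    intro n v
    obtain ⟨y, hy, h⟩ := hLs' n
    rw [← h]
    exact LipFlat_low (DifferentiableAt.hasFDerivAt hy) hF' v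
  have hinj : ∀ n, Function.Injective (Ls n) := by
    intro n
    rw [injective_iff_map_eq_zero]
    intro v hv
    have := hlow n v
    rw [hv, norm_zero, mul_zero] at this
    exact norm_le_zero_iff.1 this
  have hE : ∀ n v, Ls n v ∈ SP.Mea.E0 k := by
    intro n v
    obtain ⟨y, hy, h⟩ := hLs' n
    rw [← h]
    exact LipFlat_mem (DifferentiableAt.hasFDerivAt hy) hH v
  choose w hw hrs using fun n => LipFlat_frame (hinj n) (hE n)
  set e : ℝ := η / (2 * ((K' : ℝ) + 1)) with he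
  have hepos : 0 < e := by positivity
  have heK : 2 * e * K' ≤ η := by
    rw [he]
    rw [show 2 * (η / (2 * ((K' : ℝ) + 1))) * K' = η * (K' / ((K' : ℝ) + 1)) by field_simp]
    have : (K' : ℝ) / ((K' : ℝ) + 1) ≤ 1 := by
      rw [div_le_one (by positivity)]
      linarith
    nlinarith [NNReal.coe_nonneg K']
  -- the pieces
  set T : ℕ × ℕ × ℕ → Set (Fin m → ℝ) := fun i =>
    LipFlat_Y F (Ls i.1) (2 * e) (1 / ((i.2.1 : ℝ) + 1)) ∩
      closedBall (TopologicalSpace.denseSeq (Fin m → ℝ) i.2.2) (1 / (4 * ((i.2.1 : ℝ) + 1))) with hT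
  have hTc : ∀ i, IsCompact (T i) := by
    intro i
    rw [hT]
    exact (isCompact_closedBall _ _).inter_left (LipFlat_closed hF.continuous _ _ _)
  have hTf : ∀ i, SX.Flat η (w i.1) (F '' T i) := by
    rintro i _ ⟨y', ⟨hy'1, hy'2⟩, rfl⟩ _ ⟨y, ⟨hy1, hy2⟩, rfl⟩
    have hi : (0 : ℝ) < (i.2.1 : ℝ) + 1 := by positivity
    have hd : dist y' y < 1 / ((i.2.1 : ℝ) + 1) := by
      have h1 := dist_triangle_right y' y (TopologicalSpace.denseSeq (Fin m → ℝ) i.2.2)
      rw [mem_closedBall] at hy'2 hy2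
      have h2 : 1 / (4 * ((i.2.1 : ℝ) + 1)) + 1 / (4 * ((i.2.1 : ℝ) + 1)) <
          1 / ((i.2.1 : ℝ) + 1) := by
        rw [show 1 / (4 * ((i.2.1 : ℝ) + 1)) + 1 / (4 * ((i.2.1 : ℝ) + 1)) =
          (1 / 2) * (1 / ((i.2.1 : ℝ) + 1)) by field_simp; norm_num]
        have : 0 < 1 / ((i.2.1 : ℝ) + 1) := by positivity
        linarith
      linarith
    have h1 := hy1 y' hd
    have h2 := hrs i.1 (F y' - F y) (y' - y)
    have h3 : ‖y' - y‖ ≤ K' * ‖F y' - F y‖ := by
      rw [← dist_eq_norm, ← dist_eq_norm]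
      exact hF'.le_mul_dist _ _
    calc ‖SX.rs (w i.1) (F y' - F y)‖ ≤ 2 * e * ‖y' - y‖ := h2.trans h1
      _ ≤ 2 * e * (K' * ‖F y' - F y‖) := mul_le_mul_of_nonneg_left h3 (by positivity)
      _ = (2 * e * K') * ‖F y' - F y‖ := by ring
      _ ≤ η * ‖F y' - F y‖ := mul_le_mul_of_nonneg_right heK (norm_nonneg _)
  -- every point of differentiability is in some piece
  have hcov : ∀ y ∈ G, ∃ i, y ∈ T i := by
    intro y hy
    have hyd : HasFDerivAt F (fderiv ℝ F y) y := DifferentiableAt.hasFDerivAt hy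
    have h1 : ∀ᶠ y' in 𝓝 y, ‖F y' - F y - fderiv ℝ F y (y' - y)‖ ≤ e * ‖y' - y‖ :=
      hyd.isLittleO.def hepos
    obtain ⟨δ, hδ, hδ1⟩ := Metric.eventually_nhds_iff.1 h1
    obtain ⟨N, hN⟩ := exists_nat_one_div_lt hδ
    have h2 : fderiv ℝ F y ∈ closure t := htd ⟨y, hy, rfl⟩
    obtain ⟨L, hL, hL2⟩ := Metric.mem_closure_iff.1 h2 e hepos
    rw [hLs] at hL
    obtain ⟨n, rfl⟩ := hL
    have h4 : (0 : ℝ) < 1 / (4 * ((N : ℝ) + 1)) := by positivity
    obtain ⟨c, hc⟩ := (TopologicalSpace.denseRange_denseSeq (Fin m → ℝ)).exists_dist_lt y h4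
    refine ⟨(n, N, c), ?_, ?_⟩
    · intro y' hy'
      have h5 := hδ1 (hy'.trans hN)
      have h6 : ‖(fderiv ℝ F y - Ls n) (y' - y)‖ ≤ e * ‖y' - y‖ := by
        refine ((fderiv ℝ F y - Ls n).le_opNorm _).trans ?_
        rw [dist_eq_norm] at hL2
        exact mul_le_mul_of_nonneg_right hL2.le (norm_nonneg _)
      have h7 : F y' - F y - Ls n (y' - y) =
          (F y' - F y - fderiv ℝ F y (y' - y)) + (fderiv ℝ F y - Ls n) (y' - y) := by
        rw [sub_apply]
        abel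
      rw [h7]
      calc _ ≤ ‖F y' - F y - fderiv ℝ F y (y' - y)‖ + ‖(fderiv ℝ F y - Ls n) (y' - y)‖ :=
            norm_add_le _ _
        _ ≤ 2 * e * ‖y' - y‖ := by linarith
    · exact hc.le
  refine ⟨fun n => F '' T (Denumerable.ofNat (ℕ × ℕ × ℕ) n),
    fun n => w (Denumerable.ofNat (ℕ × ℕ × ℕ) n).1, ?_, ?_, ?_, ?_, ?_⟩
  · intro n
    exact (hTc _).image hF.continuous
  · rintro n _ ⟨y, _, rfl⟩
    exact hH y
  · intro n
    exact hw _
  · intro n
    exact hTf _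
  · have hnull : volume Gᶜ = 0 := hRad
    have h1 : μH[m] Gᶜ = 0 := by
      have h2 : (μH[m] : Measure (Fin m → ℝ)) = volume := by
        have := hausdorffMeasure_pi_real (ι := Fin m)
        rwa [Fintype.card_fin] at this
      rw [h2]
      exact hnull
    have h3 : μH[m] (F '' Gᶜ) = 0 := by
      have := hF.hausdorffMeasure_image_le (d := (m : ℝ)) (Nat.cast_nonneg m) Gᶜ
      rw [h1, mul_zero] at this
      exact le_antisymm this bot_le
    have h4 : μHE[m] (F '' Gᶜ) = 0 := by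
      rw [Measure.euclideanHausdorffMeasure_def, Measure.smul_apply, h3, smul_zero]
    refine measure_mono_null ?_ h4
    rintro _ ⟨⟨y, rfl⟩, hy⟩
    refine ⟨y, fun hyG => hy ?_, rfl⟩
    obtain ⟨i, hi⟩ := hcov y hyG
    refine mem_iUnion.2 ⟨Encodable.encode i, ?_⟩
    rw [Denumerable.ofNat_encode]
    exact ⟨y, hi, rfl⟩

end NR
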