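import Pool.Agent.NR.Lower
import Pool.Agent.H27.SY.Main

/-!
# NR-24: the infimum over all Sperner partitions
-/

set_option autoImplicit false

open scoped Nat

namespace NR

open SP SX

/-- the infimum for `2 d ≤ k`, over all partitions for which the content exists -/
theorem main {m d : ℕ} (hm : 1 ≤ m) (hd : 2 ≤ d) (hmd : d ≤ m + 1) :
    IsGLB {L : ℝ | ∃ A : Fin (d + m + 1) → Set (SP.V (d + m + 1)), SP.Adm (d + m + 1) A ∧
      SP.HasContent (d + m + 1) m (SP.meet (d + m + 1) A (d + 1)) L}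
      (Real.sqrt ((d : ℝ) + m + 1) / ((m ! : ℝ) * Real.sqrt (2 ^ d))) := by
  refine ⟨?_, fun b hb => ?_⟩
  · rintro L ⟨A, hA, hL⟩
    exact lower hm (by omega) hA.toAdm0 hL
  · refine (SY.main hm hd hmd).2 ?_
    rintro L ⟨A, hA, -, hL⟩
    exact hb ⟨A, hA, hL⟩

/-- the theorem in terms of `k` and `j` -/
theorem final (k j : ℕ) (hj : 3 ≤ j) (hjk : j + 1 ≤ k) :
    (2 * (j - 1) ≤ k →
      IsGLB {L : ℝ | ∃ A : Fin k → Set (V k), Adm k A ∧ HasContent k (k - j) (meet k A j) L}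
        (Real.sqrt k / (((k - j) ! : ℝ) * Real.sqrt (2 ^ (j - 1))))) ∧
    ∀ A : Fin k → Set (V k), Adm0 k A → ∀ L : ℝ, HasContent k (k - j) (meet k A j) L →
        Real.sqrt k / (((k - j) ! : ℝ) * Real.sqrt (2 ^ (j - 1))) ≤ L := by
  obtain ⟨d, rfl⟩ : ∃ d, j = d + 1 := ⟨j - 1, by omega⟩
  obtain ⟨m, rfl⟩ : ∃ m, k = d + m + 1 := ⟨k - d - 1, by omega⟩
  have h1 : d + m + 1 - (d + 1) = m := by omega
  have h2 : d + 1 - 1 = d := by omega
  have h3 : ((d + m + 1 : ℕ) : ℝ) = (d : ℝ) + m + 1 := by push_cast; ring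
  rw [h1, h2, h3]
  exact ⟨fun h => main (by omega) (by omega) (by omega),
    fun A hA L hL => lower (by omega) (by omega) hA hL⟩

end NR
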