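import Pool.Agent.NR.Defs
import Pool.Agent.NR.Faces

/-!
Project NR (MP_38b231_co), row NR-12b: the modification of the cover at unit scale.
-/

set_option autoImplicit false

open MeasureTheory Metric Set Filter Module
open scoped Topology MeasureTheory RealInnerProductSpace Nat Pointwise NNReal

namespace NR

/-- the properties of a filling of the face `f` -/
def MUFill {k m d : ℕ} (A : Fin k → Set (Fin (m + d) → ℝ)) (f : Set (Fin (m + d) → ℝ))
    (B : Fin k → Set (Fin (m + d) → ℝ)) : Prop :=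
  ∃ (e : Fin m ⊕ Fin d ≃ Fin (m + d)) (y : Fin m → ℤ) (p : Fin d → ℤ), f = fc e y p ∧
    (∀ i, IsClosed (B i)) ∧ (∀ i, B i ⊆ fc e y p) ∧
      fc e y p ⊆ ⋃ i, B i ∧
      (∀ q ∈ Bd (fun l => (p l : ℝ)) (fun l => (p l : ℝ) + 1), ∀ i,
        gl e (fun j => (y j : ℝ)) q ∈ B i ↔ gl e (fun j => (y j : ℝ)) q ∈ A i) ∧
      (∀ i, (B i).Nonempty → (A i ∩ fc e y p).Nonempty) ∧
      mult B (d + 1) ⊆ {x | ¬ FillF A e y p ∧ x = cf e y p}

theorem MU_isClosed_FF {D : ℕ} (Q : Finset (Fin D → ℤ)) : IsClosed (FF Q) := by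
  unfold FF
  exact isClosed_biUnion_finset fun n _ => isClosed_Icc

theorem MU_near {D : ℕ} {P : Set (Fin D → ℝ)} (hP : IsCompact P) {w : Fin D → ℝ} {r : ℝ}
    (hr : 0 ≤ r) (hw : w ∈ cthickening r P) : ∃ x ∈ P, dist w x ≤ r := by
  rw [hP.cthickening_eq_biUnion_closedBall hr] at hw
  simp only [mem_iUnion, mem_closedBall, exists_prop] at hw
  exact hw

theorem MU_dist_Psi {D m : ℕ} {Q : Finset (Fin D → ℤ)} {κ : (Fin D → ℝ) → ℝ}
    (hκ : IsKap m Q κ) (x : Fin D → ℝ) : dist (Psi κ x) x ≤ 1 := by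
  rw [dist_pi_le_iff zero_le_one]
  intro i
  have h1 := hκ.psi_cube x i
  have h2 := Int.floor_le (x i)
  have h3 := Int.lt_floor_add_one (x i)
  rw [Real.dist_eq, abs_le]
  constructor <;> linarith [h1.1, h1.2]

/-- a face which meets the closed `1`-neighbourhood of `P` is in the closed `3`-neighbourhood -/
theorem MU_face_sub {m d : ℕ} {P : Set (Fin (m + d) → ℝ)} (hP : IsCompact P)
    {e : Fin m ⊕ Fin d ≃ Fin (m + d)} {y : Fin m → ℤ} {p : Fin d → ℤ}
    (h : (fc e y p ∩ cthickening 1 P).Nonempty) : fc e y p ⊆ cthickening 3 P := by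
  obtain ⟨w, hw, hw2⟩ := h
  obtain ⟨x, hx, hwx⟩ := MU_near hP zero_le_one hw2
  intro v hv
  have h1 : v ∈ closedBall w 1 := face_ball hw hv
  rw [mem_closedBall] at h1
  refine mem_cthickening_of_dist_le v x 3 P hx ?_
  calc dist v x ≤ dist v w + dist w x := dist_triangle _ _ _
    _ ≤ 3 := by linarith

theorem MU_exists_fill {k m d : ℕ} (hd : 1 ≤ d) {A : Fin k → Set (Fin (m + d) → ℝ)}
    (hA : ∀ i, IsClosed (A i)) {P : Set (Fin (m + d) → ℝ)} (hP : IsCompact P)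
    (hc : cthickening 3 P ⊆ ⋃ i, A i) (hS : ∀ x ∈ mult A (d + 1), x ∉ Ints (m + 1))
    {f : Set (Fin (m + d) → ℝ)}
    (hf : (f ∩ cthickening 1 P).Nonempty ∧ ∃ (e : Fin m ⊕ Fin d ≃ Fin (m + d))
      (y : Fin m → ℤ) (p : Fin d → ℤ), f = fc e y p) : ∃ B, MUFill A f B := by
  obtain ⟨hne, e, y, p, rfl⟩ := hf
  obtain ⟨B, hB⟩ := face_fill hd hA e y p ((MU_face_sub hP hne).trans hc) hS
  exact ⟨B, e, y, p, rfl, hB⟩

/-- at a point with `m + 1` integral coordinates, or of `FF Q`, the filling agrees with `A` -/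
theorem MU_agree {k m d : ℕ} {A : Fin k → Set (Fin (m + d) → ℝ)} {f : Set (Fin (m + d) → ℝ)}
    {B : Fin k → Set (Fin (m + d) → ℝ)} (hB : MUFill A f B) {Q : Finset (Fin (m + d) → ℤ)}
    (hf : ¬ f ⊆ FF Q) {z : Fin (m + d) → ℝ} (hz : z ∈ FF Q ∨ z ∈ Ints (m + 1)) {i : Fin k}
    (hi : z ∈ B i) : z ∈ A i := by
  obtain ⟨e, y, p, rfl, -, hsub, -, hbd, -, -⟩ := hB
  obtain ⟨q, hq, hzq⟩ := hsub i hi
  have hq2 : q ∈ Bd (fun l => (p l : ℝ)) (fun l => (p l : ℝ) + 1) := by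
    rcases hz with hz | hz
    · rw [hzq] at hz
      exact face_ff hq hz hf
    · rw [hzq] at hz
      exact face_bd' hq hz
  rw [hzq] at hi ⊢
  exact (hbd q hq2 i).1 hi

theorem mod_unit {k m d : ℕ} (hm : 1 ≤ m) (hd : 1 ≤ d) {A : Fin k → Set (Fin (m + d) → ℝ)}
    (hA : ∀ i, IsClosed (A i)) {P : Set (Fin (m + d) → ℝ)} (hP : IsCompact P)
    (hc : cthickening 3 P ⊆ ⋃ i, A i) (hS : ∀ x ∈ mult A (d + 1), x ∉ Ints (m + 1))
    (Q : Finset (Fin (m + d) → ℤ)) {κ : (Fin (m + d) → ℝ) → ℝ} (hκ : IsKap m Q κ) :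
    ∃ A' : Fin k → Set (Fin (m + d) → ℝ), (∀ i, IsClosed (A' i)) ∧ P ⊆ ⋃ i, A' i ∧
      (∀ i, A' i ⊆ cthickening 3 (A i)) ∧
      P ∩ mult A' (d + 1) ⊆ (FF Q ∩ mult A (d + 1)) ∪
        {x | x ∉ FF Q ∧ 0 < κ x ∧ Psi κ x ∈ FF Q ∧ Psi κ x ∈ mult A (d + 1)} ∪
        {x | κ x = 0} ∪
        {x | ∃ (e : Fin m ⊕ Fin d ≃ Fin (m + d)) (y : Fin m → ℤ) (p : Fin d → ℤ),
          fc e y p ⊆ cthickening 3 P ∧ ¬ fc e y p ⊆ FF Q ∧ ¬ FillF A e y p ∧
          x ∈ closedBall (cf e y p) 1} := by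
  classical
  -- the faces
  set F0 : Set (Set (Fin (m + d) → ℝ)) := {f | (f ∩ cthickening 1 P).Nonempty ∧
    ∃ (e : Fin m ⊕ Fin d ≃ Fin (m + d)) (y : Fin m → ℤ) (p : Fin d → ℤ), f = fc e y p} with hF0
  have hF0fin : F0.Finite := face_finite (hP.isBounded.cthickening)
  have hex : ∀ f : Set (Fin (m + d) → ℝ), ∃ B : Fin k → Set (Fin (m + d) → ℝ),
      f ∈ F0 → MUFill A f B := by
    intro f
    by_cases hf : f ∈ F0
    · obtain ⟨B, hB⟩ := MU_exists_fill hd hA hP hc hS hf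
      exact ⟨B, fun _ => hB⟩
    · exact ⟨fun _ => ∅, fun h => absurd h hf⟩
  choose BB hBB using hex
  set F : Set (Set (Fin (m + d) → ℝ)) := {f | f ∈ F0 ∧ ¬ f ⊆ FF Q} with hF
  have hFfin : F.Finite := hF0fin.subset fun f hf => hf.1
  set A2 : Fin k → Set (Fin (m + d) → ℝ) := fun i => (A i ∩ FF Q) ∪ ⋃ f ∈ F, BB f i with hA2
  have hA2c : ∀ i, IsClosed (A2 i) := by
    intro i
    refine ((hA i).inter (MU_isClosed_FF Q)).union ?_
    refine hFfin.isClosed_biUnion fun f hf => ?_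
    obtain ⟨e, y, p, -, h, -⟩ := hBB f hf.1
    exact h i
  -- every point of `A2 i` is near a point of `A i`
  have hA2n : ∀ i, ∀ z ∈ A2 i, ∃ a ∈ A i, dist z a ≤ 1 := by
    intro i z hz
    rcases hz with hz | hz
    · exact ⟨z, hz.1, by simp⟩
    · simp only [mem_iUnion] at hz
      obtain ⟨f, hf, hz⟩ := hz
      obtain ⟨e, y, p, -, -, hsub, -, -, hne, -⟩ := hBB f hf.1
      obtain ⟨a, ha, haf⟩ := hne i ⟨z, hz⟩
      have h1 : z ∈ closedBall a 1 := face_ball haf (hsub i hz)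
      exact ⟨a, ha, by simpa using h1⟩
  -- `A2` covers the image
  have hcov : ∀ x ∈ P, 0 < κ x → ∃ i, Psi κ x ∈ A2 i := by
    intro x hx hk
    have hd1 := MU_dist_Psi hκ x
    have hmem : Psi κ x ∈ cthickening 1 P := mem_cthickening_of_dist_le _ x 1 P hx hd1
    by_cases hff : Psi κ x ∈ FF Q
    · have h3 : Psi κ x ∈ ⋃ i, A i := hc (cthickening_mono (by norm_num) P hmem)
      obtain ⟨i, hi⟩ := mem_iUnion.1 h3
      exact ⟨i, Or.inl ⟨hi, hff⟩⟩
    · have hint : Psi κ x ∈ Ints m := (hκ.psi_mem x hk).resolve_left hff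
      obtain ⟨e, y, p, hz⟩ := exists_face hint
      have hfF : fc e y p ∈ F := ⟨⟨⟨_, hz, hmem⟩, e, y, p, rfl⟩, fun h => hff (h hz)⟩
      obtain ⟨e', y', p', hfe, -, -, hcv, -⟩ := hBB _ hfF.1
      rw [hfe] at hz
      obtain ⟨i, hi⟩ := mem_iUnion.1 (hcv hz)
      refine ⟨i, Or.inr ?_⟩
      simp only [mem_iUnion]
      exact ⟨_, hfF, hi⟩
  set A' : Fin k → Set (Fin (m + d) → ℝ) := fun i =>
    {x | x ∈ P ∧ 0 < κ x ∧ Psi κ x ∈ A2 i} ∪ {x | x ∈ P ∧ κ x = 0 ∧ x ∈ cthickening 3 (A i)}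
    with hA'
  have hsub3 : ∀ i, A' i ⊆ cthickening 3 (A i) := by
    intro i x hx
    rcases hx with ⟨-, -, hx⟩ | ⟨-, -, hx⟩
    · obtain ⟨a, ha, hda⟩ := hA2n i _ hx
      refine mem_cthickening_of_dist_le x a 3 _ ha ?_
      have h1 := MU_dist_Psi hκ x
      rw [dist_comm] at h1
      calc dist x a ≤ dist x (Psi κ x) + dist (Psi κ x) a := dist_triangle _ _ _
        _ ≤ 3 := by linarith
    · exact hx
  refine ⟨A', ?_, ?_, hsub3, ?_⟩
  · -- closed
    intro i
    rw [← isSeqClosed_iff_isClosed]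
    intro u x hu hux
    have hxP : x ∈ P := by
      refine hP.isClosed.mem_of_tendsto hux (Eventually.of_forall fun n => ?_)
      rcases hu n with h | h
      · exact h.1
      · exact h.1
    rcases (hκ.nonneg x).eq_or_lt with h0 | h0
    · right
      refine ⟨hxP, h0.symm, ?_⟩
      exact isClosed_cthickening.mem_of_tendsto hux (Eventually.of_forall fun n => hsub3 i (hu n))
    · left
      refine ⟨hxP, h0, ?_⟩
      have hopen : IsOpen {x | 0 < κ x} := isOpen_lt continuous_const hκ.cont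
      have hcont : ContinuousAt (Psi κ) x := hκ.psi_cont.continuousAt (hopen.mem_nhds h0)
      have hev : ∀ᶠ n in atTop, 0 < κ (u n) := hux.eventually (hopen.mem_nhds h0)
      refine (hA2c i).mem_of_tendsto (hcont.tendsto.comp hux) ?_
      filter_upwards [hev] with n hn
      rcases hu n with h | h
      · exact h.2.2
      · exact absurd h.2.1 hn.ne'
  · -- cover
    intro x hx
    rcases (hκ.nonneg x).eq_or_lt with h0 | h0
    · have h1 : x ∈ ⋃ i, A i := hc (self_subset_cthickening P hx)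
      obtain ⟨i, hi⟩ := mem_iUnion.1 h1
      exact mem_iUnion.2 ⟨i, Or.inr ⟨hx, h0.symm, self_subset_cthickening _ hi⟩⟩
    · obtain ⟨i, hi⟩ := hcov x hx h0
      exact mem_iUnion.2 ⟨i, Or.inl ⟨hx, h0, hi⟩⟩
  · -- multiplicity
    rintro x ⟨hx, T, hT, hTx⟩
    rcases (hκ.nonneg x).eq_or_lt with h0 | h0
    · exact Or.inl (Or.inr h0.symm)
    · have hz : ∀ i ∈ T, Psi κ x ∈ A2 i := by
        intro i hi
        rcases hTx i hi with h | h
        · exact h.2.2
        · exact absurd h.2.1 h0.ne'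
      have hd1 := MU_dist_Psi hκ x
      -- points where `A2` agrees with `A`
      have hag : (Psi κ x ∈ FF Q ∨ Psi κ x ∈ Ints (m + 1)) → Psi κ x ∈ mult A (d + 1) := by
        intro hz2
        refine ⟨T, hT, fun i hi => ?_⟩
        rcases hz i hi with h | h
        · exact h.1
        · simp only [mem_iUnion] at h
          obtain ⟨f, hf, h⟩ := h
          exact MU_agree (hBB f hf.1) hf.2 hz2 h
      by_cases hff : Psi κ x ∈ FF Q
      · have hmA := hag (Or.inl hff)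
        by_cases hxf : x ∈ FF Q
        · rw [hκ.psi_eq x hxf] at hmA
          exact Or.inl (Or.inl (Or.inl ⟨hxf, hmA⟩))
        · exact Or.inl (Or.inl (Or.inr ⟨hxf, h0, hff, hmA⟩))
      · right
        have hni : Psi κ x ∉ Ints (m + 1) := fun h => hS _ (hag (Or.inr h)) h
        -- one face
        have hface : ∀ i ∈ T, ∃ f ∈ F, Psi κ x ∈ BB f i := by
          intro i hi
          rcases hz i hi with h | h
          · exact absurd h.2 hff
          · simp only [mem_iUnion] at h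
            obtain ⟨f, hf, h⟩ := h
            exact ⟨f, hf, h⟩
        have hTne : T.Nonempty := Finset.card_pos.1 (by omega)
        obtain ⟨i0, hi0⟩ := hTne
        obtain ⟨f, hf, hfi0⟩ := hface i0 hi0
        obtain ⟨e, y, p, hfe, -, hsub, -, -, -, hmul⟩ := hBB f hf.1
        have hzf : Psi κ x ∈ fc e y p := hsub i0 hfi0
        have hall : ∀ i ∈ T, Psi κ x ∈ BB f i := by
          intro i hi
          obtain ⟨f', hf', hfi⟩ := hface i hi
          obtain ⟨e', y', p', hfe', -, hsub', -⟩ := hBB f' hf'.1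
          have h1 : fc e' y' p' = fc e y p := face_unique (hsub' i hfi) hzf hni
          have h2 : f' = f := by rw [hfe', hfe, h1]
          rw [h2] at hfi
          exact hfi
        have hmm : Psi κ x ∈ mult (BB f) (d + 1) := ⟨T, hT, hall⟩
        obtain ⟨hnf, hcen⟩ := hmul hmm
        refine ⟨e, y, p, ?_, ?_, hnf, ?_⟩
        · exact MU_face_sub hP ⟨_, hzf, mem_cthickening_of_dist_le _ x 1 P hx hd1⟩
        · intro h
          exact hff (h hzf)
        · rw [mem_closedBall, ← hcen, dist_comm]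
          exact hd1

end NR
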