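import Pool.Agent.NR.Defs

/-!
# A bounded set of points with many half-integral coordinates is covered by few small balls
-/

set_option autoImplicit false

open MeasureTheory Metric Set Filter Module
open scoped Topology MeasureTheory RealInnerProductSpace Nat Pointwise

namespace NR

/-- the values of the coordinate `i` of the centres -/
noncomputable def singV {D : ℕ} (N M : ℕ) (J : Finset (Fin D)) (i : Fin D) : Finset ℝ := by
  classical
  exact if i ∈ J then (Finset.Icc (-(N : ℤ)) N).image (fun z : ℤ => (z : ℝ) + 1 / 2)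
    else (Finset.Icc (-((N * M : ℕ) : ℤ)) ((N * M : ℕ) : ℤ)).image (fun a : ℤ => (a : ℝ) / M)

/-- the centres -/
noncomputable def singT {D : ℕ} (n N M : ℕ) : Finset (Fin D → ℝ) := by
  classical
  exact (Finset.univ.filter (fun J : Finset (Fin D) => n ≤ J.card)).biUnion
    (fun J => Fintype.piFinset (singV N M J))

theorem sing_card_Icc (a : ℕ) : (Finset.Icc (-(a : ℤ)) a).card = 2 * a + 1 := by
  rw [Int.card_Icc]
  omega

theorem sing_card_V {D : ℕ} (N M : ℕ) (hM : 1 ≤ M) (J : Finset (Fin D)) (i : Fin D) :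
    (singV N M J i).card ≤ (2 * N + 1) * (if i ∈ J then 1 else M) := by
  classical
  unfold singV
  by_cases h : i ∈ J
  · simp only [h, if_true, mul_one]
    exact Finset.card_image_le.trans (sing_card_Icc N).le
  · simp only [h, if_false]
    refine (Finset.card_image_le.trans (sing_card_Icc (N * M)).le).trans ?_
    have : (2 * N + 1) * M = 2 * (N * M) + M := by ring
    omega

theorem sing_card_T {D n m : ℕ} (hD : n + m = D + 1) (N M : ℕ) (hM : 1 ≤ M) :
    (singT n N M : Finset (Fin D → ℝ)).card ≤ 2 ^ D * ((2 * N + 1) ^ D * M ^ (m - 1)) := by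
  classical
  unfold singT
  refine Finset.card_biUnion_le.trans ?_
  have h1 : ∀ J ∈ Finset.univ.filter (fun J : Finset (Fin D) => n ≤ J.card),
      (Fintype.piFinset (singV N M J)).card ≤ (2 * N + 1) ^ D * M ^ (m - 1) := by
    intro J hJ
    rw [Finset.mem_filter] at hJ
    rw [Fintype.card_piFinset]
    calc ∏ i, (singV N M J i).card ≤ ∏ i : Fin D, ((2 * N + 1) * (if i ∈ J then 1 else M)) :=
          Finset.prod_le_prod' fun i _ => sing_card_V N M hM J i
      _ = (2 * N + 1) ^ D * M ^ (Jᶜ).card := by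
          rw [Finset.prod_mul_distrib, Finset.prod_const, Finset.card_univ, Fintype.card_fin]
          congr 1
          rw [Finset.prod_ite, Finset.prod_const_one, one_mul, Finset.prod_const]
          congr 2
          ext i
          simp
      _ ≤ (2 * N + 1) ^ D * M ^ (m - 1) := by
          refine Nat.mul_le_mul_left _ (Nat.pow_le_pow_right hM ?_)
          rw [Finset.card_compl, Fintype.card_fin]
          omega
  refine (Finset.sum_le_card_nsmul _ _ _ h1).trans ?_
  rw [smul_eq_mul]
  refine Nat.mul_le_mul_right _ ?_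
  refine (Finset.card_le_univ _).trans ?_
  rw [Fintype.card_finset, Fintype.card_fin]

theorem sing_mem {D n : ℕ} (N M : ℕ) (hM : 1 ≤ M) (x : Fin D → ℝ) (hx : ∀ i, |x i| ≤ N)
    (h : x ∈ Halfs n) :
    ∃ q ∈ (singT n N M : Finset (Fin D → ℝ)), x ∈ closedBall q (1 / (M : ℝ)) := by
  classical
  obtain ⟨J, hJ, hz⟩ := h
  have hM' : (0 : ℝ) < M := by exact_mod_cast hM
  refine ⟨fun i => if i ∈ J then x i else (⌊x i * M⌋ : ℝ) / M, ?_, ?_⟩
  · unfold singT
    rw [Finset.mem_biUnion]
    refine ⟨J, by simp [hJ], ?_⟩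
    rw [Fintype.mem_piFinset]
    intro i
    have hxi := abs_le.mp (hx i)
    unfold singV
    by_cases hi : i ∈ J
    · simp only [hi, if_true]
      obtain ⟨z, hz⟩ := hz i hi
      rw [Finset.mem_image]
      refine ⟨z, ?_, hz.symm⟩
      rw [Finset.mem_Icc]
      constructor
      · have h2 : (-(N : ℝ) : ℝ) - 1 < z := by linarith [hxi.1]
        have h3 : (-(N : ℤ) - 1 : ℤ) < z := by exact_mod_cast h2
        omega
      · have h2 : (z : ℝ) < (N : ℝ) := by linarith [hxi.2]
        have h3 : z < (N : ℤ) := by exact_mod_cast h2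
        omega
    · simp only [hi, if_false]
      rw [Finset.mem_image]
      refine ⟨⌊x i * M⌋, ?_, rfl⟩
      rw [Finset.mem_Icc]
      constructor
      · rw [Int.le_floor]
        push_cast
        nlinarith [hxi.1]
      · have h2 : (⌊x i * M⌋ : ℝ) ≤ x i * M := Int.floor_le _
        have h3 : (⌊x i * M⌋ : ℝ) ≤ ((N * M : ℕ) : ℝ) := by
          push_cast
          nlinarith [hxi.2]
        exact_mod_cast h3
  · rw [mem_closedBall, dist_pi_le_iff (by positivity)]
    intro i
    by_cases hi : i ∈ J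
    · simp only [hi, if_true, dist_self]
      positivity
    · simp only [hi, if_false]
      rw [Real.dist_eq, abs_le]
      have h1 := Int.floor_le (x i * M)
      have h2 := Int.lt_floor_add_one (x i * M)
      constructor
      · have : (⌊x i * M⌋ : ℝ) / M ≤ x i := by rwa [div_le_iff₀ hM']
        have h3 : (0 : ℝ) ≤ 1 / (M : ℝ) := by positivity
        linarith
      · have : x i ≤ ((⌊x i * M⌋ : ℝ) + 1) / M := by
          rw [le_div_iff₀ hM']
          exact h2.le
        rw [add_div] at this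
        linarith

theorem sing_cover {D n m : ℕ} (hD : n + m = D + 1) (hm : 1 ≤ m) {P : Set (Fin D → ℝ)}
    (hP : Bornology.IsBounded P) {ε : ℝ} (hε : 0 < ε) :
    ∃ (T : Finset (Fin D → ℝ)) (ρ : ℝ), 0 < ρ ∧ P ∩ Halfs n ⊆ ⋃ q ∈ T, closedBall q ρ ∧
      (T.card : ℝ) * ρ ^ m ≤ ε := by
  classical
  obtain ⟨R, hR⟩ := hP.subset_closedBall (0 : Fin D → ℝ)
  obtain ⟨N, hN⟩ := exists_nat_ge R
  obtain ⟨M, hM⟩ := exists_nat_ge ((2 ^ D * (2 * N + 1) ^ D : ℝ) / ε)
  have hM0 : (0 : ℝ) < M := lt_of_lt_of_le (by positivity) hM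
  have hM1 : 1 ≤ M := by exact_mod_cast hM0
  refine ⟨singT n N M, 1 / (M : ℝ), by positivity, ?_, ?_⟩
  · rintro x ⟨hxP, hxH⟩
    have hx : ∀ i, |x i| ≤ N := by
      intro i
      have h1 := hR hxP
      rw [mem_closedBall, dist_zero_right] at h1
      exact (norm_le_pi_norm x i).trans (h1.trans hN)
    obtain ⟨q, hq, hxq⟩ := sing_mem N M hM1 x hx hxH
    exact mem_biUnion hq hxq
  · have h1 := sing_card_T hD N M hM1
    have h2 : ((singT n N M : Finset (Fin D → ℝ)).card : ℝ) ≤
        2 ^ D * ((2 * N + 1) ^ D * (M : ℝ) ^ (m - 1)) := by exact_mod_cast h1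
    have h3 : (M : ℝ) ^ m = (M : ℝ) ^ (m - 1) * M := by
      rw [← pow_succ]
      congr 1
      omega
    calc ((singT n N M : Finset (Fin D → ℝ)).card : ℝ) * (1 / (M : ℝ)) ^ m
        ≤ (2 ^ D * ((2 * N + 1) ^ D * (M : ℝ) ^ (m - 1))) * (1 / (M : ℝ)) ^ m := by gcongr
      _ = (2 ^ D * (2 * N + 1) ^ D) / M := by
          rw [one_div, inv_pow, h3]
          field_simp
      _ ≤ ε := by
          rw [div_le_iff₀ hM0]
          rw [div_le_iff₀ hε] at hM
          linarith

end NR
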