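import Pool.Agent.NR.Fill
import Pool.Agent.NR.Faces
import Pool.Agent.NR.Kap
import Pool.Agent.NR.ModUnit
import Pool.Agent.NR.CostA
import Pool.Agent.NR.CostT
import Pool.Agent.NR.CostF
import Pool.Agent.NR.Sing
import Pool.Agent.NR.AeTau
import Pool.Agent.NR.Cover

/-!
# NR-19: the modification of a closed cover on a fine grid
-/

set_option autoImplicit false

open MeasureTheory Metric Set Filter Module
open scoped Topology MeasureTheory RealInnerProductSpace Nat Pointwise NNReal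

namespace NR

/-- `X` is covered by countably many balls, the sum of the `m`-th powers of the radii is at most
`c` -/
def CovB {E : Type} [PseudoMetricSpace E] (m : ℕ) (X : Set E) (c : ℝ) : Prop :=
  ∃ (ι : Type) (_ : Countable ι) (z : ι → E) (δ : ι → ℝ), (∀ i, 0 < δ i) ∧
    Summable (fun i => δ i ^ m) ∧ ∑' i, δ i ^ m ≤ c ∧ X ⊆ ⋃ i, closedBall (z i) (δ i)

theorem CovB_union {E : Type} [PseudoMetricSpace E] {m : ℕ} {X Y : Set E} {c c' : ℝ}
    (h : CovB m X c) (h' : CovB m Y c') : CovB m (X ∪ Y) (c + c') := by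
  obtain ⟨ι, hι, z, δ, h1, h2, h3, h4⟩ := h
  obtain ⟨ι', hι', z', δ', h1', h2', h3', h4'⟩ := h'
  have hs : HasSum (fun i : ι ⊕ ι' => (Sum.elim δ δ' i) ^ m) ((∑' i, δ i ^ m) + ∑' i, δ' i ^ m) :=
    HasSum.sum (f := fun i : ι ⊕ ι' => (Sum.elim δ δ' i) ^ m) h2.hasSum h2'.hasSum
  refine ⟨ι ⊕ ι', inferInstance, Sum.elim z z', Sum.elim δ δ', ?_, hs.summable, ?_, ?_⟩
  · rintro (i | i)
    · exact h1 i
    · exact h1' i
  · rw [hs.tsum_eq]
    exact add_le_add h3 h3'
  · rintro x (hx | hx)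
    · obtain ⟨i, hi⟩ := mem_iUnion.1 (h4 hx)
      exact mem_iUnion.2 ⟨Sum.inl i, hi⟩
    · obtain ⟨i, hi⟩ := mem_iUnion.1 (h4' hx)
      exact mem_iUnion.2 ⟨Sum.inr i, hi⟩

theorem CovB_sigma {E : Type} [PseudoMetricSpace E] {m : ℕ} {X : Set E} (T : ℕ → Finset E)
    (ρ : ℕ → ℝ) (hρ : ∀ n, 0 < ρ n) {b : ℕ → ℝ} (hb : Summable b)
    (h : ∀ n, ((T n).card : ℝ) * ρ n ^ m ≤ b n) {c : ℝ} (hc : ∑' n, b n ≤ c)
    (hX : X ⊆ ⋃ n, ⋃ q ∈ T n, closedBall q (ρ n)) : CovB m X c := by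
  have h0 : ∀ s : (Σ n, T n), 0 ≤ ρ s.1 ^ m := fun s => by have := hρ s.1; positivity
  have h1 : ∀ n, Summable (fun _ : T n => ρ n ^ m) := fun n => Summable.of_finite
  have h2 : ∀ n, ∑' _ : T n, ρ n ^ m = ((T n).card : ℝ) * ρ n ^ m := by
    intro n
    rw [tsum_fintype]
    simp
  have h3 : Summable (fun n => ∑' _ : T n, ρ n ^ m) := by
    refine Summable.of_nonneg_of_le (fun n => ?_) (fun n => ?_) hb
    · rw [h2]; have := hρ n; positivity
    · rw [h2]; exact h n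
  have h4 : Summable (fun s : (Σ n, T n) => ρ s.1 ^ m) :=
    (summable_sigma_of_nonneg h0).2 ⟨h1, h3⟩
  refine ⟨Σ n, T n, inferInstance, fun s => s.2.1, fun s => ρ s.1, fun s => hρ _, h4, ?_, ?_⟩
  · rw [h4.tsum_sigma' h1]
    refine le_trans ?_ hc
    refine Summable.tsum_le_tsum (fun n => ?_) h3 hb
    rw [h2]; exact h n
  · intro x hx
    obtain ⟨n, hn⟩ := mem_iUnion.1 (hX hx)
    obtain ⟨q, hq⟩ := mem_iUnion.1 hn
    obtain ⟨hq1, hq2⟩ := mem_iUnion.1 hq
    exact mem_iUnion.2 ⟨⟨n, ⟨q, hq1⟩⟩, hq2⟩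

theorem CovB_finset {E : Type} [PseudoMetricSpace E] {m : ℕ} {X : Set E} (T : Finset E)
    {ρ : ℝ} (hρ : 0 < ρ) {c : ℝ} (h : (T.card : ℝ) * ρ ^ m ≤ c)
    (hX : X ⊆ ⋃ q ∈ T, closedBall q ρ) : CovB m X c := by
  refine ⟨T, inferInstance, fun s => s.1, fun _ => ρ, fun s => hρ, Summable.of_finite, ?_, ?_⟩
  · rw [tsum_fintype]
    simpa using h
  · intro x hx
    obtain ⟨q, hq⟩ := mem_iUnion.1 (hX hx)
    obtain ⟨hq1, hq2⟩ := mem_iUnion.1 hq
    exact mem_iUnion.2 ⟨⟨q, hq1⟩, hq2⟩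

/-- the scaled and translated coordinates -/
theorem modify_gl {m d : ℕ} (e : Fin m ⊕ Fin d ≃ Fin (m + d)) (r : ℝ) (τ : Fin (m + d) → ℝ)
    (y : Fin m → ℝ) (q : Fin d → ℝ) :
    gl e (fun j => r * (y j + τ (e (Sum.inl j)))) (r • (q + fun l => τ (e (Sum.inr l)))) =
      r • (gl e y q + τ) := by
  funext i
  obtain ⟨s, rfl⟩ := e.surjective i
  rcases s with j | l
  · simp [gl]
  · simp [gl, mul_add]

theorem modify_finite {D : ℕ} {B : Set (Fin D → ℝ)} (hB : Bornology.IsBounded B) :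
    {n : Fin D → ℤ | (Icc (fun i => (n i : ℝ)) (fun i => (n i : ℝ) + 1) ∩ B).Nonempty}.Finite := by
  obtain ⟨R, hR⟩ := hB.subset_closedBall 0
  refine (Set.finite_Icc (fun _ : Fin D => -⌈R⌉ - 1) (fun _ => ⌈R⌉ + 1)).subset ?_
  rintro n ⟨x, hx, hxB⟩
  have h1 : ‖x‖ ≤ R := by simpa using hR hxB
  have h2 : R ≤ (⌈R⌉ : ℝ) := Int.le_ceil R
  rw [mem_Icc, Pi.le_def, Pi.le_def]
  refine ⟨fun i => ?_, fun i => ?_⟩
  · have h3 : -R ≤ x i := by
      have := (norm_le_pi_norm x i).trans h1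
      exact (abs_le.1 this).1
    have h4 := hx.2 i
    have : (-⌈R⌉ - 1 : ℤ) ≤ n i := by
      have : ((-⌈R⌉ - 1 : ℤ) : ℝ) ≤ n i := by push_cast; linarith
      exact_mod_cast this
    exact this
  · have h3 : x i ≤ R := by
      have := (norm_le_pi_norm x i).trans h1
      exact (abs_le.1 this).2
    have h4 := hx.1 i
    have : (n i : ℤ) ≤ ⌈R⌉ + 1 := by
      have : ((n i : ℤ) : ℝ) ≤ ((⌈R⌉ + 1 : ℤ) : ℝ) := by push_cast; linarith
      exact_mod_cast this
    exact this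

theorem modify_cube {D : ℕ} {n : Fin D → ℤ} {x y : Fin D → ℝ}
    (hx : x ∈ Icc (fun i => (n i : ℝ)) (fun i => (n i : ℝ) + 1))
    (hy : y ∈ Icc (fun i => (n i : ℝ)) (fun i => (n i : ℝ) + 1)) : dist x y ≤ 1 := by
  rw [dist_pi_le_iff zero_le_one]
  intro i
  have h1 := hx.1 i
  have h2 := hx.2 i
  have h3 := hy.1 i
  have h4 := hy.2 i
  simp only at h1 h2 h3 h4
  rw [Real.dist_eq, abs_le]
  constructor <;> linarith

theorem modify (m d : ℕ) (hm : 1 ≤ m) (hd : 1 ≤ d) : ∃ C : ℝ, 0 < C ∧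
    ∀ (k : ℕ) (A : Fin k → Set (Fin (m + d) → ℝ)), (∀ i, IsClosed (A i)) →
    μH[m] (mult A (d + 1)) < ⊤ →
    ∀ Ω : Set (Fin (m + d) → ℝ), Ω ⊆ ⋃ i, A i →
    ∀ (P : Set (Fin (m + d) → ℝ)) (t : ℝ), IsCompact P → 0 < t → cthickening t P ⊆ Ω →
    ∀ Gr : Set (Fin (m + d) → ℝ),
    (∀ e : Fin m ⊕ Fin d ≃ Fin (m + d), ∀ᵐ y : Fin m → ℝ, ∀ a b : Fin d → ℝ,
      (∀ p ∈ Icc a b, gl e y p ∈ Ω) → (∀ p ∈ Bd a b, gl e y p ∉ mult A (d + 1)) →
      ¬ Fillable d (sl (pr e A) y) a b →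
      ∃ p ∈ Icc a b, gl e y p ∈ mult A (d + 1) ∧ gl e y p ∈ Gr) →
    ∀ (K : Set (Fin (m + d) → ℝ)) (ρ η : ℝ), IsCompact K → K ⊆ mult A (d + 1) → 0 < ρ → 0 < η →
    μH[m] ((mult A (d + 1) ∩ cthickening ρ K) \ K) < ENNReal.ofReal η →
    μH[m] ((mult A (d + 1) ∩ Gr) \ K) < ENNReal.ofReal η →
    ∃ A' : Fin k → Set (Fin (m + d) → ℝ), (∀ i, IsClosed (A' i)) ∧ P ⊆ ⋃ i, A' i ∧
      (∀ i, A' i ⊆ cthickening t (A i)) ∧
      ∃ (ι : Type) (_ : Countable ι) (z : ι → Fin (m + d) → ℝ) (δ : ι → ℝ), (∀ i, 0 < δ i) ∧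
        Summable (fun i => δ i ^ m) ∧ ∑' i, δ i ^ m ≤ C * η ∧
        P ∩ mult A' (d + 1) ⊆ K ∪ ⋃ i, closedBall (z i) (δ i) := by
  classical
  obtain ⟨C1, hC1, h1⟩ := cost_ball m (m + d) hm
  obtain ⟨C2, hC2, h2⟩ := cost_face m d hm
  obtain ⟨C3, hC3, h3⟩ := exists_tau m (m + d)
  refine ⟨4 + 3 ^ m * C1 * (C3 * 4) + C2 * (C3 * 4) + 1, by positivity, ?_⟩
  intro k A hA hf Ω hΩ P t hP ht hPt Gr hE K ρ η hK hKS hρ hη hη1 hη2
  set S := mult A (d + 1) with hS
  set r := min ρ (t / 4) with hrdef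
  have hr : 0 < r := lt_min hρ (by positivity)
  have hrρ : r ≤ ρ := min_le_left _ _
  have hrt : 3 * r ≤ t := by have : r ≤ t / 4 := min_le_right _ _; linarith
  have hrm : 0 < r ^ m := by positivity
  set Xt := ((S ∩ cthickening ρ K) \ K) ∪ ((S ∩ Gr) \ K) with hXtdef
  have hXt : μH[m] Xt < ENNReal.ofReal (2 * η) := by
    refine (measure_union_le _ _).trans_lt ?_
    rw [two_mul, ENNReal.ofReal_add hη.le hη.le]
    exact ENNReal.add_lt_add hη1 hη2
  obtain ⟨Z, Δ, hΔ, hZ, hs, hts⟩ := cover_small hm (by positivity) hXt (r := r / 2) (by positivity)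
  set δ : ℕ → ℝ := fun n => Δ n / r with hδdef
  have hδ : ∀ n, 0 < δ n ∧ δ n ≤ 1 / 2 := by
    intro n
    have := hΔ n
    refine ⟨div_pos this.1 hr, ?_⟩
    rw [hδdef, div_le_iff₀ hr]
    linarith [this.2]
  have hδs : (fun n => δ n ^ m) = fun n => Δ n ^ m / r ^ m := by
    funext n; rw [hδdef, div_pow]
  have hδsum : Summable (fun n => δ n ^ m) := by rw [hδs]; exact hs.div_const _
  have hδts : r ^ m * ∑' n, δ n ^ m = ∑' n, Δ n ^ m := by
    rw [hδs, tsum_div_const]; field_simp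
  -- the good translates
  have hN1 := ae_ints hf hr
  have hN2 : ∀ e : Fin m ⊕ Fin d ≃ Fin (m + d), ∀ᵐ τ : Fin (m + d) → ℝ, ∀ c : Fin m → ℤ,
      ∀ a b : Fin d → ℝ,
      (∀ p ∈ Icc a b, gl e (fun j => r * ((c j : ℝ) + τ (e (Sum.inl j)))) p ∈ Ω) →
      (∀ p ∈ Bd a b, gl e (fun j => r * ((c j : ℝ) + τ (e (Sum.inl j)))) p ∉ S) →
      ¬ Fillable d (sl (pr e A) (fun j => r * ((c j : ℝ) + τ (e (Sum.inl j))))) a b →
      ∃ p ∈ Icc a b, gl e (fun j => r * ((c j : ℝ) + τ (e (Sum.inl j)))) p ∈ S ∧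
        gl e (fun j => r * ((c j : ℝ) + τ (e (Sum.inl j)))) p ∈ Gr := by
    intro e
    have h := ae_tau (ae_iff.1 (hE e)) (ι := fun j => e (Sum.inl j))
      (fun i j hij => Sum.inl_injective (e.injective hij)) hr
    filter_upwards [h] with τ hτ c
    have := hτ c
    simp only [not_not] at this
    exact this
  have hN3 := hN1.and (ae_all_iff.2 hN2)
  obtain ⟨τ, -, hτN, hcs, hct⟩ := h3 (fun n => r⁻¹ • Z n) δ hδ hδsum _ (ae_iff.1 hN3)
  simp only [mem_ofPred_eq, not_not] at hτN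
  obtain ⟨hτ1, hτ2⟩ := hτN
  -- the unit picture
  set f : (Fin (m + d) → ℝ) → (Fin (m + d) → ℝ) := fun x => r • (x + τ) with hfdef
  set g : (Fin (m + d) → ℝ) → (Fin (m + d) → ℝ) := fun x => r⁻¹ • x - τ with hgdef
  have hfg : ∀ x, f (g x) = x := by
    intro x; simp only [hfdef, hgdef, sub_add_cancel, smul_smul]
    rw [mul_inv_cancel₀ hr.ne', one_smul]
  have hgf : ∀ x, g (f x) = x := by
    intro x; simp only [hfdef, hgdef, smul_smul]
    rw [inv_mul_cancel₀ hr.ne', one_smul, add_sub_cancel_right]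
  have hfc : Continuous f := by rw [hfdef]; fun_prop
  have hgc : Continuous g := by rw [hgdef]; fun_prop
  have hfd : ∀ x y, dist (f x) (f y) = r * dist x y := by
    intro x y
    rw [hfdef]
    simp only
    rw [dist_smul₀, dist_add_right, Real.norm_eq_abs, abs_of_pos hr]
  set Aτ : Fin k → Set (Fin (m + d) → ℝ) := fun i => {x | f x ∈ A i} with hAτdef
  have hAτ : ∀ i, IsClosed (Aτ i) := fun i => (hA i).preimage hfc
  have hPτ : IsCompact (g '' P) := hP.image hgc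
  have hmemP : ∀ x, x ∈ g '' P ↔ f x ∈ P := by
    intro x
    constructor
    · rintro ⟨y, hy, rfl⟩; rw [hfg]; exact hy
    · intro h; exact ⟨f x, h, hgf x⟩
  have hmemK : ∀ x, x ∈ g '' K ↔ f x ∈ K := by
    intro x
    constructor
    · rintro ⟨y, hy, rfl⟩; rw [hfg]; exact hy
    · intro h; exact ⟨f x, h, hgf x⟩
  have hthick : ∀ x ∈ cthickening 3 (g '' P), f x ∈ Ω := by
    intro x hx
    rw [hPτ.cthickening_eq_biUnion_closedBall (by norm_num)] at hx
    simp only [mem_iUnion] at hx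
    obtain ⟨y, hy, hxy⟩ := hx
    apply hPt
    refine mem_cthickening_of_dist_le _ (f y) _ _ ((hmemP y).1 hy) ?_
    rw [hfd]
    have := mem_closedBall.1 hxy
    nlinarith
  have hcov : cthickening 3 (g '' P) ⊆ ⋃ i, Aτ i := by
    intro x hx
    obtain ⟨i, hi⟩ := mem_iUnion.1 (hΩ (hthick x hx))
    exact mem_iUnion.2 ⟨i, hi⟩
  have hSτ : ∀ x ∈ mult Aτ (d + 1), x ∉ Ints (m + 1) := by
    intro x hx
    exact hτ1 x hx
  have hKτb : Bornology.IsBounded (g '' K) := (hK.image hgc).isBounded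
  set Q : Finset (Fin (m + d) → ℤ) := (modify_finite hKτb).toFinset with hQdef
  have hQ : ∀ n, n ∈ Q ↔
      (Icc (fun i => (n i : ℝ)) (fun i => (n i : ℝ) + 1) ∩ g '' K).Nonempty := by
    intro n; rw [hQdef, Set.Finite.mem_toFinset]; rfl
  obtain ⟨κ, hκ⟩ := exists_kap hm (Nat.le_add_right m d) Q
  obtain ⟨B, hBc, hPB, hBA, hBm⟩ := mod_unit hm hd hAτ hPτ hcov hSτ Q hκ
  -- points of `FF Q` are near `K`
  have hFK : ∀ x ∈ FF Q, f x ∈ cthickening ρ K := by
    intro x hx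
    simp only [FF, mem_iUnion] at hx
    obtain ⟨n, hn, hxn⟩ := hx
    obtain ⟨y, hy1, hy2⟩ := (hQ n).1 hn
    refine mem_cthickening_of_dist_le _ (f y) _ _ ((hmemK y).1 hy2) ?_
    rw [hfd]
    have := modify_cube hxn hy1
    nlinarith
  have hball : ∀ x j, f x ∈ closedBall (Z j) (Δ j) → x ∈ closedBall (r⁻¹ • Z j - τ) (δ j) := by
    intro x j hx
    have h5 : dist (f x) (f (g (Z j))) ≤ Δ j := by rw [hfg]; exact mem_closedBall.1 hx
    rw [hfd] at h5
    rw [mem_closedBall, hδdef, le_div_iff₀ hr, mul_comm]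
    exact h5
  have hball' : ∀ x q : Fin (m + d) → ℝ, ∀ c : ℝ, g x ∈ closedBall q c →
      x ∈ closedBall (f q) (r * c) := by
    intro x q c hx
    rw [mem_closedBall, ← hfg x, hfd]
    exact mul_le_mul_of_nonneg_left (mem_closedBall.1 hx) hr.le
  choose T1 hT1 hT1c using fun n => h1 Q κ hκ (r⁻¹ • Z n - τ) (δ n) (hδ n).1 (hδ n).2
  choose T2 hT2 hT2c using fun n => h2 (r⁻¹ • Z n - τ) (δ n) (hδ n).1 (hδ n).2
  obtain ⟨T3, ρ3, hρ3, hT3, hT3c⟩ := sing_cover (D := m + d) (n := m + d + 1 - m) (m := m)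
    (by omega) hm hPτ.isBounded (ε := η / r ^ m) (by positivity)
  refine ⟨fun i => {x | g x ∈ B i}, fun i => (hBc i).preimage hgc, ?_, ?_, ?_⟩
  · intro x hx
    obtain ⟨i, hi⟩ := mem_iUnion.1 (hPB ⟨x, hx, rfl⟩)
    exact mem_iUnion.2 ⟨i, hi⟩
  · intro i x hx
    have h5 := hBA i hx
    rw [(hAτ i).cthickening_eq_biUnion_closedBall (by norm_num)] at h5
    simp only [mem_iUnion] at h5
    obtain ⟨y, hy, hxy⟩ := h5
    have h6 := hball' x y 3 hxy
    refine mem_cthickening_of_dist_le _ (f y) _ _ hy ?_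
    have := mem_closedBall.1 h6
    linarith
  · -- the sums
    have hctE : r ^ m * ∑' n, ct m (r⁻¹ • Z n - τ) (δ n) ≤ C3 * 4 * η := by
      calc r ^ m * ∑' n, ct m (r⁻¹ • Z n - τ) (δ n) ≤ r ^ m * (C3 * ∑' n, δ n ^ m) :=
            mul_le_mul_of_nonneg_left hct hrm.le
        _ = C3 * (r ^ m * ∑' n, δ n ^ m) := by ring
        _ = C3 * ∑' n, Δ n ^ m := by rw [hδts]
        _ ≤ C3 * (2 * (2 * η)) := mul_le_mul_of_nonneg_left hts hC3.le
        _ = _ := by ring
    have hA1 : CovB m (⋃ n, closedBall (Z n) (Δ n)) (4 * η) :=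
      ⟨ℕ, inferInstance, Z, Δ, fun n => (hΔ n).1, hs, by linarith, le_rfl⟩
    have hA2 : CovB m (⋃ n, ⋃ q ∈ (T1 n).image f, closedBall q (r * (3 * δ n)))
        (3 ^ m * C1 * (C3 * 4) * η) := by
      refine CovB_sigma (fun n => (T1 n).image f) (fun n => r * (3 * δ n))
        (fun n => by have := (hδ n).1; positivity)
        (b := fun n => 3 ^ m * C1 * (r ^ m * ct m (r⁻¹ • Z n - τ) (δ n)))
        ((hcs.mul_left _).mul_left _) ?_ ?_ le_rfl
      · intro n
        have h6 : (((T1 n).image f).card : ℝ) ≤ (T1 n).card := by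
          exact_mod_cast Finset.card_image_le
        have h7 := (hδ n).1
        calc (((T1 n).image f).card : ℝ) * (r * (3 * δ n)) ^ m
            ≤ ((T1 n).card : ℝ) * (r * (3 * δ n)) ^ m := by gcongr
          _ = 3 ^ m * r ^ m * (((T1 n).card : ℝ) * δ n ^ m) := by
              rw [mul_pow, mul_pow]; ring
          _ ≤ 3 ^ m * r ^ m * (C1 * ct m (r⁻¹ • Z n - τ) (δ n)) :=
              mul_le_mul_of_nonneg_left (hT1c n) (by positivity)
          _ = _ := by ring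
      · rw [tsum_mul_left, tsum_mul_left]
        calc 3 ^ m * C1 * (r ^ m * ∑' n, ct m (r⁻¹ • Z n - τ) (δ n))
            ≤ 3 ^ m * C1 * (C3 * 4 * η) := mul_le_mul_of_nonneg_left hctE (by positivity)
          _ = _ := by ring
    have hA3 : CovB m (⋃ n : ℕ, ⋃ q ∈ (T2 n).image f, closedBall q r) (C2 * (C3 * 4) * η) := by
      refine CovB_sigma (fun n => (T2 n).image f) (fun n => r) (fun n => hr)
        (b := fun n => C2 * (r ^ m * ct m (r⁻¹ • Z n - τ) (δ n)))
        ((hcs.mul_left _).mul_left _) ?_ ?_ le_rfl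
      · intro n
        have h6 : (((T2 n).image f).card : ℝ) ≤ (T2 n).card := by
          exact_mod_cast Finset.card_image_le
        calc (((T2 n).image f).card : ℝ) * r ^ m ≤ ((T2 n).card : ℝ) * r ^ m := by gcongr
          _ ≤ (C2 * ct m (r⁻¹ • Z n - τ) (δ n)) * r ^ m :=
              mul_le_mul_of_nonneg_right (hT2c n) hrm.le
          _ = _ := by ring
      · rw [tsum_mul_left, tsum_mul_left]
        calc C2 * (r ^ m * ∑' n, ct m (r⁻¹ • Z n - τ) (δ n))
            ≤ C2 * (C3 * 4 * η) := mul_le_mul_of_nonneg_left hctE hC2.le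
          _ = _ := by ring
    have hA4 : CovB m (⋃ q ∈ T3.image f, closedBall q (r * ρ3)) η := by
      refine CovB_finset (T3.image f) (by positivity) ?_ le_rfl
      have h6 : ((T3.image f).card : ℝ) ≤ T3.card := by
        exact_mod_cast Finset.card_image_le
      calc ((T3.image f).card : ℝ) * (r * ρ3) ^ m ≤ (T3.card : ℝ) * (r * ρ3) ^ m := by gcongr
        _ = r ^ m * ((T3.card : ℝ) * ρ3 ^ m) := by rw [mul_pow]; ring
        _ ≤ r ^ m * (η / r ^ m) := mul_le_mul_of_nonneg_left hT3c hrm.le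
        _ = η := by field_simp
    obtain ⟨ι, hι, z, σ, h5, h6, h7, h8⟩ := CovB_union (CovB_union (CovB_union hA1 hA2) hA3) hA4
    refine ⟨ι, hι, z, σ, h5, h6, h7.trans (le_of_eq (by ring)), ?_⟩
    rintro x ⟨hxP, hx⟩
    have hgx : g x ∈ g '' P ∩ mult B (d + 1) := ⟨⟨x, hxP, rfl⟩, hx⟩
    by_cases hxK : x ∈ K
    · exact Or.inl hxK
    right
    apply h8
    rcases hBm hgx with ((⟨hc1, hc2⟩ | ⟨hc1, hc2, hc3, hc4⟩) | hc) | ⟨e, y, p, he1, he2, he3, he4⟩
    · -- points of `FF Q`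
      left; left; left
      apply hZ
      left
      have h9 := hFK _ hc1
      rw [hfg] at h9
      refine ⟨⟨?_, h9⟩, hxK⟩
      have : f (g x) ∈ S := hc2
      rwa [hfg] at this
    · -- points mapped to `FF Q`
      left; left; right
      have hzK : f (Psi κ (g x)) ∉ K := by
        intro hzK
        apply hc1
        simp only [FF, mem_iUnion]
        refine ⟨fun i => ⌊g x i⌋, (hQ _).2 ⟨Psi κ (g x), ⟨fun i => (hκ.psi_cube _ i).1,
          fun i => (hκ.psi_cube _ i).2⟩, (hmemK _).2 hzK⟩, fun i => Int.floor_le _,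
          fun i => (Int.lt_floor_add_one _).le⟩
      have hzS : f (Psi κ (g x)) ∈ S := hc4
      obtain ⟨j, hj⟩ := mem_iUnion.1 (hZ (Or.inl ⟨⟨hzS, hFK _ hc3⟩, hzK⟩))
      have h9 := hT1 j ⟨hc1, hc2, hc3, hball _ _ hj, hSτ _ hc4⟩
      simp only [mem_iUnion] at h9
      obtain ⟨q, hq, hxq⟩ := h9
      simp only [mem_iUnion]
      exact ⟨j, f q, Finset.mem_image_of_mem f hq, hball' _ _ _ hxq⟩
    · -- the singular set
      right
      have h9 := hT3 ⟨hgx.1, hκ.zero _ hc⟩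
      simp only [mem_iUnion] at h9
      obtain ⟨q, hq, hxq⟩ := h9
      simp only [mem_iUnion]
      exact ⟨f q, Finset.mem_image_of_mem f hq, hball' _ _ _ hxq⟩
    · -- the faces which are not fillable
      left; right
      set τr : Fin d → ℝ := fun l => τ (e (Sum.inr l)) with hτr
      set Y : Fin m → ℝ := fun j => r * ((y j : ℝ) + τ (e (Sum.inl j))) with hY
      set a : Fin d → ℝ := r • ((fun l => (p l : ℝ)) + τr) with ha
      set b : Fin d → ℝ := r • ((fun l => (p l : ℝ) + 1) + τr) with hb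
      have hgl : ∀ q : Fin d → ℝ, gl e Y (r • (q + τr)) = f (gl e (fun j => (y j : ℝ)) q) :=
        fun q => modify_gl e r τ _ q
      have hinv : ∀ q' : Fin d → ℝ, r • ((r⁻¹ • q' - τr) + τr) = q' := by
        intro q'; rw [sub_add_cancel, smul_smul, mul_inv_cancel₀ hr.ne', one_smul]
      have hIcc : ∀ q : Fin d → ℝ, r • (q + τr) ∈ Icc a b →
          q ∈ Icc (fun l => (p l : ℝ)) (fun l => (p l : ℝ) + 1) := by
        rintro q ⟨hq1, hq2⟩
        refine ⟨fun l => ?_, fun l => ?_⟩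
        · have := hq1 l
          simp only [ha, Pi.smul_apply, Pi.add_apply, smul_eq_mul] at this
          have := le_of_mul_le_mul_left this hr
          linarith
        · have := hq2 l
          simp only [hb, Pi.smul_apply, Pi.add_apply, smul_eq_mul] at this
          have := le_of_mul_le_mul_left this hr
          linarith
      have hnf : ¬ Fillable d (sl (pr e A) Y) a b := by
        intro hfil
        apply he3
        have h9 := fill_scale (A := sl (pr e A) Y) (c := τr) hr hfil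
        have h10 : (fun i => {x : Fin d → ℝ | r • (x + τr) ∈ sl (pr e A) Y i}) =
            sl (pr e Aτ) (fun j => (y j : ℝ)) := by
          funext i
          ext q
          change gl e Y (r • (q + τr)) ∈ A i ↔ f (gl e (fun j => (y j : ℝ)) q) ∈ A i
          rw [hgl]
        rw [h10] at h9
        exact h9
      obtain ⟨q', hq', hqS, hqG⟩ := hτ2 e y a b (by
        intro q' hq'
        rw [← hinv q', hgl]
        apply hthick
        apply he1
        refine ⟨_, hIcc _ ?_, rfl⟩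
        rw [hinv]; exact hq') (by
        intro q' hq' hqS
        rw [← hinv q', hgl] at hqS
        refine hτ1 _ hqS (face_bd (p := p) ?_)
        have h9 := hIcc (r⁻¹ • q' - τr) (by rw [hinv]; exact hq'.1)
        refine ⟨h9, ?_⟩
        obtain ⟨l, hl⟩ := hq'.2
        refine ⟨l, ?_⟩
        have hq'' : q' l = r * ((r⁻¹ • q' - τr) l + τr l) := by
          have := congrFun (hinv q') l
          simp only [Pi.smul_apply, Pi.add_apply, smul_eq_mul] at this
          exact this.symm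
        rcases hl with hl | hl
        · left
          rw [hq'', ha] at hl
          simp only [Pi.smul_apply, Pi.add_apply, smul_eq_mul] at hl
          have := mul_left_cancel₀ hr.ne' hl
          simp only [Pi.smul_apply, Pi.sub_apply, smul_eq_mul] at this ⊢
          linarith
        · right
          rw [hq'', hb] at hl
          simp only [Pi.smul_apply, Pi.add_apply, smul_eq_mul] at hl
          have := mul_left_cancel₀ hr.ne' hl
          simp only [Pi.smul_apply, Pi.sub_apply, smul_eq_mul] at this ⊢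
          linarith) hnf
      rw [← hinv q', hgl] at hqS hqG
      set w := gl e (fun j => (y j : ℝ)) (r⁻¹ • q' - τr) with hw
      have hwf : w ∈ fc e y p := ⟨_, hIcc _ (by rw [hinv]; exact hq'), rfl⟩
      have hwK : f w ∉ K := by
        intro hwK
        apply he2
        set n : Fin (m + d) → ℤ := fun i => Sum.elim y p (e.symm i) with hn
        have hcube : fc e y p ⊆ Icc (fun i => (n i : ℝ)) (fun i => (n i : ℝ) + 1) := by
          rintro v ⟨q, hq, rfl⟩
          refine ⟨fun i => ?_, fun i => ?_⟩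
          · obtain ⟨s, rfl⟩ := e.surjective i
            rcases s with j | l
            · simp [gl, hn]
            · simpa [gl, hn] using hq.1 l
          · obtain ⟨s, rfl⟩ := e.surjective i
            rcases s with j | l
            · simp [gl, hn]
            · simpa [gl, hn] using hq.2 l
        have hnQ : n ∈ Q := (hQ n).2 ⟨w, hcube hwf, (hmemK _).2 hwK⟩
        intro v hv
        simp only [FF, mem_iUnion]
        exact ⟨n, hnQ, hcube hv⟩
      obtain ⟨j, hj⟩ := mem_iUnion.1 (hZ (Or.inr ⟨⟨hqS, hqG⟩, hwK⟩))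
      have h9 := hT2 j e y p ⟨w, hwf, hball _ _ hj⟩
      simp only [mem_iUnion]
      refine ⟨j, f (cf e y p), Finset.mem_image_of_mem f h9, ?_⟩
      have h10 := hball' _ _ _ he4
      rwa [mul_one] at h10

end NR
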