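import Pool.Agent.NR.Defs

/-!
# Project NR, row NR-5a: telescoping
-/

set_option autoImplicit false

open MeasureTheory Metric Set Filter Module
open scoped Topology MeasureTheory RealInnerProductSpace Nat Pointwise

namespace NR

theorem tele_proj_closed {X Y : Type*} [TopologicalSpace X] [TopologicalSpace Y] {K : Set Y}
    (hK : IsCompact K) {S : Set (X × Y)} (hS : IsClosed S) :
    IsClosed {x | ∃ y ∈ K, (x, y) ∈ S} := by
  haveI : CompactSpace K := isCompact_iff_compactSpace.1 hK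
  have h1 : IsClosed ((fun z : X × K => (z.1, (z.2 : Y))) ⁻¹' S) :=
    hS.preimage (by fun_prop)
  have h2 := isClosedMap_fst_of_compactSpace (X := X) (Y := K) _ h1
  convert h2 using 1
  ext x
  simp only [mem_setOf_eq, mem_image, mem_preimage, Prod.exists, exists_and_right,
    Subtype.exists, exists_eq_right, exists_prop]

theorem tele_isCompact_Bd {n : ℕ} (a b : Fin n → ℝ) : IsCompact (Bd a b) := by
  have h : Bd a b = Icc a b ∩ ⋃ l : Fin n, ({x | x l = a l} ∪ {x | x l = b l}) := by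
    ext x
    simp only [Bd, mem_setOf_eq, mem_inter_iff, mem_iUnion, mem_union]
  rw [h]
  apply isCompact_Icc.inter_right
  apply isClosed_iUnion_of_finite
  intro l
  exact (isClosed_eq (continuous_apply l) continuous_const).union
    (isClosed_eq (continuous_apply l) continuous_const)

theorem isClosed_BadS {m d : ℕ} {S : Set ((Fin m → ℝ) × (Fin d → ℝ))} (hS : IsClosed S)
    (p : Fin d → ℝ) (s : ℝ) : IsClosed (BadS S p s) :=
  tele_proj_closed (tele_isCompact_Bd p (fun l => p l + s)) hS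

theorem tele_isClosed_bad {m : ℕ} {Z B : Set (Fin m → ℝ)} (hZ : IsClosed Z) (hB : IsCompact B) :
    IsClosed {z : (Fin m → ℝ) × (Fin m → ℝ) | z.1 ∈ B ∧ z.2 ∈ B ∧ ¬ Gd Z B z.1 z.2} := by
  have h : {z : (Fin m → ℝ) × (Fin m → ℝ) | z.1 ∈ B ∧ z.2 ∈ B ∧ ¬ Gd Z B z.1 z.2} =
      (B ×ˢ B) ∩ ⋃ i : Fin m, {x | ∃ z ∈ B, (x, z) ∈
        {w : ((Fin m → ℝ) × (Fin m → ℝ)) × (Fin m → ℝ) |
          (∀ j, j < i → w.2 j = w.1.2 j) ∧ (∀ j, i < j → w.2 j = w.1.1 j) ∧ w.2 ∈ Z}} := by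
    ext x
    simp only [Gd, mem_setOf_eq, mem_inter_iff, mem_prod, mem_iUnion]
    push Not
    rw [and_assoc]
  rw [h]
  apply (hB.isClosed.prod hB.isClosed).inter
  apply isClosed_iUnion_of_finite
  intro i
  apply tele_proj_closed hB
  have h3 : {w : ((Fin m → ℝ) × (Fin m → ℝ)) × (Fin m → ℝ) |
      (∀ j, j < i → w.2 j = w.1.2 j) ∧ (∀ j, i < j → w.2 j = w.1.1 j) ∧ w.2 ∈ Z} =
      ((⋂ j, ⋂ (_ : j < i), {w | w.2 j = w.1.2 j}) ∩
        ⋂ j, ⋂ (_ : i < j), {w | w.2 j = w.1.1 j}) ∩ Prod.snd ⁻¹' Z := by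
    ext w
    simp only [mem_setOf_eq, mem_inter_iff, mem_iInter, mem_preimage, and_assoc]
  rw [h3]
  refine IsClosed.inter (IsClosed.inter ?_ ?_) (hZ.preimage continuous_snd)
  · exact isClosed_iInter fun j => isClosed_iInter fun _ => isClosed_eq (by fun_prop) (by fun_prop)
  · exact isClosed_iInter fun j => isClosed_iInter fun _ => isClosed_eq (by fun_prop) (by fun_prop)

/-- one scale: the set of good points -/
theorem tele_scale {m : ℕ} {y : Fin m → ℝ} {r θ : ℝ} (hr : 0 < r) (hθ : 0 < θ)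
    {Z : Set (Fin m → ℝ)} (hZ : IsClosed Z) {F : (Fin m → ℝ) → Prop}
    (hF : ∀ y' ∈ closedBall y r, ∀ y'' ∈ closedBall y r,
      Gd Z (closedBall y r) y' y'' → (F y' ↔ F y''))
    (hW : (volume.prod volume)
        {z : (Fin m → ℝ) × (Fin m → ℝ) | z.1 ∈ closedBall y r ∧
          z.2 ∈ closedBall y r ∧ ¬ Gd Z (closedBall y r) z.1 z.2} ≤
        ENNReal.ofReal (θ * ((2 * r) ^ m) ^ 2)) :
    ∃ P : Set (Fin m → ℝ), P ⊆ closedBall y r ∧
      volume (closedBall y r \ P) ≤ ENNReal.ofReal (4 * θ * (2 * r) ^ m) ∧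
      ∀ y₁ ∈ P, ∀ y₂ ∈ P, (F y₁ ↔ F y₂) := by
  set c : ℝ := (2 * r) ^ m with hc
  have hc0 : 0 < c := by positivity
  set B : Set (Fin m → ℝ) := closedBall y r with hBdef
  have hBc : IsCompact B := isCompact_closedBall y r
  have hvol : volume B = ENNReal.ofReal c := by
    rw [hBdef, Real.volume_pi_closedBall y hr.le, Fintype.card_fin]
  set W : Set ((Fin m → ℝ) × (Fin m → ℝ)) := {z | z.1 ∈ B ∧ z.2 ∈ B ∧ ¬ Gd Z B z.1 z.2} with hWdef
  have hWm : MeasurableSet W := (tele_isClosed_bad hZ hBc).measurableSet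
  set g : (Fin m → ℝ) → ENNReal := fun y' => volume (Prod.mk y' ⁻¹' W) with hg
  have hgm : Measurable g := measurable_measure_prodMk_left hWm
  have hint : ∫⁻ y', g y' ≤ ENNReal.ofReal (θ * c ^ 2) := by
    rw [hg, ← Measure.prod_apply hWm]
    exact hW
  refine ⟨{y' | y' ∈ B ∧ g y' ≤ ENNReal.ofReal (c / 4)}, fun y' hy' => hy'.1, ?_, ?_⟩
  · have h1 : volume {y' | ENNReal.ofReal (c / 4) ≤ g y'} ≤
        (∫⁻ y', g y') / ENNReal.ofReal (c / 4) :=
      meas_ge_le_lintegral_div hgm.aemeasurable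
        (by rw [Ne, ENNReal.ofReal_eq_zero, not_le]; positivity) ENNReal.ofReal_ne_top
    have h2 : (∫⁻ y', g y') / ENNReal.ofReal (c / 4) ≤ ENNReal.ofReal (4 * θ * c) := by
      calc (∫⁻ y', g y') / ENNReal.ofReal (c / 4)
          ≤ ENNReal.ofReal (θ * c ^ 2) / ENNReal.ofReal (c / 4) := by gcongr
        _ = ENNReal.ofReal (4 * θ * c) := by
          rw [← ENNReal.ofReal_div_of_pos (by positivity)]
          congr 1
          field_simp
    refine (measure_mono ?_).trans (h1.trans h2)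
    intro y' hy'
    simp only [mem_diff, mem_setOf_eq, not_and, not_le] at hy' ⊢
    exact (hy'.2 hy'.1).le
  · intro y₁ h₁ y₂ h₂
    by_contra hne
    have hsub : B ⊆ (Prod.mk y₁ ⁻¹' W) ∪ (Prod.mk y₂ ⁻¹' W) := by
      intro y'' hy''
      by_contra hn
      simp only [mem_union, mem_preimage, hWdef, mem_setOf_eq, not_or, not_and, not_not] at hn
      exact hne ((hF y₁ h₁.1 y'' hy'' (hn.1 h₁.1 hy'')).trans
        (hF y₂ h₂.1 y'' hy'' (hn.2 h₂.1 hy'')).symm)
    have h3 : ENNReal.ofReal c ≤ ENNReal.ofReal (c / 4) + ENNReal.ofReal (c / 4) := by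
      rw [← hvol]
      exact (measure_mono hsub).trans ((measure_union_le _ _).trans (add_le_add h₁.2 h₂.2))
    rw [← ENNReal.ofReal_add (by positivity) (by positivity),
      ENNReal.ofReal_le_ofReal_iff (by positivity)] at h3
    linarith

/-- a relation which is false on a small part of the pairs at every scale, and a property which
is constant along the relation -/
theorem tele {m : ℕ} {y : Fin m → ℝ} {ρ θ : ℝ} (hρ : 0 < ρ) (hθ : 0 < θ)
    (hθ2 : 4 * θ * (2 ^ m + 1) < 1) {Z : Set (Fin m → ℝ)} (hZ : IsClosed Z) (hy : y ∉ Z)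
    {F : (Fin m → ℝ) → Prop}
    (hF : ∀ r, r ≤ ρ → ∀ y' ∈ closedBall y r, ∀ y'' ∈ closedBall y r,
      Gd Z (closedBall y r) y' y'' → (F y' ↔ F y''))
    (hW : ∀ j : ℕ, (volume.prod volume)
        {z : (Fin m → ℝ) × (Fin m → ℝ) | z.1 ∈ closedBall y (ρ / 2 ^ j) ∧
          z.2 ∈ closedBall y (ρ / 2 ^ j) ∧ ¬ Gd Z (closedBall y (ρ / 2 ^ j)) z.1 z.2} ≤
        ENNReal.ofReal (θ * ((2 * (ρ / 2 ^ j)) ^ m) ^ 2)) :
    volume {y' | y' ∈ closedBall y ρ ∧ ¬ (F y' ↔ F y)} ≤
      ENNReal.ofReal (4 * θ * (2 * ρ) ^ m) := by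
  have hρj : ∀ j : ℕ, 0 < ρ / 2 ^ j := fun j => by positivity
  have hρle : ∀ j : ℕ, ρ / 2 ^ j ≤ ρ := fun j =>
    div_le_self hρ.le (one_le_pow₀ (by norm_num))
  choose P hP1 hP2 hP3 using fun j : ℕ =>
    tele_scale (hρj j) hθ hZ (hF (ρ / 2 ^ j) (hρle j)) (hW j)
  have hvol : ∀ j : ℕ, volume (closedBall y (ρ / 2 ^ j)) =
      ENNReal.ofReal ((2 * (ρ / 2 ^ j)) ^ m) := fun j => by
    rw [Real.volume_pi_closedBall y (hρj j).le, Fintype.card_fin]
  -- the good sets of consecutive scales meet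
  have hmeet : ∀ j : ℕ, ∃ x, x ∈ P j ∧ x ∈ P (j + 1) := by
    intro j
    by_contra hn
    push Not at hn
    have hsub : closedBall y (ρ / 2 ^ (j + 1)) ⊆ (closedBall y (ρ / 2 ^ j) \ P j) ∪
        (closedBall y (ρ / 2 ^ (j + 1)) \ P (j + 1)) := by
      intro x hx
      by_cases h1 : x ∈ P j
      · exact Or.inr ⟨hx, hn x h1⟩
      · refine Or.inl ⟨closedBall_subset_closedBall ?_ hx, h1⟩
        rw [pow_succ]
        have := hρj j
        rw [show ρ / (2 ^ j * 2) = (ρ / 2 ^ j) / 2 by rw [div_div]]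
        linarith
    have h1 := (measure_mono hsub).trans ((measure_union_le _ _).trans
      (add_le_add (hP2 j) (hP2 (j + 1))))
    set c : ℝ := (2 * (ρ / 2 ^ (j + 1))) ^ m with hc
    have hc0 : 0 < c := by have := hρj (j + 1); positivity
    have hcj : (2 * (ρ / 2 ^ j)) ^ m = 2 ^ m * c := by
      rw [hc, ← mul_pow]
      congr 1
      rw [pow_succ]
      field_simp
    rw [hvol (j + 1), hcj, ← ENNReal.ofReal_add (by positivity) (by positivity),
      ENNReal.ofReal_le_ofReal_iff (by positivity)] at h1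
    nlinarith
  -- a scale at which the ball misses `Z`
  obtain ⟨ε, hε, hεZ⟩ := Metric.nhds_basis_closedBall.mem_iff.1
    (hZ.isOpen_compl.mem_nhds hy)
  obtain ⟨J, hJ⟩ : ∃ J : ℕ, ρ / 2 ^ J ≤ ε := by
    obtain ⟨J, hJ⟩ := exists_pow_lt_of_lt_one (show (0:ℝ) < ε / ρ by positivity)
      (show (1 / 2 : ℝ) < 1 by norm_num)
    refine ⟨J, ?_⟩
    rw [lt_div_iff₀ hρ] at hJ
    calc ρ / 2 ^ J = (1 / 2) ^ J * ρ := by rw [one_div, inv_pow]; ring
      _ ≤ ε := hJ.le
  have hend : ∀ y' ∈ P J, (F y' ↔ F y) := by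
    intro y' hy'
    apply hF (ρ / 2 ^ J) (hρle J) y' (hP1 J hy') y (mem_closedBall_self (hρj J).le)
    intro i z hz _ _ hzZ
    exact hεZ (closedBall_subset_closedBall hJ hz) hzZ
  have hall : ∀ k : ℕ, ∀ y' ∈ P (J - k), (F y' ↔ F y) := by
    intro k
    induction k with
    | zero => simpa using hend
    | succ k ih =>
      rcases Nat.lt_or_ge k J with h | h
      · have hk : J - k = (J - (k + 1)) + 1 := by omega
        obtain ⟨x, hx1, hx2⟩ := hmeet (J - (k + 1))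
        rw [← hk] at hx2
        intro y' hy'
        exact (hP3 _ y' hy' x hx1).trans (ih x hx2)
      · have hk : J - (k + 1) = J - k := by omega
        rw [hk]
        exact ih
  have h0 := hall J
  rw [Nat.sub_self] at h0
  have hP20 := hP2 0
  simp only [pow_zero, div_one] at hP20
  refine (measure_mono ?_).trans hP20
  intro y' hy'
  exact ⟨hy'.1, fun h => hy'.2 (h0 y' h)⟩

end NR
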