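import Pool.Agent.NR.Defs

/-!
# Fillings are transported along paths (project NR, row NR-2)
-/

set_option autoImplicit false

open MeasureTheory Metric Set Filter Module
open scoped Topology MeasureTheory RealInnerProductSpace Nat Pointwise

namespace NR

/-- the gauge of the box with respect to its centre -/
noncomputable def wallS {n : ℕ} (a b x : Fin n → ℝ) : ℝ :=
  ‖fun l => (x l - ctr a b l) / ((b l - a l) / 2)‖

theorem wall_cont {n : ℕ} (a b : Fin n → ℝ) : Continuous (wallS a b) := by
  unfold wallS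
  fun_prop

theorem wall_nonneg {n : ℕ} (a b x : Fin n → ℝ) : 0 ≤ wallS a b x := norm_nonneg _

theorem wall_abs_le {n : ℕ} {a b : Fin n → ℝ} (hab : ∀ l, a l < b l) (x : Fin n → ℝ) (l : Fin n) :
    |(x l - ctr a b l) / ((b l - a l) / 2)| ≤ 1 ↔ a l ≤ x l ∧ x l ≤ b l := by
  have h : 0 < (b l - a l) / 2 := by linarith [hab l]
  rw [abs_div, abs_of_pos h, div_le_one h, abs_le]
  unfold ctr
  constructor
  · rintro ⟨h1, h2⟩
    constructor <;> linarith
  · rintro ⟨h1, h2⟩
    constructor <;> linarith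

theorem wall_abs_eq {n : ℕ} {a b : Fin n → ℝ} (hab : ∀ l, a l < b l) (x : Fin n → ℝ) (l : Fin n) :
    |(x l - ctr a b l) / ((b l - a l) / 2)| = 1 ↔ x l = a l ∨ x l = b l := by
  have h : 0 < (b l - a l) / 2 := by linarith [hab l]
  rw [abs_div, abs_of_pos h, div_eq_one_iff_eq h.ne', abs_eq h.le]
  unfold ctr
  constructor
  · rintro (h1 | h1)
    · right; linarith
    · left; linarith
  · rintro (h1 | h1)
    · right; linarith
    · left; linarith

theorem wall_mem {n : ℕ} {a b : Fin n → ℝ} (hab : ∀ l, a l < b l) (x : Fin n → ℝ) :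
    x ∈ Icc a b ↔ wallS a b x ≤ 1 := by
  unfold wallS
  rw [pi_norm_le_iff_of_nonneg zero_le_one]
  constructor
  · rintro ⟨h1, h2⟩ l
    rw [Real.norm_eq_abs]
    exact (wall_abs_le hab x l).2 ⟨h1 l, h2 l⟩
  · intro h
    exact ⟨fun l => ((wall_abs_le hab x l).1 (h l)).1, fun l => ((wall_abs_le hab x l).1 (h l)).2⟩

theorem wall_bd {n : ℕ} {a b : Fin n → ℝ} (hab : ∀ l, a l < b l) (x : Fin n → ℝ) :
    x ∈ Bd a b ↔ wallS a b x = 1 := by
  constructor
  · rintro ⟨h1, l, h2⟩
    refine le_antisymm ((wall_mem hab x).1 h1) ?_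
    have h3 := norm_le_pi_norm (fun l => (x l - ctr a b l) / ((b l - a l) / 2)) l
    rw [Real.norm_eq_abs, (wall_abs_eq hab x l).2 h2] at h3
    exact h3
  · intro h
    have h1 : x ∈ Icc a b := (wall_mem hab x).2 h.le
    refine ⟨h1, ?_⟩
    by_contra hcon
    push Not at hcon
    have h2 : wallS a b x < 1 := by
      unfold wallS
      rw [pi_norm_lt_iff zero_lt_one]
      intro l
      rw [Real.norm_eq_abs]
      refine lt_of_le_of_ne ((wall_abs_le hab x l).2 ⟨h1.1 l, h1.2 l⟩) ?_
      intro h3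
      rcases (wall_abs_eq hab x l).1 h3 with h4 | h4
      · exact (hcon l).1 h4
      · exact (hcon l).2 h4
    linarith

theorem wall_scale {n : ℕ} (a b x : Fin n → ℝ) {r : ℝ} (hr : 0 ≤ r) :
    wallS a b (ctr a b + r • (x - ctr a b)) = r * wallS a b x := by
  unfold wallS
  have h : (fun l => ((ctr a b + r • (x - ctr a b)) l - ctr a b l) / ((b l - a l) / 2)) =
      r • fun l => (x l - ctr a b l) / ((b l - a l) / 2) := by
    funext l
    simp only [Pi.add_apply, Pi.smul_apply, Pi.sub_apply, smul_eq_mul, add_sub_cancel_left]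
    ring
  rw [h, norm_smul, Real.norm_of_nonneg hr]

/-- fillings are transported along a path on which the boundary of the box meets no point of
multiplicity `d + 1` -/
theorem fill_wall {k m d : ℕ} (hd : 1 ≤ d) {A : Fin k → Set ((Fin m → ℝ) × (Fin d → ℝ))}
    (hA : ∀ i, IsClosed (A i)) {a b : Fin d → ℝ} (hab : ∀ l, a l < b l) {γ : ℝ → Fin m → ℝ}
    (hγ : Continuous γ) (hc : ∀ t ∈ Icc (0 : ℝ) 1, ∀ p ∈ Bd a b, (γ t, p) ∈ ⋃ i, A i)
    (hS : ∀ t ∈ Icc (0 : ℝ) 1, ∀ p ∈ Bd a b, (γ t, p) ∉ mult A (d + 1))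
    (h : Fillable d (sl A (γ 1)) a b) : Fillable d (sl A (γ 0)) a b := by
  obtain ⟨B, hB, hBm⟩ := h
  have hsc := wall_cont a b
  -- the projection to the boundary
  have hpi : ∀ x, 1 / 2 ≤ wallS a b x →
      ctr a b + (wallS a b x)⁻¹ • (x - ctr a b) ∈ Bd a b := by
    intro x hx
    rw [wall_bd hab, wall_scale a b x (inv_nonneg.2 (wall_nonneg a b x)),
      inv_mul_cancel₀ (by linarith)]
  have ht : ∀ x, 1 / 2 ≤ wallS a b x → x ∈ Icc a b →
      2 * (1 - wallS a b x) ∈ Icc (0 : ℝ) 1 := by
    intro x hx hx1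
    have h1 := (wall_mem hab x).1 hx1
    constructor <;> linarith
  let B' : Fin k → Set (Fin d → ℝ) := fun i =>
    {x | x ∈ Icc a b ∧ 1 / 2 ≤ wallS a b x ∧
      (γ (2 * (1 - wallS a b x)), ctr a b + (wallS a b x)⁻¹ • (x - ctr a b)) ∈ A i} ∪
    {x | x ∈ Icc a b ∧ wallS a b x ≤ 1 / 2 ∧ ctr a b + (2 : ℝ) • (x - ctr a b) ∈ B i}
  refine ⟨B', ⟨?_, ?_, ?_, ?_⟩, ?_⟩
  · intro i
    refine IsClosed.union ?_ ?_
    · have hC : IsClosed {x : Fin d → ℝ | x ∈ Icc a b ∧ 1 / 2 ≤ wallS a b x} :=
        isClosed_Icc.inter (isClosed_le continuous_const hsc)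
      have hcont : ContinuousOn (fun x : Fin d → ℝ =>
          (γ (2 * (1 - wallS a b x)), ctr a b + (wallS a b x)⁻¹ • (x - ctr a b)))
          {x | x ∈ Icc a b ∧ 1 / 2 ≤ wallS a b x} := by
        refine ContinuousOn.prodMk ?_ ?_
        · exact (hγ.comp (by fun_prop)).continuousOn
        · refine ContinuousOn.add continuousOn_const ?_
          refine ContinuousOn.smul (ContinuousOn.inv₀ hsc.continuousOn ?_) (by fun_prop)
          intro x hx
          have := hx.2
          linarith
      have h2 := hcont.preimage_isClosed_of_isClosed hC (hA i)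
      have h3 : {x | x ∈ Icc a b ∧ 1 / 2 ≤ wallS a b x ∧
          (γ (2 * (1 - wallS a b x)), ctr a b + (wallS a b x)⁻¹ • (x - ctr a b)) ∈ A i} =
          {x | x ∈ Icc a b ∧ 1 / 2 ≤ wallS a b x} ∩ (fun x : Fin d → ℝ =>
          (γ (2 * (1 - wallS a b x)), ctr a b + (wallS a b x)⁻¹ • (x - ctr a b))) ⁻¹' A i := by
        ext x
        simp only [mem_ofPred_eq, mem_inter_iff, mem_preimage, and_assoc]
      rw [h3]
      exact h2
    · have h3 : IsClosed ((fun x : Fin d → ℝ => ctr a b + (2 : ℝ) • (x - ctr a b)) ⁻¹' B i) :=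
        (hB.closed i).preimage (by fun_prop)
      exact isClosed_Icc.inter ((isClosed_le hsc continuous_const).inter h3)
  · intro i x hx
    rcases hx with hx | hx
    · exact hx.1
    · exact hx.1
  · intro x hx
    rcases le_total (1 / 2) (wallS a b x) with h1 | h1
    · obtain ⟨i, hi⟩ := mem_iUnion.1 (hc _ (ht x h1 hx) _ (hpi x h1))
      exact mem_iUnion.2 ⟨i, Or.inl ⟨hx, h1, hi⟩⟩
    · have h2 : ctr a b + (2 : ℝ) • (x - ctr a b) ∈ Icc a b := by
        rw [wall_mem hab, wall_scale a b x (by norm_num)]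
        linarith
      obtain ⟨i, hi⟩ := mem_iUnion.1 (hB.cover h2)
      exact mem_iUnion.2 ⟨i, Or.inr ⟨hx, h1, hi⟩⟩
  · intro x hx i
    have h1 : wallS a b x = 1 := (wall_bd hab x).1 hx
    have e1 : (γ (2 * (1 - wallS a b x)), ctr a b + (wallS a b x)⁻¹ • (x - ctr a b)) =
        (γ 0, x) := by
      rw [h1]
      simp
    constructor
    · rintro (h2 | h2)
      · have h3 := h2.2.2
        rw [e1] at h3
        exact h3
      · have h3 := h2.2.1
        rw [h1] at h3
        norm_num at h3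
    · intro h2
      refine Or.inl ⟨hx.1, by rw [h1]; norm_num, ?_⟩
      rw [e1]
      exact h2
  · refine eq_empty_of_forall_notMem ?_
    rintro x ⟨T, hT, hx⟩
    have hTne : T.Nonempty := Finset.card_pos.1 (by omega)
    obtain ⟨i0, hi0⟩ := hTne
    have hxI : x ∈ Icc a b := by
      rcases hx i0 hi0 with h1 | h1
      · exact h1.1
      · exact h1.1
    rcases lt_or_ge (wallS a b x) (1 / 2) with h1 | h1
    · -- inner part
      have h2 : ctr a b + (2 : ℝ) • (x - ctr a b) ∈ mult B (d + 1) := by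
        refine ⟨T, hT, fun i hi => ?_⟩
        rcases hx i hi with h3 | h3
        · exact absurd h3.2.1 (not_le.2 h1)
        · exact h3.2.2
      rw [hBm] at h2
      exact h2
    · refine hS _ (ht x h1 hxI) _ (hpi x h1) ⟨T, hT, fun i hi => ?_⟩
      rcases hx i hi with h3 | h3
      · exact h3.2.2
      · have h4 : wallS a b x = 1 / 2 := le_antisymm h3.2.1 h1
        have h5 : ctr a b + (2 : ℝ) • (x - ctr a b) ∈ Bd a b := by
          rw [wall_bd hab, wall_scale a b x (by norm_num), h4]
          norm_num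
        have h6 := (hB.bd _ h5 i).1 h3.2.2
        rw [h4]
        have e1 : (2 : ℝ) * (1 - 1 / 2) = 1 := by norm_num
        have e2 : ((1 : ℝ) / 2)⁻¹ = 2 := by norm_num
        rw [e1, e2]
        exact h6

/-- one step of the staircase -/
theorem wall_step {k m d : ℕ} (hd : 1 ≤ d) {A : Fin k → Set ((Fin m → ℝ) × (Fin d → ℝ))}
    (hA : ∀ i, IsClosed (A i)) {p : Fin d → ℝ} {s : ℝ} (hs : 0 < s) {w : Fin m → ℝ} (i : Fin m)
    (u v : ℝ)
    (hc : ∀ t ∈ Icc (0 : ℝ) 1, ∀ q ∈ Bd p (fun l => p l + s),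
      (Function.update w i ((1 - t) * u + t * v), q) ∈ ⋃ i, A i)
    (hS : ∀ t ∈ Icc (0 : ℝ) 1,
      Function.update w i ((1 - t) * u + t * v) ∉ BadS (mult A (d + 1)) p s)
    (h : Fillable d (sl A (Function.update w i v)) p (fun l => p l + s)) :
    Fillable d (sl A (Function.update w i u)) p (fun l => p l + s) := by
  have h0 := fill_wall hd hA (a := p) (b := fun l => p l + s) (fun l => by linarith)
    (γ := fun t => Function.update w i ((1 - t) * u + t * v))
    (continuous_const.update i (by fun_prop)) hc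
    (fun t ht q hq hcon => hS t ht ⟨q, hq, hcon⟩)
  have e1 : (1 - (1 : ℝ)) * u + 1 * v = v := by ring
  have e0 : (1 - (0 : ℝ)) * u + 0 * v = u := by ring
  rw [e1, e0] at h0
  exact h0 h

/-- the staircase path -/
theorem fill_stair {k m d : ℕ} (hd : 1 ≤ d) {A : Fin k → Set ((Fin m → ℝ) × (Fin d → ℝ))}
    (hA : ∀ i, IsClosed (A i)) {p : Fin d → ℝ} {s : ℝ} (hs : 0 < s) {y0 : Fin m → ℝ} {ρ : ℝ}
    (hc : ∀ y ∈ closedBall y0 ρ, ∀ q ∈ Bd p (fun l => p l + s), (y, q) ∈ ⋃ i, A i)
    {y y' : Fin m → ℝ} (hy : y ∈ closedBall y0 ρ) (hy' : y' ∈ closedBall y0 ρ)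
    (hG : Gd (BadS (mult A (d + 1)) p s) (closedBall y0 ρ) y y') :
    Fillable d (sl A y) p (fun l => p l + s) ↔ Fillable d (sl A y') p (fun l => p l + s) := by
  have hρ : 0 ≤ ρ := dist_nonneg.trans (mem_closedBall.1 hy)
  -- the corners
  let w : ℕ → Fin m → ℝ := fun n j => if (j : ℕ) < n then y' j else y j
  have hw0 : w 0 = y := by
    funext j
    simp [w]
  have hwm : w m = y' := by
    funext j
    simp [w, j.2]
  have hstep : ∀ n, n < m → (Fillable d (sl A (w n)) p (fun l => p l + s) ↔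
      Fillable d (sl A (w (n + 1))) p (fun l => p l + s)) := by
    intro n hn
    set i : Fin m := ⟨n, hn⟩ with hi
    have e0 : w n = Function.update (w n) i (y i) := by
      funext j
      by_cases hj : j = i
      · rw [hj, Function.update_self]
        simp [w, hi]
      · rw [Function.update_of_ne hj]
    have e1 : w (n + 1) = Function.update (w n) i (y' i) := by
      funext j
      by_cases hj : j = i
      · rw [hj, Function.update_self]
        simp [w, hi]
      · rw [Function.update_of_ne hj]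
        have hjn : (j : ℕ) ≠ n := fun h => hj (Fin.ext h)
        simp only [w]
        by_cases h1 : (j : ℕ) < n
        · rw [if_pos h1, if_pos (by omega)]
        · rw [if_neg h1, if_neg (by omega)]
    -- the points of the segment
    have hball : ∀ u v : ℝ, (u = y i ∧ v = y' i) ∨ (u = y' i ∧ v = y i) → ∀ t ∈ Icc (0 : ℝ) 1,
        Function.update (w n) i ((1 - t) * u + t * v) ∈ closedBall y0 ρ := by
      intro u v huv t ht
      rw [mem_closedBall, dist_pi_le_iff hρ] at hy hy' ⊢
      intro j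
      by_cases hj : j = i
      · subst hj
        rw [Function.update_self]
        have h1 := hy i
        have h2 := hy' i
        rw [Real.dist_eq, abs_le] at h1 h2 ⊢
        have ht0 := ht.1
        have ht1 := ht.2
        rcases huv with ⟨rfl, rfl⟩ | ⟨rfl, rfl⟩
        · constructor <;> nlinarith
        · constructor <;> nlinarith
      · rw [Function.update_of_ne hj]
        simp only [w]
        split_ifs
        · exact hy' j
        · exact hy j
    have hbad : ∀ u v : ℝ, (u = y i ∧ v = y' i) ∨ (u = y' i ∧ v = y i) → ∀ t ∈ Icc (0 : ℝ) 1,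
        Function.update (w n) i ((1 - t) * u + t * v) ∉ BadS (mult A (d + 1)) p s := by
      intro u v huv t ht
      refine hG i _ (hball u v huv t ht) ?_ ?_
      · intro j hj
        rw [Function.update_of_ne hj.ne]
        have hjn : (j : ℕ) < n := hj
        simp [w, hjn]
      · intro j hj
        rw [Function.update_of_ne hj.ne']
        have hjn : n < (j : ℕ) := hj
        have hjn' : ¬ (j : ℕ) < n := by omega
        simp [w, hjn']
    rw [e0, e1]
    constructor
    · intro h
      exact wall_step hd hA hs i (y' i) (y i)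
        (fun t ht q hq => hc _ (hball _ _ (Or.inr ⟨rfl, rfl⟩) t ht) q hq)
        (hbad _ _ (Or.inr ⟨rfl, rfl⟩)) h
    · intro h
      exact wall_step hd hA hs i (y i) (y' i)
        (fun t ht q hq => hc _ (hball _ _ (Or.inl ⟨rfl, rfl⟩) t ht) q hq)
        (hbad _ _ (Or.inl ⟨rfl, rfl⟩)) h
  have hall : ∀ n, n ≤ m → (Fillable d (sl A (w 0)) p (fun l => p l + s) ↔
      Fillable d (sl A (w n)) p (fun l => p l + s)) := by
    intro n
    induction n with
    | zero => intro _; exact Iff.rfl
    | succ n ih =>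
      intro hn
      exact (ih (by omega)).trans (hstep n (by omega))
  have h := hall m le_rfl
  rw [hw0, hwm] at h
  exact h

end NR
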