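import Pool.Agent.NR.Defs
import Pool.Agent.NR.Fill
import Pool.Agent.NR.Wall
import Pool.Agent.NR.GoodP
import Pool.Agent.NR.Tele

/-!
# Near an essential point the slices meet the singular set (project NR)
-/

set_option autoImplicit false
set_option maxHeartbeats 400000

open MeasureTheory Metric Set Filter Module
open scoped Topology MeasureTheory RealInnerProductSpace Nat Pointwise NNReal

namespace NR

theorem near_isClosed_mult {X : Type*} [TopologicalSpace X] {k : ℕ} {A : Fin k → Set X}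
    (hA : ∀ i, IsClosed (A i)) (n : ℕ) : IsClosed (mult A n) := by
  have h : mult A n = ⋃ T : {T : Finset (Fin k) // n ≤ T.card}, ⋂ i ∈ T.1, A i := by
    ext x
    simp only [mult, mem_ofPred_eq, mem_iUnion, mem_iInter]
    constructor
    · rintro ⟨T, hT, hx⟩
      exact ⟨⟨T, hT⟩, hx⟩
    · rintro ⟨⟨T, hT⟩, hx⟩
      exact ⟨T, hT, hx⟩
  rw [h]
  exact isClosed_iUnion_of_finite fun T => isClosed_biInter fun i _ => hA i

theorem near_box {d : ℕ} {p q : Fin d → ℝ} {s : ℝ} (hs : 0 ≤ s)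
    (hp : ∀ l, p l < q l ∧ q l < p l + s) : Icc p (fun l => p l + s) ⊆ closedBall q s := by
  intro x hx
  rw [mem_closedBall, dist_pi_le_iff hs]
  intro l
  rw [Real.dist_eq, abs_le]
  have h1 := hx.1 l
  have h2 := hx.2 l
  obtain ⟨h3, h4⟩ := hp l
  simp only at h2
  constructor <;> linarith

theorem near {k m d : ℕ} (hm : 1 ≤ m) (hd : 1 ≤ d)
    {A : Fin k → Set ((Fin m → ℝ) × (Fin d → ℝ))} (hA : ∀ i, IsClosed (A i)) {y : Fin m → ℝ}
    {q : Fin d → ℝ} {ρ s Λ θ : ℝ} (hρ : 0 < ρ) (hs : 0 < s) (hΛ : 0 ≤ Λ) (hθ : 0 < θ)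
    (hθ2 : 4 * θ * (2 ^ m + 1) < 1)
    (hM : ∀ r, 0 < r → r ≤ ρ →
      μH[m] (mult A (d + 1) ∩ closedBall y r ×ˢ univ) ≤ ENNReal.ofReal (Λ * r ^ m))
    (hfin : {p | (y, p) ∈ mult A (d + 1)}.Finite)
    (hc : closedBall y ρ ×ˢ closedBall q s ⊆ ⋃ i, A i) (h : 8 * d * m * Λ * ρ ≤ θ * s)
    (hq : ∀ a b : Fin d → ℝ, q ∈ Ob a b → Icc a b ⊆ closedBall q s →
      ¬ Fillable d (sl A y) a b) :
    volume (closedBall y ρ \ {y' | ∃ p ∈ closedBall q s, (y', p) ∈ mult A (d + 1)}) ≤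
      ENNReal.ofReal (4 * θ * (2 * ρ) ^ m) := by
  have hS : IsClosed (mult A (d + 1)) := near_isClosed_mult hA (d + 1)
  obtain ⟨p, hp, hyB, hW⟩ := good_p hm hd hS hρ hs hΛ hθ hM hfin h
  have hbox : Icc p (fun l => p l + s) ⊆ closedBall q s := near_box hs.le hp
  have hF : ∀ r, r ≤ ρ → ∀ y' ∈ closedBall y r, ∀ y'' ∈ closedBall y r,
      Gd (BadS (mult A (d + 1)) p s) (closedBall y r) y' y'' →
        (Fillable d (sl A y') p (fun l => p l + s) ↔
          Fillable d (sl A y'') p (fun l => p l + s)) := by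
    intro r hr y' hy' y'' hy'' hG
    refine fill_stair hd hA hs (y0 := y) (ρ := r) ?_ hy' hy'' hG
    intro y1 hy1 q1 hq1
    exact hc ⟨closedBall_subset_closedBall hr hy1, hbox hq1.1⟩
  have h0 : ¬ Fillable d (sl A y) p (fun l => p l + s) := hq _ _ hp hbox
  refine (measure_mono ?_).trans
    (tele hρ hθ hθ2 (isClosed_BadS hS p s) hyB
      (F := fun y' => Fillable d (sl A y') p (fun l => p l + s)) hF hW)
  rintro y' ⟨hy', hn⟩
  refine ⟨hy', fun hiff => h0 (hiff.1 ?_)⟩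
  refine fill_self (fun i => (hA i).preimage (by fun_prop)) ?_ ?_
  · intro x hx
    have h2 : (y', x) ∈ ⋃ i, A i := hc (mk_mem_prod hy' (hbox hx))
    rw [mem_iUnion] at h2 ⊢
    exact h2
  · rintro x hx ⟨T, hT, hxT⟩
    exact hn ⟨x, hbox hx, T, hT, hxT⟩

end NR
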