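import Pool.Agent.NR.Defs
import Pool.Agent.NR.Fill

/-!
# A box which is not fillable contains an essential point (project NR, row NR-3)
-/

set_option autoImplicit false

open MeasureTheory Metric Set Filter Module
open scoped Topology MeasureTheory RealInnerProductSpace Nat Pointwise

namespace NR

/-- a point strictly between two reals which avoids finitely many reals -/
private theorem point_between {s t : ℝ} (h : s < t) {F : Set ℝ} (hF : F.Finite) :
    ∃ c, s < c ∧ c < t ∧ c ∉ F := by
  have hinf : (Ioo s t).Infinite := Ioo_infinite h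
  obtain ⟨c, hc, hcF⟩ := hinf.exists_notMem_finite hF
  exact ⟨c, hc.1, hc.2, hcF⟩

private theorem point_bd_left {n : ℕ} {a b : Fin n → ℝ} {l : Fin n} {c : ℝ} (h2 : c ≤ b l)
    {x : Fin n → ℝ} (hx : x ∈ Bd a (Function.update b l c)) : x ∈ Bd a b ∨ x l = c := by
  obtain ⟨hxI, j, hj⟩ := hx
  have hle : Function.update b l c ≤ b := by
    intro i
    by_cases hi : i = l
    · subst hi; simpa using h2
    · simp [hi]
  have hxb : x ∈ Icc a b := ⟨hxI.1, hxI.2.trans hle⟩
  rcases hj with hj | hj
  · exact Or.inl ⟨hxb, j, Or.inl hj⟩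
  · by_cases hjl : j = l
    · subst hjl
      right
      simpa using hj
    · left
      refine ⟨hxb, j, Or.inr ?_⟩
      simpa [hjl] using hj

private theorem point_bd_right {n : ℕ} {a b : Fin n → ℝ} {l : Fin n} {c : ℝ} (h1 : a l ≤ c)
    {x : Fin n → ℝ} (hx : x ∈ Bd (Function.update a l c) b) : x ∈ Bd a b ∨ x l = c := by
  obtain ⟨hxI, j, hj⟩ := hx
  have hle : a ≤ Function.update a l c := by
    intro i
    by_cases hi : i = l
    · subst hi; simpa using h1
    · simp [hi]
  have hxb : x ∈ Icc a b := ⟨hle.trans hxI.1, hxI.2⟩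
  rcases hj with hj | hj
  · by_cases hjl : j = l
    · subst hjl
      right
      simpa using hj
    · left
      refine ⟨hxb, j, Or.inl ?_⟩
      simpa [hjl] using hj
  · exact Or.inl ⟨hxb, j, Or.inr hj⟩

private theorem point_main {k n d : ℕ} {A : Fin k → Set (Fin n → ℝ)} (hA : ∀ i, IsClosed (A i))
    (N : ℕ) : ∀ a b : Fin n → ℝ, Icc a b ⊆ ⋃ i, A i → (Icc a b ∩ mult A (d + 1)).Finite →
    (Icc a b ∩ mult A (d + 1)).ncard ≤ N → (∀ x ∈ Bd a b, x ∉ mult A (d + 1)) →
    ¬ Fillable d A a b →
    ∃ q ∈ mult A (d + 1), ∃ a' b' : Fin n → ℝ, a ≤ a' ∧ b' ≤ b ∧ q ∈ Ob a' b' ∧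
      ∀ a'' b'' : Fin n → ℝ, a' ≤ a'' → b'' ≤ b' → q ∈ Ob a'' b'' → ¬ Fillable d A a'' b'' := by
  induction N with
  | zero =>
    intro a b hc hfin hcard _ hf
    exfalso
    have h0 : (Icc a b ∩ mult A (d + 1)) = ∅ := by
      rw [← Set.ncard_eq_zero hfin]; omega
    apply hf
    apply fill_self hA hc
    intro x hx hxm
    have : x ∈ (Icc a b ∩ mult A (d + 1)) := ⟨hx, hxm⟩
    rw [h0] at this
    exact this
  | succ N ih =>
    intro a b hc hfin hcard hbd hf
    -- no point: contradiction
    by_cases hne : (Icc a b ∩ mult A (d + 1)).Nonempty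
    swap
    · exfalso
      apply hf
      apply fill_self hA hc
      intro x hx hxm
      exact hne ⟨x, hx, hxm⟩
    obtain ⟨q, hqI, hqm⟩ := hne
    by_cases hone : ∀ x ∈ Icc a b, x ∈ mult A (d + 1) → x = q
    · refine ⟨q, hqm, a, b, le_refl _, le_refl _, ?_, ?_⟩
      · by_contra hq
        have : q ∈ Icc a b \ Ob a b := ⟨hqI, hq⟩
        rw [Icc_diff_Ob] at this
        exact hbd q this hqm
      · intro a'' b'' ha hb hq hfill
        apply hf
        apply fill_grow hA hc ha hb _ hfill
        intro x hx hxm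
        rw [hone x hx hxm]
        exact hq
    · push Not at hone
      obtain ⟨x, hxI, hxm, hxq⟩ := hone
      -- two different points, different in some coordinate
      obtain ⟨l, hl⟩ : ∃ l, x l ≠ q l := by
        by_contra hcon
        push Not at hcon
        exact hxq (funext hcon)
      -- order them
      obtain ⟨q1, q2, hq1I, hq1m, hq2I, hq2m, hlt⟩ : ∃ q1 q2 : Fin n → ℝ, q1 ∈ Icc a b ∧
          q1 ∈ mult A (d + 1) ∧ q2 ∈ Icc a b ∧ q2 ∈ mult A (d + 1) ∧ q1 l < q2 l := by
        rcases lt_or_gt_of_ne hl with h | h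
        · exact ⟨x, q, hxI, hxm, hqI, hqm, h⟩
        · exact ⟨q, x, hqI, hqm, hxI, hxm, h⟩
      obtain ⟨c, hc1, hc2, hcF⟩ := point_between hlt (hfin.image (fun x => x l))
      have hac : a l ≤ c := (hq1I.1 l).trans hc1.le
      have hcb : c ≤ b l := hc2.le.trans (hq2I.2 l)
      have hle1 : Function.update b l c ≤ b := by
        intro i
        by_cases hi : i = l
        · subst hi; simpa using hcb
        · simp [hi]
      have hle2 : a ≤ Function.update a l c := by
        intro i
        by_cases hi : i = l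
        · subst hi; simpa using hac
        · simp [hi]
      have hwall : ∀ z ∈ Icc a b, z ∈ mult A (d + 1) → z l ≠ c := by
        intro z hz hzm hzc
        exact hcF ⟨z, ⟨hz, hzm⟩, hzc⟩
      by_cases hf1 : Fillable d A a (Function.update b l c)
      · have hf2 : ¬ Fillable d A (Function.update a l c) b := fun h =>
          hf (fill_split l hac hcb hf1 h)
        have hsub : Icc (Function.update a l c) b ⊆ Icc a b := Icc_subset_Icc_left hle2
        have hss : (Icc (Function.update a l c) b ∩ mult A (d + 1)) ⊂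
            (Icc a b ∩ mult A (d + 1)) := by
          refine ⟨fun z hz => ⟨hsub hz.1, hz.2⟩, fun hcon => ?_⟩
          have := (hcon ⟨hq1I, hq1m⟩).1.1 l
          simp at this
          linarith
        have hcard' := Set.ncard_lt_ncard hss hfin
        obtain ⟨q0, hq0m, a', b', ha', hb', hq0, hq0f⟩ := ih (Function.update a l c) b
          (hsub.trans hc) (hfin.subset hss.1) (by omega)
          (by
            intro z hz hzm
            rcases point_bd_right hac hz with h | h
            · exact hbd z h hzm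
            · exact hwall z (hsub hz.1) hzm h) hf2
        exact ⟨q0, hq0m, a', b', hle2.trans ha', hb', hq0, hq0f⟩
      · have hsub : Icc a (Function.update b l c) ⊆ Icc a b := Icc_subset_Icc_right hle1
        have hss : (Icc a (Function.update b l c) ∩ mult A (d + 1)) ⊂
            (Icc a b ∩ mult A (d + 1)) := by
          refine ⟨fun z hz => ⟨hsub hz.1, hz.2⟩, fun hcon => ?_⟩
          have := (hcon ⟨hq2I, hq2m⟩).1.2 l
          simp at this
          linarith
        have hcard' := Set.ncard_lt_ncard hss hfin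
        obtain ⟨q0, hq0m, a', b', ha', hb', hq0, hq0f⟩ := ih a (Function.update b l c)
          (hsub.trans hc) (hfin.subset hss.1) (by omega)
          (by
            intro z hz hzm
            rcases point_bd_left hcb hz with h | h
            · exact hbd z h hzm
            · exact hwall z (hsub hz.1) hzm h) hf1
        exact ⟨q0, hq0m, a', b', ha', hb'.trans hle1, hq0, hq0f⟩

/-- a box which is not fillable contains an essential point -/
theorem ess_point {k n d : ℕ} {A : Fin k → Set (Fin n → ℝ)} (hA : ∀ i, IsClosed (A i))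
    {a b : Fin n → ℝ} (hc : Icc a b ⊆ ⋃ i, A i) (hfin : (Icc a b ∩ mult A (d + 1)).Finite)
    (hbd : ∀ x ∈ Bd a b, x ∉ mult A (d + 1)) (hf : ¬ Fillable d A a b) :
    ∃ q ∈ mult A (d + 1), ∃ a' b' : Fin n → ℝ, a ≤ a' ∧ b' ≤ b ∧ q ∈ Ob a' b' ∧
      ∀ a'' b'' : Fin n → ℝ, a' ≤ a'' → b'' ≤ b' → q ∈ Ob a'' b'' → ¬ Fillable d A a'' b'' :=
  point_main hA _ a b hc hfin (le_refl _) hbd hf

end NR
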