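import Pool.Agent.NR.Defs
import Pool.Agent.NR.Defs2

/-!
# The content of the stretched set (project NR, row NR-20a)
-/

set_option autoImplicit false

open MeasureTheory Metric Set Filter Module
open scoped Topology MeasureTheory RealInnerProductSpace Nat Pointwise NNReal ENNReal

namespace NR

theorem Scale_cs_eq {k : ℕ} (β : ℝ) (x : SP.V k) :
    cs β x = AffineMap.homothety (cen k) (1 - β) x := by
  simp only [cs, AffineMap.homothety_apply, vsub_eq_sub, vadd_eq_add]
  rw [add_comm]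

theorem Scale_edist {k : ℕ} {β : ℝ} (hβ1 : β < 1) (x y : SP.V k) :
    edist (cs β x) (cs β y) = ENNReal.ofReal (1 - β) * edist x y := by
  rw [edist_dist, edist_dist, ← ENNReal.ofReal_mul (by linarith)]
  congr 1
  rw [dist_eq_norm, dist_eq_norm]
  have h : cs β x - cs β y = (1 - β) • (x - y) := by
    simp only [cs]
    rw [add_sub_add_left_eq_sub, ← smul_sub]
    congr 1
    abel
  rw [h, norm_smul, Real.norm_of_nonneg (by linarith)]

theorem Scale_surj {k : ℕ} {β : ℝ} (hβ1 : β < 1) (y : SP.V k) : ∃ x, cs β x = y := by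
  refine ⟨cen k + (1 - β)⁻¹ • (y - cen k), ?_⟩
  have h : (1 - β) ≠ 0 := by linarith
  simp only [cs, add_sub_cancel_left, smul_smul, mul_inv_cancel₀ h, one_smul]
  abel

theorem Scale_infEDist {k : ℕ} {β : ℝ} (hβ1 : β < 1) (S : Set (SP.V k)) (x : SP.V k) :
    infEDist (cs β x) S = ENNReal.ofReal (1 - β) * infEDist x {z | cs β z ∈ S} := by
  have h0 : ENNReal.ofReal (1 - β) ≠ 0 := by
    simp only [ne_eq, ENNReal.ofReal_eq_zero, not_le]; linarith
  have ht : ENNReal.ofReal (1 - β) ≠ ⊤ := ENNReal.ofReal_ne_top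
  apply le_antisymm
  · rw [mul_comm, ← ENNReal.div_le_iff_le_mul (Or.inl h0) (Or.inl ht)]
    rw [le_infEDist]
    intro z hz
    rw [ENNReal.div_le_iff_le_mul (Or.inl h0) (Or.inl ht), mul_comm, ← Scale_edist hβ1]
    exact infEDist_le_edist_of_mem hz
  · rw [le_infEDist]
    intro y hy
    obtain ⟨z, rfl⟩ := Scale_surj hβ1 y
    rw [Scale_edist hβ1]
    gcongr
    exact infEDist_le_edist_of_mem (show z ∈ {z | cs β z ∈ S} from hy)

theorem Scale_cthick {k : ℕ} {β : ℝ} (hβ1 : β < 1) (S : Set (SP.V k)) (ε : ℝ) :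
    cthickening ε {z | cs β z ∈ S} = {x | cs β x ∈ cthickening ((1 - β) * ε) S} := by
  have h0 : ENNReal.ofReal (1 - β) ≠ 0 := by
    simp only [ne_eq, ENNReal.ofReal_eq_zero, not_le]; linarith
  have ht : ENNReal.ofReal (1 - β) ≠ ⊤ := ENNReal.ofReal_ne_top
  ext x
  rw [mem_setOf_eq, mem_cthickening_iff, mem_cthickening_iff, Scale_infEDist hβ1,
    ENNReal.ofReal_mul (by linarith)]
  exact (ENNReal.mul_le_mul_iff_right h0 ht).symm

theorem Scale_Hp {k : ℕ} (hk : 1 ≤ k) {β : ℝ} (hβ1 : β < 1) (x : SP.V k) :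
    cs β x ∈ SP.Hp k ↔ x ∈ SP.Hp k := by
  have hk' : (k : ℝ) ≠ 0 := by
    have : (0 : ℝ) < k := by exact_mod_cast hk
    exact this.ne'
  have h1 : ∑ i, cs β x i = 1 + (1 - β) * (∑ i, x i - 1) := by
    simp only [cs, cen, PiLp.add_apply, PiLp.smul_apply, PiLp.sub_apply, smul_eq_mul]
    rw [Finset.sum_add_distrib, ← Finset.mul_sum, Finset.sum_sub_distrib]
    simp only [Finset.sum_const, Finset.card_univ, Fintype.card_fin, nsmul_eq_mul]
    rw [mul_one_div_cancel hk']
  simp only [SP.Hp, mem_setOf_eq, h1]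
  have h : (1 - β) ≠ 0 := by linarith
  constructor
  · intro h2
    have h3 : (1 - β) * (∑ i, x i - 1) = 0 := by linarith
    rcases mul_eq_zero.1 h3 with h4 | h4
    · exact absurd h4 h
    · linarith
  · intro h2
    rw [h2]; ring

theorem Scale_mu {k n : ℕ} {β : ℝ} (hβ1 : β < 1) (T : Set (SP.V k)) :
    (μHE[n] {x | cs β x ∈ T}).toReal = (μHE[n] T).toReal / (1 - β) ^ n := by
  have h : (1 - β) ≠ 0 := by linarith
  have h1 : {x | cs β x ∈ T} = AffineMap.homothety (cen k) (1 - β) ⁻¹' T := by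
    ext x
    rw [mem_setOf_eq, mem_preimage, Scale_cs_eq]
  rw [h1, Measure.euclideanHausdorffMeasure_def, Measure.smul_apply, Measure.smul_apply,
    hausdorffMeasure_homothety_preimage (by positivity) _ h, smul_comm]
  rw [ENNReal.smul_def, smul_eq_mul, ENNReal.toReal_mul, ENNReal.coe_toReal,
    NNReal.rpow_natCast, NNReal.coe_pow, NNReal.coe_inv, coe_nnnorm,
    Real.norm_of_nonneg (by linarith : (0 : ℝ) ≤ 1 - β), inv_pow]
  rw [div_eq_mul_inv, mul_comm]

theorem content_scale {m d : ℕ} (hd : 1 ≤ d) {S : Set (SP.V (d + m + 1))}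
    (hH : S ⊆ SP.Hp (d + m + 1)) {L β : ℝ} (hβ : 0 < β) (hβ1 : β < 1)
    (hL : SP.HasContent (d + m + 1) m S L) :
    SP.HasContent (d + m + 1) m {x | cs β x ∈ S} (L / (1 - β) ^ m) := by
  have hr : 0 < 1 - β := by linarith
  unfold SP.HasContent at hL ⊢
  have e1 : d + m + 1 - 1 = d + m := rfl
  have e2 : d + m + 1 - 1 - m = d := by omega
  rw [e2] at hL ⊢
  have h1 : Tendsto (fun ε : ℝ => (1 - β) * ε) (𝓝[>] 0) (𝓝[>] 0) := by
    apply tendsto_nhdsWithin_of_tendsto_nhds_of_eventually_within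
    · have : Tendsto (fun ε : ℝ => (1 - β) * ε) (𝓝 0) (𝓝 ((1 - β) * 0)) :=
        (continuous_const.mul continuous_id).tendsto 0
      rw [mul_zero] at this
      exact this.mono_left nhdsWithin_le_nhds
    · filter_upwards [self_mem_nhdsWithin] with ε hε
      exact mul_pos hr hε
  have h2 := (hL.comp h1).div_const ((1 - β) ^ m)
  refine h2.congr' ?_
  filter_upwards [self_mem_nhdsWithin] with ε hε
  have hε' : (0 : ℝ) < ε := hε
  simp only [Function.comp_apply]
  have h3 : cthickening ε {x | cs β x ∈ S} ∩ SP.Hp (d + m + 1)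
      = {x | cs β x ∈ cthickening ((1 - β) * ε) S ∩ SP.Hp (d + m + 1)} := by
    ext x
    rw [mem_inter_iff, Scale_cthick hβ1, mem_setOf_eq, mem_setOf_eq, mem_inter_iff,
      Scale_Hp (by omega) hβ1]
  rw [h3, Scale_mu hβ1]
  have h4 : (1 - β) ^ (d + m + 1 - 1) = (1 - β) ^ d * (1 - β) ^ m := by
    rw [e1, pow_add]
  rw [h4, mul_pow]
  have h5 : (1 - β) ^ m ≠ 0 := by positivity
  have h6 : (1 - β) ^ d ≠ 0 := by positivity
  rw [div_div, div_div]
  congr 1
  ring

end NR
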