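import Pool.Agent.NR.Defs2
import Pool.Agent.H59.SP.Comp

/-!
# Project NR, row NR-20b: the stretched cover, and coordinates on the affine hull
-/

set_option autoImplicit false

open MeasureTheory Metric Set Filter Module
open scoped Topology MeasureTheory RealInnerProductSpace Nat Pointwise NNReal

namespace NR

private theorem stretch_apply {k : ℕ} (β : ℝ) (x : SP.V k) (i : Fin k) :
    cs β x i = 1 / (k : ℝ) + (1 - β) * (x i - 1 / (k : ℝ)) := by
  simp [cs, cen]

private theorem stretch_cont {k : ℕ} (β : ℝ) : Continuous (cs β : SP.V k → SP.V k) := by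
  unfold cs
  fun_prop

private theorem stretch_sum {k : ℕ} (hk : 1 ≤ k) (β : ℝ) (x : SP.V k) :
    ∑ i, cs β x i = 1 + (1 - β) * (∑ i, x i - 1) := by
  have hk' : (k : ℝ) ≠ 0 := by positivity
  simp only [stretch_apply, Finset.sum_add_distrib, ← Finset.mul_sum, Finset.sum_sub_distrib,
    Finset.sum_const, Finset.card_univ, Fintype.card_fin, nsmul_eq_mul]
  rw [mul_one_div_cancel hk']

private theorem stretch_coord {k : ℕ} (x y : SP.V k) (i : Fin k) : |x i - y i| ≤ dist x y := by
  rw [dist_eq_norm, ← Real.norm_eq_abs]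
  have := PiLp.norm_apply_le (x - y) i
  simpa using this

/-- the preimage under the contraction is the image under the stretching -/
private theorem stretch_compact {k : ℕ} {β : ℝ} (hβ : β < 1) {K : Set (SP.V k)}
    (hK : IsCompact K) : IsCompact {x | cs β x ∈ K} := by
  have h0 : (1 - β) ≠ 0 := by linarith
  have hc : Continuous (fun y : SP.V k => cen k + (1 - β)⁻¹ • (y - cen k)) := by fun_prop
  have he : {x | cs β x ∈ K} = (fun y : SP.V k => cen k + (1 - β)⁻¹ • (y - cen k)) '' K := by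
    ext x
    constructor
    · intro hx
      refine ⟨cs β x, hx, ?_⟩
      simp only [cs, add_sub_cancel_left]
      rw [smul_smul, inv_mul_cancel₀ h0, one_smul]
      abel
    · rintro ⟨y, hy, rfl⟩
      have : cs β (cen k + (1 - β)⁻¹ • (y - cen k)) = y := by
        simp only [cs, add_sub_cancel_left]
        rw [smul_smul, mul_inv_cancel₀ h0, one_smul]
        abel
      simpa only [mem_ofPred_eq, this] using hy
  rw [he]
  exact hK.image hc

/-- the stretched cover -/
theorem stretch {k : ℕ} (hk : 1 ≤ k) {A : Fin k → Set (SP.V k)} (hA : SP.Adm0 k A) :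
    ∃ β0 > 0, β0 ≤ 1 / 2 ∧ ∀ β, 0 < β → β < β0 → (∀ i, IsCompact {x | cs β x ∈ A i}) ∧
      (∀ i, {x | cs β x ∈ A i} ⊆ SP.Hp k) ∧
      (∃ t > 0, cthickening t (SP.Sx k) ∩ SP.Hp k ⊆ ⋃ i, {x | cs β x ∈ A i}) ∧
      (∃ t > 0, ∀ i, ∀ x ∈ cthickening t {x | cs β x ∈ A i}, 0 < x i) := by
  classical
  have hk' : (0 : ℝ) < k := by exact_mod_cast hk
  have hsub : ∀ i, A i ⊆ SP.Sx k := fun i x hx => by
    rw [← hA.cover]; exact mem_iUnion.2 ⟨i, hx⟩
  have hcomp : ∀ i, IsCompact (A i) := fun i =>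
    (SP.Comp_Sx_compact k).of_isClosed_subset (hA.closed i) (hsub i)
  -- a common lower bound
  have hd : ∀ i, ∃ d > 0, ∀ x ∈ A i, d ≤ x i := by
    intro i
    rcases (A i).eq_empty_or_nonempty with he | hne
    · exact ⟨1, one_pos, fun x hx => by rw [he] at hx; exact absurd hx (notMem_empty x)⟩
    · obtain ⟨z, hz, hmin⟩ := (hcomp i).exists_isMinOn hne
        (f := fun x : SP.V k => x i) (by fun_prop)
      exact ⟨z i, hA.pos i z hz, fun x hx => hmin hx⟩
  choose d hd0 hd using hd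
  have : Nonempty (Fin k) := ⟨⟨0, hk⟩⟩
  obtain ⟨i0, -, hi0⟩ := Finset.exists_min_image (Finset.univ : Finset (Fin k)) d
    Finset.univ_nonempty
  have hi0' : ∀ i, d i0 ≤ d i := fun i => hi0 i (Finset.mem_univ i)
  refine ⟨min (1 / 2) (k * d i0), lt_min (by norm_num) (mul_pos hk' (hd0 i0)), min_le_left _ _, ?_⟩
  intro β hβ hβ0
  have hβ1 : β < 1 / 2 := lt_of_lt_of_le hβ0 (min_le_left _ _)
  have hβ2 : β < k * d i0 := lt_of_lt_of_le hβ0 (min_le_right _ _)
  have hβ3 : β / k < d i0 := by rw [div_lt_iff₀ hk']; linarith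
  have hc : ∀ i, IsCompact {x | cs β x ∈ A i} := fun i => stretch_compact (by linarith) (hcomp i)
  have hone : (0 : ℝ) < 1 - β := by linarith
  refine ⟨hc, ?_, ⟨β / k, by positivity, ?_⟩, ⟨(d i0 - β / k) / 2, by linarith, ?_⟩⟩
  · intro i x hx
    have h1 : ∑ j, cs β x j = 1 := (hsub i hx).2
    rw [stretch_sum hk] at h1
    have h2 : (1 - β) * (∑ j, x j - 1) = 0 := by linarith
    rcases mul_eq_zero.1 h2 with h | h
    · linarith
    · change ∑ j, x j = 1
      linarith
  · rintro x ⟨hx, hxH⟩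
    rw [SP.Comp_Sx_compact k |>.cthickening_eq_biUnion_closedBall (by positivity)] at hx
    obtain ⟨z, hz, hxz⟩ := mem_iUnion₂.1 hx
    have hmem : cs β x ∈ SP.Sx k := by
      refine ⟨fun i => ?_, ?_⟩
      · rw [stretch_apply]
        have h1 := (abs_le.1 (stretch_coord x z i)).1
        have h2 : dist x z ≤ β / k := hxz
        have h3 := hz.1 i
        have h4 : -(β / k) ≤ x i := by linarith
        have h5 : 1 / (k : ℝ) + (1 - β) * (x i - 1 / (k : ℝ)) = β / k + (1 - β) * x i := by ring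
        rw [h5]
        have h6 : (1 - β) * -(β / k) ≤ (1 - β) * x i := mul_le_mul_of_nonneg_left h4 hone.le
        have h7 : 0 ≤ β * (β / k) := by positivity
        nlinarith
      · rw [stretch_sum hk]
        have : ∑ i, x i = 1 := hxH
        rw [this]; ring
    rw [← hA.cover] at hmem
    obtain ⟨i, hi⟩ := mem_iUnion.1 hmem
    exact mem_iUnion.2 ⟨i, hi⟩
  · intro i x hx
    rw [(hc i).cthickening_eq_biUnion_closedBall (by linarith)] at hx
    obtain ⟨z, hz, hxz⟩ := mem_iUnion₂.1 hx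
    have h1 := (abs_le.1 (stretch_coord x z i)).1
    have h2 : dist x z ≤ (d i0 - β / k) / 2 := hxz
    have h3 : d i0 ≤ cs β z i := (hi0' i).trans (hd i _ hz)
    rw [stretch_apply] at h3
    have h5 : 1 / (k : ℝ) + (1 - β) * (z i - 1 / (k : ℝ)) = β / k + (1 - β) * z i := by ring
    rw [h5] at h3
    have h6 : 0 < (1 - β) * z i := by linarith
    have h7 : 0 < z i := by
      rcases (mul_pos_iff.1 h6) with h | h
      · exact h.2
      · linarith [h.1]
    have h8 : (1 - β) * z i ≤ z i := by nlinarith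
    linarith

/-- coordinates on the affine hull -/
theorem exists_coord (k : ℕ) (hk : 1 ≤ k) (n : ℕ) (hn : n + 1 = k) :
    ∃ Φ : (Fin n → ℝ) → SP.V k, (∀ x, Φ x ∈ SP.Hp k) ∧ (∀ x ∈ SP.Hp k, ∃ y, Φ y = x) ∧
      (∀ x y, dist x y ≤ dist (Φ x) (Φ y)) ∧
      (∀ x y, dist (Φ x) (Φ y) ≤ Real.sqrt n * dist x y) := by
  have hk' : (k : ℝ) ≠ 0 := by positivity
  have hone : SP.Mea.one k ≠ 0 := by
    intro h
    have := congrArg (fun x : SP.V k => x ⟨0, by omega⟩) h
    simp [SP.Mea.one] at this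
  have hfin : finrank ℝ (SP.Mea.E0 k) = n := by
    have : Fact (finrank ℝ (SP.V k) = n + 1) := ⟨by rw [finrank_euclideanSpace_fin, hn]⟩
    exact Submodule.finrank_orthogonal_span_singleton hone
  let b : OrthonormalBasis (Fin n) ℝ (SP.Mea.E0 k) :=
    (stdOrthonormalBasis ℝ (SP.Mea.E0 k)).reindex (finCongr hfin)
  let f : (Fin n → ℝ) → SP.Mea.E0 k := fun x => b.repr.symm (WithLp.toLp 2 x)
  have hcen : cen k ∈ SP.Hp k := by
    simp only [SP.Hp, mem_ofPred_eq, cen, Finset.sum_const, Finset.card_univ, Fintype.card_fin,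
      nsmul_eq_mul]
    exact mul_one_div_cancel hk'
  have hdist : ∀ x y, dist (SP.Mea.io (cen k) (f x)) (SP.Mea.io (cen k) (f y)) =
      dist (WithLp.toLp 2 x : EuclideanSpace ℝ (Fin n)) (WithLp.toLp 2 y) := by
    intro x y
    rw [(SP.Mea.io_isometry (cen k)).dist_eq]
    exact b.repr.symm.isometry.dist_eq _ _
  refine ⟨fun x => SP.Mea.io (cen k) (f x), fun x => ?_, fun x hx => ?_, fun x y => ?_,
    fun x y => ?_⟩
  · rw [← SP.Mea.range_io hcen]
    exact mem_range_self _
  · rw [← SP.Mea.range_io hcen] at hx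
    obtain ⟨v, rfl⟩ := hx
    refine ⟨(b.repr v).ofLp, ?_⟩
    have : f (b.repr v).ofLp = v := by
      change b.repr.symm (WithLp.toLp 2 (b.repr v).ofLp) = v
      simp
    exact congrArg (SP.Mea.io (cen k)) this
  · rw [hdist, dist_pi_le_iff dist_nonneg]
    intro i
    rw [Real.dist_eq, dist_eq_norm]
    have := PiLp.norm_apply_le (WithLp.toLp 2 x - WithLp.toLp 2 y : EuclideanSpace ℝ (Fin n)) i
    simpa using this
  · rw [hdist, EuclideanSpace.dist_eq]
    have h1 : ∑ i, dist ((WithLp.toLp 2 x : EuclideanSpace ℝ (Fin n)) i)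
        ((WithLp.toLp 2 y : EuclideanSpace ℝ (Fin n)) i) ^ 2 ≤ n * dist x y ^ 2 := by
      calc _ ≤ ∑ _i : Fin n, dist x y ^ 2 := by
            refine Finset.sum_le_sum fun i _ => ?_
            exact pow_le_pow_left₀ dist_nonneg (dist_le_pi_dist x y i) 2
        _ = _ := by simp
    calc _ ≤ Real.sqrt (n * dist x y ^ 2) := Real.sqrt_le_sqrt h1
      _ = _ := by
          rw [Real.sqrt_mul (Nat.cast_nonneg n), Real.sqrt_sq dist_nonneg]

end NR
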