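import Pool.Agent.NR.Near
import Pool.Agent.NR.Point
import Pool.Agent.NR.LipAll
import Pool.Agent.NR.AeFin
import Pool.Agent.NR.AeDens

/-!
# Project NR: the essential points lie on countably many Lipschitz graphs
-/

set_option autoImplicit false

open MeasureTheory Metric Set Filter Module
open scoped Topology MeasureTheory RealInnerProductSpace Nat Pointwise

namespace NR

theorem struct_theta (m : ℕ) : 4 * (1 / 2 ^ (m + 4) : ℝ) * (2 ^ m + 1) < 1 := by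
  have h2 : (1 : ℝ) ≤ 2 ^ m := one_le_pow₀ (by norm_num)
  have h3 : (2 : ℝ) ^ (m + 4) = 16 * 2 ^ m := by rw [pow_add]; ring
  rw [h3]
  have h4 : 4 * (1 / (16 * 2 ^ m) : ℝ) * (2 ^ m + 1) = (2 ^ m + 1) / (4 * 2 ^ m) := by
    field_simp
    ring
  rw [h4, div_lt_one (by positivity)]
  linarith

theorem struct_eq (m : ℕ) (ρ : ℝ) :
    4 * (1 / 2 ^ (m + 4) : ℝ) * (2 * ρ) ^ m = (2 * ρ) ^ m / 2 ^ (m + 2) := by
  have h3 : (2 : ℝ) ^ (m + 4) = 4 * 2 ^ (m + 2) := by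
    rw [show m + 4 = (m + 2) + 2 by ring, pow_add (2 : ℝ) (m + 2) 2]; ring
  rw [h3]
  field_simp

/-- the points of the slice which are essential have the density property -/
theorem struct_ess {k m d : ℕ} (hm : 1 ≤ m) (hd : 1 ≤ d)
    {A : Fin k → Set ((Fin m → ℝ) × (Fin d → ℝ))} (hA : ∀ i, IsClosed (A i))
    {Ω : Set ((Fin m → ℝ) × (Fin d → ℝ))} (hΩ : IsOpen Ω) (hc : Ω ⊆ ⋃ i, A i)
    {y : Fin m → ℝ} (hfin : {p | (y, p) ∈ mult A (d + 1)}.Finite) {Λ : ℝ} (hΛ : 0 ≤ Λ)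
    (hM : ∀ r, 0 < r → r ≤ 1 →
      μH[m] (mult A (d + 1) ∩ closedBall y r ×ˢ univ) ≤ ENNReal.ofReal (Λ * r ^ m))
    {q a b : Fin d → ℝ} (hq : q ∈ Ob a b) (hqΩ : (y, q) ∈ Ω)
    (hess : ∀ a'' b'' : Fin d → ℝ, a ≤ a'' → b'' ≤ b → q ∈ Ob a'' b'' →
      ¬ Fillable d (sl A y) a'' b'') :
    ∃ lam > 0, ∃ ρ0 > 0, ∀ ρ, 0 < ρ → ρ ≤ ρ0 →
      volume (closedBall y ρ \ {y' | ∃ p ∈ closedBall q (lam * ρ), (y', p) ∈ mult A (d + 1)}) ≤
        ENNReal.ofReal ((2 * ρ) ^ m / 2 ^ (m + 2)) := by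
  have hθ : (0 : ℝ) < 1 / 2 ^ (m + 4) := by positivity
  have hlam1 : 1 ≤ 8 * d * m * Λ / (1 / 2 ^ (m + 4)) + 1 := by
    have : 0 ≤ 8 * d * m * Λ / (1 / 2 ^ (m + 4)) := by positivity
    linarith
  set lam : ℝ := 8 * d * m * Λ / (1 / 2 ^ (m + 4)) + 1 with hlam
  have hlam0 : 0 < lam := by linarith
  obtain ⟨ε1, hε1, hb1⟩ := Metric.isOpen_iff.1 hΩ (y, q) hqΩ
  obtain ⟨ε2, hε2, hb2⟩ := Metric.isOpen_iff.1 (isOpen_Ob a b) q hq
  have hε : 0 < min ε1 ε2 := lt_min hε1 hε2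
  refine ⟨lam, hlam0, min 1 (min ε1 ε2 / (2 * lam)), lt_min one_pos (by positivity), ?_⟩
  intro ρ hρ hρ0
  have hρ1 : ρ ≤ 1 := hρ0.trans (min_le_left _ _)
  have hρ2 : lam * ρ < min ε1 ε2 := by
    have h1 : ρ ≤ min ε1 ε2 / (2 * lam) := hρ0.trans (min_le_right _ _)
    rw [le_div_iff₀ (by positivity)] at h1
    nlinarith
  have hρ3 : ρ < min ε1 ε2 := by nlinarith
  rw [← struct_eq]
  refine near hm hd hA hρ (mul_pos hlam0 hρ) hΛ hθ (struct_theta m)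
    (fun r hr hr1 => hM r hr (hr1.trans hρ1)) hfin ?_ ?_ ?_
  · rintro ⟨y', p⟩ ⟨hy', hp⟩
    apply hc
    apply hb1
    rw [mem_ball, Prod.dist_eq]
    refine max_lt ?_ ?_
    · exact (mem_closedBall.1 hy').trans_lt (hρ3.trans_le (min_le_left _ _))
    · exact (mem_closedBall.1 hp).trans_lt (hρ2.trans_le (min_le_left _ _))
  · rw [hlam]
    have h1 : 1 / 2 ^ (m + 4) * ((8 * d * m * Λ / (1 / 2 ^ (m + 4)) + 1) * ρ) =
        8 * d * m * Λ * ρ + 1 / 2 ^ (m + 4) * ρ := by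
      field_simp
    rw [h1]
    have : 0 ≤ 1 / 2 ^ (m + 4) * ρ := by positivity
    linarith
  · intro a'' b'' hq' hsub
    have hsub' : Icc a'' b'' ⊆ Ob a b := hsub.trans ((closedBall_subset_ball
      (hρ2.trans_le (min_le_right _ _))).trans hb2)
    have hle : a'' ≤ b'' := fun l => ((hq' l).1.trans (hq' l).2).le
    have h1 := hsub' (left_mem_Icc.2 hle)
    have h2 := hsub' (right_mem_Icc.2 hle)
    exact hess a'' b'' (fun l => (h1 l).1.le) (fun l => (h2 l).2.le) hq'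

theorem struct {k m d : ℕ} (hm : 1 ≤ m) (hd : 1 ≤ d)
    {A : Fin k → Set ((Fin m → ℝ) × (Fin d → ℝ))} (hA : ∀ i, IsClosed (A i))
    (hS : IsCompact (mult A (d + 1))) (hf : μH[m] (mult A (d + 1)) < ⊤)
    {Ω : Set ((Fin m → ℝ) × (Fin d → ℝ))} (hΩ : IsOpen Ω) (hc : Ω ⊆ ⋃ i, A i) :
    ∃ g : ℕ → (Fin m → ℝ) → Fin d → ℝ, (∀ n, ∃ K, LipschitzWith K (g n)) ∧
      ∀ᵐ y : Fin m → ℝ, ∀ a b : Fin d → ℝ, (∀ p ∈ Icc a b, (y, p) ∈ Ω) →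
        (∀ p ∈ Bd a b, (y, p) ∉ mult A (d + 1)) → ¬ Fillable d (sl A y) a b →
        ∃ n, g n y ∈ Icc a b ∧ (y, g n y) ∈ mult A (d + 1) := by
  obtain ⟨g, hg, hgE⟩ := lip_all hm hS (ae_fin hS hf)
    (E := {z | z ∈ mult A (d + 1) ∧ ∃ lam > 0, ∃ ρ0 > 0, ∀ ρ, 0 < ρ → ρ ≤ ρ0 →
      volume (closedBall z.1 ρ \
        {y' | ∃ p ∈ closedBall z.2 (lam * ρ), (y', p) ∈ mult A (d + 1)}) ≤
        ENNReal.ofReal ((2 * ρ) ^ m / 2 ^ (m + 2))}) (fun z hz => hz.1) (fun z hz => hz.2)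
  refine ⟨g, hg, ?_⟩
  filter_upwards [hgE, ae_fin hS hf, ae_dens hS hf] with y h1 h2 h3 a b hab hbd hnf
  obtain ⟨Λ, hΛ, hM⟩ := h3
  have hslc : ∀ i, IsClosed (sl A y i) := fun i =>
    (hA i).preimage (by fun_prop : Continuous fun p : Fin d → ℝ => (y, p))
  have hcov : Icc a b ⊆ ⋃ i, sl A y i := by
    intro p hp
    obtain ⟨i, hi⟩ := mem_iUnion.1 (hc (hab p hp))
    exact mem_iUnion.2 ⟨i, hi⟩
  have hfin : (Icc a b ∩ mult (sl A y) (d + 1)).Finite := h2.subset (fun p hp => hp.2)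
  obtain ⟨q, hq, a', b', ha, hb, hqO, hess⟩ := ess_point hslc hcov hfin hbd hnf
  have hqI : q ∈ Icc a b :=
    ⟨fun l => (ha l).trans (hqO l).1.le, fun l => (hqO l).2.le.trans (hb l)⟩
  have hqS : (y, q) ∈ mult A (d + 1) := hq
  obtain ⟨n, hn⟩ := h1 q ⟨hqS, struct_ess hm hd hA hΩ hc h2 hΛ hM hqO (hab q hqI) hess⟩
  exact ⟨n, by rw [hn]; exact hqI, by rw [hn]; exact hqS⟩

end NR
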