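import Pool.Agent.NR.Struct
import Pool.Agent.NR.LipFlat
import Pool.Agent.NR.Modify
import Pool.Agent.NR.Scale
import Pool.Agent.NR.Stretch
import Pool.Agent.NR.Pieces
import Pool.Agent.NR.Cover
import Pool.Agent.H27.SY.Fin

/-!
# NR-22: the modified cover in the simplex
-/

set_option autoImplicit false

open MeasureTheory Metric Set Filter Module
open scoped Topology MeasureTheory RealInnerProductSpace Nat Pointwise NNReal

namespace NR

section Transfer_co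

variable {n k : ℕ} {Φ : (Fin n → ℝ) → SP.V k}

theorem Transfer_anti (h3 : ∀ x y, dist x y ≤ dist (Φ x) (Φ y)) : AntilipschitzWith 1 Φ :=
  AntilipschitzWith.of_le_mul_dist fun x y => by simpa using h3 x y

theorem Transfer_lip (h4 : ∀ x y, dist (Φ x) (Φ y) ≤ Real.sqrt n * dist x y) :
    LipschitzWith ⟨Real.sqrt n, Real.sqrt_nonneg _⟩ Φ :=
  LipschitzWith.of_dist_le_mul fun x y => h4 x y

theorem Transfer_emb (h3 : ∀ x y, dist x y ≤ dist (Φ x) (Φ y))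
    (h4 : ∀ x y, dist (Φ x) (Φ y) ≤ Real.sqrt n * dist x y) : Topology.IsClosedEmbedding Φ :=
  (Transfer_anti h3).isClosedEmbedding (Transfer_lip h4).uniformContinuous

/-- the map does not decrease Hausdorff measure -/
theorem Transfer_meas (m : ℕ) (h3 : ∀ x y, dist x y ≤ dist (Φ x) (Φ y)) (T : Set (Fin n → ℝ)) :
    μH[m] T ≤ μH[m] (Φ '' T) := by
  have h := (Transfer_anti h3).le_hausdorffMeasure_image (d := (m : ℝ)) (by positivity) T
  simpa using h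

end Transfer_co

/-- the two normalisations of Hausdorff measure -/
theorem Transfer_lt (m : ℕ) {η : ℝ} (hη : 0 < η) : ∃ η' : ℝ, 0 < η' ∧
    ∀ {X : Type} [MetricSpace X] [MeasurableSpace X] [BorelSpace X] (T : Set X),
      μHE[m] T < ENNReal.ofReal η' → μH[m] T < ENNReal.ofReal η := by
  set c : ℝ≥0 := Measure.addHaarScalarFactor (volume : Measure (EuclideanSpace ℝ (Fin m))) μH[m]
    with hc
  have hc0 : c ≠ 0 := Measure.addHaarScalarFactor_volume_hausdorffMeasure_ne_zero m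
  have hcpos : 0 < (c : ℝ) := by
    have := pos_iff_ne_zero.2 hc0
    exact_mod_cast this
  refine ⟨c * η, by positivity, ?_⟩
  intro X _ _ _ T hT
  rw [Measure.euclideanHausdorffMeasure_def, Measure.smul_apply, ENNReal.smul_def, smul_eq_mul,
    ENNReal.ofReal_mul hcpos.le, ENNReal.ofReal_coe_nnreal] at hT
  exact (ENNReal.mul_lt_mul_iff_right (by simpa using hc0) (by simp)).1 hT

theorem Transfer_top (m : ℕ) {X : Type} [MetricSpace X] [MeasurableSpace X] [BorelSpace X]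
    {T : Set X} (h : μHE[m] T < ⊤) : μH[m] T < ⊤ := by
  set c : ℝ≥0 := Measure.addHaarScalarFactor (volume : Measure (EuclideanSpace ℝ (Fin m))) μH[m]
    with hc
  have hc0 : c ≠ 0 := Measure.addHaarScalarFactor_volume_hausdorffMeasure_ne_zero m
  rw [Measure.euclideanHausdorffMeasure_def, Measure.smul_apply, ENNReal.smul_def,
    smul_eq_mul] at h
  by_contra h'
  rw [not_lt, top_le_iff] at h'
  rw [h', ENNReal.mul_top (by simpa using hc0)] at h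
  exact lt_irrefl _ h

theorem Transfer_cs {k : ℕ} (β : ℝ) : Continuous (cs (k := k) β) := by
  unfold cs
  fun_prop

/-- the closed cover over a face, in product coordinates -/
theorem Transfer_pr {k m d : ℕ} (e : Fin m ⊕ Fin d ≃ Fin (m + d))
    {A : Fin k → Set (Fin (m + d) → ℝ)} (hA : ∀ i, IsClosed (A i))
    (hM : IsCompact (mult A (d + 1))) (hf : μH[m] (mult A (d + 1)) < ⊤) :
    (∀ i, IsClosed (pr e A i)) ∧ IsCompact (mult (pr e A) (d + 1)) ∧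
      μH[m] (mult (pr e A) (d + 1)) < ⊤ := by
  obtain ⟨h1, h2⟩ := gl_isometry e
  have h3 : mult (pr e A) (d + 1) =
    (fun z : (Fin m → ℝ) × (Fin d → ℝ) => gl e z.1 z.2) ⁻¹' mult A (d + 1) := rfl
  refine ⟨fun i => (hA i).preimage h1.continuous, ?_, ?_⟩
  · rw [h3]
    exact h1.isClosedEmbedding.isCompact_preimage hM
  · rw [h3, h1.hausdorffMeasure_preimage (Or.inr h2)]
    exact (measure_mono inter_subset_left).trans_lt hf

/-- the graph in the affine hull -/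
theorem Transfer_graph {k m d : ℕ} (e : Fin m ⊕ Fin d ≃ Fin (m + d))
    {Φ : (Fin (m + d) → ℝ) → SP.V k} (h3 : ∀ x y, dist x y ≤ dist (Φ x) (Φ y))
    (h4 : ∀ x y, dist (Φ x) (Φ y) ≤ Real.sqrt ((m + d : ℕ) : ℝ) * dist x y)
    {g : (Fin m → ℝ) → Fin d → ℝ} (hg : ∃ K, LipschitzWith K g) :
    (∃ K, LipschitzWith K (fun y => Φ (gl e y (g y)))) ∧
      AntilipschitzWith 1 (fun y => Φ (gl e y (g y))) := by
  obtain ⟨h1, h2⟩ := gl_isometry e
  obtain ⟨K, hK⟩ := hg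
  constructor
  · have h5 : LipschitzWith (max 1 K) (fun y : Fin m → ℝ => (y, g y)) :=
      LipschitzWith.id.prodMk hK
    have h6 := (Transfer_lip h4).comp (h1.lipschitz.comp h5)
    exact ⟨_, h6⟩
  · refine AntilipschitzWith.of_le_mul_dist fun x y => ?_
    have h5 := h3 (gl e x (g x)) (gl e y (g y))
    have h6 := h1.dist_eq (x, g x) (y, g y)
    simp only at h6
    rw [h6] at h5
    have h7 : dist x y ≤ dist (x, g x) (y, g y) := by
      rw [Prod.dist_eq]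
      exact le_max_left _ _
    simpa using h7.trans h5

/-- the summands scaled by a constant -/
theorem Transfer_sum {ι : Type} {δ : ι → ℝ} {m : ℕ} (h : Summable (fun i => δ i ^ m)) {s c : ℝ}
    (hs : 0 ≤ s) (hc : ∑' i, δ i ^ m ≤ c) :
    Summable (fun i => (s * δ i) ^ m) ∧ ∑' i, (s * δ i) ^ m ≤ s ^ m * c := by
  have h1 : (fun i => (s * δ i) ^ m) = fun i => s ^ m * δ i ^ m := by
    funext i
    rw [mul_pow]
  rw [h1]
  refine ⟨h.mul_left _, ?_⟩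
  rw [tsum_mul_left]
  exact mul_le_mul_of_nonneg_left hc (by positivity)

theorem modify_V {m d : ℕ} (hm : 1 ≤ m) (hd : 1 ≤ d) : ∃ C : ℝ, 0 < C ∧
    ∀ A : Fin (d + m + 1) → Set (SP.V (d + m + 1)), SP.Adm0 (d + m + 1) A → ∀ L : ℝ,
    SP.HasContent (d + m + 1) m (SP.meet (d + m + 1) A (d + 1)) L →
    ∃ β0 > 0, β0 ≤ 1 / 2 ∧ ∀ β, 0 < β → β < β0 → ∀ η : ℝ, 0 < η →
      ∃ (n : ℕ) (K : Fin n → Set (SP.V (d + m + 1))) (w : Fin n → Fin m → SP.V (d + m + 1)),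
        (∀ i, SX.Fr (w i)) ∧ (∀ i, IsCompact (K i)) ∧
        (∀ i, K i ⊆ {x | cs β x ∈ SP.meet (d + m + 1) A (d + 1)}) ∧
        (∀ i j, i ≠ j → Disjoint (K i) (K j)) ∧ (∀ i, SX.Flat η (w i) (K i)) ∧
        ∃ A' : Fin (d + m + 1) → Set (SP.V (d + m + 1)), SP.Adm0 (d + m + 1) A' ∧
          ∃ (ι : Type) (_ : Countable ι) (z : ι → SP.V (d + m + 1)) (δ : ι → ℝ),
            (∀ i, z i ∈ SP.Hp (d + m + 1)) ∧ (∀ i, 0 < δ i) ∧ Summable (fun i => δ i ^ m) ∧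
            ∑' i, δ i ^ m ≤ C * η ∧
            SP.meet (d + m + 1) A' (d + 1) ⊆ (⋃ i, K i) ∪ ⋃ i, ball (z i) (δ i) := by
  classical
  obtain ⟨Φ, hΦ1, hΦ2, hΦ3, hΦ4⟩ := exists_coord (d + m + 1) (by omega) (m + d) (by omega)
  have hemb := Transfer_emb hΦ3 hΦ4
  have hinj : Function.Injective Φ := hemb.injective
  obtain ⟨C1, hC1, hmod⟩ := modify m d hm hd
  set s : ℝ := Real.sqrt ((m + d : ℕ) : ℝ) + 1 with hs
  have hs0 : 0 < s := by positivity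
  refine ⟨s ^ m * C1, by positivity, ?_⟩
  intro A hA L hL
  obtain ⟨hSc, hSx⟩ := SP.meet_compact hA (d + 1) (by omega)
  obtain ⟨β0, hβ0, hβ0', hstr⟩ := stretch (by omega) hA
  refine ⟨β0, hβ0, hβ0', ?_⟩
  intro β hβ hββ0 η hη
  obtain ⟨hBc, hBH, ⟨t1, ht1, hcov⟩, ⟨t2, ht2, hpos⟩⟩ := hstr β hβ hββ0
  set B : Fin (d + m + 1) → Set (SP.V (d + m + 1)) := fun i => {x | cs β x ∈ A i} with hB
  set S : Set (SP.V (d + m + 1)) := {x | cs β x ∈ SP.meet (d + m + 1) A (d + 1)} with hS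
  have hSB : S ⊆ ⋃ i, B i := by
    rintro x ⟨T, hT1, hT2⟩
    have hTne : T.Nonempty := Finset.card_pos.1 (by omega)
    obtain ⟨i, hi⟩ := hTne
    exact mem_iUnion.2 ⟨i, hT2 i hi⟩
  have hScl : IsClosed S := hSc.isClosed.preimage (Transfer_cs β)
  have hScomp : IsCompact S := (isCompact_iUnion hBc).of_isClosed_subset hScl hSB
  have hSH : S ⊆ SP.Hp (d + m + 1) := hSB.trans (iUnion_subset hBH)
  have hSf : μHE[m] S < ⊤ := SY.meas_fin hd hScomp hSH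
    (content_scale hd (fun x hx => (hSx hx).2) hβ (by linarith) hL)
  -- the cover in coordinates
  set Au : Fin (d + m + 1) → Set (Fin (m + d) → ℝ) := fun i => Φ ⁻¹' B i with hAu
  have hAuc : ∀ i, IsClosed (Au i) := fun i => (hBc i).isClosed.preimage hemb.continuous
  have hAucomp : ∀ i, IsCompact (Au i) := fun i => hemb.isCompact_preimage (hBc i)
  have hMeq : mult Au (d + 1) = Φ ⁻¹' S := rfl
  have hMc : IsCompact (mult Au (d + 1)) := by
    rw [hMeq]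
    exact hemb.isCompact_preimage hScomp
  have hMf : μH[m] (mult Au (d + 1)) < ⊤ := by
    refine (Transfer_meas m hΦ3 _).trans_lt ?_
    refine (measure_mono ?_).trans_lt (Transfer_top m hSf)
    rw [hMeq]
    exact image_preimage_subset _ _
  set Ω : Set (Fin (m + d) → ℝ) := Φ ⁻¹' thickening t1 (SP.Sx (d + m + 1)) with hΩ
  have hΩo : IsOpen Ω := isOpen_thickening.preimage hemb.continuous
  have hΩA : Ω ⊆ ⋃ i, Au i := by
    intro u hu
    have h := hcov ⟨thickening_subset_cthickening _ _ hu, hΦ1 u⟩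
    obtain ⟨i, hi⟩ := mem_iUnion.1 h
    exact mem_iUnion.2 ⟨i, hi⟩
  set P : Set (Fin (m + d) → ℝ) := Φ ⁻¹' SP.Sx (d + m + 1) with hP
  have hPc : IsCompact P := hemb.isCompact_preimage (SP.Comp_Sx_compact _)
  have hPΩ : P ⊆ Ω := fun u hu => self_subset_thickening ht1 _ hu
  obtain ⟨t3, ht3, hPt⟩ := hPc.exists_cthickening_subset_open hΩo hPΩ
  set t : ℝ := min t3 (t2 / s) with ht
  have ht0 : 0 < t := lt_min ht3 (by positivity)
  -- the essential points lie on Lipschitz graphs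
  have hstruct : ∀ e : Fin m ⊕ Fin d ≃ Fin (m + d), ∃ g : ℕ → (Fin m → ℝ) → Fin d → ℝ,
      (∀ n, ∃ K, LipschitzWith K (g n)) ∧
      ∀ᵐ y : Fin m → ℝ, ∀ a b : Fin d → ℝ, (∀ p ∈ Icc a b, (y, p) ∈
          (fun z : (Fin m → ℝ) × (Fin d → ℝ) => gl e z.1 z.2) ⁻¹' Ω) →
        (∀ p ∈ Bd a b, (y, p) ∉ mult (pr e Au) (d + 1)) → ¬ Fillable d (sl (pr e Au) y) a b →
        ∃ n, g n y ∈ Icc a b ∧ (y, g n y) ∈ mult (pr e Au) (d + 1) := by
    intro e
    obtain ⟨h1, h2, h3⟩ := Transfer_pr e hAuc hMc hMf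
    refine struct hm hd h1 h2 h3 (hΩo.preimage (gl_isometry e).1.continuous) ?_
    intro z hz
    obtain ⟨i, hi⟩ := mem_iUnion.1 (hΩA hz)
    exact mem_iUnion.2 ⟨i, hi⟩
  choose g hgL hg using hstruct
  have hflat : ∀ (e : Fin m ⊕ Fin d ≃ Fin (m + d)) (n : ℕ),
      ∃ (Q : ℕ → Set (SP.V (d + m + 1))) (w : ℕ → Fin m → SP.V (d + m + 1)),
      (∀ l, IsCompact (Q l)) ∧ (∀ l, Q l ⊆ SP.Hp (d + m + 1)) ∧ (∀ l, SX.Fr (w l)) ∧
      (∀ l, SX.Flat η (w l) (Q l)) ∧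
      μHE[m] (range (fun y => Φ (gl e y (g e n y))) \ ⋃ l, Q l) = 0 := by
    intro e n
    obtain ⟨⟨K, hK⟩, h2⟩ := Transfer_graph e hΦ3 hΦ4 (hgL e n)
    exact lip_flat hm hK h2 (fun y => hΦ1 _) hη
  choose Q w hQc hQH hw hQf hQ0 using hflat
  have : Nonempty (Fin m ⊕ Fin d ≃ Fin (m + d)) := ⟨finSumFinEquiv⟩
  obtain ⟨f, hf⟩ := exists_surjective_nat ((Fin m ⊕ Fin d ≃ Fin (m + d)) × ℕ × ℕ)
  obtain ⟨η', hη', hlt⟩ := Transfer_lt m hη
  obtain ⟨n, K, hKc, hKS, hKQ, hKd, hKm⟩ := pieces' hScomp hSf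
    (Q := fun l => Q (f l).1 (f l).2.1 (f l).2.2) (fun l => hQc _ _ _) hη'
  refine ⟨n, K, fun i => w (f i).1 (f i).2.1 (f i).2.2, fun i => hw _ _ _, hKc, hKS, hKd,
    fun i x hx y hy => hQf _ _ _ x (hKQ i hx) y (hKQ i hy), ?_⟩
  set Ku : Set (Fin (m + d) → ℝ) := Φ ⁻¹' ⋃ i, K i with hKu
  have hKuc : IsCompact Ku := hemb.isCompact_preimage (isCompact_iUnion hKc)
  have hKuM : Ku ⊆ mult Au (d + 1) := by
    rw [hMeq]
    exact preimage_mono (iUnion_subset hKS)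
  obtain ⟨ρ, hρ, hρ1⟩ := exists_thick hMc hMf hKuc (η := ENNReal.ofReal η) (by simpa using hη)
  set Gr : Set (Fin (m + d) → ℝ) := ⋃ e : Fin m ⊕ Fin d ≃ Fin (m + d), ⋃ l : ℕ,
    range (fun y : Fin m → ℝ => gl e y (g e l y)) with hGr
  have hGr1 : ∀ e : Fin m ⊕ Fin d ≃ Fin (m + d), ∀ᵐ y : Fin m → ℝ, ∀ a b : Fin d → ℝ,
      (∀ p ∈ Icc a b, gl e y p ∈ Ω) → (∀ p ∈ Bd a b, gl e y p ∉ mult Au (d + 1)) →
      ¬ Fillable d (sl (pr e Au) y) a b →
      ∃ p ∈ Icc a b, gl e y p ∈ mult Au (d + 1) ∧ gl e y p ∈ Gr := by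
    intro e
    filter_upwards [hg e] with y hy a b h1 h2 h3
    obtain ⟨l, hl1, hl2⟩ := hy a b h1 h2 h3
    exact ⟨g e l y, hl1, hl2, mem_iUnion.2 ⟨e, mem_iUnion.2 ⟨l, y, rfl⟩⟩⟩
  have hGr2 : μH[m] ((mult Au (d + 1) ∩ Gr) \ Ku) < ENNReal.ofReal η := by
    refine (Transfer_meas m hΦ3 _).trans_lt (hlt _ ?_)
    have h1 : Φ '' ((mult Au (d + 1) ∩ Gr) \ Ku) ⊆
        ((S ∩ ⋃ l, Q (f l).1 (f l).2.1 (f l).2.2) \ ⋃ i, K i) ∪
          ⋃ e : Fin m ⊕ Fin d ≃ Fin (m + d), ⋃ l : ℕ,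
            (range (fun y => Φ (gl e y (g e l y))) \ ⋃ j, Q e l j) := by
      rintro _ ⟨u, ⟨⟨hu1, hu2⟩, hu3⟩, rfl⟩
      obtain ⟨e, he⟩ := mem_iUnion.1 hu2
      obtain ⟨l, y, hy⟩ := mem_iUnion.1 he
      by_cases hq : ∃ j, Φ u ∈ Q e l j
      · left
        obtain ⟨j, hj⟩ := hq
        obtain ⟨a, ha⟩ := hf (e, l, j)
        refine ⟨⟨hu1, mem_iUnion.2 ⟨a, ?_⟩⟩, fun h => hu3 h⟩
        rw [ha]
        exact hj
      · right
        refine mem_iUnion.2 ⟨e, mem_iUnion.2 ⟨l, ⟨y, ?_⟩, fun h => hq (mem_iUnion.1 h)⟩⟩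
        simp only at hy ⊢
        rw [hy]
    have h2 : μHE[m] (⋃ e : Fin m ⊕ Fin d ≃ Fin (m + d), ⋃ l : ℕ,
            (range (fun y => Φ (gl e y (g e l y))) \ ⋃ j, Q e l j)) = 0 :=
      measure_iUnion_null fun e => measure_iUnion_null fun l => hQ0 e l
    calc μHE[m] (Φ '' ((mult Au (d + 1) ∩ Gr) \ Ku)) ≤ _ := measure_mono h1
      _ ≤ _ := measure_union_le _ _
      _ = _ := by rw [h2, add_zero]
      _ < _ := hKm
  obtain ⟨A', hA'c, hA'P, hA't, ι, hι, z, δ, hδ, hsum, htsum, hmult⟩ := hmod (d + m + 1) Au hAuc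
    hMf Ω hΩA P t hPc ht0 ((cthickening_mono (min_le_left _ _) _).trans hPt) Gr hGr1 Ku ρ η hKuc
    hKuM hρ hη hρ1 hGr2
  refine ⟨fun i => SP.Sx (d + m + 1) ∩ Φ '' A' i, ⟨?_, ?_, ?_⟩, ι, hι, fun i => Φ (z i),
    fun i => s * δ i, fun i => hΦ1 _, fun i => mul_pos hs0 (hδ i), ?_⟩
  · intro i
    exact (SP.Comp_Sx_compact _).isClosed.inter (hemb.isClosedMap _ (hA'c i))
  · apply Subset.antisymm
    · exact iUnion_subset fun i => inter_subset_left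
    · intro x hx
      obtain ⟨u, rfl⟩ := hΦ2 x hx.2
      obtain ⟨i, hi⟩ := mem_iUnion.1 (hA'P hx)
      exact mem_iUnion.2 ⟨i, hx, u, hi, rfl⟩
  · rintro i _ ⟨hx, u, hu, rfl⟩
    have h1 : u ∈ cthickening (t2 / s) (Au i) := cthickening_mono (min_le_right _ _) _ (hA't i hu)
    rw [(hAucomp i).cthickening_eq_biUnion_closedBall (by positivity)] at h1
    obtain ⟨v, hv⟩ := mem_iUnion.1 h1
    obtain ⟨hv1, hv2⟩ := mem_iUnion.1 hv
    refine hpos i (Φ u) (mem_cthickening_of_dist_le _ (Φ v) _ _ hv1 ?_)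
    rw [mem_closedBall] at hv2
    have h5 : Real.sqrt ((m + d : ℕ) : ℝ) ≤ s := by rw [hs]; linarith
    calc dist (Φ u) (Φ v) ≤ Real.sqrt ((m + d : ℕ) : ℝ) * dist u v := hΦ4 u v
      _ ≤ s * (t2 / s) := by gcongr
      _ = t2 := by field_simp
  · obtain ⟨h1, h2⟩ := Transfer_sum hsum hs0.le htsum
    refine ⟨h1, by rw [mul_assoc]; exact h2, ?_⟩
    rintro x ⟨T, hT1, hT2⟩
    have hTne : T.Nonempty := Finset.card_pos.1 (by omega)
    obtain ⟨i0, hi0⟩ := hTne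
    obtain ⟨hx, u, hu, rfl⟩ := hT2 i0 hi0
    have h3 : u ∈ P ∩ mult A' (d + 1) := by
      refine ⟨hx, T, hT1, fun i hi => ?_⟩
      obtain ⟨_, v, hv, hvu⟩ := hT2 i hi
      rw [← hinj hvu]
      exact hv
    rcases hmult h3 with h4 | h4
    · exact Or.inl h4
    · right
      obtain ⟨i, hi⟩ := mem_iUnion.1 h4
      refine mem_iUnion.2 ⟨i, ?_⟩
      rw [mem_closedBall] at hi
      rw [mem_ball]
      have h5 : Real.sqrt ((m + d : ℕ) : ℝ) < s := by rw [hs]; linarith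
      calc dist (Φ u) (Φ (z i)) ≤ Real.sqrt ((m + d : ℕ) : ℝ) * dist u (z i) := hΦ4 u (z i)
        _ ≤ Real.sqrt ((m + d : ℕ) : ℝ) * δ i := by gcongr
        _ < s * δ i := mul_lt_mul_of_pos_right h5 (hδ i)

end NR
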